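import Pool.Agent.Lib.Mu46.Fix
import Pool.Agent.Lib.Mu45.QE

/-! Definitions and block statements for the case of arbitrary degree. -/

set_option autoImplicit false

open Matrix Polynomial Filter Topology NumberField Equiv
open scoped Real

namespace Pool.Agent.Lib.Mu14.All

open Eff

variable {n : ℕ}

/-- Conditions on the weight and the auxiliary prime. -/
structure Par' (p n k l : ℕ) : Prop where
  hp : p.Prime
  odd : p ≠ 2
  kk : KK n k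
  dvd : p - 1 ∣ k
  pk : ¬p ∣ k
  hl : l.Prime
  lp : l ≠ p
  l1 : ¬l ≡ 1 [MOD p]
  l2 : ¬l ^ (p - 1) ≡ 1 [MOD p ^ 2]
  hs : ∃ s : Fin n → ℤ, HS l s

/-- Block BAS: good polynomials exist in every degree. -/
structure StBas : Prop where
  base : ∀ p n k l : ℕ, Par' p (n + 1) k l → ∃ a : Fin (n + 1) → ℤ, Good p k l a
  good : ∀ (p n k l : ℕ) (a : Fin (n + 1) → ℤ) (O : ValuationSubring ℂ), Par' p (n + 1) k l →
    O.valuation p < 1 → Good p k l a → O.valuation (zW k l stab (toQ a)) = 1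
  par : ∀ p n B : ℕ, p.Prime → p ≠ 2 → 3 ≤ n →
    ∃ k l N : ℕ, B < l ∧ Par' p n k l ∧ n ∣ l ^ N + 1 ∧ p ∣ l ^ N + 1

/-- A class function that units translate. -/
structure ClsD' (x : Mx n) (p m l r N : ℕ) (σ : Lt n → Lt n) (cl : V n → Lt n → ZMod p)
    (t : ℤ → ZMod p) (j : ZMod p) : Prop where
  smo : Smo x r N σ
  hm : 0 < m
  hr : 1 < r
  cop : ¬p ∣ r
  hN : ¬p ∣ N
  hj : j ≠ 0
  inv : ∀ g : Mx n, g.det ≠ 0 → g * x = x * g → ∀ v L, Stab x L → v ≠ 0 →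
    cl (g *ᵥ v) (act g L) = cl v L
  unit : ∀ u : ℤ, ¬(p : ℤ) ∣ u → ∀ v L, Stab x L → v ≠ 0 → cl ((u : ℚ) • v) L = cl v L - t u
  per : ∀ v L, Stab x L → v ∈ L → v ≠ 0 → padicValRat p (|Pv x v| / covol L) = 0 → ∀ u ∈ L,
    cl (v + (p : ℚ) ^ m • u) L = cl v L
  shift : ∀ v L, Stab x L → v ≠ 0 → cl v L = cl v (σ L) + j
  fix : ∀ v L, Stab x L → v ≠ 0 → cl v (act x L ⊔ act ((l : ℚ) • 1) L) = cl v L

/-- Block CLD: the class function on lattices. -/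
def StCld' : Prop :=
  ∀ (E : Type) [Field E] [NumberField E] (p n l : ℕ) (a : Fin n → ℤ) (θ : E), p.Prime → p ≠ 2 →
    0 < l → Module.finrank ℚ E = n → minpoly ℚ θ = pol (toQ a) → ¬Gen E p →
    ∃ m r N σ cl t j, ClsD' (comp (toQ a)) p m l r N σ cl t j

/-- Block ES, first part: constant terms of a permuted family. -/
def StQ0F : Prop :=
  ∀ (ι : Type) [Fintype ι] (c₀ M' w : ℕ) (F : ι → ℂ → ℂ) (A : ι → ℕ → ℂ) (Y : ι → ℂ)
    (O : ValuationSubring ℂ), 0 < c₀ → 1 < M' → c₀.Coprime M' → Even w → O.valuation M' = 1 →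
    (∀ i, QS (F i) (A i)) → (∀ i N, O.valuation (A i N) ≤ 1) →
    (∀ a b c e : ℤ, a * e - b * c = 1 → ((c₀ * M' : ℕ) : ℤ) ∣ c → c ≠ 0 → ∃ σ : ι ≃ ι, ∀ i,
      ∀ τ : ℂ, 0 < τ.im → F i (mob a b c e τ) = (c * τ + e) ^ w * F (σ i) τ) →
    ∀ a b c e : ℤ, a * e - b * c = 1 → (c₀ : ℤ) ∣ c → IsCoprime c M' →
      (∀ i, Tendsto (fun y : ℝ => F i (mob a b c e (y * Complex.I)) /
        (c * (y * Complex.I) + e) ^ w) atTop (𝓝 (Y i))) → ∀ i, O.valuation (Y i) ≤ 1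

/-- Block ES, second part: the effective `q`-expansion principle, one primitive member. -/
def StQP' : Prop :=
  ∀ (ι : Type) [Fintype ι] (c₀ M' w N₁ : ℕ) (F H : ι → ℂ → ℂ) (A B : ι → ℕ → ℂ)
    (O : ValuationSubring ℂ), 0 < c₀ → 1 < M' → c₀.Coprime M' → Even w → O.valuation M' = 1 →
    (∀ i, QS (F i) (A i)) → (∀ i, QS (H i) (B i)) →
    (∀ a b c e : ℤ, a * e - b * c = 1 → ((c₀ * M' : ℕ) : ℤ) ∣ c → c ≠ 0 → ∃ σ : ι ≃ ι, ∀ i,
      ∀ τ : ℂ, 0 < τ.im → F i (mob a b c e τ) ^ 8 = (c * τ + e) ^ w * F (σ i) τ ^ 8) →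
    (∀ i, ∀ τ : ℂ, 0 < τ.im →
      F i (mob 1 0 c₀ 1 τ) ^ 8 = (c₀ * τ + 1) ^ w * H i (τ / M') ^ 8) →
    (∀ i N, O.valuation (B i N) ≤ 1) → (∃ i, ∃ N ≤ N₁, O.valuation (B i N) = 1) →
    ¬∀ i, ∀ N ≤ bd (c₀ * M') (w * Fintype.card ι) (8 * N₁ * Fintype.card ι),
      O.valuation (A i N) < 1

/-- Families of integer valued functions of level `p ^ m` that units permute. -/
structure PT' (x : Mx n) (p m : ℕ) (t : ℤ → ZMod p) (φ : ZMod p → V n → Lt n → ℤ) : Prop where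
  supp : ∀ i v L, φ i v L ≠ 0 → Stab x L ∧ v ∈ L
  per : ∀ i v L, ∀ u ∈ L, φ i (v + (p : ℚ) ^ m • u) L = φ i v L
  inv : ∀ i, ∀ g : Mx n, g.det ≠ 0 → g * x = x * g → ∀ v L, φ i (g *ᵥ v) (act g L) = φ i v L
  unit : ∀ u : ℤ, ¬(p : ℤ) ∣ u → ∀ i v L, v ∈ L → φ (i - t u) ((u : ℚ) • v) L = φ i v L
  bdd : ∃ B : ℤ, ∀ i v L, |φ i v L| ≤ B

/-- Block SMF: smoothing for families. -/
def StSmo' : Prop :=
  ∀ (n k p m r N : ℕ) (a : V (n + 1)) (σ : Lt (n + 1) → Lt (n + 1)) (t : ℤ → ZMod p) (j : ZMod p)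
    (φ : ZMod p → V (n + 1) → Lt (n + 1) → ℤ) (O : ValuationSubring ℂ), KK (n + 1) k → p.Prime →
    0 < m → 1 < r → ¬p ∣ r → Spl (toR a) → (∀ l : V (n + 1), l ≠ 0 → Pl (comp a) l ≠ 0) →
    Smo (comp a) r N σ → PT' (comp a) p m t φ →
    (∀ i L, Stab (comp a) L → ∀ v ∈ σ L, φ i v L = φ (i - j) v (σ L)) → O.valuation p < 1 → ∀ i,
    Summable (fun L => ‖Psi (fun v _ L => φ i v L) lam0 lam0 L * ((covol L : ℚ) : ℂ)⁻¹ ^ k‖) ∧
    O.valuation ((N : ℂ) ^ k * Zc k a (φ (i - j)) - Zc k a (φ i)) ≤ 1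

/-- Block FUL: good polynomials give cyclic ray class groups. -/
def StLink' : Prop :=
  ∀ (p n k l : ℕ) (a : Fin (n + 1) → ℤ), Par' p (n + 1) k l → Good p k l a →
    ∀ (E : Type) [Field E] [NumberField E] (θ : E), Module.finrank ℚ E = n + 1 →
      minpoly ℚ θ = pol (toQ a) → Gen E p

/-- The zeta value at the second cusp. -/
noncomputable def zC (k l r j : ℕ) (C : Set (Fin n → ℤ)) (α : ℤ) (a : Fin n → ℤ) : ℂ :=
  zW k l (fun x L => stab ((r : ℚ) ^ j • x) L * FM (WC C) ((α / r : ℚ) • x) L) (toQ a)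

/-- Block MOV: changing the polynomial at a prime `r`. -/
def StMove' : Prop :=
  ∀ (p n k l m j : ℕ) (a : Fin (n + 2) → ℤ) (O : ValuationSubring ℂ), Par' p (n + 2) k l →
    Good p k l a → 0 < m → m.Coprime p → O.valuation p < 1 → j ≤ 1 →
    ∃ C₀ : ℕ, ∀ (r : ℕ) (T : Set (Fin (n + 2) → ℤ)), r.Prime → r ≠ p → r ≠ l → r ≠ 2 →
      m.Coprime r → (∀ α : ℤ, ¬(r : ℤ) ∣ α → ∃ C, C ⊆ T ∧ CongS (r ^ (j + 1)) C ∧
        O.valuation (zC k l r j C α a + zC k l r j C (-α) a) = 1) →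
      ∃ b, Good p k l b ∧ Sim m a b ∧ (∃ e : ℤ, ¬(r : ℤ) ∣ e ∧ scl e b ∈ T) ∧
        Qm (comp (toQ b)) ≤ (C₀ * r ^ (20 * (n + 2) + 24) : ℕ)

/-- Reduction of an integral polynomial. -/
noncomputable abbrev red (r : ℕ) (a : Fin n → ℤ) : (ZMod r)[X] :=
  (pol a).map (Int.castRingHom (ZMod r))

/-- One irreducible factor of degree `d`, all other factors distinct and of degree at most two. -/
def Src (r d : ℕ) (a : Fin n → ℤ) : Prop :=
  ∃ g h : (ZMod r)[X], Irreducible g ∧ g.Monic ∧ g.natDegree = d ∧ h.Monic ∧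
    h ∣ X ^ r ^ 2 - X ∧ IsCoprime g h ∧ red r a = g * h

/-- One Eisenstein factor of degree `d`, all other factors distinct and of degree at most two. -/
def Tg1 (r d : ℕ) (a : Fin n → ℤ) : Prop :=
  (∃ h : (ZMod r)[X], h ∣ X ^ (r ^ 2 - 1) - 1 ∧ red r a = X ^ d * h) ∧
    ¬(r : ℤ) ^ 2 ∣ (pol a).coeff 0

/-- A congruence class with an Eisenstein factor. -/
def CT1 (r d : ℕ) (h : (ZMod r)[X]) (u : ℤ) : Set (Fin n → ℤ) :=
  {b | red r b = X ^ d * h ∧ ∃ w : ℤ, (pol b).coeff 0 = r * w ∧ (w : ZMod r) = u * h.coeff 0}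

/-- Block TYP: splitting types. -/
structure StTy' : Prop where
  src : ∀ {n r d : ℕ} {a b : Fin n → ℤ}, r.Prime → Sim r a b → Src r d a → Src r d b
  tg : ∀ {n r d : ℕ} {a b : Fin n → ℤ}, r.Prime → Sim (r ^ 2) a b → Tg1 r d a → Tg1 r d b
  scl : ∀ {n r : ℕ} (j : ℕ) {e : ℤ} (b : Fin n → ℤ), r.Prime → ¬(r : ℤ) ∣ e →
    Sim (r ^ j) (scl e b) b
  cong : ∀ {n : ℕ} (r d : ℕ) (h : (ZMod r)[X]) (u : ℤ), r.Prime →
    CongS (r ^ 2) (CT1 r d h u : Set (Fin n → ℤ))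
  sub : ∀ {n r d : ℕ} {h : (ZMod r)[X]} {u : ℤ} {b : Fin n → ℤ}, r.Prime →
    h ∣ X ^ (r ^ 2 - 1) - 1 → ¬(r : ℤ) ∣ u → b ∈ CT1 r d h u → Tg1 r d b
  deg : ∀ {r : ℕ} {g : (ZMod r)[X]}, r.Prime → Irreducible g →
    (g ∣ X ^ r ^ 2 - X ↔ g.natDegree ≤ 2)
  sqf : ∀ {r : ℕ} {h : (ZMod r)[X]}, r.Prime → h ∣ X ^ r ^ 2 - X → Squarefree h

/-- The rational matrix of an integral matrix. -/
abbrev mQ (A : Matrix (Fin n) (Fin n) ℤ) : Mx n := A.map (Int.castRingHom ℚ)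

/-- Reduction of an integral matrix. -/
abbrev mZ (D : ℕ) (A : Matrix (Fin n) (Fin n) ℤ) : Matrix (Fin n) (Fin n) (ZMod D) :=
  A.map (Int.castRingHom (ZMod D))

/-- Block diagonal matrices. -/
def bdg {R : Type} [Zero R] {a b : ℕ} (A : Matrix (Fin a) (Fin a) R)
    (B : Matrix (Fin b) (Fin b) R) : Matrix (Fin (a + b)) (Fin (a + b)) R :=
  reindex finSumFinEquiv finSumFinEquiv (fromBlocks A 0 0 B)

/-- The companion matrix of a polynomial. -/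
noncomputable def cmp {R : Type} [CommRing R] (g : R[X]) :
    Matrix (Fin g.natDegree) (Fin g.natDegree) R := comp fun i => g.coeff i.val

/-- The characteristic polynomial is the minimal polynomial. -/
def Cyc {F : Type} [Field F] (A : Matrix (Fin n) (Fin n) F) : Prop :=
  ∀ q : F[X], aeval A q = 0 → A.charpoly ∣ q

/-- Block KR1: cyclic matrices. -/
structure StKr1 : Prop where
  sq : ∀ {F : Type} [Field F] {n : ℕ} (A : Matrix (Fin n) (Fin n) F), Squarefree A.charpoly → Cyc A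
  cmp : ∀ {F : Type} [Field F] {n : ℕ} (a : Fin n → F), Cyc (comp a)
  blk : ∀ {F : Type} [Field F] {a b : ℕ} (A : Matrix (Fin a) (Fin a) F)
    (B : Matrix (Fin b) (Fin b) F), Cyc A → Cyc B → IsCoprime A.charpoly B.charpoly → Cyc (bdg A B)
  eis : ∀ {n r d : ℕ} [Fact r.Prime] (A : Matrix (Fin n) (Fin n) ℤ) (b : Fin n → ℤ),
    A.charpoly = pol b → Tg1 r d b → Cyc (mZ r A)
  vec : ∀ {F : Type} [Field F] {n : ℕ} (A : Matrix (Fin n) (Fin n) F), Cyc A → ∃ v, Pv A v ≠ 0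
  chp : ∀ {R : Type} [CommRing R] {a b : ℕ} (A : Matrix (Fin a) (Fin a) R)
    (B : Matrix (Fin b) (Fin b) R), (bdg A B).charpoly = A.charpoly * B.charpoly

/-- Block KR2: normal forms. -/
structure StKr2 : Prop where
  lift : ∀ {n r : ℕ} [Fact r.Prime] (N : ℕ) (A : Matrix (Fin n) (Fin n) ℤ) (b : Fin n → ℤ),
    Cyc (mZ r A) → (∀ i, (r : ℤ) ^ N ∣ A.charpoly.coeff i - (pol b).coeff i) →
    ∃ K : Matrix (Fin n) (Fin n) ℤ, ¬(r : ℤ) ∣ K.det ∧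
      ∀ i j, (r : ℤ) ^ N ∣ (A * K - K * comp b) i j
  hensel : ∀ {r : ℕ} [Fact r.Prime] (N : ℕ) (f : ℤ[X]) (g h : (ZMod r)[X]), f.Monic → g.Monic →
    h.Monic → IsCoprime g h → f.map (Int.castRingHom (ZMod r)) = g * h →
    ∃ (a : Fin g.natDegree → ℤ) (b : Fin h.natDegree → ℤ), red r a = g ∧ red r b = h ∧
      ∀ i, (r : ℤ) ^ N ∣ f.coeff i - (pol a * pol b).coeff i
  chp : ∀ {R : Type} [CommRing R] (g : R[X]), g.Monic → (cmp g).charpoly = g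
  gs : ∀ {F : Type} [Field F] [Fintype F] {n : ℕ} (ψ : AddChar F ℂ) (Φ : F[X] → ℂ)
    (A : Matrix (Fin n) (Fin n) F), Cyc A → GS ψ Φ A = GS ψ Φ (cmp A.charpoly)
  mul : ∀ {p r : ℕ} [Fact r.Prime] (O : ValuationSubring ℂ) (ψ : AddChar (ZMod r) ℂ)
    (Φ : (ZMod r)[X] → ℂ) (g h : (ZMod r)[X]), p.Prime → O.valuation p < 1 → r ≡ 1 [MOD p] →
    g.Monic → h.Monic → IsCoprime g h → (∀ P, O.valuation (Φ P) ≤ 1) →
    Cv O (GS ψ Φ (cmp (g * h))) (GS ψ (fun P => GS ψ (fun Q => Φ (P * Q)) (cmp h)) (cmp g))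

open Classical in
/-- Frobenius equivariant functions supported on `Ω`. -/
noncomputable def EQ {K : Type} [Field K] [Fintype K] (r : ℕ) (Ω : Finset K) : Finset (K → K) :=
  Finset.univ.filter fun ζ => (∀ ω ∉ Ω, ζ ω = 0) ∧ ∀ ω, ζ (ω ^ r) = ζ ω ^ r

open Classical in
/-- Block FFA: the Fourier transform at a regular element that splits over `𝔽_(r ^ 2)`. -/
def StStar : Prop :=
  ∀ (p r : ℕ) [Fact r.Prime] (K : Type) [Field K] [Fintype K] [Algebra (ZMod r) K]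
    (O : ValuationSubring ℂ) (ψ : AddChar (ZMod r) ℂ) (ψ' : AddChar K ℂ) (Φ : K[X] → ℂ)
    (g : (ZMod r)[X]), p.Prime → O.valuation p < 1 → r ≡ 1 [MOD p] → Fintype.card K = r ^ 2 →
    ψ ≠ 1 → (∀ t, ψ' (algebraMap _ K t) = ψ t) → g.Monic → g ∣ X ^ r ^ 2 - X →
    (∀ P, O.valuation (Φ P) ≤ 1) →
    Cv O (GS ψ (fun P => Φ (P.map (algebraMap _ K))) (cmp g))
      ((-1) ^ ((g.natDegree - g.roots.card) / 2) * ∑ ζ ∈ EQ r (g.aroots K).toFinset,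
        Φ (∏ ω ∈ (g.aroots K).toFinset, (X - C (ζ ω))) * ψ' (∑ ω ∈ (g.aroots K).toFinset, ω * ζ ω))

open Classical in
/-- The Fourier transform of the class of `h` at the companion matrix of `g`. -/
noncomputable def TT {F : Type} [Field F] [Fintype F] (ψ : AddChar F ℂ) (g h : F[X]) : ℂ :=
  GS ψ (fun P => if P = h then 1 else 0) (cmp g)

/-- Block FFB: vanishing and nonvanishing. -/
structure StFF : Prop where
  van : ∀ {p r : ℕ} [Fact r.Prime] (O : ValuationSubring ℂ) (ψ : AddChar (ZMod r) ℂ)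
    (Φ : (ZMod r)[X] → ℂ) (g : (ZMod r)[X]), p.Prime → O.valuation p < 1 → r ≡ 1 [MOD p] → ψ ≠ 1 →
    g.Monic → g ∣ X ^ r ^ 2 - X → (∀ P, O.valuation (Φ P) ≤ 1) →
    (∀ P, (∀ q, Irreducible q → q ∣ P → q.natDegree ≤ 2) → Φ P = 0) → Cv O (GS ψ Φ (cmp g)) 0
  nv : ∀ n : ℕ, ∃ B : ℕ, ∀ (p r m t : ℕ) [Fact r.Prime] (O : ValuationSubring ℂ)
    (ψ : AddChar (ZMod r) ℂ) (G : Finset (ZMod r)[X]), p.Prime → p ≠ 2 → O.valuation p < 1 →
    r ≡ 1 [MOD p] → B < r → ψ ≠ 1 → G.Nonempty → G.card ≤ n → m ≤ n →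
    (∀ g ∈ G, g.Monic ∧ g.natDegree = m ∧ g ∣ X ^ r ^ 2 - X ∧ g.roots.card = t) →
    ∃ h : (ZMod r)[X], h.Monic ∧ h.natDegree = m ∧ h ∣ X ^ (r ^ 2 - 1) - 1 ∧
      O.valuation (∑ g ∈ G, (TT ψ g h + TT ψ⁻¹ g h)) = 1

/-- The additive character `t ↦ e(-α t / D)`. -/
noncomputable def chi (D : ℕ) [NeZero D] (α : ℤ) : AddChar (ZMod D) ℂ :=
  ZMod.stdAddChar.mulShift (-α)

open Classical in
/-- The indicator function of a congruence class. -/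
noncomputable def indC (D : ℕ) (C : Set (Fin n → ℤ)) (P : (ZMod D)[X]) : ℂ :=
  if ∃ b ∈ C, red D b = P then 1 else 0

/-- Block FIN: the Fourier transform as a finite sum. -/
structure StFin : Prop where
  ex : ∀ {n : ℕ} {L : Lt n} {y : Mx n}, IsLat L → EndL L y → ∃ (g : Mx n)
    (Y : Matrix (Fin n) (Fin n) ℤ), g.det ≠ 0 ∧ L = act g (LZ n) ∧ y = g * mQ Y * g⁻¹
  fin : ∀ {n D : ℕ} [NeZero D] {C : Set (Fin n → ℤ)} (α : ℤ) (Y : Matrix (Fin n) (Fin n) ℤ)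
    {g : Mx n}, CongS D C → g.det ≠ 0 →
    FM (WC C) ((α / D : ℚ) • (g * mQ Y * g⁻¹)) (act g (LZ n)) =
      GS (chi D α) (indC D C) (mZ D Y) / (D : ℂ) ^ n ^ 2
  loc : ∀ {n D m : ℕ} {C : Set (Fin n → ℤ)} {z z' K : Mx n} {L L' : Lt n}, 0 < D → CongS D C →
    IsLat L → IsLat L' → K.det ≠ 0 → m.Coprime D → EndL L ((D : ℚ) • z) → EndL L' ((D : ℚ) • z') →
    act K L' ≤ L → (∀ y ∈ L, (m : ℚ) • y ∈ act K L') → (∀ y ∈ L', (z * K - K * z') *ᵥ y ∈ L) →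
    FM (WC C) z L = FM (WC C) z' L'
  bnd : ∀ {n D : ℕ} {C : Set (Fin n → ℤ)} {z : Mx n} {L : Lt n}, 0 < D → CongS D C → IsLat L →
    EndL L ((D : ℚ) • z) → ‖FM (WC C) z L‖ ≤ 1 ∧ ∀ O : ValuationSubring ℂ, O.valuation D = 1 →
      O.valuation (FM (WC C) z L) ≤ 1

/-- The smallest stable subgroup that contains `L`. -/
def hull (x : Mx n) (L : Lt n) : Lt n := sInf {M | L ≤ M ∧ EndL M x}

/-- Lattices stable under `r x` that generate `M`. -/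
def Fib (r : ℕ) (x : Mx n) (M : Lt n) : Set (Lt n) := {L | Stab ((r : ℚ) • x) L ∧ hull x L = M}

/-- The local factor. -/
noncomputable def cc (k r : ℕ) (C : Set (Fin n → ℤ)) (α : ℤ) (x : Mx n) (M : Lt n) : ℂ :=
  ∑ᶠ L ∈ Fib r x M, FM (WC C) ((α / r : ℚ) • x) L * ((covol M / covol L : ℚ) : ℂ) ^ k

/-- Preimage of a lattice in the standard lattice. -/
def TK (K : Matrix (Fin n) (Fin n) ℤ) (L : Lt n) : Lt n :=
  LZ n ⊓ L.comap ((mQ K).mulVecLin.restrictScalars ℤ)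

/-- Congruence of integral matrices. -/
def MC (m : ℤ) (A B : Matrix (Fin n) (Fin n) ℤ) : Prop := ∀ i j, m ∣ (A - B) i j

/-- Block HUL: the local factor. -/
structure StHul : Prop where
  le : ∀ {n : ℕ} (x : Mx n) (L : Lt n), L ≤ hull x L ∧ EndL (hull x L) x ∧
    ∀ M, L ≤ M → EndL M x → hull x L ≤ M
  pow : ∀ {n r : ℕ} {x : Mx n} {L : Lt n} {a : Fin n → ℤ}, 0 < r → x.charpoly = pol (toQ a) →
    Stab ((r : ℚ) • x) L → Stab x (hull x L) ∧ ∀ y ∈ hull x L, (r : ℚ) ^ n • y ∈ L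
  act : ∀ {n : ℕ} {g : Mx n} (x : Mx n) (L : Lt n), g.det ≠ 0 →
    hull (g * x * g⁻¹) (act g L) = act g (hull x L)
  fin : ∀ {n r : ℕ} {x : Mx n} {M : Lt n}, 0 < r → Stab x M → (Fib r x M).Finite
  conj : ∀ {n r : ℕ} (k : ℕ) {C : Set (Fin n → ℤ)} (α : ℤ) {g x : Mx n} {M : Lt n}, 0 < r →
    CongS (r ^ 2) C → g.det ≠ 0 → Stab x M →
    cc k r C α (g * x * g⁻¹) (Mu14.act g M) = cc k r C α x M
  tk : ∀ {n r : ℕ} {C : Set (Fin n → ℤ)} (α : ℤ) {A A' K K' : Matrix (Fin n) (Fin n) ℤ} {L : Lt n},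
    r.Prime → CongS (r ^ 2) C → MC (r ^ (n + 1)) (K * K') 1 → MC (r ^ (n + 1)) (K' * K) 1 →
    MC (r ^ (n + 1)) (A * K) (K * A') → L ∈ Fib r (mQ A') (LZ n) →
    TK K' L ∈ Fib r (mQ A) (LZ n) ∧ TK K (TK K' L) = L ∧ covol (TK K' L) = covol L ∧
      FM (WC C) ((α / r : ℚ) • mQ A) (TK K' L) = FM (WC C) ((α / r : ℚ) • mQ A') L
  trans : ∀ {n r : ℕ} (k : ℕ) {C : Set (Fin n → ℤ)} (α : ℤ) {A A' K : Matrix (Fin n) (Fin n) ℤ},
    r.Prime → CongS (r ^ 2) C → ¬(r : ℤ) ∣ K.det → MC (r ^ (n + 1)) (A * K) (K * A') →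
    cc k r C α (mQ A) (LZ n) = cc k r C α (mQ A') (LZ n)
  cv : ∀ {p n r : ℕ} (k : ℕ) {C : Set (Fin n → ℤ)} (α : ℤ) {x : Mx n} {M : Lt n}
    (O : ValuationSubring ℂ), p.Prime → O.valuation p < 1 → r.Prime → r ≡ 1 [MOD p] →
    CongS (r ^ 2) C → Stab x M →
    Cv O (cc k r C α x M) (∑ᶠ L ∈ Fib r x M, FM (WC C) ((α / r : ℚ) • x) L) ∧
      O.valuation (cc k r C α x M) ≤ 1

open Classical in
/-- Block SPL: the Leibniz rule. -/
def StSplit : Prop :=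
  ∀ (p a b r d k : ℕ) [Fact r.Prime] (O : ValuationSubring ℂ) (h : (ZMod r)[X]) (u α : ℤ)
    (A : Matrix (Fin a) (Fin a) ℤ) (B : Matrix (Fin b) (Fin b) ℤ), p.Prime → O.valuation p < 1 →
    r ≡ 1 [MOD p] → 0 < d → h.coeff 0 ≠ 0 → ¬(r : ℤ) ∣ u → ¬(r : ℤ) ∣ α →
    Cv O (cc k r (CT1 r d h u) α (mQ (bdg A B)) (LZ (a + b)))
      (GS (chi r α) (fun P => if P ∣ h then cc k r (CT1 r d (h / P) u) α (mQ B) (LZ b) else 0)
          (mZ r A) +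
        GS (chi r α) (fun Q => if Q ∣ h then cc k r (CT1 r d (h / Q) u) α (mQ A) (LZ a) else 0)
          (mZ r B))

/-- Block HST: the local factor of an inert block. -/
def StHost : Prop :=
  ∀ (p n r k : ℕ) (O : ValuationSubring ℂ) (u α : ℤ) (b : Fin (n + 1) → ℤ), p.Prime →
    O.valuation p < 1 → r.Prime → r ≡ 1 [MOD p] → ¬(r : ℤ) ∣ u → ¬(r : ℤ) ∣ α →
    Irreducible (red r b) →
    Cv O (cc k r (CT1 r (n + 1) 1 u) α (comp (toQ b)) (LZ (n + 1))) ((-1) ^ n * (n + 1) ^ 2)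

open Classical UniqueFactorizationMonoid in
/-- Block LEI: the local factor of a squarefree element. -/
def StLeib : Prop :=
  ∀ (p n r d k : ℕ) [Fact r.Prime] (O : ValuationSubring ℂ) (h : (ZMod r)[X]) (u α : ℤ)
    (b : Fin n → ℤ), p.Prime → O.valuation p < 1 → r ≡ 1 [MOD p] → h.Monic → h.coeff 0 ≠ 0 →
    ¬(r : ℤ) ∣ u → ¬(r : ℤ) ∣ α → Squarefree (red r b) →
    (∀ g, Irreducible g → g ∣ red r b → g.natDegree ≤ d + 1) →
    Cv O (cc k r (CT1 r (d + 1) h u) α (comp (toQ b)) (LZ n))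
      ((-1) ^ d * (d + 1) ^ 2 * ∑ g ∈ (normalizedFactors (red r b)).toFinset with
        g.natDegree = d + 1, TT (chi r α) (red r b / g) h)

/-- Block GRD: reduction to the local factor. -/
def StGR : Prop :=
  ∀ (p n k l r : ℕ) (a : Fin (n + 1) → ℤ) (O : ValuationSubring ℂ) (C : Set (Fin (n + 1) → ℤ))
    (α : ℤ) (c : ℂ), Par' p (n + 1) k l → EisZ l a → Spl (toR (toQ a)) → r.Prime → r ≠ p → r ≠ l →
    O.valuation p < 1 → CongS (r ^ 2) C →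
    (∀ M, Stab (comp (toQ a)) M → cc k r C α (comp (toQ a)) M = c) →
    Cv O (zC k l r 1 C α a) (c * zW k l stab (toQ a))

/-- Block MM1: from an inert block to an Eisenstein block. -/
def StM1 : Prop :=
  ∀ n : ℕ, ∃ B : ℕ, ∀ (p k l r d : ℕ) (a : Fin (n + 1) → ℤ) (O : ValuationSubring ℂ),
    Par' p (n + 1) k l → Good p k l a → O.valuation p < 1 → r.Prime → B < r → r ≠ l →
    r ≡ 1 [MOD p] → 2 ≤ d → ¬p ∣ d → Src r d a → ∀ α : ℤ, ¬(r : ℤ) ∣ α →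
    ∃ C, C ⊆ {b | Tg1 r d b} ∧ CongS (r ^ (1 + 1)) C ∧
      O.valuation (zC k l r 1 C α a + zC k l r 1 C (-α) a) = 1

/-- Block MM2: from an Eisenstein block to an inert block. -/
def StM2 : Prop :=
  ∀ n : ℕ, ∃ B : ℕ, ∀ (p k l r e : ℕ) (a : Fin (n + 1) → ℤ) (O : ValuationSubring ℂ),
    Par' p (n + 1) k l → Good p k l a → O.valuation p < 1 → r.Prime → B < r →
    r ≡ 1 [MOD p] → 3 ≤ e → Tg1 r (e + 1) a → ∀ α : ℤ, ¬(r : ℤ) ∣ α →
    ∃ C, C ⊆ {b | Src r e b} ∧ CongS (r ^ (0 + 1)) C ∧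
      O.valuation (zC k l r 0 C α a + zC k l r 0 C (-α) a) = 1

section Grp
variable {ι : Type} [Fintype ι] [DecidableEq ι]

open Classical in
/-- The size of a class of the transposition relation. -/
noncomputable def tcl (P : Subgroup (Perm ι)) (i : ι) : ℕ :=
  (Finset.univ.filter fun j => swap i j ∈ P).card

/-- Some set of `d` points is permuted transitively by elements that fix the other points. -/
def JJ (P : Subgroup (Perm ι)) (d : ℕ) : Prop :=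
  ∃ R : Finset ι, R.card = d ∧ ∀ i ∈ R, ∀ j ∈ R, ∃ σ ∈ P, σ i = j ∧ ∀ x ∉ R, σ x = x

/-- One cycle of length `d`, all other cycles of length at most two. -/
def Typ (σ : Perm ι) (d : ℕ) : Prop :=
  ∃ R : Finset ι, R.card = d ∧ (∀ i ∈ R, σ i ∈ R) ∧ (∀ i ∈ R, ∀ j ∈ R, ∃ k : ℕ, (σ ^ k) i = j) ∧
    ∀ i ∉ R, σ (σ i) = i

/-- Any two points are exchanged by an involution. -/
def Dih (P : Subgroup (Perm ι)) : Prop := ∀ i j, ∃ σ ∈ P, σ i = j ∧ σ * σ = 1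

end Grp

/-- Block GRP: permutation groups. -/
structure StGrp : Prop where
  dvd : ∀ {ι : Type} [Fintype ι] [DecidableEq ι] {P : Subgroup (Perm ι)} (i : ι), Dih P →
    tcl P i ∣ Fintype.card ι
  top : ∀ {ι : Type} [Fintype ι] [DecidableEq ι] {P : Subgroup (Perm ι)} (i : ι),
    tcl P i = Fintype.card ι → P = ⊤
  jj : ∀ {ι : Type} [Fintype ι] [DecidableEq ι] {P : Subgroup (Perm ι)} (i : ι) {d : ℕ}, Dih P →
    JJ P d → d < tcl P i ∨ tcl P i ∣ d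
  two : ∀ {ι : Type} [Fintype ι] [DecidableEq ι] {P : Subgroup (Perm ι)} (i : ι), Dih P →
    JJ P 2 → 2 ≤ tcl P i
  typ : ∀ {ι : Type} [Fintype ι] [DecidableEq ι] {P : Subgroup (Perm ι)} (i : ι) {j : ℕ}, Dih P →
    tcl P i < Fintype.card ι → 1 ≤ j → j ≤ tcl P i → ∃ σ ∈ P, Typ σ (2 * j)
  typ2 : ∀ {ι : Type} [Fintype ι] [DecidableEq ι] {P : Subgroup (Perm ι)}, Dih P →
    2 ≤ Fintype.card ι → ∃ σ ∈ P, Typ σ 2

/-- A Galois number field that contains the roots of `f` and the `p`-th roots of unity. -/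
structure GD (p : ℕ) (f : ℤ[X]) where
  L : Type
  [fL : Field L]
  [nL : NumberField L]
  [gL : IsGalois ℚ L]
  ι : Type
  [fι : Fintype ι]
  [dι : DecidableEq ι]
  [aι : MulAction (L ≃ₐ[ℚ] L) ι]
  r : ι → 𝓞 L
  inj : Function.Injective r
  prod : f.map (algebraMap ℤ (𝓞 L)) = ∏ i, (X - C (r i))
  act : ∀ (σ : L ≃ₐ[ℚ] L) i, r (σ • i) = σ • r i
  z : L
  hz : IsPrimitiveRoot z p

attribute [instance] GD.fL GD.nL GD.gL GD.fι GD.dι GD.aι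

/-- The Galois group over the cyclotomic field as a group of permutations of the roots. -/
noncomputable def GD.P {p : ℕ} {f : ℤ[X]} (D : GD p f) : Subgroup (Perm D.ι) :=
  (MulAction.stabilizer (D.L ≃ₐ[ℚ] D.L) D.z).map (MulAction.toPermHom _ _)

/-- Block GA1: the Galois group of an Eisenstein polynomial. -/
structure StGa1 : Prop where
  ex : ∀ (p : ℕ) (f : ℤ[X]), p.Prime → f.Monic → Irreducible (f.map (algebraMap ℤ ℚ)) →
    Nonempty (GD p f)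
  card : ∀ {p : ℕ} {f : ℤ[X]} (D : GD p f), Fintype.card D.ι = f.natDegree
  top : ∀ {p : ℕ} {f : ℤ[X]} (D : GD p f), D.P = ⊤ →
    Nonempty ((f.map (algebraMap ℤ ℚ)).Gal ≃* Perm (Fin f.natDegree))
  dih : ∀ {p n l N : ℕ} {b : Fin (n + 1) → ℤ} (D : GD p (pol b)), p.Prime → l.Prime → l ≠ p →
    ¬l ∣ n + 1 → EisZ l b → Spl (toR (toQ b)) → n + 1 ∣ l ^ N + 1 → p ∣ l ^ N + 1 → Dih D.P

open Classical in
/-- Block GA2: Frobenius elements. -/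
structure StGa2 : Prop where
  src : ∀ {p n d : ℕ} {b : Fin n → ℤ} (D : GD p (pol b)), p.Prime → 0 < d → ∀ σ ∈ D.P, Typ σ d →
    ∀ B : ℕ, ∃ c : ℕ, ∀ᶠ x : ℕ in atTop, (x : ℝ) ≤ c * Real.log x * ((Finset.Icc 1 x).filter
      fun q => q.Prime ∧ B < q ∧ q ≡ 1 [MOD p] ∧ Src q d b).card
  fr : ∀ {p n q e : ℕ} {b : Fin n → ℤ} (D : GD p (pol b)), p.Prime → q.Prime → q ≡ 1 [MOD p] →
    Odd e → Src q e b → JJ D.P e

/-- Block GA3: inertia groups. -/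
structure StGa3 : Prop where
  tg : ∀ {p n q d : ℕ} {b : Fin n → ℤ} (D : GD p (pol b)), p.Prime → q.Prime → q ≠ p →
    Tg1 q d b → JJ D.P d
  disc : ∀ {n q d : ℕ} {b : Fin n → ℤ} (K : Type) [Field K] [NumberField K] (θ : K), q.Prime →
    2 ≤ d → Tg1 q d b → minpoly ℚ θ = pol (toQ b) → Module.finrank ℚ K = n →
    q ∣ (NumberField.discr K).natAbs

end Pool.Agent.Lib.Mu14.All
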