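import Pool.Agent.Lib.Mu14.Final2
import Pool.Agent.Lib.Mu46.Blue

/-! Block BAS, first part: good polynomials exist in every degree. -/

set_option autoImplicit false

open Matrix Filter Topology
open scoped Real

namespace Pool.Agent.Lib.Mu14.All

namespace BAS

open VAL Finset in
lemma val (p n k l : ℕ) (h : Par' p n k l) : ∃ q : ℚ, q ≠ 0 ∧ padicValRat p q = 0 ∧
    (q : ℂ) = ((l : ℂ) - 1) / (l : ℂ) ^ (n + 1) *
      (∏ j ∈ Finset.range n,
        riemannZeta (((j + 1) * k : ℕ) : ℂ) * (1 - (l : ℂ)⁻¹ ^ ((j + 1) * k))) *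
      (((∏ j ∈ Finset.range n, (((j + 1) * k - 1).factorial : ℝ) / (k - 1).factorial) /
        (2 * π) ^ (k * (n * (n - 1) / 2)) : ℝ) : ℂ) / kap k ^ n := by
  have hp := Fact.mk h.hp
  obtain ⟨κ, hκ⟩ := h.kk.1
  obtain rfl : k = 2 * κ := by omega
  have hκ0 : κ ≠ 0 := by have := h.kk.2; omega
  have hcop : l.Coprime p := (Nat.coprime_primes h.hl h.hp).mpr h.lp
  have hpl : ¬p ∣ l := (Nat.Prime.coprime_iff_not_dvd h.hp).mp hcop.symm
  have hp0 : (p : ℚ) ≠ 0 := by exact_mod_cast h.hp.ne_zero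
  set r : ℕ → ℚ := fun j => (-1) ^ ((j + 1) * κ + 1 + κ) * bernoulli (2 * ((j + 1) * κ)) *
    (1 - (l : ℚ)⁻¹ ^ (2 * ((j + 1) * κ))) / (2 * (2 * ((j + 1) * κ) : ℕ)) with hr
  have hr1 : ∀ j, padicNorm p (r j) = 1 := fun j => by
    have hM : (j + 1) * κ ≠ 0 := by positivity
    have hd : p - 1 ∣ 2 * ((j + 1) * κ) := by
      rw [show 2 * ((j + 1) * κ) = 2 * κ * (j + 1) by ring]
      exact h.dvd.mul_right _
    have h2 : padicNorm p 2 = 1 := by
      have := (padicNorm.nat_eq_one_iff (p := p) 2).mpr fun h2 =>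
        h.odd ((Nat.prime_dvd_prime_iff_eq h.hp Nat.prime_two).mp h2)
      exact_mod_cast this
    have h3 : padicNorm p ((2 * ((j + 1) * κ) : ℕ) : ℚ) ≠ 0 :=
      padicNorm.nonzero (by exact_mod_cast (by omega : 2 * ((j + 1) * κ) ≠ 0))
    rw [hr]
    simp only
    rw [padicNorm.div, padicNorm.mul, padicNorm.mul, padicNorm.mul, h2,
      norm_pow_one (by rw [padicNorm.neg, padicNorm.one]), norm_bernoulli hM hd,
      norm_euler h.odd h.hl h.lp h.l2 (by omega) hd]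
    field_simp
  have hq : padicNorm p (((l : ℚ) - 1) / (l : ℚ) ^ (n + 1) * ∏ j ∈ range n, r j) = 1 := by
    have h1 : padicNorm p ((l - 1 : ℕ) : ℚ) = 1 := (padicNorm.nat_eq_one_iff _).mpr fun hd =>
      h.l1 ((Nat.modEq_iff_dvd' h.hl.one_le).mpr hd).symm
    rw [Nat.cast_sub h.hl.one_le, Nat.cast_one] at h1
    rw [padicNorm.mul, padicNorm.div, h1, norm_pow_one ((padicNorm.nat_eq_one_iff l).mpr hpl),
      norm_prod_one fun j _ => hr1 j]
    norm_num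
  have hq0 : ((l : ℚ) - 1) / (l : ℚ) ^ (n + 1) * ∏ j ∈ range n, r j ≠ 0 := fun h0 => by
    rw [h0, padicNorm.zero] at hq; exact zero_ne_one hq
  refine ⟨_, hq0, ?_, ?_⟩
  · rw [padicNorm.eq_zpow_of_nonzero hq0, zpow_eq_one_iff_right₀ (Nat.cast_nonneg p)
      (by exact_mod_cast h.hp.one_lt.ne')] at hq
    exact neg_eq_zero.mp hq
  · have e1 : (2 * π) ^ (2 * κ * (n * (n - 1) / 2)) = ∏ j ∈ range n, (2 * π) ^ (2 * κ * j) := by
      rw [prod_pow_eq_pow_sum, ← mul_sum, sum_range_id]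
    have e2 : kap (2 * κ) ^ n = ∏ _j ∈ range n, kap (2 * κ) := by simp
    rw [e1, e2, ← prod_div_distrib, Complex.ofReal_prod, mul_assoc, ← prod_mul_distrib,
      mul_div_assoc, ← prod_div_distrib, prod_congr rfl fun j _ => factor l κ j hκ0]
    rw [Rat.cast_mul, Rat.cast_prod]
    congr 1
    push_cast
    rfl

open CT0 in
lemma ct (p n k l : ℕ) (hP : Par' p (n + 1) k l) : ∃ q : ℚ, q ≠ 0 ∧ padicValRat p q = 0 ∧
    Tendsto (fun t : ℝ => (t : ℂ) ^ (n + 1 + k * (n + 1) * n) *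
      FW k l (WC {b : Fin (n + 1) → ℤ | EisZ l b}) (t ^ 2 * Complex.I)) (𝓝[>] 0) (𝓝 q) := by
  classical
  have hL1 := stLat1
  have hL2 := lat2
  have hR := stRoot
  have hW := wc0
  have hM := stMeh stRoot stRootR stBlkR
  have hg := stWrg stRoot stRootR
  have hi := stRie stInt1
  have h1 := cnt1
  have h2 := stCnt2 stInt1 int2 stLat1 lat2 stBlk
  obtain ⟨q, hq0, hq1, hq⟩ := val p (n + 1) k l hP
  refine ⟨q, hq0, hq1, ?_⟩
  have hk := hP.kk.2
  have hk1 : 1 ≤ k := by omega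
  obtain ⟨C, hC⟩ := hg.dom (n + 1) k
  obtain ⟨⟨C', hC'⟩, hlim⟩ := hi (n + 1) (Wk k) C (hg.cont _ k hk1) hC
  have hu : Summable (uu k : Lt (n + 1) → ℝ) := hL2.summ k isLat_LZ (by omega)
  have hprod : ∀ t : ℝ, 0 < t → t ≤ 1 → Summable fun x : Lt (n + 1) × V (n + 1) =>
      ch k l x.1 * (ph l x.1 x.2 * (Wk k (scl t (toR x.2)) : ℝ)) := fun t h0 ht =>
    Summable.of_norm_bounded (hu.mul_of_nonneg (hC' t h0 ht).1 (uu_nonneg hL1 k) (ww_nonneg k t))
      fun x => term_le hL1 h1 k l t x.1 x.2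
  have hT := tendsto_tsum_of_dominated_convergence (𝓕 := 𝓝[>] (0 : ℝ))
    (f := fun (t : ℝ) (L : Lt (n + 1)) => ch k l L * ((t : ℂ) ^ ((n + 1) * (n + 1 + 1) / 2) *
      ∑' a : V (n + 1), ph l L a * (Wk k (scl t (toR a)) : ℝ)))
    (g := fun L => ch k l L * (dint (ph l L) * (∫ a : Fin (n + 1) → ℝ, Wk k a : ℝ)))
    (bound := fun L => uu k L * C') (hu.mul_right C')
    (fun L => by
      by_cases hv : padicValRat l (covol L) = 0
      · exact (hlim _ (h1.eis L hP.hl hv).1).const_mul _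
      · simp only [ch, if_neg hv, zero_mul]
        exact tendsto_const_nhds)
    (by
      filter_upwards [Ioc_mem_nhdsGT (show (0 : ℝ) < 1 by norm_num)] with t ht L
      obtain ⟨h3, h4⟩ := hC' t ht.1 ht.2
      have h5 := tsum_of_norm_bounded (h3.hasSum.mul_left (uu k L))
        fun a => term_le hL1 h1 k l t L a
      have h0 := ht.1
      rw [mul_left_comm, ← tsum_mul_left, norm_mul, norm_pow, Complex.norm_real,
        Real.norm_of_nonneg h0.le]
      refine (mul_le_mul_of_nonneg_left h5 (by positivity)).trans ?_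
      rw [mul_left_comm]
      exact mul_le_mul_of_nonneg_left h4 (uu_nonneg hL1 k L))
  have hS := ((h2 n k l (by omega) hP.hl).mul_left (((l : ℂ) - 1) / (l : ℂ) ^ (n + 2))).mul_right
    ((∫ a : Fin (n + 1) → ℝ, Wk k a : ℝ) : ℂ)
  have hS' : (∑' L : Lt (n + 1),
      ch k l L * (dint (ph l L) * (∫ a : Fin (n + 1) → ℝ, Wk k a : ℝ))) = _ :=
    (hS.congr_fun fun L => by
      by_cases hv : padicValRat l (covol L) = 0
      · have e := (h1.eis L hP.hl hv).2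
        rw [ch, if_pos hv, if_pos hv, show dint (ph l L) = _ from e]
        ring
      · rw [ch, if_neg hv, if_neg hv]
        ring).tsum_eq
  rw [hS', hM _ k hk1] at hT
  rw [hq, div_eq_inv_mul]
  refine (hT.const_mul (kap k ^ (n + 1))⁻¹).congr' ?_
  filter_upwards [Ioc_mem_nhdsGT (show (0 : ℝ) < 1 by norm_num)] with t ht
  have e : (t : ℂ) ^ (n + 1 + k * (n + 1) * n) *
      FW k l (WC {b : Fin (n + 1) → ℤ | EisZ l b}) (t ^ 2 * Complex.I) =
      ∑' a : V (n + 1), (kap k ^ (n + 1))⁻¹ * ((t : ℂ) ^ ((n + 1) * (n + 1 + 1) / 2) *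
        ∑' L : Lt (n + 1), ch k l L * (ph l L a * (Wk k (scl t (toR a)) : ℝ))) := by
    rw [FW, ← tsum_mul_left]
    exact tsum_congr fun a => point hR hW hg hk1 l ht.1 a
  have e2 := Summable.tsum_comm (f := fun (L : Lt (n + 1)) (a : V (n + 1)) =>
    ch k l L * (ph l L a * (Wk k (scl t (toR a)) : ℝ))) (hprod t ht.1 ht.2)
  refine Eq.trans ?_ e.symm
  rw [tsum_mul_left (a := (kap k ^ (n + 1))⁻¹),
    tsum_mul_left (a := (t : ℂ) ^ ((n + 1) * (n + 1 + 1) / 2)), e2]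
  congr 1
  rw [← tsum_mul_left]
  refine tsum_congr fun L => ?_
  rw [tsum_mul_left (a := ch k l L)]
  ring

open Base in
lemma base (p n k l : ℕ) (hP : Par' p (n + 1) k l) : ∃ a : Fin (n + 1) → ℤ, Good p k l a := by
  have hA := stQA
  have hQ := q0
  have hM := mod0
  have hW := wc0
  by_contra hne
  have hp := hP.hp
  have hl := hP.hl
  obtain ⟨A, hq, hm⟩ := hW.qs n k l (l ^ 2) {b : Fin (n + 1) → ℤ | EisZ l b} hP.kk hl hP.hs
    (pow_pos hl.pos 2) hW.eis fun a ha => ha.1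
  have hm1 := hm (M1 p hp) fun a ha => by
    by_cases h : Spl (toR (toQ a))
    · by_contra h'
      exact hne ⟨a, h, ha, h'⟩
    · rw [zW, if_neg h]
      exact (M1 p hp).zero_mem
  obtain ⟨B, hB, hb⟩ := qs_pow hA hp hq hm1 7
  obtain ⟨K, hK⟩ := law hM hW hP.kk hl hP.hs
  obtain ⟨q, hq0, hqv, hlim⟩ := ct p n k l hP
  generalize n + 1 + k * (n + 1) * n = u at hK hlim
  have hM1 : 1 < 4 * l ^ K := by have := pow_pos hl.pos K; omega
  obtain ⟨N₀, j, g, hg⟩ := hQ 1 (4 * l ^ K) (4 * u) one_pos hM1 (Nat.coprime_one_left _)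
    ⟨2 * u, by ring⟩
  have h1 := hg _ B hB hK 0 (-1) 1 0 (by norm_num) (by simp) isCoprime_one_left
  have h2 : Tendsto (fun t : ℝ => 2 * (t ^ 2)⁻¹) (𝓝[>] 0) atTop := by
    refine Tendsto.const_mul_atTop two_pos (tendsto_inv_nhdsGT_zero.comp ?_)
    refine tendsto_nhdsWithin_iff.2 ⟨?_, ?_⟩
    · have : Tendsto (fun t : ℝ => t ^ 2) (𝓝 0) (𝓝 (0 ^ 2)) := tendsto_id.pow 2
      rw [zero_pow two_ne_zero] at this
      exact this.mono_left nhdsWithin_le_nhds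
    · filter_upwards [self_mem_nhdsWithin] with t ht using pow_pos (Set.mem_Ioi.1 ht) 2
  have h3 := (hlim.pow 8).div_const ((2 : ℂ) ^ (4 * u))
  have h4 := tendsto_nhds_unique_of_eventuallyEq (h1.comp h2) h3 (by
    filter_upwards [self_mem_nhdsWithin] with t ht
    have ht' : (t : ℂ) ≠ 0 := by exact_mod_cast (ne_of_gt ht)
    have e1 : 2 * mob 0 (-1) 1 0 (((2 * (t ^ 2)⁻¹ : ℝ) : ℂ) * Complex.I) = t ^ 2 * Complex.I := by
      unfold mob
      push_cast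
      field_simp
      linear_combination -2 * (t : ℂ) ^ 2 * Complex.I_sq
    simp only [Function.comp]
    rw [e1]
    push_cast
    rw [one_mul, add_zero, mul_pow _ Complex.I, pow_mul Complex.I, Complex.I_pow_four, one_pow,
      mul_one, mul_pow, mul_pow, inv_pow, ← pow_mul, ← pow_mul,
      show 2 * (4 * u) = u * 8 by ring]
    field_simp)
  obtain ⟨r, hr, h5⟩ : ∑ N ∈ Finset.range N₀, (g N : ℂ) * B N ∈ M1 p hp :=
    AddSubgroup.sum_mem _ fun N _ => by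
      simpa only [zsmul_eq_mul] using (M1 p hp).zsmul_mem (hb N) (g N)
  have hM0 : ((4 * l ^ K : ℕ) : ℚ) ≠ 0 := by exact_mod_cast (by omega : 4 * l ^ K ≠ 0)
  have h6 : (p : ℚ) * r * 2 ^ (4 * u) = q ^ 8 * ((4 * l ^ K : ℕ) : ℚ) ^ j := by
    have hM0' : ((4 * l ^ K : ℕ) : ℂ) ≠ 0 := by exact_mod_cast hM0
    rw [h5, pow_one, div_eq_div_iff (pow_ne_zero _ hM0') (pow_ne_zero _ two_ne_zero)] at h4
    exact_mod_cast h4
  have : Fact p.Prime := ⟨hp⟩
  have hp0 : (p : ℚ) ≠ 0 := by exact_mod_cast hp.ne_zero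
  have hr0 : r ≠ 0 := by
    rintro rfl
    exact mul_ne_zero (pow_ne_zero 8 hq0) (pow_ne_zero j hM0) (by rw [← h6]; simp)
  have h2p : ¬p ∣ 2 := fun h => hP.odd ((Nat.prime_dvd_prime_iff_eq hp Nat.prime_two).1 h)
  have v1 : padicValRat p ((4 * l ^ K : ℕ) : ℚ) = 0 := by
    rw [padicValRat.of_nat, padicValNat.eq_zero_of_not_dvd, Nat.cast_zero]
    intro h
    rcases hp.dvd_mul.1 h with h | h
    · exact h2p (hp.dvd_of_dvd_pow (show p ∣ 2 ^ 2 from h))
    · exact hP.lp ((Nat.prime_dvd_prime_iff_eq hp hl).1 (hp.dvd_of_dvd_pow h)).symm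
  have v2 : padicValRat p (2 : ℚ) = 0 := by
    have := padicValRat.of_nat (p := p) (n := 2)
    rw [padicValNat.eq_zero_of_not_dvd h2p] at this
    exact_mod_cast this
  have v3 : 0 ≤ padicValRat p r := by
    rw [padicValRat_def, padicValNat.eq_zero_of_not_dvd hr]
    simp
  have h7 := congrArg (padicValRat p) h6
  rw [padicValRat.mul (mul_ne_zero hp0 hr0) (pow_ne_zero _ two_ne_zero), padicValRat.mul hp0 hr0,
    padicValRat.mul (pow_ne_zero 8 hq0) (pow_ne_zero j hM0), padicValRat.pow,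
    padicValRat.pow, padicValRat.pow, v1, v2, hqv, padicValRat.self hp.one_lt] at h7
  omega

open UNIT in
lemma good (p n k l : ℕ) (a : Fin (n + 1) → ℤ) (O : ValuationSubring ℂ)
    (hP : Par' p (n + 1) k l) (hO : O.valuation p < 1) (hG : Good p k l a) :
    O.valuation (zW k l stab (toQ a)) = 1 := by
  have hM := mod0
  have hW := wc0
  have hp := hP.hp
  have hl := hP.hl
  have hpl : ¬p ∣ l := fun h => hP.lp ((Nat.prime_dvd_prime_iff_eq hp hl).mp h).symm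
  have hpl1 : ¬p ∣ l - 1 := fun h => hP.l1 ((Nat.modEq_iff_dvd' hl.one_le).mpr h).symm
  have h1 := hM.mem n k l (l ^ 2) (WC {b | EisZ l b}) hP.kk hl hP.hs
    (hW.tfx (pow_pos hl.pos 2) hW.eis) (hW.nil hl fun b hb => hb.1) (O0 p hp)
    (Submodule.span (O0 p hp) {1}) (inv_mem p hp hpl)
    (by have := inv_mem p hp hpl1; rwa [Nat.cast_sub hl.one_le, Nat.cast_one] at this)
    (inv_mem p hp fun h => hpl (hp.dvd_of_dvd_pow h))
    (fun x L => by
      unfold WC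
      split_ifs
      · exact Submodule.subset_span rfl
      · exact Submodule.zero_mem _) (toQ a)
  obtain ⟨⟨z, x, y, hy, hz⟩, h2⟩ := Submodule.mem_span_singleton.mp h1
  have h3 : z = zW k l (WC {b | EisZ l b}) (toQ a) := by
    rw [← h2]; simp [Subring.smul_def]
  rw [← (wc hW k l {b | EisZ l b} (toQ a)).1 a hG.2.1 rfl, ← h3]
  have hy0 : y ≠ 0 := fun h => hy (by rw [h]; exact dvd_zero p)
  have hy' : (y : ℂ) ≠ 0 := by exact_mod_cast hy0
  have hx : ¬p ∣ x.natAbs := by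
    intro h
    obtain ⟨x', rfl⟩ := Int.natCast_dvd.mpr h
    refine hG.2.2 ⟨(x' : ℚ) / y, fun h4 => hy ?_, ?_⟩
    · have h5 := Rat.den_dvd x' y
      rw [Rat.divInt_eq_div, Int.cast_natCast] at h5
      exact h4.trans (by exact_mod_cast h5)
    · rw [← h3, pow_one]
      push_cast at hz ⊢
      rw [← mul_div_assoc, eq_div_iff hy', hz]
  have h6 := congrArg O.valuation hz
  rwa [map_mul, nat p y O hp hO hy, mul_one, int p x O hp hO hx] at h6

lemma res (p n : ℕ) (hp : p.Prime) (h2 : p ≠ 2) (hn : n ≠ 0) : ∃ (q N : ℕ) (c : ℤ), q ≠ 0 ∧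
    IsCoprime c q ∧ ∀ x : ℤ, (q : ℤ) ∣ x - c →
      (p : ℤ) ^ 2 ∣ x - (-(1 + p)) ∧ (n : ℤ) ∣ x ^ N + 1 ∧ (p : ℤ) ∣ x ^ N + 1 := by
  obtain ⟨v, m, hm, rfl⟩ := Nat.exists_eq_pow_mul_and_not_dvd hn p hp.ne_one
  have hp' : Prime (p : ℤ) := Nat.prime_iff_prime_int.mp hp
  have hm0 : m ≠ 0 := fun h => hm (by rw [h]; exact dvd_zero p)
  have hpm : IsCoprime (p : ℤ) m :=
    hp'.irreducible.coprime_iff_not_dvd.mpr (mt Int.natCast_dvd_natCast.mp hm)
  obtain ⟨u, w, e⟩ : IsCoprime ((p : ℤ) ^ (v + 2)) m := hpm.pow_left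
  set c : ℤ := -1 - p * (w * m) with hc
  have c1 : (p : ℤ) ^ (v + 2) ∣ c - (-(1 + p)) :=
    ⟨p * u, by rw [hc]; linear_combination (-p) * e⟩
  have c2 : (m : ℤ) ∣ c - (-1) := ⟨-(p * w), by rw [hc]; ring⟩
  have c3 : IsCoprime c ((p : ℤ) * m) := ⟨-1, -w, by rw [hc]; ring⟩
  have hodd : Odd (p ^ v) := (hp.odd_of_ne_two h2).pow
  refine ⟨p ^ (v + 2) * m, p ^ v, c, by have := hp.pos; positivity, ?_, fun x hx => ?_⟩
  · push_cast
    exact (c3.of_mul_right_left.pow_right).mul_right c3.of_mul_right_right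
  push_cast at hx
  have d1 : (p : ℤ) ^ (v + 2) ∣ x - (-(1 + p)) := by
    have := ((Dvd.intro _ rfl).trans hx).add c1
    rwa [sub_add_sub_cancel] at this
  have d2 : (m : ℤ) ∣ x - (-1) := by
    have := ((Dvd.intro_left _ rfl).trans hx).add c2
    rwa [sub_add_sub_cancel] at this
  have d3 : (p : ℤ) ∣ x - (-1) := by
    have := ((dvd_pow_self (p : ℤ) (by omega)).trans d1).sub (dvd_refl (p : ℤ))
    exact (show x - -(1 + p) - p = x - -1 by ring) ▸ this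
  have d4 : (p : ℤ) ^ (v + 1) ∣ x ^ p ^ v + 1 := by
    have := dvd_sub_pow_of_dvd_sub d3 v
    rwa [hodd.neg_one_pow, sub_neg_eq_add] at this
  have d5 : (m : ℤ) ∣ x ^ p ^ v + 1 := by
    have := d2.trans (sub_dvd_pow_sub_pow x (-1) (p ^ v))
    rwa [hodd.neg_one_pow, sub_neg_eq_add] at this
  refine ⟨(pow_dvd_pow _ (by omega)).trans d1, ?_, (dvd_pow_self _ (by omega)).trans d4⟩
  push_cast
  exact hpm.pow_left.mul_dvd ((pow_dvd_pow _ (by omega)).trans d4) d5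

lemma par (p n B : ℕ) (hp : p.Prime) (h2 : p ≠ 2) (h3 : 3 ≤ n) :
    ∃ k l N : ℕ, B < l ∧ Par' p n k l ∧ n ∣ l ^ N + 1 ∧ p ∣ l ^ N + 1 := by
  obtain ⟨B', s, hs⟩ := stBlk.hs n
  have hp' : Prime (p : ℤ) := Nat.prime_iff_prime_int.mp hp
  have hp2 := hp.two_le
  obtain ⟨m, hm⟩ : Even (p - 1) := hp.even_sub_one h2
  obtain ⟨q, N, c, hq, hc, H⟩ := res p n hp h2 (by omega)
  obtain ⟨l, hl, hlp, hlc⟩ := Nat.forall_exists_prime_gt_and_zmodEq (max B (max p B')) hq hc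
  obtain ⟨d1, d2, d3⟩ := H l hlc.symm.dvd
  simp only [gt_iff_lt, max_lt_iff] at hl
  refine ⟨(p - 1) * (1 + p * (n ^ 2 + n + 4)), l, N, hl.1, ⟨hp, h2, ⟨?_, ?_⟩, Dvd.intro _ rfl,
    ?_, hlp, hl.2.1.ne', ?_, ?_, s, hs l hl.2.2⟩, by exact_mod_cast d2, by exact_mod_cast d3⟩
  · exact (hp.even_sub_one h2).mul_right _
  · calc n ^ 2 + n + 4 ≤ 1 * (1 + 1 * (n ^ 2 + n + 4)) := by omega
      _ ≤ _ := by gcongr <;> omega
  · intro hd
    rcases (Nat.Prime.dvd_mul hp).mp hd with hd | hd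
    · exact absurd (Nat.le_of_dvd (by omega) hd) (by omega)
    · exact hp.one_lt.ne' (Nat.dvd_one.mp ((Nat.dvd_add_left (Dvd.intro _ rfl)).mp hd))
  · intro hd
    have h4 : (p : ℤ) ∣ 2 := by
      have h5 := ((dvd_pow_self (p : ℤ) two_ne_zero).trans d1).add hd.dvd
      have h6 := h5.sub (dvd_refl (p : ℤ))
      exact (show (l : ℤ) - -(1 + p) + ((1 : ℕ) - l) - p = 2 by push_cast; ring) ▸ h6
    exact h2 ((Nat.prime_dvd_prime_iff_eq hp Nat.prime_two).mp (Int.natCast_dvd_natCast.mp h4))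
  · intro hd
    have h4 : (p : ℤ) ^ 2 ∣ (l : ℤ) ^ (p - 1) - (-(1 + p)) ^ (p - 1) :=
      d1.trans (sub_dvd_pow_sub_pow _ _ _)
    rw [(hp.even_sub_one h2).neg_pow] at h4
    have h5 : (p : ℤ) ^ 2 ∣ (1 + p) ^ (p - 1) - 1 ^ (p - 1 - 1) * p * (p - 1 : ℕ) - 1 ^ (p - 1) :=
      sq_dvd_add_pow_sub_sub (p : ℤ) 1 (p - 1)
    have h6 := hd.dvd
    push_cast at h6
    have h7 : (p : ℤ) * p ∣ p * (p - 1 : ℕ) := by
      have := ((h6.add h4).add h5).neg_right
      rw [← sq]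
      refine Eq.subst (motive := fun t => (p : ℤ) ^ 2 ∣ t) ?_ this
      simp only [one_pow]; ring
    have h8 := Int.natCast_dvd_natCast.mp ((mul_dvd_mul_iff_left hp'.ne_zero).mp h7)
    exact absurd (Nat.le_of_dvd (by omega) h8) (by omega)

end BAS

theorem stBas : StBas where
  base := BAS.base
  good := BAS.good
  par := BAS.par

end Pool.Agent.Lib.Mu14.All
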