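import Pool.Agent.Lib.Mu14.QA
import Pool.Agent.Lib.Mu14.QB
import Pool.Agent.Lib.Mu14.QD
import Pool.Agent.Lib.Mu45.QP
import Pool.Agent.Lib.Mu46.Blue

/-! Elementary symmetric functions of a permuted family of modular forms. -/

set_option autoImplicit false

open Filter Topology PowerSeries

namespace Pool.Agent.Lib.Mu14.All

namespace ESM

open Eff

variable {ι : Type} [Fintype ι]

/-- The elementary symmetric function. -/
noncomputable def es {R : Type} [CommRing R] (s : ℕ) (f : ι → R) : R :=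
  ∑ S ∈ Finset.univ.powersetCard s, ∏ i ∈ S, f i

section
variable {R R' : Type} [CommRing R] [CommRing R']

lemma es_perm (s : ℕ) (f : ι → R) (σ : ι ≃ ι) : es s (fun i => f (σ i)) = es s f := by
  rw [es, es, ← Finset.esymm_map_val, ← Finset.esymm_map_val]
  congr 1
  conv_rhs => rw [← Multiset.map_univ_val_equiv σ, Multiset.map_map]
  rfl

lemma es_mul (s : ℕ) (c : R) (f : ι → R) : es s (fun i => c * f i) = c ^ s * es s f := by
  rw [es, es, Finset.mul_sum]
  refine Finset.sum_congr rfl fun S hS => ?_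
  rw [Finset.prod_mul_distrib, Finset.prod_const, (Finset.mem_powersetCard.1 hS).2]

lemma es_map (g : R →+* R') (s : ℕ) (f : ι → R) : g (es s f) = es s fun i => g (f i) := by
  simp only [es, map_sum, map_prod]

open Classical in
lemma es_val {Γ : Type} [LinearOrderedCommGroupWithZero Γ] (v : Valuation R Γ) (f : ι → R) {γ : Γ}
    (hγ : γ ≠ 0) (hle : ∀ i, v (f i) ≤ γ) {s : ℕ}
    (hs : (Finset.univ.filter fun i => v (f i) = γ).card = s) : v (es s f) = γ ^ s := by
  set S := Finset.univ.filter fun i => v (f i) = γ with hS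
  have h1 : v (∏ i ∈ S, f i) = γ ^ s := by
    rw [map_prod, Finset.prod_congr rfl fun i hi => (Finset.mem_filter.1 hi).2, Finset.prod_const,
      hs]
  rw [es, ← Finset.add_sum_erase _ _ (a := S)
    (Finset.mem_powersetCard.2 ⟨Finset.subset_univ _, hs⟩), Valuation.map_add_eq_of_lt_left, h1]
  rw [h1]
  refine Valuation.map_sum_lt _ (pow_ne_zero _ hγ) fun T hT => ?_
  obtain ⟨h2, h3⟩ := Finset.mem_erase.1 hT
  have h4 := (Finset.mem_powersetCard.1 h3).2
  obtain ⟨j, hj, hj'⟩ : ∃ j ∈ T, j ∉ S := by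
    by_contra h
    push Not at h
    exact h2 (Finset.eq_of_subset_of_card_le h (by omega))
  have h5 : v (f j) < γ := (hle j).lt_of_ne fun e => hj' (Finset.mem_filter.2 ⟨Finset.mem_univ _, e⟩)
  have h6 : ∏ i ∈ T.erase j, v (f i) ≤ γ ^ (T.erase j).card :=
    Finset.prod_le_pow_card _ _ _ fun i _ => hle i
  rw [map_prod, ← Finset.mul_prod_erase _ _ hj, ← h4, ← Finset.card_erase_add_one hj, pow_succ']
  exact (mul_le_mul_right h6 _).trans_lt
    (mul_lt_mul_of_pos_right h5 (pow_pos (zero_lt_iff.2 hγ) _))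

end

/-- A function with its `q`-series. -/
def QQ (F : ℂ → ℂ) (G : ℂ⟦X⟧) : Prop := QS F fun N => coeff N G

lemma QQ.mul {F F' : ℂ → ℂ} {G G' : ℂ⟦X⟧} (h : QQ F G) (h' : QQ F' G') :
    QQ (fun τ => F τ * F' τ) (G * G') := by
  have := stQA.mul h h'
  simpa only [QQ, coeff_mul, Finset.Nat.sum_antidiagonal_eq_sum_range_succ
    fun i j => coeff i G * coeff j G'] using this

lemma QQ.one : QQ (fun _ => 1) 1 := by
  refine ⟨fun τ _ => ?_, 1, 0, fun N => ?_⟩
  · have := hasSum_single (f := fun N : ℕ => coeff N (1 : ℂ⟦X⟧) * ee (N * τ)) 0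
      fun N hN => by simp [coeff_one, hN]
    simpa [ee] using this
  · rw [coeff_one]; split_ifs <;> simp

lemma QQ.zero : QQ (fun _ => 0) 0 :=
  ⟨fun τ _ => by simp, 0, 0, fun N => by simp⟩

lemma QQ.add {F F' : ℂ → ℂ} {G G' : ℂ⟦X⟧} (h : QQ F G) (h' : QQ F' G') :
    QQ (fun τ => F τ + F' τ) (G + G') := by
  obtain ⟨C, B, hC⟩ := h.gro
  obtain ⟨C', B', hC'⟩ := h'.gro
  refine ⟨fun τ hτ => by simpa only [map_add, add_mul] using (h.sum τ hτ).add (h'.sum τ hτ),
    C + C', B + B', fun N => ?_⟩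
  have c1 : 0 ≤ C := by simpa using (norm_nonneg _).trans (hC 0)
  have c2 : 0 ≤ C' := by simpa using (norm_nonneg _).trans (hC' 0)
  have c3 : (1 : ℝ) ≤ N + 1 := by simp
  rw [map_add, add_mul]
  refine (norm_add_le _ _).trans (add_le_add ((hC N).trans ?_) ((hC' N).trans ?_))
  · gcongr; omega
  · gcongr; omega

lemma QQ.pow {F : ℂ → ℂ} {G : ℂ⟦X⟧} (h : QQ F G) (m : ℕ) : QQ (fun τ => F τ ^ m) (G ^ m) := by
  induction m with
  | zero => simpa using QQ.one
  | succ m ih => simpa only [pow_succ] using ih.mul h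

lemma QQ.es {F : ι → ℂ → ℂ} {G : ι → ℂ⟦X⟧} (h : ∀ i, QQ (F i) (G i)) (s : ℕ) :
    QQ (fun τ => es s fun i => F i τ) (es s G) := by
  classical
  have hp : ∀ S : Finset ι, QQ (fun τ => ∏ i ∈ S, F i τ) (∏ i ∈ S, G i) := fun S => by
    induction S using Finset.induction_on with
    | empty => simpa using QQ.one
    | insert i S hi ih => simpa only [Finset.prod_insert hi] using (h i).mul ih
  unfold ESM.es
  generalize (Finset.univ : Finset ι).powersetCard s = T
  induction T using Finset.induction_on with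
  | empty => simpa using QQ.zero
  | insert S T hS ih => simpa only [Finset.sum_insert hS] using (hp S).add ih

lemma qq_mk {F : ℂ → ℂ} {A : ℕ → ℂ} (h : QS F A) : QQ F (mk A) := by
  simpa only [QQ, coeff_mk] using h

omit [Fintype ι] in
lemma lift (O : ValuationSubring ℂ) {A : ι → ℕ → ℂ} (h : ∀ i N, O.valuation (A i N) ≤ 1) :
    ∃ G : ι → O⟦X⟧, ∀ i, PowerSeries.map O.subtype (G i) = mk (A i) :=
  ⟨fun i => mk fun N => ⟨A i N, (O.valuation_le_one_iff _).1 (h i N)⟩, fun i => by ext N; simp⟩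

lemma law_es {M w : ℕ} {F : ι → ℂ → ℂ}
    (h : ∀ a b c e : ℤ, a * e - b * c = 1 → (M : ℤ) ∣ c → c ≠ 0 → ∃ σ : ι ≃ ι, ∀ i,
      ∀ τ : ℂ, 0 < τ.im → F i (mob a b c e τ) = (c * τ + e) ^ w * F (σ i) τ) (s : ℕ) :
    Law M (w * s) fun τ => es s fun i => F i τ := by
  intro a b c e h1 h2 h3 τ hτ
  obtain ⟨σ, hσ⟩ := h a b c e h1 h2 h3
  simp only [hσ _ τ hτ]
  rw [es_mul, es_perm s (fun i => F i τ) σ, pow_mul]

/-- The first coefficients lie in the maximal ideal. -/
def Sm (O : ValuationSubring ℂ) (D : ℕ) (G : ℂ⟦X⟧) : Prop := ∀ N ≤ D, O.valuation (coeff N G) < 1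

lemma Sm.mul {O : ValuationSubring ℂ} {D : ℕ} (G G' : ℂ⟦X⟧) (h : Sm O D G) (h' : Sm O D G') :
    Sm O D (G * G') := fun N hN => by
  rw [coeff_mul]
  refine Valuation.map_sum_lt _ one_ne_zero fun m hm => ?_
  have := Finset.HasAntidiagonal.mem_antidiagonal.1 hm
  rw [map_mul]
  exact mul_lt_one_of_lt_of_le (h _ (by omega)) (h' _ (by omega)).le

lemma Sm.es {O : ValuationSubring ℂ} {D s : ℕ} {G : ι → ℂ⟦X⟧} (h : ∀ i, Sm O D (G i))
    (hs : 0 < s) : Sm O D (es s fun i => G i ^ 8) := fun N hN => by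
  rw [ESM.es, map_sum]
  refine Valuation.map_sum_lt _ one_ne_zero fun S hS => ?_
  refine Finset.prod_induction_nonempty _ (Sm O D) Sm.mul
    (Finset.card_pos.1 ((Finset.mem_powersetCard.1 hS).2 ▸ hs)) (fun i _ => ?_) N hN
  have h2 := Sm.mul _ _ (h i) (h i)
  have h4 := Sm.mul _ _ h2 h2
  convert Sm.mul _ _ h4 h4 using 1
  ring

lemma prim (O : ValuationSubring ℂ) {B : ι → ℕ → ℂ} {N₁ : ℕ} (h : ∀ i N, O.valuation (B i N) ≤ 1)
    (h' : ∃ i, ∃ N ≤ N₁, O.valuation (B i N) = 1) : ∃ s μ, 0 < s ∧ s ≤ Fintype.card ι ∧ μ ≤ N₁ ∧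
      O.valuation (coeff (8 * μ * s) (es s fun i => mk (B i) ^ 8)) = 1 := by
  classical
  obtain ⟨G, hG⟩ := lift O h
  have hB : ∀ i N, B i N = (coeff N (G i) : O) := fun i N => by
    have := congrArg (coeff N) (hG i)
    simpa using this.symm
  obtain ⟨i₀, N₀, hN₀, h0⟩ := h'
  have hex : ∃ N, ∃ i, O.valuation (B i N) = 1 := ⟨N₀, i₀, h0⟩
  have hr : ∀ z : O, IsLocalRing.residue O z ≠ 0 ↔ O.valuation z = 1 := fun z => by
    rw [IsLocalRing.residue_ne_zero_iff_isUnit, O.valuation_eq_one_iff]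
  have hd : ∀ i, X ^ Nat.find hex ∣ PowerSeries.map (IsLocalRing.residue O) (G i) := fun i =>
    X_pow_dvd_iff.2 fun m hm => by
      by_contra e
      exact Nat.find_min hex hm ⟨i, by rw [hB]; exact (hr _).1 (by simpa using e)⟩
  choose D hD using hd
  have hc : ∀ i, constantCoeff (D i) = IsLocalRing.residue O (coeff (Nat.find hex) (G i)) :=
    fun i => by
      have := congrArg (coeff (0 + Nat.find hex)) (hD i)
      rw [coeff_X_pow_mul, zero_add] at this
      simpa using this.symm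
  obtain ⟨s, hs⟩ : ∃ s, (Finset.univ.filter fun i =>
      (1 : Valuation _ (WithZero (Multiplicative ℤ))) (constantCoeff (D i) ^ 8) = 1).card = s :=
    ⟨_, rfl⟩
  have hv := es_val (1 : Valuation _ (WithZero (Multiplicative ℤ)))
    (fun i => constantCoeff (D i) ^ 8) one_ne_zero (fun i => Valuation.one_apply_le_one _) hs
  obtain ⟨i₁, h1⟩ := Nat.find_spec hex
  refine ⟨s, Nat.find hex, ?_, hs ▸ Finset.card_le_univ _,
    (Nat.find_min' hex ⟨i₀, h0⟩).trans hN₀, ?_⟩
  · refine hs ▸ Finset.card_pos.2 ⟨i₁, Finset.mem_filter.2 ⟨Finset.mem_univ _, ?_⟩⟩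
    refine Valuation.one_apply_of_ne_zero (pow_ne_zero _ ?_)
    rw [hc, hr, ← hB]; exact h1
  have e1 : (es s fun i => mk (B i) ^ 8) = PowerSeries.map O.subtype (es s fun i => G i ^ 8) := by
    simp only [es_map, map_pow, hG]
  rw [e1, coeff_map]
  refine (hr _).1 ?_
  rw [← coeff_map, es_map]
  simp only [map_pow, hD, mul_pow]
  rw [es_mul, ← pow_mul, ← pow_mul, ← mul_assoc, mul_comm _ 8]
  have e2 := coeff_X_pow_mul (es s fun i => D i ^ 8) (8 * Nat.find hex * s) 0
  rw [zero_add] at e2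
  rw [e2, coeff_zero_eq_constantCoeff, es_map]
  intro e
  simp only [map_pow] at e
  simp [e] at hv

end ESM

open ESM in
theorem stQ0F : StQ0F := by
  classical
  intro ι _ c₀ M' w F A Y O hc hM hcop hw hv hF hA hlaw a b c e h1 h2 h3 hY i
  obtain ⟨G, hG⟩ := lift O hA
  have key : ∀ s, O.valuation (es s Y) ≤ 1 := fun s => by
    obtain ⟨N₀, j, g, hg⟩ := stQ0 stQA (stQB stQA (stQD stQA) stQE) c₀ M' (w * s) hc hM hcop (hw.mul_right _)
    have t1 := hg _ _ (QQ.es (fun i => qq_mk (hF i)) s) (law_es hlaw s) a b c e h1 h2 h3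
    have t2 : Tendsto (fun y : ℝ => es s fun i => F i (mob a b c e (y * Complex.I)) /
        (c * (y * Complex.I) + e) ^ w) atTop (𝓝 (es s Y)) :=
      tendsto_finsetSum _ fun S _ => tendsto_finsetProd _ fun i _ => hY i
    rw [tendsto_nhds_unique t2 (t1.congr fun y => by
      simp only [div_eq_inv_mul]
      rw [es_mul, pow_mul, inv_pow]), map_div₀, map_pow, hv, one_pow, div_one]
    refine Valuation.map_sum_le _ fun N _ => val_mul (val_int _) ?_
    simp only [← hG]
    rw [← es_map, coeff_map]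
    exact O.valuation_le_one _
  obtain ⟨i₀, -, h0⟩ := Finset.exists_max_image Finset.univ (fun i => O.valuation (Y i))
    ⟨i, Finset.mem_univ _⟩
  by_contra hi
  have h4 : 1 < O.valuation (Y i₀) := (not_le.1 hi).trans_le (h0 i (Finset.mem_univ _))
  have h5 := es_val O.valuation Y (zero_lt_one.trans h4).ne' (fun i => h0 i (Finset.mem_univ _)) rfl
  refine absurd (h5 ▸ key _) (not_le.2 (one_lt_pow₀ h4 (Finset.card_pos.2 ⟨i₀, ?_⟩).ne'))
  simp

open ESM Eff in
theorem stQP' : StQP' := by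
  intro ι _ c₀ M' w N₁ F H A B O hc hM hcop hw hv hF hH hlaw hcusp hB1 hB2 hlt
  obtain ⟨s, μ, hs, hs', hμ, hN⟩ := ESM.prim O hB1 hB2
  have hA1 := QQ.es (fun i => (qq_mk (hF i)).pow 8) s
  have hB3 := QQ.es (fun i => (qq_mk (hH i)).pow 8) s
  have hA2 := Sm.es (O := O) (G := fun i => mk (A i)) (D := bd (c₀ * M') (w * s) (8 * μ * s))
    (fun i N hN => by
      rw [coeff_mk]
      refine hlt i N (hN.trans ?_)
      unfold bd
      gcongr) hs
  have hM0 : (M' : ℂ) ≠ 0 := Nat.cast_ne_zero.mpr (by omega)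
  have hM1 : (0 : ℝ) < M' := Nat.cast_pos.mpr (by omega)
  obtain ⟨B'', h1, h2⟩ := Eff.q1 stQA (Eff.stQB (stQD stQA)) (w := w * s) hc hM hcop
    (hw.mul_right _) hA1 (law_es (F := fun i τ => F i τ ^ 8) hlaw s)
    (a := 1) (b := 0) (c := c₀) (e := 1) (by ring) dvd_rfl (Nat.isCoprime_iff_coprime.mpr hcop)
  have h3 : B'' = fun N => coeff N (es s fun i => mk (B i) ^ 8) :=
    stQA.uniq M' hM1 fun τ hτ => ⟨_, h1 τ hτ, by
    have h4 := hB3.sum (τ / M') (by rw [Complex.div_natCast_im]; positivity)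
    have h5 : (c₀ : ℂ) * τ + 1 ≠ 0 := fun h => by
      have := congrArg Complex.im h
      simp [hc.ne', hτ.ne'] at this
    simp only [Int.cast_natCast, Int.cast_one, Complex.ofReal_natCast, hcusp _ τ hτ]
    rw [es_mul, ← pow_mul, mul_div_cancel_left₀ _ (pow_ne_zero _ h5)]
    simpa only [mul_div_assoc] using h4⟩
  have h6 : O.valuation (ee (1 / M')) = 1 := by
    have h7 : ee (1 / M') ^ M' = 1 := by
      rw [← ee_nat_mul, mul_one_div_cancel hM0]; simpa using ee_int 1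
    have := congrArg O.valuation h7
    rwa [map_pow, map_one, pow_eq_one_iff_left (by omega)] at this
  have := h2 O.toSubring (QP.mx O) ((O.valuation_le_one_iff _).mp (by rw [map_inv₀, hv, inv_one]))
    ((O.valuation_le_one_iff _).mp h6.le) _ hA2 _ le_rfl
  rw [h3] at this
  exact (show O.valuation _ < 1 from this).ne hN

end Pool.Agent.Lib.Mu14.All
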