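import Pool.Agent.Lib.Mu46.FFB1

/-! Block FFB: vanishing and nonvanishing of the Fourier transform. -/

set_option autoImplicit false

open Polynomial Finset

namespace Pool.Agent.Lib.Mu14.All

namespace FFB

variable {K : Type} [Field K] [Fintype K] {p r : ℕ} [Fact r.Prime] [Algebra (ZMod r) K]
  {O : ValuationSubring ℂ}

lemma star1 (h : StStar) (hp : p.Prime) (hO : O.valuation p < 1) (hr : r ≡ 1 [MOD p])
    (hK : Fintype.card K = r ^ 2) {ψ : AddChar (ZMod r) ℂ} (hψ : ψ ≠ 1)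
    {lam : K →ₗ[ZMod r] ZMod r} (hl : ∀ t, lam (algebraMap (ZMod r) K t) = t)
    {g : (ZMod r)[X]} (hm : g.Monic) (hd : g ∣ X ^ r ^ 2 - X) (Φ : K[X] → ℂ)
    (hΦ : ∀ P, O.valuation (Φ P) ≤ 1) :
    Cv O (GS ψ (fun P => Φ (P.map (algebraMap _ K))) (cmp g))
      ((-1) ^ ((g.natDegree - g.roots.card) / 2) * ∑ ζ ∈ EQ r (Om K g),
        Φ (PP (Om K g) ζ) * ψ (lam (∑ ω ∈ Om K g, ω * ζ ω))) :=
  h p r K O ψ (ψ.compAddMonoidHom lam.toAddMonoidHom) Φ g hp hO hr hK hψ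
    (fun t => congrArg ψ (hl t)) hm hd hΦ

lemma core (hK : Fintype.card K = r ^ 2) (lam : K →ₗ[ZMod r] ZMod r) (g : (ZMod r)[X])
    (E : Finset K) (h0 : 0 ∈ E) (hE : (E.card * E.card) ^ (Om K g).card < r) :
    ∃ ζ ∈ EQ r (Om K g), (∀ a b : K → K, (∀ ω ∈ Om K g, a ω ∈ E) → (∀ ω ∈ Om K g, b ω ∈ E) →
      ∑ ω ∈ Om K g, a ω * ζ ω = ∑ ω ∈ Om K g, b ω * ζ ω → ∀ ω ∈ Om K g, a ω = b ω) ∧
      ∃ β, ∀ a : K → K, (∀ ω ∈ Om K g, a ω ∈ E) → lam (∑ ω ∈ Om K g, a ω * ζ ω) ≠ β := by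
  classical
  obtain ⟨T, h1, h2⟩ := fam (Om K g) (image₂ (· - ·) E E)
  have h3 : T.card < r :=
    (h1.trans_le (Nat.pow_le_pow_left (card_image₂_le _ _ _) _)).trans_lt hE
  obtain ⟨q, hq⟩ := gen (Om K g) T h3
  refine ⟨_, EQ_poly hK g q, fun a b ha hb e ω hω => ?_, ?_⟩
  · obtain ⟨c, hc, h4⟩ := h2 (fun ω => a ω - b ω) fun ω hω =>
      mem_image₂_of_mem (ha ω hω) (hb ω hω)
    rw [← sub_eq_zero, ← h4 ω hω]
    refine hq c hc ?_ ω hω
    rw [← sub_eq_zero, ← sum_sub_distrib] at e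
    rw [← e]
    exact sum_congr rfl fun ω hω => by rw [h4 ω hω, if_pos hω, sub_mul]
  · obtain ⟨β, -, hβ⟩ := exists_mem_notMem_of_card_lt_card (t := univ)
      (s := T.image fun c => lam (∑ ω ∈ Om K g, c ω * aeval ω q))
      (card_image_le.trans_lt (by rwa [card_univ, ZMod.card]))
    refine ⟨β, fun a ha e => hβ ?_⟩
    obtain ⟨c, hc, h4⟩ := h2 a fun ω hω => by
      simpa using mem_image₂_of_mem (f := (· - ·)) (ha ω hω) h0
    refine mem_image.2 ⟨c, hc, (congrArg lam ?_).trans e⟩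
    exact sum_congr rfl fun ω hω => by rw [h4 ω hω, if_pos hω]

omit [Fintype K] in
lemma inj_smul {A : Finset K} {ζ : K → K} (h : Set.InjOn ζ A) {s : ZMod r} (hs : s ≠ 0) :
    Set.InjOn (s • ζ) A := fun _ ha _ hb e => h ha hb (smul_right_injective K hs e)

open Classical in
lemma tt (h : StStar) (hp : p.Prime) (hO : O.valuation p < 1) (hr : r ≡ 1 [MOD p])
    (hK : Fintype.card K = r ^ 2) {ψ : AddChar (ZMod r) ℂ} (hψ : ψ ≠ 1)
    {lam : K →ₗ[ZMod r] ZMod r} (hl : ∀ t, lam (algebraMap (ZMod r) K t) = t)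
    {g : (ZMod r)[X]} (hm : g.Monic) (hd : g ∣ X ^ r ^ 2 - X) {A : Finset K} {ζ₀ : K → K}
    (hi : Set.InjOn ζ₀ A) (hc : (Om K g).card ≤ A.card) {s : ZMod r} (hs : s ≠ 0)
    {q : (ZMod r)[X]} (hq : q.map (algebraMap _ K) = PP A (s • ζ₀)) :
    Cv O (TT ψ g q) ((-1) ^ ((g.natDegree - g.roots.card) / 2) *
      ∑ ζ ∈ EQ r (Om K g) with PP (Om K g) ζ = PP A ζ₀, ψ (s * lam (∑ ω ∈ Om K g, ω * ζ ω))) := by
  have k := star1 h hp hO hr hK hψ hl hm hd (fun P => if P = q.map (algebraMap _ K) then 1 else 0)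
    fun _ => val_ite (by simp)
  have inj := map_injective _ (algebraMap (ZMod r) K).injective
  unfold TT
  refine (Cv.of_eq (congrArg (fun Φ => GS ψ Φ (cmp g)) (funext fun P => ?_))).trans
    (k.trans (Cv.of_eq (congrArg _ (Eq.symm ?_))))
  · by_cases e : P = q <;> simp [e, inj.eq_iff]
  rw [sum_filter]
  refine sum_nbij' (s • ·) (s⁻¹ • ·) (fun ζ hζ => EQ_smul hζ s) (fun ζ hζ => EQ_smul hζ _)
    (fun ζ _ => inv_smul_smul₀ hs ζ) (fun ζ _ => smul_inv_smul₀ hs ζ) fun ζ _ => ?_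
  have e : PP (Om K g) (s • ζ) = PP A (s • ζ₀) ↔ PP (Om K g) ζ = PP A ζ₀ := by
    simp only [PP_eq hi hc, PP_eq (inj_smul hi hs) hc, Pi.smul_apply,
      (smul_right_injective K hs).eq_iff]
  simp only [hq, e, Pi.smul_apply, mul_smul_comm, ← smul_sum, map_smul, smul_eq_mul, ite_mul,
    one_mul, zero_mul]

lemma val_two (hp : p.Prime) (h2 : p ≠ 2) (hO : O.valuation p < 1) :
    O.valuation (2 : ℂ) = 1 := by
  obtain ⟨k, rfl⟩ := hp.odd_of_ne_two h2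
  have h := (cv_nat hO (a := 2 * (k + 1)) (b := 1)
    ((Nat.modEq_iff_dvd' (by omega)).2 ⟨1, by omega⟩).symm).val (by simp)
  refine le_antisymm (by exact_mod_cast val_nat (O := O) 2) (not_lt.1 fun e => ?_)
  rw [Nat.cast_mul, map_mul, Nat.cast_ofNat] at h
  exact (mul_lt_one_of_lt_of_le e (val_nat _)).ne h

/-- Some Fourier coefficient is a unit. -/
lemma unit (hp : p.Prime) (h2 : p ≠ 2) (hO : O.valuation p < 1) (hr : r ≡ 1 [MOD p])
    {ψ : AddChar (ZMod r) ℂ} (hψ : ψ ≠ 1) {ι : Type} (S : Finset ι) (μ : ι → ZMod r)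
    {x₀ : ι} (h0 : x₀ ∈ S) {β : ZMod r} (hβ : ∀ x ∈ S, μ x ≠ β ∧ -μ x ≠ β)
    (hu : ∀ e : ZMod r, e = 1 ∨ e = -1 → ∀ x ∈ S, ∀ y ∈ S, e * μ x = μ x₀ → e * μ y = μ x₀ →
      x = y) : ∃ s ≠ 0, O.valuation (∑ x ∈ S, ψ (s * μ x) + ∑ x ∈ S, ψ (s * -μ x)) = 1 := by
  by_contra hn
  simp only [not_exists, not_and] at hn
  have v1 : ∀ (s : ZMod r) (f : ι → ZMod r), O.valuation (∑ x ∈ S, ψ (s * f x)) ≤ 1 :=
    fun s f => Valuation.map_sum_le _ fun _ _ => (val_psi ψ _).le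
  have h1 : O.valuation (∑ s, (∑ x ∈ S, ψ (s * μ x) + ∑ x ∈ S, ψ (s * -μ x)) *
      (ψ (-(s * μ x₀)) - ψ (-(s * β)))) < 1 := by
    refine Valuation.map_sum_lt _ one_ne_zero fun s _ => ?_
    by_cases hs : s = 0
    · simp [hs]
    · rw [map_mul]
      exact mul_lt_one_of_lt_of_le
        (lt_of_le_of_ne (Valuation.map_add_le _ (v1 s μ) (v1 s fun x => -μ x)) (hn s hs))
        (Valuation.map_sub_le _ (val_psi ψ _).le (val_psi ψ _).le)
  simp only [mul_sub, add_mul, sum_sub_distrib, sum_add_distrib, four hψ] at h1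
  rw [filter_eq_empty_iff.2 fun x hx => (hβ x hx).1, filter_eq_empty_iff.2 fun x hx => (hβ x hx).2,
    card_empty, Nat.cast_zero, mul_zero, add_zero, sub_zero, ← mul_add, map_mul,
    (cv_nat hO hr).val (by simp), one_mul] at h1
  have c1 : (S.filter fun x => μ x = μ x₀).card = 1 :=
    le_antisymm (card_le_one.2 fun x hx y hy => hu 1 (Or.inl rfl) x (mem_filter.1 hx).1 y
      (mem_filter.1 hy).1 (by rw [one_mul, (mem_filter.1 hx).2])
      (by rw [one_mul, (mem_filter.1 hy).2])) (card_pos.2 ⟨x₀, mem_filter.2 ⟨h0, rfl⟩⟩)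
  have c2 : (S.filter fun x => -μ x = μ x₀).card ≤ 1 :=
    card_le_one.2 fun x hx y hy => hu (-1) (Or.inr rfl) x (mem_filter.1 hx).1 y
      (mem_filter.1 hy).1 (by rw [neg_one_mul, (mem_filter.1 hx).2])
      (by rw [neg_one_mul, (mem_filter.1 hy).2])
  rw [c1] at h1
  rcases Nat.le_one_iff_eq_zero_or_eq_one.1 c2 with e | e <;> rw [e] at h1
  · simp at h1
  · rw [Nat.cast_one, one_add_one_eq_two, val_two hp h2 hO] at h1
    exact lt_irrefl _ h1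

lemma nv (h : StStar) (hp : p.Prime) (h2 : p ≠ 2) (hO : O.valuation p < 1) (hr : r ≡ 1 [MOD p])
    (hK : Fintype.card K = r ^ 2) {ψ : AddChar (ZMod r) ℂ} (hψ : ψ ≠ 1) {n m t : ℕ}
    {G : Finset (ZMod r)[X]} (hB : ((2 * (n * n) + 2) * (2 * (n * n) + 2)) ^ n < r)
    (hne : G.Nonempty) (hG : G.card ≤ n) (hmn : m ≤ n)
    (H : ∀ g ∈ G, g.Monic ∧ g.natDegree = m ∧ g ∣ X ^ r ^ 2 - X ∧ g.roots.card = t) :
    ∃ q : (ZMod r)[X], q.Monic ∧ q.natDegree = m ∧ q ∣ X ^ (r ^ 2 - 1) - 1 ∧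
      O.valuation (∑ g ∈ G, (TT ψ g q + TT ψ⁻¹ g q)) = 1 := by
  classical
  obtain ⟨lam, hl⟩ := retr (K := K) (r := r)
  obtain ⟨g₀, hg₀⟩ := hne
  have hP := fun g hg => Om_prod hK (H g hg).1 (H g hg).2.2.1
  have hc : ∀ g ∈ G, (Om K g).card = m := fun g hg => (hP g hg).2.trans (H g hg).2.1
  set U := G.biUnion (Om K) with hU
  have cU : U.card ≤ n * n := (card_biUnion_le_card_mul _ _ n fun g hg =>
    (hc g hg).trans_le hmn).trans (Nat.mul_le_mul_right n hG)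
  set E := insert 0 (insert 1 (U ∪ U.image Neg.neg)) with hE
  have cE : E.card ≤ 2 * (n * n) + 2 := by
    have := card_insert_le (0 : K) (insert 1 (U ∪ U.image Neg.neg))
    have := card_insert_le (1 : K) (U ∪ U.image Neg.neg)
    have := card_union_le U (U.image Neg.neg)
    have := card_image_le (s := U) (f := Neg.neg)
    rw [hE]
    omega
  have E0 : (0 : K) ∈ E := mem_insert_self _ _
  have Es : ∀ (ω x : K), (Pi.single ω 1 : K → K) x ∈ E := fun ω x => by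
    rw [Pi.single_apply]
    split_ifs
    exacts [mem_insert_of_mem (mem_insert_self _ _), E0]
  have EU : ∀ e : ZMod r, e = 1 ∨ e = -1 → ∀ g ∈ G, ∀ ω ∈ Om K g, e • ω ∈ E := by
    intro e he g hg ω hω
    have : ω ∈ U := mem_biUnion.2 ⟨g, hg, hω⟩
    refine mem_insert_of_mem (mem_insert_of_mem ?_)
    rcases he with rfl | rfl
    · rw [one_smul]; exact mem_union_left _ this
    · rw [neg_one_smul]; exact mem_union_right _ (mem_image_of_mem _ this)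
  obtain ⟨ζ₀, hz, G1, β, G2⟩ := core hK lam g₀ E E0 (lt_of_le_of_lt ((Nat.pow_le_pow_left
    (Nat.mul_le_mul cE cE) _).trans (Nat.pow_le_pow_right (by positivity)
      ((hc g₀ hg₀).trans_le hmn))) hB)
  have hs1 : ∀ ω ∈ Om K g₀, ∑ x ∈ Om K g₀, (Pi.single ω 1 : K → K) x * ζ₀ x = ζ₀ ω :=
    fun ω hω => by simp [Pi.single_apply, hω]
  have hi : Set.InjOn ζ₀ (Om K g₀) := fun a ha b hb e => by
    have := G1 _ _ (fun x _ => Es a x) (fun x _ => Es b x) (by rw [hs1 a ha, hs1 b hb, e]) a ha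
    by_contra hn
    simp [hn] at this
  have hnz : ∀ ω ∈ Om K g₀, ζ₀ ω ≠ 0 := fun a ha e => by
    simpa using G1 _ 0 (fun x _ => Es a x) (fun _ _ => E0) (by rw [hs1 a ha, e]; simp) a ha
  set S := G.sigma fun g => (EQ r (Om K g)).filter fun ζ => PP (Om K g) ζ = PP (Om K g₀) ζ₀
    with hS
  have key : ∀ x ∈ S, x.1 ∈ G ∧ x.2 ∈ EQ r (Om K x.1) ∧ ∃ ρ : K → K,
      (∀ ω ∈ Om K g₀, ρ ω ∈ Om K x.1 ∧ x.2 (ρ ω) = ζ₀ ω) ∧
      (∀ ω' ∈ Om K x.1, ∃ ω ∈ Om K g₀, ρ ω = ω') ∧ ∀ e : ZMod r,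
        e • ∑ ω ∈ Om K x.1, ω * x.2 ω = ∑ ω ∈ Om K g₀, (e • ρ ω) * ζ₀ ω := fun x hx => by
    obtain ⟨a1, a2⟩ := mem_sigma.1 hx
    obtain ⟨a2, a3⟩ := mem_filter.1 a2
    have a4 := ((hc _ a1).trans (hc _ hg₀).symm).le
    obtain ⟨ρ, b1, b2, -, b3⟩ := rho hi a4 ((PP_eq hi a4).1 a3)
    exact ⟨a1, a2, ρ, b1, b2, fun e => by simp only [b3, smul_sum, smul_mul_assoc]⟩
  obtain ⟨s, hs, hv⟩ := unit hp h2 hO hr hψ S (fun x => lam (∑ ω ∈ Om K x.1, ω * x.2 ω))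
    (x₀ := ⟨g₀, ζ₀⟩) (mem_sigma.2 ⟨hg₀, mem_filter.2 ⟨hz, rfl⟩⟩) (β := β) (fun x hx => by
      obtain ⟨a1, -, ρ, b1, -, b3⟩ := key x hx
      have c := fun e he => G2 (fun ω => e • ρ ω) fun ω hω => EU e he _ a1 _ (b1 ω hω).1
      have c1 := c 1 (Or.inl rfl)
      have c2 := c (-1) (Or.inr rfl)
      rw [← b3] at c1 c2
      rw [one_smul] at c1
      rw [neg_one_smul, map_neg] at c2
      exact ⟨c1, c2⟩) (fun e he => by
      have he0 : e ≠ 0 := by rcases he with rfl | rfl <;> simp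
      have k2 : ∀ x ∈ S, e * lam (∑ ω ∈ Om K x.1, ω * x.2 ω) = lam (∑ ω ∈ Om K g₀, ω * ζ₀ ω) →
          (∀ ω ∈ Om K g₀, e⁻¹ • ω ∈ Om K x.1 ∧ x.2 (e⁻¹ • ω) = ζ₀ ω) ∧
            ∀ ω' ∈ Om K x.1, ∃ ω ∈ Om K g₀, e⁻¹ • ω = ω' := fun x hx hx' => by
        obtain ⟨a1, a2, ρ, b1, b2, b3⟩ := key x hx
        obtain ⟨t1, d1⟩ := (EQ_fix a2).1
        obtain ⟨t0, d0⟩ := (EQ_fix hz).1
        rw [← d1, ← d0, hl, hl] at hx'
        have d2 := G1 (fun ω => e • ρ ω) id (fun ω hω => EU e he _ a1 _ (b1 ω hω).1)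
          (fun ω hω => by simpa using EU 1 (Or.inl rfl) _ hg₀ _ hω) (by
            rw [← b3, ← d1, Algebra.smul_def, ← map_mul, hx', d0]; rfl)
        have d3 : ∀ ω ∈ Om K g₀, e⁻¹ • ω = ρ ω := fun ω hω =>
          (inv_smul_eq_iff₀ he0).2 (d2 ω hω).symm
        refine ⟨fun ω hω => d3 ω hω ▸ b1 ω hω, fun ω' hω' => ?_⟩
        obtain ⟨ω, c1, c2⟩ := b2 ω' hω'
        exact ⟨ω, c1, (d3 ω c1).trans c2⟩
      intro x hx y hy hx' hy'
      obtain ⟨x1, x2⟩ := k2 x hx hx'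
      obtain ⟨y1, y2⟩ := k2 y hy hy'
      have e1 : Om K x.1 = Om K y.1 := by
        ext ω'
        refine ⟨fun a => ?_, fun a => ?_⟩
        · obtain ⟨ω, c1, rfl⟩ := x2 ω' a
          exact (y1 ω c1).1
        · obtain ⟨ω, c1, rfl⟩ := y2 ω' a
          exact (x1 ω c1).1
      refine Sigma.ext (map_injective _ (algebraMap (ZMod r) K).injective ?_)
        (heq_of_eq (funext fun ω' => ?_))
      · rw [(hP _ (key x hx).1).1, (hP _ (key y hy).1).1, e1]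
      · by_cases a : ω' ∈ Om K x.1
        · obtain ⟨ω, c1, rfl⟩ := x2 ω' a
          rw [(x1 ω c1).2, (y1 ω c1).2]
        · rw [(mem_EQ.1 (key x hx).2.1).1 ω' a, (mem_EQ.1 (key y hy).2.1).1 ω' (e1 ▸ a)])
  obtain ⟨q, q1, q2, q3⟩ := (EQ_fix (EQ_smul hz s)).2
  refine ⟨q, q3, q2.trans (hc _ hg₀), ?_, ?_⟩
  · rw [← map_dvd_map' (algebraMap (ZMod r) K), q1]
    refine prod_dvd_of_coprime (fun a ha b hb hab => isCoprime_X_sub_C_of_isUnit_sub
      (sub_ne_zero.2 fun e => hab (inj_smul hi hs ha hb e)).isUnit) fun ω hω => ?_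
    rw [dvd_iff_isRoot]
    simpa [hK, sub_eq_zero] using
      FiniteField.pow_card_sub_one_eq_one (s • ζ₀ ω) (smul_ne_zero hs (hnz ω hω))
  · have k := fun (ψ : AddChar (ZMod r) ℂ) (hψ : ψ ≠ 1) g hg =>
      tt h hp hO hr hK hψ hl (H g hg).1 (H g hg).2.2.1 hi
        ((hc g hg).trans (hc _ hg₀).symm).le hs q1
    refine (Cv.sum fun g hg => (k ψ hψ g hg).add (k ψ⁻¹ (inv_ne_one.2 hψ) g hg)).val ?_
    rw [sum_congr rfl fun g hg => by rw [(H g hg).2.1, (H g hg).2.2.2, ← mul_add], ← mul_sum,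
      map_mul, map_pow, Valuation.map_neg, map_one, one_pow, one_mul, sum_add_distrib, ← hv,
      hS, sum_sigma, sum_sigma]
    simp only [AddChar.inv_apply, mul_neg]

end FFB

open FFB

theorem stFF (hT : StTy') (h : StStar) : StFF := by
  have hK : ∀ (r : ℕ) [Fact r.Prime] [Fintype (GaloisField r 2)],
      Fintype.card (GaloisField r 2) = r ^ 2 := fun r _ _ => by
    rw [← Nat.card_eq_fintype_card, GaloisField.card r 2 two_ne_zero]
  constructor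
  · intro p r _ O ψ Φ g hp hO hr hψ hm hd hΦ h0
    have := Fintype.ofFinite (GaloisField r 2)
    obtain ⟨lam, hl⟩ := retr (K := GaloisField r 2) (r := r)
    have inj := map_injective _ (algebraMap (ZMod r) (GaloisField r 2)).injective
    have k := star1 h hp hO hr (hK r) hψ hl hm hd (Function.extend (map (algebraMap _ _)) Φ 0)
      fun P => by
        by_cases e : ∃ Q, map (algebraMap (ZMod r) (GaloisField r 2)) Q = P
        · obtain ⟨Q, rfl⟩ := e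
          rw [inj.extend_apply]
          exact hΦ Q
        · rw [Function.extend_apply' _ _ _ e]
          simp
    simp only [inj.extend_apply] at k
    rw [sum_eq_zero, mul_zero] at k
    · exact k
    intro ζ hζ
    obtain ⟨Q, hQ, -⟩ := (EQ_fix hζ).2
    rw [← hQ, inj.extend_apply, h0 Q fun q hq hqQ => (hT.deg Fact.out hq).1 ?_, zero_mul]
    by_contra hn
    have c2 := (hq.coprime_iff_not_dvd.2 hn).map
      (mapRingHom (algebraMap (ZMod r) (GaloisField r 2)))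
    have c3 : IsCoprime (q.map (algebraMap _ _)) (PP (Om (GaloisField r 2) g) ζ) :=
      IsCoprime.prod_right fun ω _ => c2.of_isCoprime_of_dvd_right (dvd_iff_isRoot.2 (by
        simpa [hK r, sub_eq_zero] using FiniteField.pow_card (ζ ω)))
    exact hq.not_isUnit ((isUnit_map _).1 (c3.isUnit_of_dvd (hQ ▸ Polynomial.map_dvd _ hqQ)))
  · refine fun n => ⟨((2 * (n * n) + 2) * (2 * (n * n) + 2)) ^ n,
      fun p r m t _ O ψ G hp h2 hO hr hB hψ hne hG hmn H => ?_⟩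
    have := Fintype.ofFinite (GaloisField r 2)
    exact nv h hp h2 hO hr (hK r) hψ hB hne hG hmn H

end Pool.Agent.Lib.Mu14.All
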