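import Pool.Agent.Lib.Mu46.Blue

/-! Block FFB, first part: roots, descent, generic functions and Fourier inversion. -/

set_option autoImplicit false

open Polynomial Finset

namespace Pool.Agent.Lib.Mu14.All.FFB

section Field
variable {K : Type} [Field K]

omit [Field K] in
lemma img [DecidableEq K] {A B : Finset K} {ρ : K → K} (h1 : ∀ ω ∈ A, ρ ω ∈ B)
    (h2 : Set.InjOn ρ A) (h3 : B.card ≤ A.card) : A.image ρ = B :=
  eq_of_subset_of_card_le (image_subset_iff.2 h1) (by rwa [card_image_of_injOn h2])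

/-- The polynomial with roots `ζ ω`. -/
noncomputable def PP (Ω : Finset K) (ζ : K → K) : K[X] := ∏ ω ∈ Ω, (X - C (ζ ω))

lemma PP_monic (Ω : Finset K) (ζ : K → K) : (PP Ω ζ).Monic :=
  monic_prod_of_monic _ _ fun _ _ => monic_X_sub_C _

lemma PP_deg (Ω : Finset K) (ζ : K → K) : (PP Ω ζ).natDegree = Ω.card := by
  rw [PP, natDegree_prod_of_monic _ _ fun _ _ => monic_X_sub_C _]
  simp

/-- A matching of two root sets. -/
lemma rho {A B : Finset K} {ζ ζ' : K → K} (hi : Set.InjOn ζ A) (hc : B.card ≤ A.card)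
    (h : ∀ ω ∈ A, ∃ ω' ∈ B, ζ' ω' = ζ ω) : ∃ ρ : K → K, (∀ ω ∈ A, ρ ω ∈ B ∧ ζ' (ρ ω) = ζ ω) ∧
      (∀ ω' ∈ B, ∃ ω ∈ A, ρ ω = ω') ∧ PP B ζ' = PP A ζ ∧
        ∑ ω ∈ B, ω * ζ' ω = ∑ ω ∈ A, ρ ω * ζ ω := by
  classical
  choose! ρ h1 h2 using h
  have h3 : Set.InjOn ρ A := fun a ha b hb e => hi ha hb (by rw [← h2 a ha, ← h2 b hb, e])
  have h4 := img h1 h3 hc
  refine ⟨ρ, fun ω hω => ⟨h1 ω hω, h2 ω hω⟩, fun ω' hω' => mem_image.1 (h4 ▸ hω'), ?_, ?_⟩
  · rw [← h4, PP, prod_image h3]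
    exact prod_congr rfl fun ω hω => by rw [h2 ω hω]
  · rw [← h4, sum_image h3]
    exact sum_congr rfl fun ω hω => by rw [h2 ω hω]

lemma PP_eq {A B : Finset K} {ζ ζ' : K → K} (hi : Set.InjOn ζ A) (hc : B.card ≤ A.card) :
    PP B ζ' = PP A ζ ↔ ∀ ω ∈ A, ∃ ω' ∈ B, ζ' ω' = ζ ω := by
  refine ⟨fun h ω hω => ?_, fun h => (rho hi hc h).choose_spec.2.2.1⟩
  have h1 : (PP A ζ).eval (ζ ω) = 0 := by
    rw [PP, eval_prod]
    exact prod_eq_zero hω (by simp)
  rw [← h, PP, eval_prod, prod_eq_zero_iff] at h1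
  obtain ⟨ω', h2, h3⟩ := h1
  exact ⟨ω', h2, (sub_eq_zero.1 (by simpa using h3)).symm⟩

lemma vdm {Ω : Finset K} {c : K → K} (h : ∀ j : ℕ, ∑ ω ∈ Ω, c ω * ω ^ j = 0) :
    ∀ ω ∈ Ω, c ω = 0 := by
  classical
  have H : ∀ Q : K[X], ∑ ω ∈ Ω, c ω * Q.eval ω = 0 := fun Q => by
    induction Q using Polynomial.induction_on' with
    | add P Q hP hQ => simp only [eval_add, mul_add, sum_add_distrib, hP, hQ, add_zero]
    | monomial j a => simp only [eval_monomial, mul_left_comm _ a, ← mul_sum, h, mul_zero]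
  intro ω hω
  have h1 := H (PP (Ω.erase ω) id)
  rw [sum_eq_single_of_mem ω hω fun b hb hne => by
    rw [PP, eval_prod, prod_eq_zero (mem_erase.2 ⟨hne, hb⟩) (by simp), mul_zero]] at h1
  refine (mul_eq_zero.1 h1).resolve_right ?_
  rw [PP, eval_prod]
  refine prod_ne_zero_iff.2 fun b hb => ?_
  simpa [sub_eq_zero] using (mem_erase.1 hb).1.symm

lemma fam [Fintype K] (Ω D : Finset K) : ∃ T : Finset (K → K), T.card = D.card ^ Ω.card ∧
    ∀ c : K → K, (∀ ω ∈ Ω, c ω ∈ D) → ∃ c' ∈ T, ∀ ω ∈ Ω, c' ω = c ω := by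
  classical
  refine ⟨Fintype.piFinset fun ω => if ω ∈ Ω then D else {0}, ?_,
    fun c hc => ⟨fun ω => if ω ∈ Ω then c ω else 0, Fintype.mem_piFinset.2 fun ω => ?_,
      fun ω hω => if_pos hω⟩⟩
  · rw [Fintype.card_piFinset]
    simp [apply_ite Finset.card, prod_ite_mem]
  · split_ifs with h
    exacts [hc ω h, mem_singleton_self 0]

variable {r : ℕ} [Fact r.Prime] [Algebra (ZMod r) K]

/-- A generic polynomial over the prime field. -/
lemma gen (Ω : Finset K) (T : Finset (K → K)) (hT : T.card < r) : ∃ q : (ZMod r)[X],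
    ∀ c ∈ T, ∑ ω ∈ Ω, c ω * aeval ω q = 0 → ∀ ω ∈ Ω, c ω = 0 := by
  classical
  let L : (K → K) → (ZMod r)[X] →ₗ[ZMod r] K := fun c =>
    ∑ ω ∈ Ω, (LinearMap.mulLeft (ZMod r) (c ω)).comp (aeval ω).toLinearMap
  have hL : ∀ c q, L c q = ∑ ω ∈ Ω, c ω * aeval ω q := fun c q => by simp [L]
  have h := Submodule.iUnion_ssubset_of_forall_ne_top_of_card_lt T
    (fun c => if ∀ ω ∈ Ω, c ω = 0 then ⊥ else LinearMap.ker (L c)) (fun c => ?_)
    (by rw [ENat.card_eq_coe_fintype_card, ZMod.card]; exact_mod_cast hT)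
  · obtain ⟨q, -, hq⟩ := Set.exists_of_ssubset h
    refine ⟨q, fun c hc h0 => ?_⟩
    by_contra hn
    refine hq (Set.mem_iUnion₂.2 ⟨c, hc, ?_⟩)
    rw [if_neg hn]
    exact LinearMap.mem_ker.2 ((hL c q).trans h0)
  · split_ifs with h0
    · exact bot_ne_top
    · refine fun e => h0 (vdm fun j => ?_)
      have : X ^ j ∈ LinearMap.ker (L c) := e ▸ Submodule.mem_top
      simpa [hL] using this

lemma fix {y : K} (h : y ^ r = y) : ∃ t, algebraMap (ZMod r) K t = y := by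
  have := charP_of_injective_algebraMap (algebraMap (ZMod r) K).injective r
  exact (bot_le (a := (algebraMap (ZMod r) K).fieldRange))
    ((Subfield.mem_bot_iff_pow_eq_self K r).2 h)

lemma frob : ∃ σ : K →ₐ[ZMod r] K, ∀ y, σ y = y ^ r :=
  ⟨FiniteField.frobeniusAlgHom (ZMod r) K, fun y => by
    rw [FiniteField.coe_frobeniusAlgHom, ZMod.card]⟩

lemma retr : ∃ lam : K →ₗ[ZMod r] ZMod r,
    ∀ t, lam (algebraMap (ZMod r) K t) = t := by
  obtain ⟨g, hg⟩ := (Algebra.linearMap (ZMod r) K).exists_leftInverse_of_injective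
    (LinearMap.ker_eq_bot.2 (algebraMap (ZMod r) K).injective)
  exact ⟨g, fun t => LinearMap.congr_fun hg t⟩

open Classical in
/-- The root set. -/
noncomputable def Om (K : Type) [Field K] [Algebra (ZMod r) K] (g : (ZMod r)[X]) : Finset K :=
  (g.aroots K).toFinset

lemma Om_pow {g : (ZMod r)[X]} {ω : K} (h : ω ∈ Om K g) : ω ^ r ∈ Om K g := by
  obtain ⟨σ, hσ⟩ := frob (K := K) (r := r)
  simp only [Om, Multiset.mem_toFinset, mem_aroots'] at h ⊢
  exact ⟨h.1, by rw [← hσ, aeval_algHom_apply, h.2, map_zero]⟩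

variable [Fintype K]

lemma Om_prod (hK : Fintype.card K = r ^ 2) {g : (ZMod r)[X]} (hm : g.Monic)
    (hd : g ∣ X ^ r ^ 2 - X) :
    g.map (algebraMap (ZMod r) K) = PP (Om K g) id ∧ (Om K g).card = g.natDegree := by
  classical
  have h0 := FiniteField.X_pow_card_sub_X_ne_zero K (Fintype.one_lt_card (α := K))
  have h1 : g.map (algebraMap (ZMod r) K) ∣ X ^ Fintype.card K - X := by
    simpa [hK] using Polynomial.map_dvd (algebraMap (ZMod r) K) hd
  have h2 : (X ^ Fintype.card K - X : K[X]).Splits := by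
    rw [splits_iff_card_roots, FiniteField.roots_X_pow_card_sub_X,
      FiniteField.X_pow_card_sub_X_natDegree_eq K Fintype.one_lt_card]
    rfl
  have h3 := h2.of_dvd h0 h1
  have h4 : (g.aroots K).Nodup := Multiset.nodup_of_le (roots.le_of_dvd h0 h1) (by
    rw [FiniteField.roots_X_pow_card_sub_X]; exact univ.nodup)
  have h5 : (Om K g).val = g.aroots K := by
    rw [Om, Multiset.toFinset_val, h4.dedup]
  constructor
  · rw [PP, prod_eq_multiset_prod, h5]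
    exact h3.eq_prod_roots_of_monic (hm.map _)
  · rw [card_def, h5, aroots_def, ← h3.natDegree_eq_card_roots, natDegree_map]

omit [Fact r.Prime] [Algebra (ZMod r) K] in
lemma mem_EQ {Ω : Finset K} {ζ : K → K} :
    ζ ∈ EQ r Ω ↔ (∀ ω ∉ Ω, ζ ω = 0) ∧ ∀ ω, ζ (ω ^ r) = ζ ω ^ r := by simp [EQ]

lemma EQ_fix {g : (ZMod r)[X]} {ζ : K → K} (h : ζ ∈ EQ r (Om K g)) :
    (∃ t, algebraMap (ZMod r) K t = ∑ ω ∈ Om K g, ω * ζ ω) ∧ ∃ q : (ZMod r)[X],
      q.map (algebraMap (ZMod r) K) = PP (Om K g) ζ ∧ q.natDegree = (Om K g).card ∧ q.Monic := by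
  classical
  obtain ⟨σ, hσ⟩ := frob (K := K) (r := r)
  have h1 : Set.InjOn σ (Om K g) := σ.toRingHom.injective.injOn
  have h2 := img (fun ω hω => hσ ω ▸ Om_pow hω) h1 le_rfl
  have h3 : ∀ ω, σ (ζ ω) = ζ (σ ω) := fun ω => by rw [hσ, hσ, (mem_EQ.1 h).2]
  constructor
  · refine fix ?_
    rw [← hσ, map_sum]
    conv_rhs => rw [← h2, sum_image h1]
    exact sum_congr rfl fun ω _ => by rw [map_mul, h3]
  · have h4 : (PP (Om K g) ζ).map σ.toRingHom = PP (Om K g) ζ := by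
      rw [PP, Polynomial.map_prod]
      conv_rhs => rw [← h2, prod_image h1]
      exact prod_congr rfl fun ω _ => by simp [h3]
    rw [← PP_deg _ ζ]
    refine lifts_and_natDegree_eq_and_monic ((lifts_iff_coeff_lifts _).2 fun i => fix ?_)
      (PP_monic _ _)
    rw [← hσ]
    exact (coeff_map σ.toRingHom i).symm.trans (by rw [h4])

lemma EQ_smul {Ω : Finset K} {ζ : K → K} (h : ζ ∈ EQ r Ω) (s : ZMod r) : s • ζ ∈ EQ r Ω := by
  obtain ⟨σ, hσ⟩ := frob (K := K) (r := r)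
  rw [mem_EQ] at h ⊢
  refine ⟨fun ω hω => by simp [h.1 ω hω], fun ω => ?_⟩
  rw [Pi.smul_apply, Pi.smul_apply, h.2, ← hσ, ← hσ, map_smul]

open Classical in
lemma EQ_poly (hK : Fintype.card K = r ^ 2) (g q : (ZMod r)[X]) :
    (fun ω => if ω ∈ Om K g then aeval ω q else 0) ∈ EQ r (Om K g) := by
  obtain ⟨σ, hσ⟩ := frob (K := K) (r := r)
  refine mem_EQ.2 ⟨fun ω hω => if_neg hω, fun ω => ?_⟩
  by_cases h : ω ∈ Om K g
  · rw [if_pos h, if_pos (Om_pow h), ← hσ, ← hσ, aeval_algHom_apply]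
  · rw [if_neg h, if_neg, zero_pow (Fact.out : r.Prime).ne_zero]
    refine fun h' => h ?_
    have := Om_pow h'
    rwa [← pow_mul, ← sq, ← hK, FiniteField.pow_card] at this

end Field

/-- Fourier inversion. -/
lemma four {r : ℕ} [Fact r.Prime] {ψ : AddChar (ZMod r) ℂ} (hψ : ψ ≠ 1) {ι : Type}
    (S : Finset ι) (μ : ι → ZMod r) (a : ZMod r) :
    ∑ s, (∑ x ∈ S, ψ (s * μ x)) * ψ (-(s * a)) = r * (S.filter fun x => μ x = a).card := by
  simp only [sum_mul, ← AddChar.map_add_eq_mul, ← sub_eq_add_neg, ← mul_sub]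
  rw [sum_comm]
  simp only [AddChar.sum_mulShift _ (AddChar.IsPrimitive.of_ne_one hψ), sub_eq_zero, ZMod.card]
  rw [card_filter]
  push_cast
  rw [mul_sum]
  exact sum_congr rfl fun x _ => by split_ifs <;> simp

end Pool.Agent.Lib.Mu14.All.FFB
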