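import Pool.Agent.Lib.Mu46.Blue

/-! Block FFA: the Fourier transform at a regular element that splits over the quadratic
extension. -/

set_option autoImplicit false

open Matrix Polynomial Finset

namespace Pool.Agent.Lib.Mu14.All

namespace FFA

variable {r : ℕ} [Fact r.Prime] {K : Type} [Field K] [Fintype K] [Algebra (ZMod r) K]

omit [Fintype K] in
lemma chK : CharP K r := charP_of_injective_algebraMap' (ZMod r) r

omit [Fintype K] in
lemma fr_add (x y : K) : (x + y) ^ r = x ^ r + y ^ r := by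
  have := chK (r := r) (K := K)
  exact add_pow_char x y r

omit [Fintype K] in
lemma fr_alg (t : ZMod r) : algebraMap (ZMod r) K t ^ r = algebraMap (ZMod r) K t := by
  rw [← map_pow, ZMod.pow_card]

omit [Fact r.Prime] [Algebra (ZMod r) K] in
lemma fr_fr (hK : Fintype.card K = r ^ 2) (x : K) : (x ^ r) ^ r = x := by
  rw [← pow_mul, ← pow_two, ← hK, FiniteField.pow_card]

omit [Fintype K] in
lemma fr_fix {x : K} (h : x ^ r = x) : ∃ t : ZMod r, algebraMap (ZMod r) K t = x := by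
  have := chK (r := r) (K := K)
  have h1 : x ∈ (⊥ : Subfield K) := (Subfield.mem_bot_iff_pow_eq_self K r).2 h
  rw [← ZMod.fieldRange_castHom_eq_bot r] at h1
  obtain ⟨t, ht⟩ := h1
  exact ⟨t, (RingHom.congr_fun (RingHom.ext_zmod _ _) t).trans ht⟩

omit [Fintype K] in
lemma fr_aeval (g : (ZMod r)[X]) (x : K) : aeval (x ^ r) g = aeval x g ^ r := by
  have h := aeval_algHom_apply (FiniteField.frobeniusAlgHom (ZMod r) K) x g
  rwa [FiniteField.coe_frobeniusAlgHom, ZMod.card] at h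

omit [Fact r.Prime] [Algebra (ZMod r) K] in
lemma mem_EQ {Ω : Finset K} {ζ : K → K} :
    ζ ∈ EQ r Ω ↔ (∀ ω ∉ Ω, ζ ω = 0) ∧ ∀ ω, ζ (ω ^ r) = ζ ω ^ r := by
  simp [EQ]

open Classical in
/-- Equivariant functions on a disjoint union. -/
lemma sum_union' {A B : Finset K} (hd : Disjoint A B) (hA : ∀ ω, ω ^ r ∈ A ↔ ω ∈ A)
    (hB : ∀ ω, ω ^ r ∈ B ↔ ω ∈ B) (H : (K → K) → ℂ) :
    ∑ ζ ∈ EQ r (A ∪ B), H ζ = ∑ ζ ∈ EQ r A, ∑ ξ ∈ EQ r B, H (ζ + ξ) := by
  have hr : r ≠ 0 := (Fact.out : r.Prime).ne_zero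
  have res : ∀ {S : Finset K}, (∀ ω, ω ^ r ∈ S ↔ ω ∈ S) → ∀ ζ : K → K,
      (∀ ω, ζ (ω ^ r) = ζ ω ^ r) → (fun x => if x ∈ S then ζ x else 0) ∈ EQ r S := by
    intro S hS ζ h
    refine mem_EQ.2 ⟨fun ω hω => if_neg hω, fun ω => ?_⟩
    by_cases h1 : ω ∈ S
    · simp only [h1, (hS ω).2 h1, if_true, h]
    · simp only [h1, mt (hS ω).1 h1, if_false, zero_pow hr]
  have add : ∀ ζ ∈ EQ r (A ∪ B), ((fun x => if x ∈ A then ζ x else 0) +
      fun x => if x ∈ B then ζ x else 0) = ζ := by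
    intro ζ hζ
    funext x
    by_cases h1 : x ∈ A
    · simp [h1, disjoint_left.1 hd h1]
    · by_cases h2 : x ∈ B
      · simp [h1, h2]
      · simp [h1, h2, (mem_EQ.1 hζ).1 x (by simp [h1, h2])]
  rw [← sum_product']
  refine sum_nbij' (fun ζ => (fun x => if x ∈ A then ζ x else 0, fun x => if x ∈ B then ζ x else 0))
    (fun q => q.1 + q.2) (fun ζ hζ => ?_) (fun q hq => ?_) add (fun q hq => ?_) fun ζ hζ => ?_
  · exact mem_product.2 ⟨res hA ζ (mem_EQ.1 hζ).2, res hB ζ (mem_EQ.1 hζ).2⟩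
  · obtain ⟨h1, h2⟩ := mem_product.1 hq
    refine mem_EQ.2 ⟨fun ω hω => ?_, fun ω => ?_⟩
    · rw [notMem_union] at hω
      rw [Pi.add_apply, (mem_EQ.1 h1).1 ω hω.1, (mem_EQ.1 h2).1 ω hω.2, add_zero]
    · rw [Pi.add_apply, Pi.add_apply, (mem_EQ.1 h1).2, (mem_EQ.1 h2).2, fr_add]
  · obtain ⟨h1, h2⟩ := mem_product.1 hq
    refine Prod.ext (funext fun x => ?_) (funext fun x => ?_)
    · by_cases h3 : x ∈ A
      · simp [h3, (mem_EQ.1 h2).1 x (disjoint_left.1 hd h3)]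
      · simp [h3, (mem_EQ.1 h1).1 x h3]
    · by_cases h3 : x ∈ B
      · simp [h3, (mem_EQ.1 h1).1 x (disjoint_right.1 hd h3)]
      · simp [h3, (mem_EQ.1 h2).1 x h3]
  · rw [add ζ hζ]

/-- The right hand side without the sign. -/
noncomputable def RS (r : ℕ) (ψ' : AddChar K ℂ) (Φ : K[X] → ℂ) (Ω : Finset K) : ℂ :=
  ∑ ζ ∈ EQ r Ω, Φ (∏ ω ∈ Ω, (X - C (ζ ω))) * ψ' (∑ ω ∈ Ω, ω * ζ ω)

open Classical in
lemma RS_union {A B : Finset K} (hd : Disjoint A B) (hA : ∀ ω, ω ^ r ∈ A ↔ ω ∈ A)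
    (hB : ∀ ω, ω ^ r ∈ B ↔ ω ∈ B) (ψ' : AddChar K ℂ) (Φ : K[X] → ℂ) :
    RS r ψ' Φ (A ∪ B) = RS r ψ' (fun P => RS r ψ' (fun Q => Φ (P * Q)) B) A := by
  unfold RS
  rw [sum_union' hd hA hB]
  refine sum_congr rfl fun ζ hζ => ?_
  rw [sum_mul]
  refine sum_congr rfl fun ξ hξ => ?_
  have h1 : ∀ ω ∈ A, (ζ + ξ) ω = ζ ω := fun ω hω => by
    rw [Pi.add_apply, (mem_EQ.1 hξ).1 ω (disjoint_left.1 hd hω), add_zero]
  have h2 : ∀ ω ∈ B, (ζ + ξ) ω = ξ ω := fun ω hω => by
    rw [Pi.add_apply, (mem_EQ.1 hζ).1 ω (disjoint_right.1 hd hω), zero_add]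
  rw [prod_union hd, sum_union hd, prod_congr rfl fun ω hω => by rw [h1 ω hω],
    prod_congr (s₁ := B) rfl fun ω hω => by rw [h2 ω hω],
    sum_congr rfl fun ω hω => by rw [h1 ω hω],
    sum_congr (s₁ := B) rfl fun ω hω => by rw [h2 ω hω], AddChar.map_add_eq_mul]
  ring

omit [Fact r.Prime] [Algebra (ZMod r) K] in
lemma val_RS {O : ValuationSubring ℂ} (ψ' : AddChar K ℂ) {Φ : K[X] → ℂ}
    (h : ∀ P, O.valuation (Φ P) ≤ 1) (Ω : Finset K) : O.valuation (RS r ψ' Φ Ω) ≤ 1 :=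
  Valuation.map_sum_le _ fun _ _ => val_mul (h _) (val_psi ψ' _).le

omit [Fact r.Prime] [Algebra (ZMod r) K] in
lemma RS_mul (ψ' : AddChar K ℂ) (Φ : K[X] → ℂ) (c : ℂ) (Ω : Finset K) :
    RS r ψ' (fun P => c * Φ P) Ω = c * RS r ψ' Φ Ω := by
  unfold RS
  rw [mul_sum]
  exact sum_congr rfl fun _ _ => mul_assoc _ _ _

omit [Algebra (ZMod r) K] in
lemma RS_empty (ψ' : AddChar K ℂ) (Φ : K[X] → ℂ) : RS r ψ' Φ ∅ = Φ 1 := by
  have hr : r ≠ 0 := (Fact.out : r.Prime).ne_zero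
  have h : EQ r (∅ : Finset K) = {0} := by
    ext ζ
    rw [mem_EQ, mem_singleton]
    constructor
    · exact fun h => funext fun ω => h.1 ω (notMem_empty ω)
    · rintro rfl
      exact ⟨fun _ _ => rfl, fun _ => (zero_pow hr).symm⟩
  simp [RS, h]

lemma RS_one (hK : Fintype.card K = r ^ 2) (ψ' : AddChar K ℂ) (Φ : K[X] → ℂ) (s : ZMod r) :
    RS r ψ' Φ {algebraMap (ZMod r) K s} = ∑ y : ZMod r,
      Φ (X - C (algebraMap (ZMod r) K y)) * ψ' (algebraMap (ZMod r) K (s * y)) := by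
  classical
  have hr : r ≠ 0 := (Fact.out : r.Prime).ne_zero
  unfold RS
  symm
  refine sum_bij (fun y _ x => if x = algebraMap (ZMod r) K s then algebraMap (ZMod r) K y else 0)
    (fun y _ => mem_EQ.2 ⟨fun ω hω => if_neg (notMem_singleton.1 hω), fun ω => ?_⟩)
    (fun y _ y' _ h => ?_) (fun ζ hζ => ?_) fun y _ => by simp
  · by_cases h : ω = algebraMap (ZMod r) K s
    · simp only [h, fr_alg, if_true]
    · have h2 : ω ^ r ≠ algebraMap (ZMod r) K s := fun e =>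
        h (by rw [← fr_fr hK ω, e, fr_alg])
      simp only [h, h2, if_false, zero_pow hr]
  · simpa using congrFun h (algebraMap (ZMod r) K s)
  · obtain ⟨h1, h2⟩ := mem_EQ.1 hζ
    obtain ⟨y, hy⟩ := fr_fix (r := r) (x := ζ (algebraMap (ZMod r) K s)) (by rw [← h2, fr_alg])
    refine ⟨y, mem_univ _, funext fun x => ?_⟩
    by_cases h : x = algebraMap (ZMod r) K s
    · simp only [h, if_true, hy]
    · simp only [h, if_false, h1 x (notMem_singleton.2 h)]

omit [Algebra (ZMod r) K] in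
open Classical in
lemma RS_two (hK : Fintype.card K = r ^ 2) (ψ' : AddChar K ℂ) (Φ : K[X] → ℂ) {w : K}
    (hw : w ≠ w ^ r) : RS r ψ' Φ {w, w ^ r} =
      ∑ y : K, Φ ((X - C y) * (X - C (y ^ r))) * ψ' (w * y + w ^ r * y ^ r) := by
  have hr : r ≠ 0 := (Fact.out : r.Prime).ne_zero
  unfold RS
  symm
  refine sum_bij (fun y _ x => if x = w then y else if x = w ^ r then y ^ r else 0)
    (fun y _ => mem_EQ.2 ⟨fun ω hω => ?_, fun ω => ?_⟩)
    (fun y _ y' _ h => ?_) (fun ζ hζ => ?_) fun y _ => ?_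
  · simp only [mem_insert, mem_singleton, not_or] at hω
    simp only [hω.1, hω.2, if_false]
  · by_cases h : ω = w
    · simp only [h, hw.symm, if_true, if_false]
    · by_cases h' : ω = w ^ r
      · simp only [h', fr_fr hK, hw.symm, if_true, if_false]
      · have h2 : ω ^ r ≠ w := fun e => h' (by rw [← e, fr_fr hK])
        have h3 : ω ^ r ≠ w ^ r := fun e => h (by rw [← fr_fr hK ω, e, fr_fr hK])
        simp only [h, h', h2, h3, if_false, zero_pow hr]
  · simpa using congrFun h w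
  · obtain ⟨h1, h2⟩ := mem_EQ.1 hζ
    refine ⟨ζ w, mem_univ _, funext fun x => ?_⟩
    by_cases h : x = w
    · simp only [h, if_true]
    · by_cases h' : x = w ^ r
      · simp only [h', hw.symm, if_true, if_false, h2]
      · simp only [h, h', if_false, h1 x (by simp [h, h'])]
  · rw [prod_pair hw, sum_pair hw]
    simp only [hw.symm, if_true, if_false]

/-- Coordinates on the quadratic extension. -/
lemma coord (hK : Fintype.card K = r ^ 2) {θ : K} (hθ : ∀ t, algebraMap (ZMod r) K t ≠ θ) :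
    Function.Bijective fun q : ZMod r × ZMod r =>
      algebraMap (ZMod r) K q.1 + algebraMap (ZMod r) K q.2 * θ := by
  refine (Fintype.bijective_iff_injective_and_card _).2 ⟨fun q q' h => ?_, by
    rw [hK, Fintype.card_prod, ZMod.card, pow_two]⟩
  have h1 : algebraMap (ZMod r) K (q.2 - q'.2) * θ = algebraMap (ZMod r) K (q'.1 - q.1) := by
    rw [map_sub, map_sub]
    linear_combination h
  have h2 : q.2 - q'.2 = 0 := by
    by_contra h0
    apply hθ ((q'.1 - q.1) / (q.2 - q'.2))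
    rw [map_div₀, ← h1, mul_div_cancel_left₀ _ ((_root_.map_ne_zero _).2 h0)]
  rw [h2, map_zero, zero_mul, eq_comm, map_eq_zero] at h1
  exact Prod.ext (sub_eq_zero.1 h1).symm (sub_eq_zero.1 h2)

omit [Fintype K] in
lemma fr_coord {θ : K} (h : θ ^ r = -θ) (a c : ZMod r) :
    (algebraMap (ZMod r) K a + algebraMap (ZMod r) K c * θ) ^ r =
      algebraMap (ZMod r) K a - algebraMap (ZMod r) K c * θ := by
  rw [fr_add, mul_pow, fr_alg, fr_alg, h]
  ring

/-- The number of representations by the norm form. -/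
lemma norm_sum (hK : Fintype.card K = r ^ 2) {θ : K} {δ : ZMod r}
    (hθ : ∀ t, algebraMap (ZMod r) K t ≠ θ) (h1 : θ ^ r = -θ)
    (h2 : θ ^ 2 = algebraMap (ZMod r) K δ) (f : ZMod r → ℂ) :
    ∑ q : ZMod r × ZMod r, f (q.1 ^ 2 - δ * q.2 ^ 2) = (r + 1) * ∑ e, f e - r * f 0 := by
  classical
  have hb := coord hK hθ
  have hn : ∀ q : ZMod r × ZMod r, (algebraMap (ZMod r) K q.1 +
      algebraMap (ZMod r) K q.2 * θ) ^ (r + 1) = algebraMap (ZMod r) K (q.1 ^ 2 - δ * q.2 ^ 2) := by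
    intro q
    rw [pow_succ, fr_coord h1, map_sub, map_mul, map_pow, map_pow, ← h2]
    ring
  set N : ZMod r → ℕ := fun e =>
    (univ.filter fun q : ZMod r × ZMod r => q.1 ^ 2 - δ * q.2 ^ 2 = e).card with hN
  have h3 : ∀ e, N e ≤ r + 1 := by
    intro e
    refine le_trans ?_ ((Multiset.toFinset_card_le _).trans
      (card_nthRoots (r + 1) (algebraMap (ZMod r) K e)))
    refine card_le_card_of_injOn _ (fun q hq => ?_) hb.1.injOn
    rw [mem_coe, Multiset.mem_toFinset, mem_nthRoots (Nat.succ_pos r), hn,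
      (mem_filter.1 (mem_coe.1 hq)).2]
  have h4 : N 0 = 1 := by
    refine card_eq_one.2 ⟨0, eq_singleton_iff_unique_mem.2 ⟨by simp, fun q hq => hb.1 ?_⟩⟩
    have h5 := hn q
    rw [(mem_filter.1 hq).2, map_zero] at h5
    simpa using pow_eq_zero_iff (Nat.succ_ne_zero r) |>.1 h5
  have h5 : ∑ e, N e = r * r := by
    rw [hN, ← card_eq_sum_card_fiberwise (s := univ) fun _ _ => mem_coe.2 (mem_univ _), card_univ,
      Fintype.card_prod, ZMod.card]
  have h6 : ∀ e ∈ univ.erase (0 : ZMod r), N e = r + 1 := by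
    refine (sum_eq_sum_iff_of_le fun e _ => h3 e).1 ?_
    rw [← add_sum_erase univ N (mem_univ 0), h4] at h5
    rw [sum_const, card_erase_of_mem (mem_univ _), card_univ, ZMod.card, smul_eq_mul]
    obtain ⟨k, hk⟩ : ∃ k, r = k + 1 := ⟨r - 1, by have := (Fact.out : r.Prime).pos; omega⟩
    have h7 : (r - 1) * (r + 1) + 1 = r * r := by
      rw [show r - 1 = k by omega, hk]
      ring
    omega
  rw [← sum_fiberwise' univ (fun q : ZMod r × ZMod r => q.1 ^ 2 - δ * q.2 ^ 2) f]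
  simp only [sum_const, nsmul_eq_mul]
  change ∑ e, (N e : ℂ) * f e = _
  rw [← add_sum_erase univ _ (mem_univ 0), ← add_sum_erase univ f (mem_univ 0), h4,
    sum_congr rfl fun e he => by rw [h6 e he], ← mul_sum]
  push_cast
  ring

/-- Coordinates on two by two matrices. -/
def par (δ : ZMod r) (q : (ZMod r × ZMod r) × ZMod r × ZMod r) :
    Matrix (Fin 2) (Fin 2) (ZMod r) :=
  !![q.1.1 + q.2.1, δ * (q.1.2 - q.2.2); q.2.2 + q.1.2, q.1.1 - q.2.1]

lemma par_bij {δ : ZMod r} (h2 : (2 : ZMod r) ≠ 0) (hδ : δ ≠ 0) : Function.Bijective (par δ) := by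
  refine Function.bijective_iff_has_inverse.2 ⟨fun Y => (((Y 0 0 + Y 1 1) / 2,
    (Y 1 0 + Y 0 1 / δ) / 2), (Y 0 0 - Y 1 1) / 2, (Y 1 0 - Y 0 1 / δ) / 2), fun q => ?_,
    fun Y => ?_⟩
  · refine Prod.ext (Prod.ext ?_ ?_) (Prod.ext ?_ ?_) <;> simp [par] <;> field_simp <;> ring
  · ext i j
    fin_cases i <;> fin_cases j <;> simp [par] <;> field_simp <;> ring

/-- The exact formula in degree two. -/
lemma GS_two (hK : Fintype.card K = r ^ 2) (h2 : (2 : ZMod r) ≠ 0) {θ : K} {δ : ZMod r}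
    (hθ : ∀ t, algebraMap (ZMod r) K t ≠ θ) (h1 : θ ^ r = -θ)
    (h3 : θ ^ 2 = algebraMap (ZMod r) K δ) {ψ : AddChar (ZMod r) ℂ} (hψ : ψ ≠ 1)
    (Φ : (ZMod r)[X] → ℂ) (s : ZMod r) : GS ψ Φ !![s, δ; 1, s] = -(r : ℂ) *
      ∑ q : ZMod r × ZMod r, Φ ((X - C q.1) ^ 2 - C (δ * q.2 ^ 2)) *
        ψ (2 * s * q.1 + 2 * δ * q.2) := by
  have hδ : δ ≠ 0 := by
    rintro rfl
    rw [map_zero] at h3
    exact hθ 0 (by rw [map_zero, pow_eq_zero_iff two_ne_zero |>.1 h3])
  have e1 : ∀ q, (par δ q).charpoly =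
      (X - C q.1.1) ^ 2 - C (q.2.1 ^ 2 - δ * q.2.2 ^ 2 + δ * q.1.2 ^ 2) := by
    intro q
    rw [charpoly_fin_two, trace_fin_two, det_fin_two]
    simp only [par, of_apply, cons_val', cons_val_zero, cons_val_one, cons_val_fin_one, map_add,
      map_sub, map_mul, map_pow]
    ring
  have e2 : ∀ q, (!![s, δ; 1, s] * par δ q).trace = 2 * s * q.1.1 + 2 * δ * q.1.2 := by
    intro q
    simp [par, trace_fin_two]
    ring
  have e3 : ∀ a c : ZMod r, ∑ e, Φ ((X - C a) ^ 2 - C (e + δ * c ^ 2)) =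
      ∑ e, Φ ((X - C a) ^ 2 - C e) := fun a c =>
    Fintype.sum_equiv (Equiv.addRight (δ * c ^ 2)) _ _ fun _ => rfl
  have e4 : ∑ c, ψ (2 * δ * c) = 0 :=
    AddChar.sum_eq_zero_of_ne_one (AddChar.IsPrimitive.of_ne_one hψ (mul_ne_zero h2 hδ))
  have e5 : ∑ q : ZMod r × ZMod r, (∑ e, Φ ((X - C q.1) ^ 2 - C e)) *
      ψ (2 * s * q.1 + 2 * δ * q.2) = 0 := by
    rw [Fintype.sum_prod_type]
    refine sum_eq_zero fun a _ => ?_
    simp only [AddChar.map_add_eq_mul, ← mul_sum, e4, mul_zero]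
  rw [GS, ← Fintype.sum_bijective _ (par_bij h2 hδ) _ _ fun _ => rfl, Fintype.sum_prod_type]
  simp only [e1, e2, ← sum_mul]
  rw [sum_congr rfl fun q _ => by
    rw [norm_sum hK hθ h1 h3 fun e => Φ ((X - C q.1) ^ 2 - C (e + δ * q.2 ^ 2)), e3, zero_add,
      sub_mul, mul_assoc ((r : ℂ) + 1), mul_assoc (r : ℂ)], sum_sub_distrib, ← mul_sum, ← mul_sum, e5]
  ring

lemma GS_empty {F ι : Type} [CommRing F] [Fintype F] [Fintype ι] [DecidableEq ι] [IsEmpty ι]
    (ψ : AddChar F ℂ) (Φ : F[X] → ℂ) (Z : Matrix ι ι F) : GS ψ Φ Z = Φ 1 := by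
  rw [GS, Fintype.sum_subsingleton _ 0]
  simp [charpoly_isEmpty]

lemma GS_one {F : Type} [Field F] [Fintype F] (ψ : AddChar F ℂ) (Φ : F[X] → ℂ) (s : F) :
    GS ψ Φ !![s] = ∑ y, Φ (X - C y) * ψ (s * y) := by
  have e : ∀ Y : Matrix (Fin 1) (Fin 1) F, Y.charpoly = X - C (Y 0 0) := fun Y => by
    simp [charpoly]
  rw [GS]
  refine Fintype.sum_bijective (fun Y => Y 0 0) (Function.bijective_iff_has_inverse.2
    ⟨fun y => !![y], fun Y => ?_, fun y => rfl⟩) _ _ fun Y => ?_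
  · ext i j
    fin_cases i
    fin_cases j
    rfl
  · rw [e]
    simp [trace, vecMul, dotProduct]

open Classical in
/-- The irreducible case. -/
lemma irr (h1 : StKr1) (h2 : StKr2) {p : ℕ} {O : ValuationSubring ℂ} {ψ : AddChar (ZMod r) ℂ}
    {ψ' : AddChar K ℂ} (hp : p.Prime) (hO : O.valuation p < 1) (hr : r ≡ 1 [MOD p])
    (hK : Fintype.card K = r ^ 2) (hψ : ψ ≠ 1) (hψ' : ∀ t, ψ' (algebraMap _ K t) = ψ t)
    {g : (ZMod r)[X]} (hm : g.Monic) (hi : Irreducible g) (hd : g.natDegree ≤ 2)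
    (hg : g ∣ X ^ r ^ 2 - X) {Φ : K[X] → ℂ} (hΦ : ∀ P, O.valuation (Φ P) ≤ 1) :
    ∃ k, g.natDegree = g.roots.card + 2 * k ∧
      Cv O (GS ψ (fun P => Φ (P.map (algebraMap _ K))) (cmp g))
        ((-1) ^ k * RS r ψ' Φ (g.aroots K).toFinset) := by
  have gs : ∀ {n : ℕ} (A : Matrix (Fin n) (Fin n) (ZMod r)), A.charpoly = g →
      GS ψ (fun P => Φ (P.map (algebraMap _ K))) (cmp g) =
        GS ψ (fun P => Φ (P.map (algebraMap _ K))) A := fun A hA =>
    hA ▸ (h2.gs ψ _ A (h1.sq A (hA ▸ hi.squarefree))).symm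
  have hpos := hi.natDegree_pos
  by_cases hone : g.natDegree = 1
  · obtain ⟨s, rfl⟩ : ∃ s, g = X - C s :=
      ⟨-g.coeff 0, by rw [map_neg, sub_neg_eq_add]; exact hm.eq_X_add_C hone⟩
    refine ⟨0, by simp, Cv.of_eq ?_⟩
    rw [gs !![s] (by simp [charpoly]), GS_one, aroots_X_sub_C, Multiset.toFinset_singleton,
      RS_one hK, pow_zero, one_mul]
    simp only [hψ', Polynomial.map_sub, map_X, map_C]
  · have htwo : g.natDegree = 2 := by omega
    have hr2 : (2 : ZMod r) ≠ 0 := by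
      intro h
      have h3 : r ∣ 2 := (ZMod.natCast_eq_zero_iff 2 r).1 (by exact_mod_cast h)
      have h4 : r = 2 := (Nat.prime_dvd_prime_iff_eq Fact.out Nat.prime_two).1 h3
      rw [h4] at hr
      exact hp.one_lt.ne' (Nat.dvd_one.1 ((Nat.modEq_iff_dvd' one_le_two).1 hr.symm))
    have hno : ∀ t : ZMod r, ¬ g.IsRoot t := fun t ht => by
      have := degree_eq_one_of_irreducible_of_root hi ht
      exact hone (natDegree_eq_of_degree_eq_some this)
    obtain ⟨s, δ, hgs⟩ : ∃ s δ, g = (X - C s) ^ 2 - C δ := by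
      refine ⟨-(g.coeff 1 / 2), (g.coeff 1 / 2) ^ 2 - g.coeff 0, ?_⟩
      have e := hm.as_sum
      rw [htwo, sum_range_succ, sum_range_one] at e
      have e2 : C (g.coeff 1) = 2 * C (g.coeff 1 / 2) := by
        rw [← map_ofNat C 2, ← map_mul, mul_div_cancel₀ _ hr2]
      rw [map_neg, map_sub, map_pow]
      linear_combination e + e2 * X
    have hsp : (g.map (algebraMap (ZMod r) K)).Splits := by
      have h3 := (FiniteField.isSplittingField_sub K (ZMod r)).splits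
      rw [hK] at h3
      refine h3.of_dvd ?_ (Polynomial.map_dvd _ hg)
      exact map_ne_zero (FiniteField.X_pow_card_pow_sub_X_ne_zero _ two_ne_zero
        (Fact.out : r.Prime).one_lt)
    obtain ⟨w, hw⟩ := hsp.exists_eval_eq_zero (by
      rw [degree_map, degree_eq_natDegree hm.ne_zero, htwo]
      norm_num)
    obtain ⟨θ, rfl⟩ : ∃ θ, w = algebraMap (ZMod r) K s + θ := ⟨w - algebraMap _ _ s, by ring⟩
    have h3 : θ ^ 2 = algebraMap (ZMod r) K δ := by
      rw [hgs] at hw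
      simpa [sub_eq_zero] using hw
    have hθ : ∀ t, algebraMap (ZMod r) K t ≠ θ := by
      intro t ht
      apply hno (s + t)
      rw [← ht, ← map_pow, (algebraMap (ZMod r) K).injective.eq_iff] at h3
      simp [hgs, h3]
    have h4 : θ ^ r = -θ := by
      have h5 : (θ ^ r) ^ 2 = θ ^ 2 := by rw [← pow_mul, mul_comm, pow_mul, h3, fr_alg]
      refine (sq_eq_sq_iff_eq_or_eq_neg.1 h5).resolve_left fun h6 => ?_
      obtain ⟨t, ht⟩ := fr_fix h6
      exact hθ t ht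
    have h5 : (algebraMap (ZMod r) K s + θ) ^ r = algebraMap (ZMod r) K s - θ := by
      rw [fr_add, fr_alg, h4, sub_eq_add_neg]
    have h6 : algebraMap (ZMod r) K s + θ ≠ (algebraMap (ZMod r) K s + θ) ^ r := by
      intro h
      obtain ⟨t, ht⟩ := fr_fix h.symm
      exact hθ (t - s) (by rw [map_sub, ht]; ring)
    have h7 : (g.aroots K).toFinset =
        {algebraMap (ZMod r) K s + θ, (algebraMap (ZMod r) K s + θ) ^ r} := by
      ext x
      rw [Multiset.mem_toFinset, mem_aroots, h5, mem_insert, mem_singleton]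
      have : aeval x g =
          (x - (algebraMap (ZMod r) K s + θ)) * (x - (algebraMap (ZMod r) K s - θ)) := by
        rw [hgs, map_sub, map_pow, map_sub, aeval_X, aeval_C, aeval_C, ← h3]
        ring
      rw [this, mul_eq_zero, sub_eq_zero, sub_eq_zero, and_iff_right hm.ne_zero]
    have h8 : g.roots = 0 := Multiset.eq_zero_of_forall_notMem fun t ht =>
      hno t (isRoot_of_mem_roots ht)
    refine ⟨1, by rw [h8, htwo]; rfl, ?_⟩
    rw [gs !![s, δ; 1, s] (by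
      rw [hgs, charpoly_fin_two, trace_fin_two, det_fin_two]
      simp only [of_apply, cons_val', cons_val_zero, cons_val_one, cons_val_fin_one, map_add,
        map_sub, map_mul, mul_one]
      ring), GS_two hK hr2 hθ h4 h3 hψ, h7, RS_two hK ψ' Φ h6, pow_one,
      ← Fintype.sum_bijective _ (coord hK hθ) _ _ fun _ => rfl]
    have h9 : Cv O (-(r : ℂ)) (-1) := by simpa using (cv_nat hO hr).neg
    refine (h9.mul_right (Valuation.map_sum_le _ fun _ _ =>
      val_mul (hΦ _) (val_psi ψ _).le)).trans (Cv.of_eq ?_)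
    congr 1
    refine sum_congr rfl fun q _ => ?_
    rw [h5, fr_coord h4, ← hψ']
    congr 2
    · simp only [Polynomial.map_sub, Polynomial.map_pow, map_X, map_C, map_mul, map_pow, map_add,
        map_sub, Polynomial.map_mul, ← h3]
      ring
    · simp only [map_add, map_mul, map_ofNat, ← h3]
      ring

omit [Fintype K] in
lemma stab [DecidableEq K] (g : (ZMod r)[X]) (ω : K) :
    ω ^ r ∈ (g.aroots K).toFinset ↔ ω ∈ (g.aroots K).toFinset := by
  have hr : r ≠ 0 := (Fact.out : r.Prime).ne_zero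
  rw [Multiset.mem_toFinset, Multiset.mem_toFinset, mem_aroots, mem_aroots, fr_aeval,
    pow_eq_zero_iff hr]

end FFA

open FFA in
theorem stStar (hT : StTy') (h1 : StKr1) (h2 : StKr2) : StStar := by
  classical
  intro p r _ K _ _ _ O ψ ψ' Φ g hp hO hr hK hψ hψ' hm hg hΦ
  change Cv O _ (_ * RS r ψ' Φ _)
  obtain ⟨n, hn⟩ : ∃ n, g.natDegree = n := ⟨_, rfl⟩
  induction n using Nat.strong_induction_on generalizing g Φ with
  | _ n ih =>
  subst hn
  by_cases hu : IsUnit g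
  · obtain rfl : g = 1 := hm.isUnit_iff.1 hu
    have : IsEmpty (Fin (1 : (ZMod r)[X]).natDegree) := by rw [natDegree_one]; infer_instance
    refine Cv.of_eq ?_
    rw [GS_empty]
    simp [RS_empty]
  obtain ⟨g1, hm1, hi, g2, rfl⟩ := exists_monic_irreducible_factor g hu
  have hm2 : g2.Monic := hm1.of_mul_monic_left hm
  have hg1 := (dvd_mul_right g1 g2).trans hg
  have hg2 := (dvd_mul_left g2 g1).trans hg
  have hc : IsCoprime g1 g2 := (squarefree_mul_iff.1 (hT.sqf Fact.out hg)).1.isCoprime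
  have hdeg : (g1 * g2).natDegree = g1.natDegree + g2.natDegree := hm1.natDegree_mul hm2
  have hpos := hi.natDegree_pos
  set ε : ℂ := (-1) ^ ((g2.natDegree - g2.roots.card) / 2) with hε
  have hεv : O.valuation ε ≤ 1 := by simp [hε]
  obtain ⟨k, hk, h3⟩ := irr h1 h2 hp hO hr hK hψ hψ' hm1 hi ((hT.deg Fact.out hi).1 hg1) hg1
    (Φ := fun P => ε * RS r ψ' (fun Q => Φ (P * Q)) (g2.aroots K).toFinset)
    fun P => val_mul hεv (val_RS ψ' (fun _ => hΦ _) _)
  refine (h2.mul O ψ _ g1 g2 hp hO hr hm1 hm2 hc fun _ => hΦ _).trans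
    ((GS_cv ψ (fun P _ _ => ?_) _).trans (h3.trans (Cv.of_eq ?_)))
  · simp only [Polynomial.map_mul]
    exact ih g2.natDegree (by omega) (fun Q => Φ (P.map (algebraMap _ K) * Q)) g2 hm2 hg2
      (fun _ => hΦ _) rfl
  · have hd : Disjoint (g1.aroots K).toFinset (g2.aroots K).toFinset := by
      refine disjoint_left.2 fun x hx hy => ?_
      obtain ⟨a, b, hab⟩ := hc
      have h4 := congrArg (aeval x) hab
      rw [map_add, map_mul, map_mul, (mem_aroots.1 (Multiset.mem_toFinset.1 hx)).2,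
        (mem_aroots.1 (Multiset.mem_toFinset.1 hy)).2] at h4
      simp at h4
    have h5 := card_roots' g2
    have h6 : ((g1 * g2).natDegree - (g1 * g2).roots.card) / 2 =
        k + (g2.natDegree - g2.roots.card) / 2 := by
      rw [hdeg, roots_mul hm.ne_zero, Multiset.card_add]
      omega
    rw [RS_mul, h6, pow_add, aroots_mul hm.ne_zero, Multiset.toFinset_add,
      RS_union hd (FFA.stab g1) (FFA.stab g2), mul_assoc]

end Pool.Agent.Lib.Mu14.All
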