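import Pool.Agent.Lib.Mu45.Final
import Pool.Agent.Lib.Mu46.Blue

/-! Many totally real fields of every degree, from the block statements. -/

set_option autoImplicit false

open Matrix NumberField Polynomial Filter
open scoped IntermediateField

namespace Pool.Agent.Lib.Mu14.All

open Step Eff

lemma ex_of_many {R : ℕ → Prop} [DecidablePred R] {c : ℕ}
    (h : ∀ᶠ x : ℕ in atTop, (x : ℝ) ≤ c * Real.log x * ((Finset.Icc 1 x).filter R).card) :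
    ∃ q, R q := by
  obtain ⟨x, h1, h2⟩ := (h.and (eventually_gt_atTop 0)).exists
  by_contra! k
  rw [Finset.filter_false_of_mem fun q _ => k q] at h1
  simp only [Finset.card_empty, Nat.cast_zero, mul_zero, Nat.cast_nonpos] at h1
  omega

section
variable (hT : StTy') (hM : StMove') (h1 : StM1) (h2 : StM2) (hG : StGrp) (g1 : StGa1)
  (g2 : StGa2) (g3 : StGa3) {p n k l N : ℕ} (hP : Par' p (n + 2) k l)

include hT hM h1 hP in
lemma move1 : ∃ B : ℕ, ∀ (m : ℕ) (a : Fin (n + 2) → ℤ), Good p k l a → 0 < m → m.Coprime p →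
    ∃ C : ℕ, ∀ r d : ℕ, r.Prime → B + m < r → r ≡ 1 [MOD p] → 2 ≤ d → ¬p ∣ d → Src r d a →
      ∃ b, Good p k l b ∧ Sim m a b ∧ Tg1 r d b ∧
        Qm (comp (toQ b)) ≤ (C * r ^ (20 * (n + 2) + 24) : ℕ) := by
  obtain ⟨B, hB⟩ := h1 (n + 1)
  obtain ⟨O, hO⟩ := unit0.ex p hP.hp
  refine ⟨B + p + l + 2, fun m a ha m0 mp => ?_⟩
  obtain ⟨C, hC⟩ := hM p n k l m 1 a O hP ha m0 mp hO le_rfl
  refine ⟨C, fun r d hr hb r1 d2 pd hs => ?_⟩
  obtain ⟨b, b1, b2, ⟨e, he, b3⟩, b4⟩ := hC r {b | Tg1 r d b} hr (by omega) (by omega) (by omega)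
    ((Nat.coprime_or_dvd_of_prime hr m).resolve_right fun h => by
      have := Nat.le_of_dvd m0 h; omega).symm
    (hB p k l r d a O hP ha hO hr (by omega) (by omega) r1 d2 pd hs)
  exact ⟨b, b1, b2, hT.tg hr (hT.scl 2 b hr he) b3, b4⟩

include hT hM h2 hP in
lemma move2 : ∃ B : ℕ, ∀ (m : ℕ) (a : Fin (n + 2) → ℤ), Good p k l a → 0 < m → m.Coprime p →
    ∀ r e : ℕ, r.Prime → B + m < r → r ≡ 1 [MOD p] → 3 ≤ e → Tg1 r (e + 1) a →
      ∃ b, Good p k l b ∧ Sim m a b ∧ Src r e b := by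
  obtain ⟨B, hB⟩ := h2 (n + 1)
  obtain ⟨O, hO⟩ := unit0.ex p hP.hp
  refine ⟨B + p + l + 2, fun m a ha m0 mp r e hr hb r1 e3 hs => ?_⟩
  obtain ⟨C, hC⟩ := hM p n k l m 0 a O hP ha m0 mp hO zero_le_one
  obtain ⟨b, b1, b2, ⟨t, ht, b3⟩, -⟩ := hC r {b | Src r e b} hr (by omega) (by omega) (by omega)
    ((Nat.coprime_or_dvd_of_prime hr m).resolve_right fun h => by
      have := Nat.le_of_dvd m0 h; omega).symm
    (hB p k l r e a O hP ha hO hr (by omega) r1 e3 hs)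
  exact ⟨b, b1, b2, hT.src hr (by simpa using hT.scl 1 b hr ht) b3⟩

variable (hl : ¬l ∣ n + 2) (n1 : n + 2 ∣ l ^ N + 1) (n2 : p ∣ l ^ N + 1)
include hT hM h1 h2 hG g1 g2 g3 hP hl n1 n2

lemma grow {a₀ : Fin (n + 2) → ℤ} (h0 : Good p k l a₀) (s : ℕ) (hs : s ≤ n + 2) :
    ∃ (a : Fin (n + 2) → ℤ) (m : ℕ), Good p k l a ∧ 0 < m ∧ m.Coprime p ∧ ∀ b, Good p k l b →
      Sim m a b → ∀ (D : GD p (pol b)) (i : D.ι), s ≤ tcl D.P i := by
  classical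
  have hp := hP.hp
  have dih : ∀ {b : Fin (n + 2) → ℤ}, Good p k l b → ∀ D : GD p (pol b), Dih D.P := fun hb D =>
    g1.dih D hp hP.hl hP.lp hl hb.2.1 hb.1 n1 n2
  have crd : ∀ {b : Fin (n + 2) → ℤ} (D : GD p (pol b)), Fintype.card D.ι = n + 2 := fun D => by
    rw [g1.card D, TY.pol_natDegree]
  obtain ⟨B₁, hB₁⟩ := move1 hT hM h1 hP
  obtain ⟨B₂, hB₂⟩ := move2 hT hM h2 hP
  induction s with
  | zero => exact ⟨a₀, 1, h0, one_pos, by simp, fun _ _ _ _ _ => Nat.zero_le _⟩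
  | succ s ih =>
  obtain ⟨a, m, ha, m0, mp, h⟩ := ih (by omega)
  by_cases hb : ∃ b, Good p k l b ∧ Sim m a b ∧ ∃ (D : GD p (pol b)) (i : D.ι), tcl D.P i = s
  swap
  · exact ⟨a, m, ha, m0, mp, fun b b1 b2 D i =>
      lt_of_le_of_ne (h b b1 b2 D i) fun e => hb ⟨b, b1, b2, D, i, e.symm⟩⟩
  obtain ⟨b, b1, b2, D, i, e⟩ := hb
  have s0 : s ≠ 0 := fun k => by
    have := hG.dvd i (dih b1 D)
    rw [e, k, crd, zero_dvd_iff] at this
    omega
  have key : ∀ j, 1 ≤ j → j ≤ s → ¬p ∣ j → ∃ r b', r.Prime ∧ B₂ + m + p < r ∧ r ≡ 1 [MOD p] ∧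
      Good p k l b' ∧ Sim m a b' ∧ Tg1 r (2 * j) b' := fun j j1 j2 pj => by
    obtain ⟨σ, σ1, σ2⟩ := hG.typ i (dih b1 D) (by rw [e, crd]; omega) j1 (e ▸ j2)
    obtain ⟨c, hc⟩ := g2.src D hp (by omega) σ σ1 σ2 (B₁ + B₂ + m + p)
    obtain ⟨r, r1, r2, r3, r4⟩ := ex_of_many hc
    obtain ⟨C, hC⟩ := hB₁ m b b1 m0 mp
    obtain ⟨b', c1, c2, c3, -⟩ := hC r _ r1 (by omega) r3 (by omega) (fun k => by
      rcases hp.dvd_mul.1 k with k | k
      exacts [hP.odd ((Nat.prime_dvd_prime_iff_eq hp Nat.prime_two).1 k), pj k]) r4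
    exact ⟨r, b', r1, by omega, r3, c1, stTy.trans b2 c2, c3⟩
  have fin : ∀ (r : ℕ) (b' : Fin (n + 2) → ℤ), r.Prime → r ≠ p → Good p k l b' → Sim m a b' →
      (∀ b, Good p k l b → Sim (r ^ 2) b' b → ∀ (D : GD p (pol b)) (i : D.ι), tcl D.P i ≠ s) →
      ∃ (a : Fin (n + 2) → ℤ) (m : ℕ), Good p k l a ∧ 0 < m ∧ m.Coprime p ∧ ∀ b, Good p k l b →
        Sim m a b → ∀ (D : GD p (pol b)) (i : D.ι), s + 1 ≤ tcl D.P i :=
    fun r b' hr rp c1 c2 c3 => ⟨b', m * r ^ 2, c1, mul_pos m0 (pow_pos hr.pos 2),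
      mp.mul_left (((Nat.coprime_primes hr hp).2 rp).pow_left 2), fun b d1 d2 D i =>
        lt_of_le_of_ne (h b d1 (stTy.trans c2 (Move.sim_mono d2 (dvd_mul_right _ _))) D i)
          (c3 b d1 (Move.sim_mono d2 (dvd_mul_left _ _)) D i).symm⟩
  by_cases s1 : s = 1
  · obtain ⟨r, b', r1, r2, -, c1, c2, c3⟩ := key 1 le_rfl (by omega) hp.not_dvd_one
    refine fin r b' r1 (by omega) c1 c2 fun b d1 d2 D i e => ?_
    have := hG.two i (dih d1 D) (g3.tg D hp r1 (by omega) (hT.tg r1 d2 c3))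
    omega
  by_cases ps : p ∣ s
  · have s3 : 3 ≤ s := by
      have := Nat.le_of_dvd (by omega) ps
      have := hp.two_le
      have := hP.odd
      omega
    obtain ⟨r, b', r1, r2, -, c1, c2, c3⟩ := key (s - 1) (by omega) (by omega) fun k =>
      hp.not_dvd_one (by simpa [show s - (s - 1) = 1 by omega] using Nat.dvd_sub ps k)
    refine fin r b' r1 (by omega) c1 c2 fun b d1 d2 D i e => ?_
    rcases hG.jj i (dih d1 D) (g3.tg D hp r1 (by omega) (hT.tg r1 d2 c3)) with k | k <;>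
      rw [e] at k
    · omega
    · have := Nat.le_of_dvd two_pos (by
        simpa [show 2 * s - 2 * (s - 1) = 2 by omega] using Nat.dvd_sub (dvd_mul_left s 2) k)
      omega
  · obtain ⟨r, b', r1, r2, r3, c1, c2, c3⟩ := key s (by omega) le_rfl ps
    obtain ⟨b₂, e1, e2, e3⟩ := hB₂ m b' c1 m0 mp r (2 * s - 1) r1 (by omega) r3 (by omega)
      (by rwa [show 2 * s - 1 + 1 = 2 * s by omega])
    refine fin r b₂ r1 (by omega) e1 (stTy.trans c2 e2) fun b d1 d2 D i e => ?_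
    rcases hG.jj i (dih d1 D) (g2.fr D hp r1 r3 ⟨s - 1, by omega⟩
      (hT.src r1 (Move.sim_mono d2 (dvd_pow_self r two_ne_zero)) e3)) with k | k <;> rw [e] at k
    · omega
    · exact s1 (by
        simpa [show 2 * s - (2 * s - 1) = 1 by omega] using Nat.dvd_sub (dvd_mul_left s 2) k)

end

open Pool.Agent.Lib.MP_4e64b4_nt in
theorem many_of (hB : StBas) (hL : StLink') (hT : StTy') (hM : StMove') (h1 : StM1) (h2 : StM2)
    (hG : StGrp) (g1 : StGa1) (g2 : StGa2) (g3 : StGa3) (p n : ℕ) (hp : p.Prime) (hodd : p ≠ 2)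
    (hn : 3 ≤ n) :
    ∀ᶠ X : ℕ in atTop, X ≤ {E : IntermediateField ℚ ℂ | IsTotallyReal E ∧ Subsingleton (XS E p) ∧
      (∃ θ : ℂ, ℚ⟮θ⟯ = E ∧ (minpoly ℚ θ).natDegree = n ∧
        Nonempty ((minpoly ℚ θ).Gal ≃* Equiv.Perm (Fin n))) ∧
      ∃ _ : NumberField E, |NumberField.discr E| ≤ X}.ncard ^ (11 * n ^ 3) := by
  classical
  have hI := irr0
  obtain ⟨m, rfl⟩ : ∃ m, n = m + 2 := ⟨n - 2, by omega⟩
  obtain ⟨k, l, N, hl, hP, n1, n2⟩ := hB.par p (m + 2) (m + 2) hp hodd hn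
  have hln : ¬l ∣ m + 2 := fun h => by have := Nat.le_of_dvd (by omega) h; omega
  obtain ⟨a₀, ha₀⟩ := hB.base p (m + 1) k l hP
  obtain ⟨a, M, ha, M0, Mp, hall⟩ := grow hT hM h1 h2 hG g1 g2 g3 hP hln n1 n2 ha₀ _ le_rfl
  have ex : ∀ {b : Fin (m + 2) → ℤ}, Good p k l b → ∃ D : GD p (pol b), Dih D.P ∧
      Fintype.card D.ι = m + 2 := fun {b} hb => by
    obtain ⟨D⟩ := g1.ex p (pol b) hp (TY.pol_monic b)
      (by rw [pol_toQ]; exact hI.irr hP.hl hb.2.1)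
    exact ⟨D, g1.dih D hp hP.hl hP.lp hln hb.2.1 hb.1 n1 n2, by rw [g1.card D, TY.pol_natDegree]⟩
  obtain ⟨B, hB₁⟩ := move1 hT hM h1 hP
  obtain ⟨C, hC⟩ := hB₁ M a ha M0 Mp
  obtain ⟨D, d1, d2⟩ := ex ha
  obtain ⟨σ, σ1, σ2⟩ := hG.typ2 d1 (by omega)
  obtain ⟨c, hc⟩ := g2.src D hp two_pos σ σ1 σ2 (B + M)
  obtain ⟨T, hT1⟩ : ∃ T, T = (m + 2) * (m + 2 - 1) / 2 := ⟨_, rfl⟩
  have hT2 : T * 2 = (m + 2) * (m + 1) :=
    hT1 ▸ Nat.div_mul_cancel (Nat.even_mul_pred_self (m + 2)).two_dvd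
  have hT3 : (20 * (m + 2) + 24) * T < 11 * (m + 2) ^ 3 := by
    rw [show (20 * (m + 2) + 24) * T = (10 * (m + 2) + 12) * (T * 2) by ring, hT2]
    nlinarith [Nat.zero_le (m ^ 3), Nat.zero_le (m ^ 2)]
  refine count _ (fun X => ?_) (fun E : IntermediateField ℚ ℂ =>
    if _ : NumberField E then (NumberField.discr E).natAbs else 0) _ (C := (4 * C) ^ T)
    (mul_ne_zero (by omega) fun h => by simp [h] at hT2) hT3 hc ?_
  · refine ((finite_of_discr_bdd ℂ X).image Subtype.val).subset ?_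
    rintro E ⟨-, -, -, h1, h2⟩
    exact ⟨⟨E, inferInstance⟩, h2, rfl⟩
  rintro q Y ⟨hq, q1, q2, q3⟩ hY
  obtain ⟨b, hb, hs, hE, hQ⟩ := hC q 2 hq q1 q2 le_rfl
    (fun k => hodd ((Nat.prime_dvd_prime_iff_eq hp Nat.prime_two).1 k)) q3
  have hirr := hI.irr hP.hl hb.2.1
  obtain ⟨hm, hdg⟩ := hI.monic (toQ b)
  obtain ⟨θ, hθ⟩ := IsAlgClosed.exists_aeval_eq_zero ℂ (pol (toQ b))
    (degree_pos_of_irreducible hirr).ne'
  have hmin : minpoly ℚ θ = pol (toQ b) := (minpoly.eq_of_irreducible_of_monic hirr hθ hm).symm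
  have hint : IsIntegral ℚ θ := ⟨_, hm, hθ⟩
  have := IntermediateField.adjoin.finiteDimensional hint
  have hN : NumberField ℚ⟮θ⟯ := NumberField.of_module_finite ℚ _
  have hrk : Module.finrank ℚ ℚ⟮θ⟯ = m + 2 := by
    rw [IntermediateField.adjoin.finrank hint, hmin, hdg]
  have hmin' := (IntermediateField.minpoly_gen ℚ θ).trans hmin
  have hgen := hL p (m + 1) k l b hP hb ℚ⟮θ⟯ (IntermediateField.AdjoinSimple.gen ℚ θ) hrk hmin'
  obtain ⟨D', e1, e2⟩ := ex hb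
  obtain ⟨i⟩ : Nonempty D'.ι := Fintype.card_pos_iff.1 (by omega)
  have hgal := g1.top D' (hG.top i (le_antisymm (Nat.le_of_dvd (by omega) (hG.dvd i e1))
    (e2.le.trans (hall b hb hs D' i))))
  rw [pol_toQ, TY.pol_natDegree, ← hmin] at hgal
  have hx : aeval (IntermediateField.AdjoinSimple.gen ℚ θ) (pol (toQ b)) = 0 :=
    hmin ▸ IntermediateField.aeval_gen_minpoly ℚ θ
  obtain ⟨f, hf, -⟩ := IRR.exists_shape hb.2.1
  obtain ⟨y, hy1, -⟩ := IRR.exists_int hf hx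
  have h4 := discr_le (IntermediateField.adjoin.powerBasis hint)
    (by rw [IntermediateField.adjoin.powerBasis_gen, ← hy1]; exact y.2) fun σ =>
      (root_le hb.1 (by rw [IntermediateField.adjoin.powerBasis_gen, aeval_algHom_apply, hx,
        map_zero])).trans (Rat.cast_le.2 hQ)
  have h5 : (NumberField.discr ℚ⟮θ⟯).natAbs ≤ Y := by
    rw [IntermediateField.adjoin.powerBasis_dim, hmin, hdg, ← hT1] at h4
    refine le_trans ?_ hY
    rw [pow_mul, ← mul_pow, mul_assoc]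
    exact_mod_cast h4
  refine ⟨hq, ℚ⟮θ⟯, ⟨hI.real hb.1 hmin, xs_of_gen hp hodd hgen, ⟨θ, rfl, by rw [hmin, hdg], hgal⟩,
    hN, by rw [Int.abs_eq_natAbs]; exact_mod_cast h5⟩, ?_⟩
  rw [dif_pos hN]
  exact ⟨g3.disc _ _ hq le_rfl hE hmin' hrk, Int.natAbs_ne_zero.2 (discr_ne_zero _), h5⟩

end Pool.Agent.Lib.Mu14.All
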