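import Pool.Agent.Lib.Mu46.Blue
import Pool.Agent.Lib.Mu14.Inert
import Pool.Agent.Lib.Mu14.Irr

/-! Block GA3: inertia groups at a prime with one Eisenstein factor. -/

set_option autoImplicit false

open NumberField IsDedekindDomain Polynomial Finset WithZero Pool.Agent.Lib.helper22.Val
open Pool.Agent.Lib.MP_4e64b4_nt
open scoped IntermediateField

namespace Pool.Agent.Lib.Mu14.All

namespace GA3

lemma inertia {L : Type*} [Field L] [NumberField L] {ι : Type*} [Fintype ι] {f : ℤ[X]}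
    {G : Type*} [Group G] [MulSemiringAction G L] [Finite G] [IsGaloisGroup G ℚ L]
    [MulAction G ι] {r : ι → 𝓞 L} (hG : ∀ (σ : G) i, r (σ • i) = σ • r i)
    (hf : f.map (algebraMap ℤ (𝓞 L)) = ∏ i, (X - C (r i))) {l k : ℕ} (hl : l.Prime)
    (h : Loc f l k) {w : HeightOneSpectrum (𝓞 L)} (hw : (l : 𝓞 L) ∈ w.asIdeal) :
    ∃ R : Finset ι, R.card = k ∧ (∀ σ ∈ w.asIdeal.inertia G, ∀ i ∉ R, σ • i = i) ∧
      ∀ i ∈ R, ∀ j ∈ R, ∃ σ ∈ w.asIdeal.inertia G, σ • i = j := by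
  classical
  obtain ⟨h, h1, h2, h3, h4⟩ := h
  have := w.isMaximal
  have := Fact.mk hl
  let := Ideal.Quotient.field w.asIdeal
  let π := Ideal.Quotient.mk w.asIdeal
  have : CharP (𝓞 L ⧸ w.asIdeal) l := (CharP.charP_iff_prime_eq_zero hl).mpr
    ((map_natCast π l).symm.trans (Ideal.Quotient.eq_zero_iff_mem.mpr hw))
  let ψ := ZMod.castHom (dvd_refl l) (𝓞 L ⧸ w.asIdeal)
  let R := univ.filter fun i => π (r i) = 0
  have hR : ∀ i, i ∈ R ↔ π (r i) = 0 := by simp [R]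
  have e : X ^ R.card * ∏ i ∈ Rᶜ, (X - C (π (r i))) = X ^ k * h.map ψ := by
    have e1 := congrArg (Polynomial.map ψ) h1
    have e2 := congrArg (Polynomial.map π) hf
    rw [Polynomial.map_map] at e1 e2
    rw [RingHom.ext_int (ψ.comp _) (π.comp _), e2, Polynomial.map_prod, ← prod_mul_prod_compl R,
      prod_congr rfl (g := fun _ => X) fun i hi => by simp [(hR i).mp hi]] at e1
    simpa using e1
  have hk : R.card = k := le_antisymm
    (le_of_X_pow_mul (by rwa [eval_zero_map, _root_.map_ne_zero]) e)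
    (le_of_X_pow_mul (by simp [eval_prod, prod_ne_zero_iff, hR]) e.symm)
  rw [hk, mul_right_inj' (pow_ne_zero _ X_ne_zero)] at e
  have h5 := separable_prod_X_sub_C_iff'.mp (e ▸ h2.map)
  have h6 : ∀ σ ∈ w.asIdeal.inertia G, ∀ i, π (r (σ • i)) = π (r i) := fun σ hσ i => by
    rw [hG]; exact Ideal.Quotient.eq.mpr (hσ _)
  refine ⟨R, hk, fun σ hσ i hi => h5 _ ?_ _ (mem_compl.mpr hi) (h6 σ hσ i),
    fun i hi j hj => by_contra fun hij => ?_⟩
  · rwa [mem_compl, hR, h6 σ hσ, ← hR]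
  have h14 : f.eval 0 ≠ 0 := fun e => h4 (e.symm ▸ dvd_zero _)
  have h16 : ((f.eval 0 : ℤ) : L) = (-1) ^ Fintype.card ι * ∏ a, (r a : L) := by
    have := congrArg (fun P => algebraMap (𝓞 L) L (eval 0 P)) hf
    simpa [eval_prod, eval_zero_map, prod_neg] using this
  have hr : ∀ a, (r a : L) ≠ 0 := fun a e =>
    Int.cast_ne_zero.mpr h14 (h16.trans (by rw [prod_eq_zero (mem_univ a) e, mul_zero]))
  let O := univ.filter fun j => ∃ σ ∈ w.asIdeal.inertia G, σ • i = j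
  have hO : ∀ j, j ∈ O ↔ ∃ σ ∈ w.asIdeal.inertia G, σ • i = j := by simp [O]
  have h7 : ∀ S : Finset ι, (∏ a ∈ S, (r a : L)) ≠ 0 := fun S =>
    prod_ne_zero_iff.mpr fun a _ => hr a
  have h8 : ∀ S : Finset ι, ∀ a ∈ S, a ∈ R → log (w.valuation L (∏ a ∈ S, (r a : L))) < 0 := by
    intro S a ha ha'
    rw [log_lt_iff_lt_exp (val_ne_zero (h7 S)), exp_zero]
    have := (w.valuation_lt_one_iff_mem (K := L) (∏ a ∈ S, r a)).mpr
      (Ideal.Quotient.eq_zero_iff_mem.mp ((map_prod π _ _).trans (prod_eq_zero ha ((hR a).mp ha'))))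
    rwa [Algebra.cast, map_prod] at this
  have h9 := log_prime_dvd_log_val (G := G) hl hw (x := ∏ a ∈ O, (r a : L)) fun σ hσ => by
    rw [smul_prod']
    refine prod_equiv (MulAction.toPerm σ) (fun a => ?_) fun a _ => ?_
    · rw [hO, hO]
      exact ⟨fun ⟨τ, h, e⟩ => ⟨σ * τ, mul_mem hσ h, by simp [mul_smul, e]⟩,
        fun ⟨τ, h, e⟩ => ⟨σ⁻¹ * τ, mul_mem (inv_mem hσ) h, by simp [mul_smul, e]⟩⟩
    · rw [MulAction.toPerm_apply, hG]; rfl
  have h10 := h8 O i ((hO i).mpr ⟨1, one_mem _, one_smul _ _⟩) hi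
  have h11 := h8 Oᶜ j (by rwa [mem_compl, hO]) hj
  have h12 := log_val_prime_neg hl hw
  have h13 := Int.le_of_dvd (neg_pos.mpr h10) (neg_dvd.mpr (dvd_neg.mpr h9))
  have h15 := log_val_rat hl hw (Int.cast_ne_zero (α := ℚ).mpr h14)
  rw [Rat.cast_intCast, h16, map_mul, map_pow, Valuation.map_neg, map_one, one_pow, one_mul,
    ← prod_mul_prod_compl O, map_mul, log_mul (val_ne_zero (h7 _)) (val_ne_zero (h7 _)),
    padicValRat.of_int] at h15
  have h17 : (padicValInt l (f.eval 0) : ℤ) ≤ 1 := by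
    rw [padicValInt_dvd_iff] at h4
    omega
  nlinarith

lemma loc {n q d : ℕ} {b : Fin n → ℤ} (hq : q.Prime) (h : Tg1 q d b) : Loc (pol b) q d := by
  have := Fact.mk hq
  obtain ⟨⟨h, h1, h2⟩, h3⟩ := h
  have h4 : 1 < q ^ 2 := one_lt_pow₀ hq.one_lt two_ne_zero
  refine ⟨h, h2, (separable_X_pow_sub_C (n := q ^ 2 - 1) 1 ?_ one_ne_zero).of_dvd h1,
    fun e => ?_, by rwa [← coeff_zero_eq_eval_zero]⟩
  · rw [Nat.cast_sub h4.le]
    simp
  · have := eval_eq_zero_of_dvd_of_eval_eq_zero h1 e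
    rw [eval_sub, eval_pow, eval_X, eval_one, zero_pow (by omega)] at this
    simp at this

lemma dvd_discr {K : Type*} [Field K] [NumberField K] {l : ℕ} (hl : l.Prime) {P : Ideal (𝓞 K)}
    (hP : P.IsMaximal) (h5 : (l : 𝓞 K) ∈ P ^ 2) : l ∣ (discr K).natAbs := by
  have hp := hP.isPrime
  have hl' : Prime (l : ℤ) := Nat.prime_iff_prime_int.mp hl
  have : (Ideal.span {(l : ℤ)}).IsMaximal :=
    PrincipalIdealRing.isMaximal_of_irreducible hl'.irreducible
  have h6 := pow_sub_one_dvd_differentIdeal ℤ (p := Ideal.span {(l : ℤ)}) P 2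
    (by simpa using hl.ne_zero) (by simpa [Ideal.map_span, Ideal.dvd_iff_le] using h5)
  have h1 : (((discr K).natAbs : ℕ) : 𝓞 K) ∈ P := by
    rw [← absNorm_differentIdeal K (𝓞 K)]
    exact Ideal.dvd_iff_le.mp (by simpa using h6) (Ideal.absNorm_mem _)
  by_contra hd
  exact IRR.intCast_notMem hl hP.ne_top (Ideal.pow_le_self two_ne_zero h5)
    (c := ((discr K).natAbs : ℕ)) (fun k => hd (Int.natCast_dvd_natCast.1 k))
    (by rwa [Int.cast_natCast])

lemma exists_prime {K : Type*} [Field K] [NumberField K] {l : ℕ} (hl : l.Prime) {x : 𝓞 K}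
    {f : ℤ[X]} (hf : minpoly ℚ (x : K) = f.map (algebraMap ℤ ℚ)) (h : (l : ℤ) ∣ f.coeff 0) :
    ∃ P : Ideal (𝓞 K), P.IsMaximal ∧ (l : 𝓞 K) ∈ P ∧ x ∈ P := by
  have hi : IsIntegral ℚ (x : K) := Algebra.IsIntegral.isIntegral _
  have h1 : Algebra.norm ℤ x = ((-1) ^ (IntermediateField.adjoin.powerBasis hi).dim *
      f.coeff 0) ^ Module.finrank ℚ⟮(x : K)⟯ K := by
    apply Int.cast_injective (α := ℚ)
    rw [Algebra.coe_norm_int, Algebra.norm_eq_norm_adjoin,
      ← IntermediateField.adjoin.powerBasis_gen hi,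
      Algebra.PowerBasis.norm_gen_eq_coeff_zero_minpoly,
      IntermediateField.adjoin.powerBasis_gen, IntermediateField.minpoly_gen, hf, coeff_map]
    simp
  obtain ⟨P, h2, h3, h4⟩ := Ideal.exists_isMaximal_dvd_of_dvd_absNorm' hl (Ideal.span {x}) (by
    rw [Ideal.absNorm_span_singleton, ← Int.natCast_dvd, h1]
    exact dvd_pow (h.mul_left _) Module.finrank_pos.ne')
  refine ⟨P, h2, ?_, Ideal.dvd_span_singleton.mp h4⟩
  have : (l : ℤ) ∈ P.under ℤ := h3 ▸ Ideal.mem_span_singleton_self _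
  simpa [Ideal.under_def] using this

end GA3

open GA3

theorem stGa3 (_hT : StTy') : StGa3 where
  tg := fun {p n q d b} D hp hq hqp h => by
    obtain ⟨w, hw⟩ := exists_over D.L hq
    obtain ⟨R, h1, h2, h3⟩ := inertia D.act D.prod hq (loc hq h) hw
    have := w.isPrime
    refine ⟨R, h1, fun i hi j hj => ?_⟩
    obtain ⟨σ, hσ, e⟩ := h3 i hi j hj
    exact ⟨_, ⟨σ, inertia_fix (p := p) (k := 1) (fun e => ((val_natCast_lt_iff w p).mpr e).ne
      (val_nat_eq_one hw ((Nat.coprime_primes hq hp).mpr hqp))) hσ hp.ne_zero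
      (by rw [pow_one, D.hz.pow_eq_one]), rfl⟩, e, h2 σ hσ⟩
  disc := fun {n q d b} K _ _ θ hq hd h hθ _ => by
    have := Fact.mk hq
    obtain ⟨⟨h, -, h2⟩, h3⟩ := h
    obtain ⟨H, rfl⟩ := map_surjective _ (ZMod.ringHom_surjective (Int.castRingHom (ZMod q))) h
    obtain ⟨E, hE⟩ := (C_dvd_iff_dvd_coeff (q : ℤ) (pol b - X ^ d * H)).mpr fun i => by
      rw [← ZMod.intCast_zmod_eq_zero_iff_dvd, ← eq_intCast (Int.castRingHom (ZMod q)),
        ← coeff_map, Polynomial.map_sub, Polynomial.map_mul, Polynomial.map_pow, map_X, ← h2,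
        sub_self, coeff_zero]
    have h0 : (pol b).coeff 0 = q * E.coeff 0 := by
      have := congrArg (coeff · 0) hE
      have h1 : ¬0 = d := by omega
      simpa [h1] using this
    rw [IRR.pol_toQ] at hθ
    have hx : aeval θ (pol b) = 0 := by
      rw [← aeval_map_algebraMap ℚ, ← hθ, minpoly.aeval]
    let x : 𝓞 K := ⟨θ, pol b, IRR.pol_monic b, hx⟩
    have hx' : aeval x (pol b) = 0 := RingOfIntegers.ext
      ((aeval_algebraMap_apply K x (pol b)).symm.trans hx)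
    obtain ⟨P, hP, h4, h5⟩ := exists_prime hq (x := x) hθ (h0 ▸ dvd_mul_right _ _)
    have hp := hP.isPrime
    have e : (q : 𝓞 K) * aeval x E = -(x ^ d * aeval x H) := by
      have := congrArg (aeval x) hE
      rw [map_sub, hx', map_mul, map_mul, map_pow, aeval_X, aeval_C, eq_intCast,
        Int.cast_natCast, zero_sub] at this
      exact this.symm
    have h6 : aeval x E ∉ P := fun h6 => IRR.intCast_notMem hq hP.ne_top h4 (c := E.coeff 0)
      (fun k => h3 (by rw [h0, sq]; exact mul_dvd_mul_left _ k)) (by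
        have := sub_mem h6 (IRR.aeval_sub_mem h5 E)
        rwa [sub_sub_cancel] at this)
    exact dvd_discr hq hP ((Ideal.IsPrime.mem_pow_mul P (e ▸ neg_mem (Ideal.mul_mem_right _ _
      (Ideal.pow_le_pow_right hd (Ideal.pow_mem_pow h5 _))))).resolve_right h6)

end Pool.Agent.Lib.Mu14.All
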