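import Pool.Agent.Lib.Mu46.Blue
import Pool.Agent.Lib.Mu14.Inert
import Pool.Agent.Lib.Mu14.Irr

/-! The Galois group of a totally real Eisenstein polynomial. -/

set_option autoImplicit false

open NumberField IsDedekindDomain Polynomial Finset WithZero Pool.Agent.Lib.helper22.PIT
open Pool.Agent.Lib.helper22.Val Pool.Agent.Lib.MP_4e64b4_nt
open scoped Pointwise

namespace Pool.Agent.Lib.Mu14.All

namespace GAL

section
variable {L : Type*} [Field L] [NumberField L] {f : ℤ[X]} {ι : Type*} [Fintype ι]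
  {G : Type*} [Group G] [MulSemiringAction G L] {r : ι → 𝓞 L} {l : ℕ}
  {w : HeightOneSpectrum (𝓞 L)}

lemma val_stab_le {σ : G} (h1 : σ • w.asIdeal = w.asIdeal) (x : 𝓞 L) :
    w.valuation L (σ • (x : L)) ≤ w.valuation L (x : L) := by
  rcases eq_or_ne x 0 with rfl | hx
  · simp
  rw [← coe_smul_int, HeightOneSpectrum.valuation_of_algebraMap,
    HeightOneSpectrum.valuation_of_algebraMap, w.intValuation_eq_exp_neg_multiplicity hx,
    HeightOneSpectrum.intValuation_le_pow_iff_mem, ← h1, ← smul_pow']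
  refine Ideal.smul_mem_pointwise_smul _ _ _ ?_
  rw [h1, ← HeightOneSpectrum.intValuation_le_pow_iff_mem,
    w.intValuation_eq_exp_neg_multiplicity hx]

lemma val_stab {σ : G} (hσ : σ ∈ MulAction.stabilizer G w.asIdeal) (x : L) :
    w.valuation L (σ • x) = w.valuation L x := by
  have h : ∀ y : 𝓞 L, w.valuation L (σ • (y : L)) = w.valuation L (y : L) := fun y => by
    refine le_antisymm (val_stab_le hσ y) ?_
    have := val_stab_le (inv_mem hσ : σ⁻¹ ∈ MulAction.stabilizer G w.asIdeal) (σ • y)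
    rwa [coe_smul_int, inv_smul_smul] at this
  obtain ⟨n, d, hd, rfl⟩ := IsFractionRing.div_surjective (A := 𝓞 L) x
  rw [smul_div₀', map_div₀, map_div₀]
  exact congrArg₂ _ (h n) (h d)

lemma val_pow_sub {x y : L} (hx : w.valuation L x ≤ 1) (h : w.valuation L (y - x) < 1) (m : ℕ) :
    w.valuation L (y ^ m - x ^ m) < 1 := by
  have hy : w.valuation L y ≤ 1 := by
    rw [← sub_add_cancel y x]
    exact Valuation.map_add_le _ h.le hx
  induction m with
  | zero => simp
  | succ m ih =>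
    rw [show y ^ (m + 1) - x ^ (m + 1) = (y ^ m - x ^ m) * y + (y - x) * x ^ m by ring]
    refine Valuation.map_add_lt _ ?_ ?_ <;> rw [map_mul]
    · exact (mul_le_of_le_one_right' hy).trans_lt ih
    · exact (mul_le_of_le_one_right' (by rw [map_pow]; exact pow_le_one' hx m)).trans_lt h

lemma val_frob {σ : G} (hσ : σ ∈ MulAction.stabilizer G w.asIdeal) {m : ℕ}
    (hF : ∀ y : 𝓞 L, σ • y - y ^ m ∈ w.asIdeal) {x : L} (hx : w.valuation L x ≤ 1) :
    w.valuation L (σ • x - x ^ m) < 1 := by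
  obtain ⟨a, ha⟩ := w.exists_valuation_sub_lt_of_integer hx 1
  rw [Units.val_one] at ha
  have h1 : w.valuation L (σ • (a : L) - (a : L) ^ m) < 1 := by
    have := (w.valuation_lt_one_iff_mem (K := L) (σ • a - a ^ m)).mpr (hF a)
    rwa [Algebra.cast, map_sub, map_pow] at this
  have h2 := val_stab hσ (algebraMap (𝓞 L) L a - x)
  have e : σ • x - x ^ m = (σ • (a : L) - (a : L) ^ m) - σ • (algebraMap (𝓞 L) L a - x)
      + ((algebraMap (𝓞 L) L a) ^ m - x ^ m) := by
    rw [smul_sub]; simp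
  rw [e]
  exact Valuation.map_add_lt _ (Valuation.map_sub_lt _ h1 (h2 ▸ ha)) (val_pow_sub hx ha m)

/-- leading terms of the roots of a tame Eisenstein polynomial -/
lemma eis_facts [Nonempty ι] (hf : f.map (algebraMap ℤ (𝓞 L)) = ∏ i, (X - C (r i)))
    (hl : l.Prime) (hw : (l : 𝓞 L) ∈ w.asIdeal) {g : ℤ[X]}
    (hg : f = X ^ Fintype.card ι + C (l : ℤ) * g) (hg0 : ¬(l : ℤ) ∣ g.coeff 0)
    (hn : ¬l ∣ Fintype.card ι) (hv : ∀ i j, w.valuation L (r i) = w.valuation L (r j)) :
    (∀ i, (r i : L) ≠ 0) ∧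
      (∀ i j, w.valuation L (((r i : L) / r j) ^ Fintype.card ι - 1) < 1) ∧
      ∀ i j, w.valuation L ((r i : L) - r j) < w.valuation L (r i) → i = j := by
  classical
  set n := Fintype.card ι with hn'
  set v := w.valuation L
  have hn0 : 0 < n := Fintype.card_pos
  have hfL : f.map (algebraMap ℤ L) = ∏ i, (X - C (r i : L)) := by
    rw [IsScalarTower.algebraMap_eq ℤ (𝓞 L) L, ← Polynomial.map_map, hf, Polynomial.map_prod]
    simp
  have hint : ∀ (g : ℤ[X]) a, v (aeval (r a : L) g) ≤ 1 := fun g a => by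
    simpa [aeval_algebraMap_apply] using w.valuation_le_one (K := L) (aeval (r a) g)
  have hl1 : v l < 1 := (val_natCast_lt_iff w l).mpr hw
  have hl0 : (l : L) ≠ 0 := Nat.cast_ne_zero.mpr hl.ne_zero
  have h1 : ∀ a, (r a : L) ^ n = -(l * aeval (r a : L) g) := fun a => by
    have h : aeval (r a : L) f = 0 := by
      rw [← eval_map_algebraMap, hfL, eval_prod]
      exact prod_eq_zero (mem_univ a) (by simp)
    rwa [hg, map_add, map_mul, map_pow, aeval_X, aeval_C, add_eq_zero_iff_eq_neg,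
      algebraMap_int_eq, eq_intCast, Int.cast_natCast] at h
  have h8 : ∀ a, v (r a) < 1 := fun a => by
    rw [← pow_lt_one_iff hn0.ne', ← map_pow, h1, Valuation.map_neg, map_mul]
    exact (mul_le_of_le_one_right' (hint g a)).trans_lt hl1
  have h2 : v (g.coeff 0 : ℤ) = 1 := by
    have := val_nat_eq_one hw (n := (g.coeff 0).natAbs)
      ((Nat.Prime.coprime_iff_not_dvd hl).mpr fun e => hg0 (Int.natCast_dvd.mpr e))
    rcases Int.natAbs_eq (g.coeff 0) with e | e <;> rw [e]
    · rwa [Int.cast_natCast]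
    · rwa [Int.cast_neg, Valuation.map_neg, Int.cast_natCast]
  have h3 : ∀ a, v (aeval (r a : L) g - (g.coeff 0 : ℤ)) < 1 := fun a => by
    have e := congrArg (aeval (r a : L)) (X_mul_divX_add g)
    rw [map_add, map_mul, aeval_X, aeval_C, algebraMap_int_eq, eq_intCast] at e
    rw [← e, add_sub_cancel_right, map_mul]
    exact (mul_le_of_le_one_right' (hint _ a)).trans_lt (h8 a)
  have h4 : ∀ a, v (aeval (r a : L) g) = 1 := fun a => by
    rw [← sub_add_cancel (aeval (r a : L) g) (g.coeff 0 : ℤ),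
      Valuation.map_add_eq_of_lt_right _ (h2 ▸ h3 a), h2]
  have h5 : ∀ a, v (r a) ^ n = v l := fun a => by
    rw [← map_pow, h1, Valuation.map_neg, map_mul, h4, mul_one]
  have h7 : ∀ a, (r a : L) ≠ 0 := fun a e => by
    have := h5 a
    rw [e, map_zero, zero_pow hn0.ne'] at this
    exact val_ne_zero hl0 this.symm
  refine ⟨h7, fun i j => ?_, fun i j hij => by_contra fun e => ?_⟩
  · have h0 : aeval (r j : L) g ≠ 0 := fun e => by simpa [e] using h4 j
    rw [div_pow, h1, h1, neg_div_neg_eq, mul_div_mul_left _ _ hl0, div_sub_one h0, map_div₀, h4,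
      div_one, ← sub_sub_sub_cancel_right _ _ ((g.coeff 0 : ℤ) : L)]
    exact Valuation.map_sub_lt _ (h3 i) (h3 j)
  have h : aeval (r i : L) (derivative f) = ∏ k ∈ univ.erase i, ((r i : L) - r k) := by
    rw [← eval_map_algebraMap, ← derivative_map, hfL]
    exact (Lagrange.eval_nodal_derivative_eval_node_eq (v := fun a => (r a : L))
      (mem_univ i)).trans Lagrange.eval_nodal
  have h9 : v l < v (r i) ^ (n - 1) := by
    rw [← h5 i]
    exact pow_lt_pow_right_of_lt_one₀ (zero_lt_iff.mpr (val_ne_zero (h7 i))) (h8 i) (by omega)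
  have h10 : v (aeval (r i : L) (derivative f)) = v (r i) ^ (n - 1) := by
    have h5 : v ((n : L) * (r i : L) ^ (n - 1)) = v (r i) ^ (n - 1) := by
      rw [map_mul, val_nat_eq_one hw ((Nat.Prime.coprime_iff_not_dvd hl).mpr hn), one_mul, map_pow]
    rw [hg, derivative_add, derivative_C_mul, derivative_X_pow, map_add, map_mul, map_mul,
      map_pow, aeval_X, aeval_C, aeval_C, algebraMap_int_eq, eq_intCast, eq_intCast,
      Int.cast_natCast, Int.cast_natCast, Valuation.map_add_eq_of_lt_left, h5]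
    rw [h5, map_mul]
    exact (mul_le_of_le_one_right' (hint _ i)).trans_lt h9
  rw [h, map_prod, ← mul_prod_erase _ _ (mem_erase.mpr ⟨Ne.symm e, mem_univ j⟩)] at h10
  have h11 : ∏ k ∈ (univ.erase i).erase j, v ((r i : L) - r k) ≤ v (r i) ^ (n - 1 - 1) := by
    refine (prod_le_pow_card _ _ _ fun k _ => (v.map_sub _ _).trans
      (max_le le_rfl (hv k i).le)).trans_eq ?_
    rw [card_erase_of_mem (mem_erase.mpr ⟨Ne.symm e, mem_univ j⟩), card_erase_of_mem (mem_univ i),
      card_univ]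
  have h6 : 1 < n := Fintype.one_lt_card_iff.mpr ⟨i, j, e⟩
  refine h10.not_lt ((mul_le_mul_right h11 _).trans_lt ((mul_lt_mul_of_pos_right hij
    (pow_pos (zero_lt_iff.mpr (val_ne_zero (h7 i))) _)).trans_eq ?_))
  rw [← pow_succ']; congr 1; omega

omit [Fintype ι] in
/-- an element that inverts the leading terms acts as an involution -/
lemma invol [MulAction G ι] (hG : ∀ (σ : G) i, r (σ • i) = σ • r i) (h7 : ∀ i, (r i : L) ≠ 0)
    (hv : ∀ i j, w.valuation L (r i) = w.valuation L (r j)) {n m : ℕ} (hm : n ∣ m + 1)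
    (hu : ∀ i j, w.valuation L (((r i : L) / r j) ^ n - 1) < 1)
    (hne : ∀ i j, w.valuation L ((r i : L) - r j) < w.valuation L (r i) → i = j) {σ : G}
    (hσ : σ ∈ MulAction.stabilizer G w.asIdeal) (hF : ∀ y : 𝓞 L, σ • y - y ^ m ∈ w.asIdeal)
    (i : ι) : σ • σ • i = i := by
  set v := w.valuation L
  have h1 : ∀ a b, v ((r a : L) / r b) = 1 := fun a b => by
    rw [map_div₀, hv a b, div_self (val_ne_zero (h7 b))]
  have h2 := val_frob hσ hF (h1 (σ • i) i).le
  rw [smul_div₀', ← coe_smul_int, ← coe_smul_int, ← hG, ← hG] at h2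
  obtain ⟨c, hc⟩ := hm
  have h3 := val_pow_sub (w := w) (x := 1) (by simp) (hu (σ • i) i) c
  rw [← pow_mul, ← hc, one_pow] at h3
  refine hne _ _ ?_
  have e : (r (σ • σ • i) : L) - r i = r i * (((r (σ • σ • i) : L) / r (σ • i) -
      ((r (σ • i) : L) / r i) ^ m) * (r (σ • i) / r i) + (((r (σ • i) : L) / r i) ^ (m + 1) - 1)) := by
    have := h7 i
    have := h7 (σ • i)
    rw [pow_succ]
    generalize ((r (σ • i) : L) / r i) ^ m = t
    field_simp
    ring
  rw [e, map_mul, hv (σ • σ • i) i]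
  refine mul_lt_of_lt_one_right (zero_lt_iff.mpr (val_ne_zero (h7 i)))
    (Valuation.map_add_lt _ ?_ h3)
  rwa [map_mul, h1, mul_one]

end

lemma ex_aux {p : ℕ} {f : ℤ[X]} (hp : p.Prime) (hf : f.Monic)
    (hi : Irreducible (f.map (algebraMap ℤ ℚ))) (L : Type) [Field L] [Algebra ℚ L]
    [IsSplittingField ℚ L (f.map (algebraMap ℤ ℚ) * cyclotomic p ℚ)] : Nonempty (GD p f) := by
  classical
  have : CharZero L := algebraRat.charZero L
  obtain rfl : ‹Algebra ℚ L› = DivisionRing.toRatAlgebra := Subsingleton.elim _ _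
  have := IsSplittingField.finiteDimensional L (f.map (algebraMap ℤ ℚ) * cyclotomic p ℚ)
  have : NumberField L := NumberField.of_module_finite ℚ L
  have := Normal.of_isSplittingField (E := L) (f.map (algebraMap ℤ ℚ) * cyclotomic p ℚ)
  have : IsGalois ℚ L := {}
  have := NeZero.mk hp.ne_zero
  have hs := IsSplittingField.splits L (f.map (algebraMap ℤ ℚ) * cyclotomic p ℚ)
  have h0 := ((hf.map (algebraMap ℤ ℚ)).mul (cyclotomic.monic p ℚ)).map (algebraMap ℚ L)
  rw [Polynomial.map_mul] at hs h0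
  obtain ⟨-, -, r, h3, h4, hG⟩ := exists_roots (L := L) hf hi
    (hs.of_dvd h0.ne_zero (dvd_mul_right _ _))
  obtain ⟨z, hz⟩ := (hs.of_dvd h0.ne_zero (dvd_mul_left _ _)).exists_eval_eq_zero
    (by rw [degree_map]; exact (degree_cyclotomic_pos p ℚ hp.pos).ne')
  rw [map_cyclotomic] at hz
  exact ⟨{ L := L, ι := (f.map (algebraMap ℤ ℚ)).rootSet L, r := r, prod := h4, act := hG, z := z
           inj := fun i j e => Subtype.ext (by rw [← h3, ← h3, e])
           hz := isRoot_cyclotomic_iff.mp hz }⟩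

variable {p : ℕ} {f : ℤ[X]}

lemma card_eq (D : GD p f) : Fintype.card D.ι = f.natDegree := by
  rw [← natDegree_map_eq_of_injective (RingHom.injective_int (algebraMap ℤ (𝓞 D.L))), D.prod,
    natDegree_prod_of_monic _ _ fun i _ => monic_X_sub_C _]
  simp

lemma prodL (D : GD p f) :
    (f.map (algebraMap ℤ ℚ)).map (algebraMap ℚ D.L) = ∏ i, (X - C (D.r i : D.L)) := by
  rw [Polynomial.map_map, ← IsScalarTower.algebraMap_eq,
    IsScalarTower.algebraMap_eq ℤ (𝓞 D.L) D.L, ← Polynomial.map_map, D.prod, Polynomial.map_prod]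
  simp

lemma top_gal (D : GD p f) (h : D.P = ⊤) :
    Nonempty ((f.map (algebraMap ℤ ℚ)).Gal ≃* Equiv.Perm (Fin f.natDegree)) := by
  have e := prodL D
  set F := f.map (algebraMap ℤ ℚ)
  have : Fact (F.map (algebraMap ℚ D.L)).Splits :=
    ⟨e ▸ Splits.prod fun _ _ => Splits.X_sub_C _⟩
  have h0 : F ≠ 0 := fun h0 => (monic_prod_of_monic _ _ fun _ _ => monic_X_sub_C _).ne_zero
    (e.symm.trans (by rw [h0, Polynomial.map_zero]))
  have h1 : ∀ x, x ∈ F.rootSet D.L ↔ ∃ i, (D.r i : D.L) = x := fun x => by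
    rw [mem_rootSet, ← eval_map_algebraMap, e, eval_prod, prod_eq_zero_iff]
    simp only [ne_eq, h0, not_false_eq_true, true_and, mem_univ, eval_sub, eval_X, eval_C,
      sub_eq_zero]
    exact exists_congr fun _ => eq_comm
  let u : D.ι ≃ F.rootSet D.L := Equiv.ofBijective (fun i => ⟨D.r i, (h1 _).mpr ⟨i, rfl⟩⟩)
    ⟨fun i j e => D.inj (RingOfIntegers.ext (by simpa using e)), fun x =>
      ((h1 x).mp x.2).imp fun i hi => Subtype.ext hi⟩
  refine ⟨(MulEquiv.ofBijective (Gal.galActionHom F D.L) ⟨Gal.galActionHom_injective F D.L,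
    fun π => ?_⟩).trans (u.symm.trans (Fintype.equivFinOfCardEq (card_eq D))).permCongrHom⟩
  obtain ⟨σ, -, hσ⟩ : u.symm.permCongr π ∈ D.P := h ▸ Subgroup.mem_top _
  refine ⟨Gal.restrict F D.L σ, Equiv.ext fun x => Subtype.ext ?_⟩
  obtain ⟨i, rfl⟩ := u.surjective x
  have h2 : u (σ • i) = π (u i) := by
    simpa using congrArg u (Equiv.ext_iff.mp hσ i)
  rw [Gal.galActionHom_restrict, ← h2]
  exact (congrArg (fun y : 𝓞 D.L => (y : D.L)) (D.act σ i)).symm

/-- complex conjugation -/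
lemma exists_conj {n : ℕ} {b : Fin n → ℤ} (D : GD p (pol b)) (hp : p.Prime)
    (hs : Spl (toR (toQ b))) : ∃ c : D.L ≃ₐ[ℚ] D.L, (∀ i : D.ι, c • i = i) ∧ c D.z = D.z⁻¹ := by
  obtain ⟨θ, -, hθ⟩ := hs
  obtain ⟨ψ⟩ : Nonempty (D.L →+* ℂ) := inferInstance
  obtain ⟨c, hc⟩ := ComplexEmbedding.exists_comp_symm_eq_of_comp_eq (k := ℚ) ψ
    (ComplexEmbedding.conjugate ψ) (RingHom.ext_rat _ _)
  have h1 : ∀ x, ψ (c.symm x) = (starRingEnd ℂ) (ψ x) := fun x => RingHom.congr_fun hc x
  refine ⟨c.symm, fun i => D.inj ?_, ψ.injective ?_⟩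
  · have h2 := congrArg (Polynomial.map ψ) (prodL D)
    have h3 := congrArg (Polynomial.map Complex.ofRealHom) hθ
    have h4 : pol (toR (toQ b)) = (pol b).map (Int.castRingHom ℝ) := by
      rw [IRR.pol_map]
      exact congrArg pol (funext fun i => by simp [toR, toQ])
    rw [h4, Polynomial.map_map] at h3
    rw [Polynomial.map_map, Polynomial.map_map, RingHom.ext_int (RingHom.comp _ _)
      (Complex.ofRealHom.comp (Int.castRingHom ℝ)), h3] at h2
    have h5 := congrArg (eval (ψ (D.r i))) h2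
    rw [Polynomial.map_prod, Polynomial.map_prod, eval_prod, eval_prod,
      prod_eq_zero (mem_univ i) (by simp), prod_eq_zero_iff] at h5
    obtain ⟨j, -, hj⟩ := h5
    have h6 : ψ (D.r i) = θ j := by simpa [sub_eq_zero] using hj
    rw [D.act]
    refine RingOfIntegers.ext (ψ.injective ((h1 _).trans ?_))
    exact h6 ▸ Complex.conj_ofReal _
  · rw [h1, map_inv₀, Complex.inv_eq_conj]
    exact (D.hz.map_of_injective ψ.injective).norm'_eq_one hp.ne_zero

end GAL

open GAL

theorem stGa1 : StGa1 where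
  ex := fun _ _ hp hf hi => @ex_aux _ _ hp hf hi _ _ _ (IsSplittingField.splittingField _)
  card := card_eq
  top := top_gal
  dih := by
    intro p n l N b D hp hl hlp hln hE hs h1 h2 i j
    have hc : Fintype.card D.ι = n + 1 := (card_eq D).trans (IRR.pol_natDegree b)
    have : Nonempty D.ι := ⟨i⟩
    have := Fact.mk hl
    obtain ⟨w, hw⟩ := exists_over D.L hl
    obtain ⟨g, hg, hg0⟩ := IRR.exists_shape hE
    obtain ⟨s, hs1, hs2⟩ := exists_cycle D.act D.prod hl hw (by
      rw [IRR.pol_map, hc, pol]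
      simp [(ZMod.intCast_zmod_eq_zero_iff_dvd _ l).mpr (hE.1 _)])
      (by rw [show (pol b).coeff 0 = b 0 from pol_coeff b 0]; exact hE.2 0 rfl) (by rwa [hc])
    have hv : ∀ i j, w.valuation D.L (D.r i) = w.valuation D.L (D.r j) := fun i j => by
      obtain ⟨k, rfl⟩ := hs2 j i
      rw [D.act, coe_smul_int, val_smul (pow_mem hs1 k)]
    obtain ⟨h3, h4, h5⟩ := eis_facts D.prod hl hw (by rwa [hc]) hg0 (by rwa [hc]) hv
    have := w.isPrime
    obtain ⟨φ, hφ, hφ'⟩ := exists_frob (D.L ≃ₐ[ℚ] D.L) hl w.asIdeal hw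
    obtain ⟨k, hk⟩ := hs2 i ((φ ^ N)⁻¹ • j)
    have h6 : ∀ y : 𝓞 D.L, (φ ^ N * s ^ k) • y - y ^ l ^ N ∈ w.asIdeal := fun y => by
      have h7 := pow_frob D.L _ hφ N (s ^ k • y)
      have h8 := w.asIdeal.mem_of_dvd (sub_dvd_pow_sub_pow _ _ (l ^ N)) (pow_mem hs1 k y)
      rw [mul_smul]
      simpa using add_mem h7 h8
    have h7 : φ ^ N * s ^ k ∈ MulAction.stabilizer _ w.asIdeal :=
      mul_mem (pow_mem (MulAction.mem_stabilizer_iff.mpr hφ') N)
        (Ideal.inertia_le_stabilizer _ (pow_mem hs1 k))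
    have h8 := invol D.act h3 hv (by rwa [hc]) h4 h5 h7 h6
    have h9 : (φ ^ N * s ^ k) • i = j := by rw [mul_smul, hk, smul_inv_smul]
    generalize φ ^ N * s ^ k = τ at h6 h8 h9
    obtain ⟨c, hc1, hc2⟩ := exists_conj D hp hs
    have hz := D.hz
    have : NeZero p := ⟨hp.ne_zero⟩
    have h10 := hz.toInteger_isPrimitiveRoot
    have h11 : τ • hz.toInteger * hz.toInteger = 1 := by
      refine eq_one_of_sub_mem (Q := w.asIdeal) (m := p) (fun e =>
        ((val_natCast_lt_iff w p).mpr e).ne (val_nat_eq_one hw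
          ((Nat.coprime_primes hl hp).mpr hlp))) ?_ ?_
      · rw [mul_pow, ← smul_pow', h10.pow_eq_one, smul_one, one_mul]
      · have := w.asIdeal.mul_mem_right hz.toInteger (h6 hz.toInteger)
        rwa [sub_mul, ← pow_succ, (h10.pow_eq_one_iff_dvd _).mpr h2] at this
    have h12 : τ D.z = D.z⁻¹ :=
      eq_inv_of_mul_eq_one_left (congrArg (fun x : 𝓞 D.L => (x : D.L)) h11)
    refine ⟨_, Subgroup.mem_map_of_mem _ (show c * τ ∈ MulAction.stabilizer _ D.z from ?_), ?_,
      Equiv.ext fun x => ?_⟩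
    · rw [MulAction.mem_stabilizer_iff, AlgEquiv.smul_def, AlgEquiv.mul_apply, h12, map_inv₀, hc2,
        inv_inv]
    · rw [MulAction.toPermHom_apply, MulAction.toPerm_apply, mul_smul, hc1, h9]
    · rw [Equiv.Perm.mul_apply, MulAction.toPermHom_apply, MulAction.toPerm_apply,
        MulAction.toPerm_apply, mul_smul, mul_smul, hc1, hc1, h8, Equiv.Perm.one_apply]

end Pool.Agent.Lib.Mu14.All
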