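import Pool.Agent.Lib.Mu46.Blue
import Pool.Agent.Lib.Mu45.Frob
import Pool.Agent.Lib.Mu14.Irr

/-! Frobenius elements and splitting types. -/

set_option autoImplicit false

open Filter NumberField IsDedekindDomain Polynomial Finset Pool.Agent.Lib.helper22.PIT
open Pool.Agent.Lib.helper22.Val Pool.Agent.Lib.MP_4e64b4_nt
open scoped Pointwise

namespace Pool.Agent.Lib.Mu14.All

namespace GAL

section FF
variable {q : ℕ} [hq : Fact q.Prime] {k : Type*} [Field k] [Algebra (ZMod q) k] {ι : Type}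
  [Fintype ι] {F g : (ZMod q)[X]} {ρ : ι → k}

lemma root_mem (e : F.map (algebraMap _ k) = ∏ i, (X - C (ρ i))) (hg : g ∣ F) {x : k}
    (hx : aeval x g = 0) : ∃ i, ρ i = x := by
  have h := aeval_eq_zero_of_dvd_aeval_eq_zero hg hx
  rw [← eval_map_algebraMap, e, eval_prod, prod_eq_zero_iff] at h
  obtain ⟨i, -, hi⟩ := h
  simp only [eval_sub, eval_X, eval_C, sub_eq_zero] at hi
  exact ⟨i, hi.symm⟩

lemma aeval_root (e : F.map (algebraMap _ k) = ∏ i, (X - C (ρ i))) (i : ι) :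
    aeval (ρ i) F = 0 := by
  rw [← eval_map_algebraMap, e, eval_prod]
  exact prod_eq_zero (mem_univ i) (by simp)

lemma splits_of_dvd (e : F.map (algebraMap _ k) = ∏ i, (X - C (ρ i))) (hg : g ∣ F) :
    (g.map (algebraMap _ k)).Splits :=
  (Splits.prod fun _ _ => Splits.X_sub_C _).of_dvd
    (monic_prod_of_monic _ _ fun _ _ => monic_X_sub_C _).ne_zero (e ▸ Polynomial.map_dvd _ hg)

open Classical in
lemma card_roots (e : F.map (algebraMap _ k) = ∏ i, (X - C (ρ i))) (h2 : Function.Injective ρ)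
    (hg : Irreducible g) (hgF : g ∣ F) :
    (univ.filter fun i => aeval (ρ i) g = 0).card = g.natDegree := by
  rw [← card_image_of_injective _ h2, ← card_rootSet_eq_natDegree
    (PerfectField.separable_of_irreducible hg) (splits_of_dvd e hgF), ← Set.toFinset_card]
  congr 1
  ext x
  simp only [mem_image, mem_filter, mem_univ, true_and, Set.mem_toFinset, mem_rootSet]
  refine ⟨fun ⟨i, a, b⟩ => ⟨hg.ne_zero, b ▸ a⟩, fun ⟨_, a⟩ => ?_⟩
  obtain ⟨i, hi⟩ := root_mem e hgF a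
  exact ⟨i, hi ▸ a, hi⟩

lemma aeval_pow {x : k} (hx : aeval x g = 0) (m : ℕ) : aeval (x ^ q ^ m) g = 0 := by
  rw [← frob_pow_apply, aeval_algHom_apply, hx, map_zero]

lemma conj_pow [Finite k] (hg : Irreducible g) {x y : k} (hx : aeval x g = 0)
    (hy : aeval y g = 0) : ∃ m : ℕ, x ^ q ^ m = y := by
  obtain ⟨φ, hφ⟩ := (Normal.minpoly_eq_iff_mem_orbit k).mp
    ((minpoly.eq_of_irreducible hg hy).symm.trans (minpoly.eq_of_irreducible hg hx))
  obtain ⟨m, rfl⟩ := (FiniteField.bijective_frobeniusAlgEquivOfAlgebraic_pow (ZMod q) k).2 φ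
  refine ⟨m.1, ?_⟩
  rw [← hφ]
  simp only []
  rw [AlgEquiv.smul_def, AlgEquiv.coe_pow,
    FiniteField.coe_frobeniusAlgEquivOfAlgebraic_iterate, ZMod.card]

lemma pow_eq_of_dvd {m : ℕ} (hg : g ∣ X ^ q ^ m - X) {x : k} (hx : aeval x g = 0) :
    x ^ q ^ m = x := by
  simpa [sub_eq_zero] using aeval_eq_zero_of_dvd_aeval_eq_zero hg hx

omit [Fintype ι] in
lemma pow_mem' {τ : Equiv.Perm ι} {R : Finset ι} (h : ∀ i ∈ R, τ i ∈ R) (m : ℕ) :
    ∀ i ∈ R, (τ ^ m) i ∈ R := by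
  induction m with
  | zero => simp
  | succ m ih => exact fun i hi => by rw [pow_succ']; exact h _ (ih i hi)

lemma typ_congr {σ τ : Equiv.Perm ι} {d : ℕ} (e : Subgroup.zpowers τ = Subgroup.zpowers σ)
    (h : Typ σ d) : Typ τ d := by
  obtain ⟨R, h1, h2, h3, h4⟩ := h
  obtain ⟨a, ha⟩ := mem_powers_iff_mem_zpowers.mpr (e.le (Subgroup.mem_zpowers τ))
  refine ⟨R, h1, fun i hi => ha ▸ pow_mem' h2 a i hi, fun i hi j hj => ?_, fun i hi => ?_⟩
  · obtain ⟨m, rfl⟩ := h3 i hi j hj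
    obtain ⟨c, hc⟩ := mem_powers_iff_mem_zpowers.mpr (e.ge (Subgroup.npow_mem_zpowers σ m))
    exact ⟨c, congrArg (· i) hc⟩
  · have h5 : (σ ^ 2) i = i := by rw [sq]; exact h4 i hi
    have h6 := Equiv.Perm.pow_apply_eq_self_of_apply_eq_self h5 a
    rw [← pow_mul, mul_comm, pow_mul, sq] at h6
    exact ha ▸ h6

lemma src_ff [Finite k] (hF : F.Monic) (e : F.map (algebraMap _ k) = ∏ i, (X - C (ρ i)))
    (h2 : Function.Injective ρ) {τ : Equiv.Perm ι} (hρ : ∀ m i, ρ ((τ ^ m) i) = ρ i ^ q ^ m)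
    {d : ℕ} (hd : 0 < d) (ht : Typ τ d) : ∃ g h : (ZMod q)[X], Irreducible g ∧ g.Monic ∧
      g.natDegree = d ∧ h.Monic ∧ h ∣ X ^ q ^ 2 - X ∧ IsCoprime g h ∧ F = g * h := by
  classical
  obtain ⟨R, h1, h3, h4, h5⟩ := ht
  obtain ⟨i, hi⟩ := card_pos.mp (h1 ▸ hd)
  have hint : IsIntegral (ZMod q) (ρ i) := IsIntegral.of_finite _ _
  have hg := minpoly.irreducible hint
  have hg0 := minpoly.aeval (ZMod q) (ρ i)
  have hgm := minpoly.monic hint
  have hgF := minpoly.dvd (ZMod q) (ρ i) (aeval_root e i)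
  generalize minpoly (ZMod q) (ρ i) = g at hg hg0 hgm hgF
  have hR : ∀ j, j ∈ R ↔ aeval (ρ j) g = 0 := fun j => by
    refine ⟨fun hj => ?_, fun hj => ?_⟩
    · obtain ⟨m, rfl⟩ := h4 i hi j hj
      rw [hρ]
      exact aeval_pow hg0 m
    · obtain ⟨m, hm⟩ := conj_pow hg hg0 hj
      rw [← hρ] at hm
      exact h2 hm ▸ pow_mem' h3 m i hi
  have hc := card_roots e h2 hg hgF
  obtain ⟨h, rfl⟩ := hgF
  have hs : (g * h).Separable := (separable_map (algebraMap _ k)).mp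
    (e ▸ separable_prod_X_sub_C_iff.mpr h2)
  have hm : h.Monic := hgm.of_mul_monic_left hF
  refine ⟨g, h, hg, hgm, ?_, hm, ?_, hs.isCoprime, rfl⟩
  · rw [← hc, ← h1]
    congr 1
    ext j
    simp [hR]
  · rw [← map_dvd_map' (algebraMap _ k),
      (splits_of_dvd e (dvd_mul_left h g)).eq_prod_roots_of_monic (hm.map _)]
    have h0 : (X ^ q ^ 2 - X : (ZMod q)[X]).map (algebraMap _ k) ≠ 0 :=
      Polynomial.map_ne_zero (FiniteField.X_pow_card_pow_sub_X_ne_zero _ two_ne_zero hq.out.one_lt)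
    rw [Multiset.prod_X_sub_C_dvd_iff_le_roots h0,
      Multiset.le_iff_subset (nodup_roots hs.of_mul_right.map)]
    intro x hx
    rw [mem_roots (hm.map _).ne_zero, IsRoot, eval_map_algebraMap] at hx
    obtain ⟨j, rfl⟩ := root_mem e (dvd_mul_left h g) hx
    have hj : j ∉ R := fun hj => by
      have := hs.isCoprime.map (aeval (ρ j)).toRingHom
      simp only [AlgHom.toRingHom_eq_coe, RingHom.coe_coe] at this
      rw [(hR j).mp hj, hx] at this
      exact not_isCoprime_zero_zero this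
    have h6 := hρ 2 j
    rw [sq τ, Equiv.Perm.mul_apply, h5 j hj] at h6
    rw [mem_roots h0, IsRoot, eval_map_algebraMap, map_sub, map_pow, aeval_X, ← h6, sub_self]

lemma inj_ff {h : (ZMod q)[X]} (e : (g * h).map (algebraMap _ k) = ∏ i, (X - C (ρ i)))
    (hg : Irreducible g) (hh : h ∣ X ^ q ^ 2 - X) (hc : IsCoprime g h) : Function.Injective ρ :=
  separable_prod_X_sub_C_iff.mp (e ▸ ((PerfectField.separable_of_irreducible hg).mul
    ((galois_poly_separable q (q ^ 2) (dvd_pow_self q two_ne_zero)).of_dvd hh) hc).map)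

lemma fr_ff [Finite k] {h : (ZMod q)[X]} (e : (g * h).map (algebraMap _ k) = ∏ i, (X - C (ρ i)))
    (hg : Irreducible g) (hh : h ∣ X ^ q ^ 2 - X) (hc : IsCoprime g h) (ho : Odd g.natDegree)
    {τ : Equiv.Perm ι} (hρ : ∀ m i, ρ ((τ ^ m) i) = ρ i ^ q ^ m) :
    ∃ R : Finset ι, R.card = g.natDegree ∧ ∀ i ∈ R, ∀ j ∈ R, ∃ m : ℕ, (τ ^ m) i = j ∧
      ∀ x ∉ R, (τ ^ m) x = x := by
  classical
  have h2 := inj_ff e hg hh hc
  refine ⟨_, card_roots e h2 hg (dvd_mul_right g h), fun i hi j hj => ?_⟩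
  obtain ⟨m, hm⟩ := conj_pow hg (mem_filter.mp hi).2 (mem_filter.mp hj).2
  have h3 : (τ ^ g.natDegree) i = i := h2 (by
    rw [hρ]
    refine pow_eq_of_dvd ?_ (mem_filter.mp hi).2
    have := (hg.natDegree_dvd_iff_dvd_X_pow_card_pow_sub_X).mp dvd_rfl
    rwa [Nat.card_zmod] at this)
  refine ⟨m + g.natDegree * m, ?_, fun x hx => ?_⟩
  · rw [pow_add, Equiv.Perm.mul_apply, pow_mul,
      Equiv.Perm.pow_apply_eq_self_of_apply_eq_self h3]
    exact h2 ((hρ m i).trans hm)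
  · have h4 := aeval_root e x
    rw [map_mul, mul_eq_zero] at h4
    have h5 : (τ ^ 2) x = x := h2 (by
      rw [hρ]
      exact pow_eq_of_dvd hh (h4.resolve_left (by simpa using hx)))
    obtain ⟨c, hc⟩ := ho
    rw [show m + g.natDegree * m = 2 * ((c + 1) * m) by rw [hc]; ring, pow_mul,
      Equiv.Perm.pow_apply_eq_self_of_apply_eq_self h5]

end FF

lemma mk_pow {p : ℕ} {f : ℤ[X]} (D : GD p f) {q : ℕ} {Q : Ideal (𝓞 D.L)} {τ : D.L ≃ₐ[ℚ] D.L}
    (hτ : ∀ y : 𝓞 D.L, τ • y - y ^ q ∈ Q) (m : ℕ) (i : D.ι) :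
    Ideal.Quotient.mk Q (D.r ((MulAction.toPermHom _ D.ι τ ^ m) i)) =
      Ideal.Quotient.mk Q (D.r i) ^ q ^ m := by
  rw [← map_pow]
  exact mk_frob_pow D.act hτ m i

end GAL

open GAL

theorem stGa2 (_hT : StTy') : StGa2 where
  src := by
    intro p n d b D hp hd σ hσ ht B
    classical
    obtain ⟨g, hg, rfl⟩ := hσ
    obtain ⟨N, hN⟩ := exists_bound_of_ne_zero
      (y := (p : 𝓞 D.L) * ∏ x ∈ univ.offDiag, (D.r x.1 - D.r x.2))
      (mul_ne_zero (Nat.cast_ne_zero.mpr hp.ne_zero) (prod_ne_zero_iff.mpr fun x hx e =>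
        (mem_offDiag.mp hx).2.2 (D.inj (sub_eq_zero.mp e))))
    refine Eff.many_frob (L := D.L) g (max B N) _ fun q hq hB Q hQ hqQ τ hτ hF => ?_
    have := Fact.mk hq
    have := hQ.isMaximal (ne_bot_of_prime_mem hq hqQ)
    have h6 := hN q hq ((le_max_right _ _).trans_lt hB) Q hQ.ne_top hqQ
    refine ⟨hq, (le_max_left _ _).trans_lt hB, ?_, ?_⟩
    · have hz := D.hz
      have : NeZero p := ⟨hp.ne_zero⟩
      have h7 : τ • hz.toInteger = hz.toInteger := RingOfIntegers.ext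
        ((Subgroup.zpowers_le (H := MulAction.stabilizer _ D.z)).mpr hg
          (hτ ▸ Subgroup.mem_zpowers τ))
      have h8 := hF hz.toInteger
      have h9 := hz.toInteger_isPrimitiveRoot
      obtain ⟨q, rfl⟩ := Nat.exists_eq_add_one_of_ne_zero hq.ne_zero
      rw [h7, pow_succ, ← one_sub_mul, hQ.mul_mem_iff_mem_or_mem] at h8
      have h10 := eq_one_of_sub_mem (fun e => h6 (Q.mul_mem_right _ e)) (x := hz.toInteger ^ q)
        (by rw [← pow_mul, mul_comm, pow_mul, h9.pow_eq_one, one_pow]) (by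
          simpa using neg_mem (h8.resolve_right fun e => hQ.ne_top
            (Q.eq_top_of_isUnit_mem e (h9.isUnit hp.ne_zero))))
      simpa using (Nat.modEq_zero_iff_dvd.mpr (h9.dvd_of_pow_eq_one _ h10)).add_right 1
    · let := Ideal.Quotient.field Q
      have : CharP (𝓞 D.L ⧸ Q) q := (CharP.charP_iff_prime_eq_zero hq).mpr
        ((map_natCast (Ideal.Quotient.mk Q) q).symm.trans (Ideal.Quotient.eq_zero_iff_mem.mpr hqQ))
      let := ZMod.algebra (𝓞 D.L ⧸ Q) q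
      have : Finite (𝓞 D.L ⧸ Q) := (Ideal.absNorm_ne_zero_iff Q).mp (by
        rw [Ne, Ideal.absNorm_eq_zero_iff]; exact ne_bot_of_prime_mem hq hqQ)
      refine src_ff ((IRR.pol_monic b).map _) (map_eq_prod (l := q) (Q := Q) D.prod)
        (fun i j e => by_contra fun e' => h6 (Q.mul_mem_left _ (Q.mem_of_dvd
          (dvd_prod_of_mem _ (a := (i, j)) (by simpa using e')) (Ideal.Quotient.eq.mp e))))
        (mk_pow D hF) hd (typ_congr ?_ ht)
      rw [← MonoidHom.map_zpowers, ← MonoidHom.map_zpowers, hτ]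
  fr := by
    intro p n q e b D hp hq hqp ho ⟨g, h, hg, _, hd, _, hh, hc, hf⟩
    have := Fact.mk hq
    obtain ⟨w, hw⟩ := exists_over D.L hq
    have := w.isMaximal
    obtain ⟨τ, hτ, -⟩ := exists_frob (D.L ≃ₐ[ℚ] D.L) hq w.asIdeal hw
    have hz := D.hz
    have : NeZero p := ⟨hp.ne_zero⟩
    have h9 := hz.toInteger_isPrimitiveRoot
    have hpq : q.Coprime p := by
      rw [Nat.Coprime, hqp.gcd_eq, Nat.gcd_one_left]
    have h1 : hz.toInteger ^ q = hz.toInteger := by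
      rw [← pow_one hz.toInteger, ← pow_mul, one_mul]
      exact pow_eq_pow_of_modEq hqp h9.pow_eq_one
    have h2 : hz.toInteger * hz.toInteger ^ (p - 1) = 1 := by
      rw [← pow_succ', Nat.sub_add_cancel hp.pos, h9.pow_eq_one]
    have h3 : τ • hz.toInteger * hz.toInteger ^ (p - 1) = 1 := by
      refine eq_one_of_sub_mem (Q := w.asIdeal) (m := p) (fun e =>
        ((val_natCast_lt_iff w p).mpr e).ne (val_nat_eq_one hw hpq)) ?_ ?_
      · rw [mul_pow, ← smul_pow', ← pow_mul, mul_comm (p - 1), pow_mul, h9.pow_eq_one, smul_one,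
          one_pow, one_mul]
      · have := w.asIdeal.mul_mem_right (hz.toInteger ^ (p - 1)) (hτ hz.toInteger)
        rwa [sub_mul, h1, h2] at this
    have h4 : τ ∈ MulAction.stabilizer (D.L ≃ₐ[ℚ] D.L) D.z :=
      congrArg (fun x : 𝓞 D.L => (x : D.L)) (mul_right_cancel₀
        (pow_ne_zero _ (h9.ne_zero hp.ne_zero)) (h3.trans h2.symm))
    let := Ideal.Quotient.field w.asIdeal
    have : CharP (𝓞 D.L ⧸ w.asIdeal) q := (CharP.charP_iff_prime_eq_zero hq).mpr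
      ((map_natCast (Ideal.Quotient.mk _) q).symm.trans (Ideal.Quotient.eq_zero_iff_mem.mpr hw))
    let := ZMod.algebra (𝓞 D.L ⧸ w.asIdeal) q
    have : Finite (𝓞 D.L ⧸ w.asIdeal) := (Ideal.absNorm_ne_zero_iff _).mp (by
      rw [Ne, Ideal.absNorm_eq_zero_iff]; exact w.ne_bot)
    obtain ⟨R, h5, h6⟩ := fr_ff ((congrArg _ hf.symm).trans
      (map_eq_prod (l := q) (Q := w.asIdeal) D.prod)) hg hh hc (hd ▸ ho) (mk_pow D hτ)
    refine ⟨R, h5.trans hd, fun i hi j hj => ?_⟩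
    obtain ⟨m, hm⟩ := h6 i hi j hj
    exact ⟨_, Subgroup.pow_mem _ (Subgroup.mem_map_of_mem _ h4) m, hm⟩

end Pool.Agent.Lib.Mu14.All
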