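import Pool.Agent.Lib.Mu46.Grd1

/-! Reduction of the zeta value at the second cusp to the local factor. -/

set_option autoImplicit false

open Matrix Filter Topology

namespace Pool.Agent.Lib.Mu14.All

namespace GRD

variable {n : ℕ}

lemma val_r {l r : ℕ} (hl : l.Prime) (hr : r.Prime) (h : r ≠ l) {j : ℕ} (s : ℕ) (hj : j ∣ r ^ s) :
    padicValRat l j = 0 := by
  rw [padicValRat.of_nat, padicValNat.eq_zero_of_not_dvd fun k =>
    h ((Nat.prime_dvd_prime_iff_eq hl hr).1 (hl.dvd_of_dvd_pow (k.trans hj))).symm, Nat.cast_zero]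

lemma top (a : Fin (n + 1) → ℤ) {l r : ℕ} (hl : l.Prime) (hr : r.Prime) (h : r ≠ l) :
    ∃ L₀, Stab ((r : ℚ) • comp (toQ a)) L₀ ∧ padicValRat l (covol L₀) = 0 ∧
      ∀ L, Stab ((r : ℚ) • comp (toQ a)) L → (lam0 ∈ dual L ↔ L ≤ L₀) := by
  have := Fact.mk hl
  have r0 : (r : ℚ) ≠ 0 := by exact_mod_cast hr.ne_zero
  let g : Mx (n + 1) := diagonal fun i => (r : ℚ) ^ (n - i.val)
  have hd : g.det = (r ^ ∑ i : Fin (n + 1), (n - i.val) : ℕ) := by
    rw [det_diagonal, Finset.prod_pow_eq_pow_sum, Nat.cast_pow]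
  have hg : g.det ≠ 0 := by rw [hd, Nat.cast_pow]; exact pow_ne_zero _ r0
  have hu := isUnit_iff_ne_zero.2 hg
  have hc := SCL.conj_diag (toQ a) r0 (c := (r : ℚ) ^ n) (d := fun i => (r : ℚ) ^ (n - i.val))
    (fun i => by rw [← pow_add, Nat.sub_add_cancel (Nat.lt_succ_iff.1 i.2)]) hg
  rw [← Int.cast_natCast, ← Move.toQ_scl, Int.cast_natCast] at hc
  have h1 : (lam0 : V (n + 1)) ᵥ* g⁻¹ = lam0 := by
    have : (lam0 : V (n + 1)) ᵥ* g = lam0 := by
      funext i
      rw [vecMul_diagonal, lam0]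
      split_ifs with k
      · rw [show n - i.val = 0 by omega, pow_zero, mul_one]
      · rw [zero_mul]
    nth_rw 1 [← this]
    rw [vecMul_vecMul, mul_nonsing_inv _ hu, vecMul_one]
  have h2 : ∀ L, Stab (comp (toQ (scl (r : ℤ) a))) (act g L) ↔ Stab ((r : ℚ) • comp (toQ a)) L :=
    fun L => by rw [Stab, Stab, hc, stLat1.act_lat L hg, stLat1.act_end L _ hg]
  have h3 : act g (act g⁻¹ (LZ (n + 1))) = LZ (n + 1) := by
    rw [stLat1.act_act, mul_nonsing_inv _ hu, stLat1.act_one]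
  have h4 := (h2 _).1 (h3.symm ▸ Dep.stab_LZ _)
  refine ⟨_, h4, ?_, fun L hL => ?_⟩
  · have e := stLat1.act_cov hg h4.1
    rw [h3, covol_LZ stLat1, hd, Nat.abs_cast] at e
    rw [eq_inv_of_mul_eq_one_right e.symm, padicValRat.inv,
      val_r hl hr h _ dvd_rfl, neg_zero]
  · rw [← stLat1.act_dual L _ hg, h1]
    refine ((and_iff_right ((h2 L).2 hL)).symm.trans ((Dep.idl_iff cnt1).trans
      (and_iff_right ((h2 L).2 hL)))).trans ⟨fun k y hy => ?_, fun k => h3 ▸ Dep.act_mono g k⟩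
    rw [← Full.mem_act' stLat1 hg, h3]
    exact k ((Full.mem_act' stLat1 hg L y).2 hy)

lemma val_fib (hH : StHul) {a : Fin n → ℤ} {l r : ℕ} (hl : l.Prime) (hr : r.Prime) (h : r ≠ l)
    {L : Lt n} (hL : Stab ((r : ℚ) • comp (toQ a)) L) :
    padicValRat l (covol L) = padicValRat l (covol (hull (comp (toQ a)) L)) := by
  have := Fact.mk hl
  obtain ⟨h1, h2⟩ := hH.pow hr.pos (stBlk.chp _) hL
  obtain ⟨j, j0, e, -⟩ := EISL.idx stLat1 hL.1 h1.1 (hH.le _ L).1
  obtain ⟨h3, h4⟩ := EISL.scal_lat stLat1 (pow_pos hr.pos n) h1.1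
  obtain ⟨i, -, e', -⟩ := EISL.idx stLat1 h3 hL.1 fun v hv => by
    obtain ⟨y, hy, rfl⟩ := EISL.mem_scal.1 hv
    exact_mod_cast h2 y hy
  have h5 := (stLat1.pos (hull (comp (toQ a)) L)).ne'
  rw [h4, e, ← mul_assoc, mul_left_inj' h5, ← pow_mul] at e'
  rw [e, padicValRat.mul (by exact_mod_cast j0.ne') h5,
    val_r hl hr h (n * n) ⟨i, by rw [mul_comm j]; exact_mod_cast e'⟩, zero_add]

end GRD

open GRD in
theorem stGR (hF : StFin) (hH : StHul) : StGR := by
  classical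
  intro p n k l r a O C α c hP ha hs hr rp rl hO hC hc
  have hp := hP.hp
  have hl := hP.hl
  have := Fact.mk hl
  set x := comp (toQ a) with hx
  have r0 : (r : ℚ) ≠ 0 := by exact_mod_cast hr.ne_zero
  have hl0 : (l : ℚ) ≠ 0 := by exact_mod_cast hl.ne_zero
  have nd : ∀ {q : ℕ}, q.Prime → q ≠ p → O.valuation q = 1 := fun hq h =>
    unit0.nat p _ O hp hO fun h' => h ((Nat.prime_dvd_prime_iff_eq hp hq).1 h').symm
  have r2 : 0 < r ^ 2 := pow_pos hr.pos 2
  have hE : ∀ {L}, Stab ((r : ℚ) • x) L → EndL L (((r ^ 2 : ℕ) : ℚ) • (α / r : ℚ) • x) :=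
    fun {L} h => by
      rw [smul_smul, show ((r ^ 2 : ℕ) : ℚ) * (α / r) = α * r by push_cast; field_simp, mul_smul]
      exact h.2.smul (IsZ.int α)
  let W : Lt (n + 1) → ℂ := fun L => stab ((r : ℚ) • x) L * FM (WC C) ((α / r : ℚ) • x) L
  have W1 : ∀ {L}, Stab ((r : ℚ) • x) L → W L = FM (WC C) ((α / r : ℚ) • x) L := fun h => by
    simp only [W, stab, if_pos h, one_mul]
  have W0 : ∀ {L}, ¬Stab ((r : ℚ) • x) L → W L = 0 := fun h => by
    simp only [W, stab, if_neg h, zero_mul]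
  have hD : Dat O r x W := by
    refine ⟨fun L h => by_contra fun k => h (W0 k), fun L => ?_, fun L => ?_, fun g hg h L => ?_⟩
    · by_cases h : Stab ((r : ℚ) • x) L
      · rw [W1 h]
        exact (hF.bnd r2 hC h.1 (hE h)).2 O (by rw [Nat.cast_pow, map_pow, nd hr rp, one_pow])
      · simp [W0 h]
    · by_cases h : Stab ((r : ℚ) • x) L
      · rw [W1 h]
        exact (hF.bnd r2 hC h.1 (hE h)).1
      · simp [W0 h]
    · have e := Full.stab_act stLat1 (x := (r : ℚ) • x) hg (by simp [h]) L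
      by_cases k : Stab ((r : ℚ) • x) L
      · rw [W1 k, W1 (e.2 k)]
        exact hF.loc (m := 1) r2 hC (e.2 k).1 k.1 hg (by simp) (hE (e.2 k)) (hE k) le_rfl
          (fun y hy => by simpa using hy) fun y _ => by simp [h]
      · rw [W0 k, W0 fun k' => k (e.1 k')]
  have hEis : EisZ l (scl (r : ℤ) a) := by
    refine ⟨fun i => (ha.1 i).mul_left _, fun i hi h => ha.2 i hi ?_⟩
    exact ((Nat.isCoprime_iff_coprime.2 ((Nat.coprime_primes hl hr).2 rl.symm)).pow
      ).dvd_of_dvd_mul_left h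
  obtain ⟨σ, hσ, hdef, hit, hlast⟩ := eisl n l _ ((r : ℚ) • x) hl hEis
    (by rw [Move.toQ_scl]; exact stBlk.scl_chp _ (stBlk.chp _))
  obtain ⟨L₀, h0, v0, hL₀⟩ := top a hl hr rl
  rw [← hx] at h0 hL₀
  have hiter : ∀ m L L', Stab ((r : ℚ) • x) L → Stab ((r : ℚ) • x) L' → L ≤ L' →
      σ^[m] L ≤ σ^[m] L' := fun m => by
    induction m with
    | zero => exact fun _ _ _ _ h => h
    | succ m ih =>
      refine fun L L' hL hL' h => ih _ _ (hσ.bij.mapsTo hL) (hσ.bij.mapsTo hL') ?_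
      rw [hdef L hL, hdef L' hL']
      exact sup_le_sup (Dep.act_mono _ h) (Dep.act_mono _ h)
  have hiff : ∀ L, Stab ((r : ℚ) • x) L → (σ L ≤ σ L₀ ↔ L ≤ L₀) := fun L hL => by
    refine ⟨fun h y hy => ?_, hiter 1 _ _ hL h0⟩
    have h2 := hiter n _ _ (hσ.bij.mapsTo hL) (hσ.bij.mapsTo h0) h
    rw [← Function.iterate_succ_apply, ← Function.iterate_succ_apply, hit L hL, hit _ h0] at h2
    obtain ⟨z, hz, e⟩ := EISL.mem_scal.1 (h2 (EISL.mem_scal.2 ⟨y, hy, rfl⟩))
    exact smul_right_injective _ hl0 e ▸ hz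
  let w : Lt (n + 1) → ℂ := fun L => ((covol L : ℚ) : ℂ)⁻¹ ^ k
  have hsum : ∀ (P : Lt (n + 1) → Prop) [DecidablePred P], (∀ L, P L → lam0 ∈ dual L) →
      Summable fun L => (if P L then W L else 0) * w L := fun P _ hP' => by
    refine Summable.of_norm_bounded (lat2.summ (L₀ := L₀) k h0.1
      (by have := hP.kk.2; omega)) fun L => ?_
    have hpos : (0 : ℝ) < (covol L : ℚ) := by exact_mod_cast stLat1.pos L
    by_cases h : P L ∧ Stab ((r : ℚ) • x) L
    · rw [if_pos h.1, if_pos ⟨h.2.1, (hL₀ L h.2).1 (hP' L h.1)⟩, norm_mul]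
      simp only [w, norm_pow, norm_inv, Complex.norm_ratCast, abs_of_pos hpos]
      exact mul_le_of_le_one_left (by positivity) (hD.bd L)
    · have : (if P L then W L else 0) = 0 := by
        split_ifs with k
        exacts [W0 fun k' => h ⟨k, k'⟩, rfl]
      rw [this, zero_mul, norm_zero]
      split_ifs <;> positivity
  have hirr := irr0.irr hl ha
  have hS := eis_int hH hP.kk hs (fun v hv => (irr0.cyc hirr v hv).1) hr.one_lt (nd hr rp) hD
  rw [← hx] at hS
  have hcn : ∀ L, Stab ((r : ℚ) • x) L →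
      (Cn x lam0 (σ L) ∧ padicValRat l (covol (σ L)) ≠ 0 ↔ Cn x lam0 L) := fun L hL => by
    have hL' : Stab ((r : ℚ) • x) (σ L) := hσ.bij.mapsTo hL
    have e1 : lam0 ∈ dual (σ L) ∧ padicValRat l (covol (σ L)) ≠ 0 ↔ lam0 ∈ dual L := by
      rw [hL₀ _ hL', hL₀ _ hL, ← hiff L hL]
      have e := fun h => hlast _ _ h0 hL' h
      rw [padicValRat.div (stLat1.pos _).ne' (stLat1.pos _).ne', v0, sub_zero] at e
      exact ⟨fun h => (e h.1).2 h.2, fun h => ⟨h.trans (hσ.le _ h0), (e (h.trans (hσ.le _ h0))).1 h⟩⟩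
    rw [Cn, Cn, and_right_comm, e1]
    refine and_congr_right fun h => not_congr ⟨fun h' => ?_, fun h' => Smo.dual_mono
      ((hH.le x _).2.2 _ ((hσ.le L hL).trans (hH.le x L).1) (hH.le x L).2.1) h'⟩
    have h1 : (l : ℚ) • lam0 ∈ dual (hull x L) := fun y hy => by
      have h2 := (hH.le x L).2.2 ((hull x (σ L)).comap
        (((l : ℚ) • (1 : Mx (n + 1))).mulVecLin.restrictScalars ℤ))
        (fun z hz => by simpa [smul_mulVec] using (hH.le x _).1 (hσ.ge L hL z hz))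
        (fun z hz => by simpa [smul_mulVec, mulVec_smul] using (hH.le x _).2.1 _ hz) hy
      rw [smul_dotProduct, ← dotProduct_smul]
      exact h' _ (by simpa [smul_mulVec] using h2)
    obtain ⟨u, t, e⟩ := Nat.isCoprime_iff_coprime.2
      (((Nat.coprime_primes hl hr).2 rl.symm).pow_right (n + 1))
    have h3 := add_mem (int_smul_mem u h1) (int_smul_mem t (pow_dual hH hr.pos hL h))
    rwa [smul_smul, smul_smul, ← add_smul, show (u : ℚ) * l + t * (r ^ (n + 1) : ℕ) = 1 by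
      exact_mod_cast e, one_smul] at h3
  have hdep : ∑' L, (if Cn x lam0 L ∧ padicValRat l (covol L) ≠ 0 then W L else 0) * w L =
      (l : ℂ)⁻¹ ^ k * ∑' L, (if Cn x lam0 L then W L else 0) * w L := by
    rw [← tsum_mul_left]
    refine Dep.tsum_bij hσ.bij (fun L h => by simp [W0 h]) (fun L h => by simp [W0 h])
      fun L hL => ?_
    replace hL : Stab ((r : ℚ) • x) L := hL
    have hL' : Stab ((r : ℚ) • x) (σ L) := hσ.bij.mapsTo hL
    have e : W (σ L) = W L := by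
      rw [W1 hL, W1 hL']
      exact (hF.loc (m := l) (K := 1) r2 hC hL.1 hL'.1 (by simp)
        (((Nat.coprime_primes hl hr).2 rl.symm).pow_right 2) (hE hL) (hE hL')
        (by rw [stLat1.act_one]; exact hσ.le L hL) (by rw [stLat1.act_one]; exact hσ.ge L hL)
        fun y _ => by simp).symm
    simp only [hcn L hL, e]
    simp only [w, hσ.cov L hL]
    push_cast
    rw [mul_inv, mul_pow]
    ring
  let P₁ : Lt (n + 1) → Prop := fun L => lam0 ∈ dual L ∧ padicValRat l (covol L) = 0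
  have s1 := hsum (fun L => P₁ L ∧ lam0 ∈ dual (hull x L)) fun L h => h.1.1
  have hreg : ∑' L, (if P₁ L ∧ lam0 ∈ dual (hull x L) then W L else 0) * w L =
      c * ∑' M, if P₁ M then stab x M * w M else 0 := by
    rw [← (s1.hasSum.tsum_fiberwise (hull x)).tsum_eq, ← tsum_mul_left]
    refine tsum_congr fun M => ?_
    rw [tsum_subtype (hull x ⁻¹' {M})
      fun L => (if P₁ L ∧ lam0 ∈ dual (hull x L) then W L else 0) * w L]
    by_cases hM : Stab x M
    · rw [tsum_eq_sum (s := (hH.fin hr.pos hM).toFinset) fun L hL => by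
        refine Set.indicator_apply_eq_zero.2 fun h => ?_
        rw [W0 fun k => hL ((Set.Finite.mem_toFinset _).2 ⟨k, h⟩), ite_self, zero_mul],
        ← hc M hM, cc, finsum_mem_eq_finite_toFinset_sum _ (hH.fin hr.pos hM), Finset.sum_mul]
      refine Finset.sum_congr rfl fun L hL => ?_
      obtain ⟨h1, h2⟩ := (Set.Finite.mem_toFinset _).1 hL
      have h3 : P₁ L ∧ lam0 ∈ dual (hull x L) ↔ P₁ M := by
        simp only [P₁, val_fib hH hl hr rl h1, ← hx, h2]
        exact ⟨fun h => ⟨h.2, h.1.2⟩,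
          fun h => ⟨⟨Smo.dual_mono (h2 ▸ (hH.le x L).1) h.1, h.2⟩, h.1⟩⟩
      have h4 : ((covol M : ℚ) : ℂ) ≠ 0 := by exact_mod_cast (stLat1.pos M).ne'
      rw [Set.indicator_of_mem (show L ∈ hull x ⁻¹' {M} from h2), W1 h1, stab, if_pos hM]
      simp only [h3, w]
      split_ifs
      · push_cast
        rw [one_mul, mul_assoc, ← mul_pow]
        congr 2
        field_simp
      · simp
    · rw [stab, if_neg hM, zero_mul, ite_self, mul_zero]
      refine (tsum_congr fun L => Set.indicator_apply_eq_zero.2 fun h => ?_).trans tsum_zero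
      rw [W0 fun k => hM (h ▸ (hH.pow hr.pos (stBlk.chp _) k).1), ite_self, zero_mul]
  have s2 := hsum (Cn x lam0) fun L h => h.1
  have s3 := hsum (fun L => Cn x lam0 L ∧ padicValRat l (covol L) ≠ 0) fun L h => h.1.1
  have key : zC k l r 1 C α a = c * zW k l stab (toQ a) + (1 - (l : ℂ)⁻¹ ^ k) *
      (pre k (toQ a) * ∑' L, (if Cn x lam0 L then W L else 0) * w L) := by
    rw [zC, zW, zW, if_pos hs, if_pos hs, mul_left_comm c, mul_left_comm (1 - _), ← mul_add,
      sub_mul, one_mul, ← hdep, ← hx, ← hreg, ← s2.tsum_sub s3, ← s1.tsum_add (s2.sub s3)]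
    congr 1
    refine tsum_congr fun L => ?_
    by_cases h1 : lam0 ∈ dual L <;> by_cases h2 : padicValRat l (covol L) = 0 <;>
      by_cases h3 : lam0 ∈ dual (hull x L) <;> simp [P₁, Cn, W, w, h1, h2, h3]
  have h2 : Cv O ((l : ℂ)⁻¹ ^ k) 1 := by
    obtain ⟨t, ht⟩ := hP.dvd
    have h3 : l ^ k ≡ 1 [MOD p] := by
      rw [ht, pow_mul]
      simpa [Nat.totient_prime hp] using
        (Nat.ModEq.pow_totient ((Nat.coprime_primes hl hp).2 hP.lp)).pow t
    have h4 := (by simpa using cv_nat hO h3 : Cv O ((l : ℂ) ^ k) 1).inv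
    rwa [← inv_pow] at h4
  rw [key, Cv, add_sub_cancel_left, map_mul]
  exact mul_lt_one_of_lt_of_le h2.symm hS

end Pool.Agent.Lib.Mu14.All
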