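import Pool.Agent.Lib.Mu46.Blue

/-! Permutation groups: classes of the transposition relation. -/

set_option autoImplicit false

open Finset Equiv

namespace Pool.Agent.Lib.Mu14.All

namespace GRP

variable {ι : Type} [DecidableEq ι] {P : Subgroup (Perm ι)}

lemma rfl' (i : ι) : swap i i ∈ P := by
  rw [swap_self]
  exact P.one_mem

lemma symm' {i j : ι} (h : swap i j ∈ P) : swap j i ∈ P := by rwa [swap_comm]

lemma conj' {σ : Perm ι} (hσ : σ ∈ P) {i j : ι} (h : swap i j ∈ P) : swap (σ i) (σ j) ∈ P := by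
  rw [swap_apply_apply]
  exact P.mul_mem (P.mul_mem hσ h) (P.inv_mem hσ)

lemma trans' {i j k : ι} (h : swap i j ∈ P) (h' : swap j k ∈ P) : swap i k ∈ P := by
  by_cases a : i = j
  · rwa [a]
  by_cases b : i = k
  · rw [b]
    exact rfl' k
  simpa [swap_apply_of_ne_of_ne a b] using conj' h' h

variable [Fintype ι]

lemma tcl_eq (hD : Dih P) (i j : ι) : tcl P i = tcl P j := by
  classical
  obtain ⟨σ, hσ, rfl, -⟩ := hD i j
  refine Finset.card_bijective σ σ.bijective fun x => ?_
  simp only [mem_filter, mem_univ, true_and]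
  exact ⟨conj' hσ, fun h => by simpa using conj' (P.inv_mem hσ) h⟩

lemma le_tcl {i : ι} {S : Finset ι} (h : ∀ x ∈ S, swap i x ∈ P) : S.card ≤ tcl P i := by
  classical
  exact card_le_card fun x hx => by simpa using h x hx

lemma dvd_closed (hD : Dih P) (i : ι) (R : Finset ι)
    (h : ∀ a ∈ R, ∀ b, swap a b ∈ P → b ∈ R) : tcl P i ∣ R.card := by
  classical
  induction R using Finset.strongInduction with
  | H R ih =>
    rcases R.eq_empty_or_nonempty with rfl | ⟨a, ha⟩
    · simp
    have hs : (univ.filter fun j => swap a j ∈ P) ⊆ R := fun b hb => h a ha b (by simpa using hb)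
    rw [← card_sdiff_add_card_eq_card hs]
    refine dvd_add (ih _ (sdiff_ssubset hs ⟨a, by simpa using rfl' a⟩) fun x hx y hy => ?_) ?_
    · simp only [mem_sdiff, mem_filter, mem_univ, true_and] at hx ⊢
      exact ⟨h x hx.1 y hy, fun k => hx.2 (trans' k (symm' hy))⟩
    · rw [tcl_eq hD i a]
      exact dvd_of_eq (by unfold tcl; congr)

lemma mem_of_support (i : ι) (f : Perm ι) (h : ∀ x ∈ f.support, swap i x ∈ P) : f ∈ P := by
  induction hn : f.support.card using Nat.strong_induction_on generalizing f with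
  | _ n ih =>
    by_cases h1 : f = 1
    · rw [h1]
      exact P.one_mem
    obtain ⟨x, hx⟩ : ∃ x, f x ≠ x := by
      by_contra k
      exact h1 (Equiv.ext fun x => by simpa using not_exists.1 k x)
    have a : swap x (f x) ∈ P :=
      trans' (symm' (h x (by simpa using hx))) (h _ (by simpa using hx))
    have b := ih _ (hn ▸ Perm.card_support_swap_mul hx) (swap x (f x) * f)
      (fun y hy => h y (Perm.mem_support_swap_mul_imp_mem_support_ne hy).1) rfl
    simpa [← mul_assoc] using P.mul_mem a b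

lemma typ (i : ι) {j : ℕ} (hD : Dih P) (h : tcl P i < Fintype.card ι) (hj : j ≤ tcl P i) :
    ∃ σ ∈ P, Typ σ (2 * j) := by
  classical
  obtain ⟨i₁, hi⟩ : ∃ i₁, swap i i₁ ∉ P := by
    by_contra k
    have := le_tcl (P := P) (i := i) (S := univ) fun x _ => by simpa using not_exists.1 k x
    rw [card_univ] at this
    omega
  obtain ⟨g, hg, rfl, gg⟩ := hD i i₁
  have g2 : ∀ x, g (g x) = x := fun x => by rw [← Perm.mul_apply, gg, Perm.one_apply]
  obtain ⟨S, hS, rfl⟩ := exists_subset_card_eq hj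
  have hS' : ∀ x ∈ S, swap i x ∈ P := fun x hx => by simpa using hS hx
  have hd : ∀ x ∈ S, g x ∉ S := fun x hx k =>
    hi (trans' (hS' _ k) (symm' (conj' hg (hS' x hx))))
  obtain ⟨c, hc, cs⟩ := Finset.exists_cycleOn S
  have c1 : ∀ x ∉ S, c x = x := fun x hx => by
    by_contra k
    exact hx (cs (by simpa using k))
  have c2 : ∀ x ∈ S, c x ∈ S := fun x hx => hc.1.mapsTo hx
  have s1 : ∀ x ∈ S, (g * c) (g x) = x := fun x hx => by
    rw [Perm.mul_apply, c1 _ (hd x hx), g2]
  have s2 : ∀ x ∈ S, ∀ k : ℕ, ((g * c) ^ (2 * k)) x = (c ^ k) x ∧ (c ^ k) x ∈ S := by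
    intro x hx k
    induction k with
    | zero => simpa using hx
    | succ k ih =>
      rw [pow_succ' c, Perm.mul_apply c, mul_add, mul_one, pow_succ', pow_succ', Perm.mul_apply,
        Perm.mul_apply (g * c), ih.1, Perm.mul_apply g c ((c ^ k) x),
        s1 _ (c2 _ ih.2)]
      exact ⟨rfl, c2 _ ih.2⟩
  have s3 : ∀ x ∈ S, ∀ z ∈ S ∪ S.image g, ∃ k : ℕ, ((g * c) ^ k) x = z := by
    intro x hx z hz
    rcases mem_union.1 hz with hz | hz
    · obtain ⟨k, -, hk⟩ := hc.exists_pow_eq hx hz
      exact ⟨2 * k, by rw [(s2 x hx k).1, hk]⟩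
    · obtain ⟨y, hy, rfl⟩ := mem_image.1 hz
      obtain ⟨y', hy', rfl⟩ := hc.1.surjOn hy
      obtain ⟨k, -, hk⟩ := hc.exists_pow_eq hx hy'
      exact ⟨2 * k + 1, by rw [pow_succ', Perm.mul_apply, (s2 x hx k).1, hk, Perm.mul_apply]⟩
  refine ⟨g * c, P.mul_mem hg (mem_of_support i c fun x hx => hS' x (cs hx)), S ∪ S.image g,
    ?_, fun x hx => ?_, fun x hx z hz => ?_, fun x hx => ?_⟩
  · rw [card_union_of_disjoint, card_image_of_injective _ g.injective, two_mul]
    rw [disjoint_right]
    intro x hx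
    obtain ⟨y, hy, rfl⟩ := mem_image.1 hx
    exact hd y hy
  · rcases mem_union.1 hx with hx | hx
    · exact mem_union_right _ (mem_image_of_mem g (c2 x hx))
    · obtain ⟨y, hy, rfl⟩ := mem_image.1 hx
      rw [s1 y hy]
      exact mem_union_left _ hy
  · rcases mem_union.1 hx with hx | hx
    · exact s3 x hx z hz
    · obtain ⟨y, hy, rfl⟩ := mem_image.1 hx
      obtain ⟨k, hk⟩ := s3 y hy z hz
      exact ⟨k + 1, by rw [pow_succ, Perm.mul_apply, s1 y hy, hk]⟩
  · rw [mem_union, not_or] at hx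
    have : g x ∉ S := fun k => hx.2 (mem_image.2 ⟨_, k, g2 x⟩)
    simp only [Perm.mul_apply, c1 x hx.1, c1 _ this, g2]

end GRP

open GRP in
theorem stGrp : StGrp where
  dvd i hD := dvd_closed hD i univ fun _ _ _ _ => mem_univ _
  top {ι} _ _ P i h := by
    classical
    refine eq_top_iff.2 fun f _ => mem_of_support i f fun x _ => ?_
    have : (univ.filter fun j => swap i j ∈ P) = univ := by
      refine eq_univ_of_card _ ?_
      rw [← h]
      unfold tcl
      congr
    have k := mem_univ x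
    rw [← this] at k
    exact (mem_filter.1 k).2
  jj {ι} _ _ P i d hD := by
    rintro ⟨R, rfl, hR⟩
    by_cases h : ∀ a ∈ R, ∀ b, swap a b ∈ P → b ∈ R
    · exact Or.inr (dvd_closed hD i R h)
    simp only [not_forall] at h
    obtain ⟨a, ha, b, hab, hb⟩ := h
    left
    rw [tcl_eq hD i b, ← Nat.succ_le_iff, Nat.succ_eq_add_one, ← card_insert_of_notMem hb]
    refine le_tcl fun x hx => ?_
    rcases mem_insert.1 hx with rfl | hx
    · exact rfl' _
    · obtain ⟨σ, hσ, rfl, k⟩ := hR a ha x hx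
      simpa [k b hb] using conj' hσ (symm' hab)
  two {ι} _ _ P i hD := by
    rintro ⟨R, hc, hR⟩
    obtain ⟨a, b, hab, rfl⟩ := card_eq_two.1 hc
    obtain ⟨σ, hσ, e, k⟩ := hR a (by simp) b (by simp)
    have e' : σ b = a := by
      by_contra h
      have h' : σ b ≠ b := fun h' => hab (σ.injective (e.trans h'.symm))
      exact h' (σ.injective (k _ (by simp [h, h'])))
    have : σ = swap a b := by
      ext x
      by_cases x1 : x = a
      · simp [x1, e]
      by_cases x2 : x = b
      · simp [x2, e']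
      rw [swap_apply_of_ne_of_ne x1 x2, k x (by simp [x1, x2])]
    rw [tcl_eq hD i a, ← hc]
    refine le_tcl fun x hx => ?_
    rcases mem_insert.1 hx with rfl | hx
    · exact rfl' _
    · rw [mem_singleton.1 hx, ← this]
      exact hσ
  typ i _ hD h _ hj := typ i hD h hj
  typ2 {ι} _ _ P hD h := by
    obtain ⟨a, b, hab⟩ := Fintype.exists_pair_of_one_lt_card h
    obtain ⟨g, hg, e, gg⟩ := hD a b
    have g2 : ∀ x, g (g x) = x := fun x => by rw [← Perm.mul_apply, gg, Perm.one_apply]
    have e' : g b = a := by rw [← e, g2]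
    refine ⟨g, hg, {a, b}, card_pair hab, fun x hx => ?_, fun x hx y hy => ?_, fun x _ => g2 x⟩
    · simp only [mem_insert, mem_singleton] at hx ⊢
      rcases hx with rfl | rfl <;> simp [e, e']
    · simp only [mem_insert, mem_singleton] at hx hy
      rcases hx with rfl | rfl <;> rcases hy with rfl | rfl
      exacts [⟨0, rfl⟩, ⟨1, by simpa using e⟩, ⟨1, by simpa using e'⟩, ⟨0, rfl⟩]

end Pool.Agent.Lib.Mu14.All
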