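import Pool.Agent.Lib.Mu14.Final2
import Pool.Agent.Lib.Mu46.Blue

/-! The local factor of an inert block counts chains. -/

set_option autoImplicit false

open Matrix Polynomial Finset

namespace Pool.Agent.Lib.Mu14.All

namespace HST

open LOC1

variable {n : ℕ}

lemma ct_ce (r : ℕ) [hr : Fact r.Prime] (u : ℤ) :
    (CT1 r (n + 1) 1 u : Set (Fin (n + 1) → ℤ)) = CE r u := by
  have r0 : (r : ℤ) ≠ 0 := by exact_mod_cast hr.out.ne_zero
  ext b
  have e : (pol b).coeff 0 = b 0 := pol_coeff b 0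
  have e1 : red r b = X ^ (n + 1) ↔ ∀ i, (r : ℤ) ∣ b i := by
    rw [red, TY.pol_map, show (X ^ (n + 1) : (ZMod r)[X]) = pol (0 : Fin (n + 1) → ZMod r) by
      simp [pol], BlkA.pol_inj.eq_iff, funext_iff]
    simp [ZMod.intCast_zmod_eq_zero_iff_dvd]
  simp only [CT1, CE, Set.mem_ofPred_eq, mul_one, coeff_one_zero, e, e1]
  refine and_congr_right fun h => ⟨fun ⟨w, h1, h2⟩ => ?_, fun h1 => ?_⟩
  · rw [h1, ← mul_sub, sq]
    exact mul_dvd_mul_left _ ((ZMod.intCast_eq_intCast_iff_dvd_sub u w r).1 h2.symm)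
  · obtain ⟨w, hw⟩ := h 0
    rw [hw, ← mul_sub, sq, mul_dvd_mul_iff_left r0] at h1
    exact ⟨w, hw, ((ZMod.intCast_eq_intCast_iff_dvd_sub u w r).2 h1).symm⟩

lemma hull_ch (hH : StHul) {r s : ℕ} [hr : Fact r.Prime] {b : Fin (n + 1) → ℤ}
    (hb : Irreducible (red r b)) {ℒ : ℤ → Lt (n + 1)} (h : IsCh r ℒ)
    (h0 : EndL (ℒ 0) (comp (toQ b))) (hs : s ≤ n) : hull (comp (toQ b)) (ℒ s) = ℒ 0 := by
  obtain ⟨h1, h2, h3⟩ := hH.le (comp (toQ b)) (ℒ s)
  refine le_antisymm (h3 _ (Chn.anti h (by positivity)) h0) ?_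
  obtain ⟨v, hv, hv'⟩ := SetLike.not_le_iff_exists.mp (Chn.not_le stLat1 hr.out h n)
  have e : Chn.rM r (ℒ 0) = ℒ (n + 1) := by simpa using (h.per 0).symm
  rw [← Chn.PP_top stBlk hb h0 (Chn.anti h (by positivity) hv) (e ▸ hv') (h.lat 0)]
  exact Chn.PP_le.mpr ⟨e ▸ (Chn.anti h (by omega)).trans h1,
    fun t _ => h2.pow t v (h1 (Chn.anti h (by omega) hv))⟩

lemma stab_ch {r : ℕ} {x : Mx (n + 1)} {ℒ : ℤ → Lt (n + 1)} (h : UC r x ℒ) :
    Stab ((r : ℚ) • x) (ℒ 0) := ⟨h.1.lat 0, fun y hy => by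
  have e : Chn.rM r (ℒ 0) = ℒ (n + 1) := by simpa using (h.1.per 0).symm
  rw [smul_mulVec, ← mulVec_smul]
  exact Chn.anti h.1 (by positivity) (h.2 n _ (e ▸ Chn.mem_rM.2 ⟨y, hy, rfl⟩))⟩

lemma count (hH : StHul) {r : ℕ} [hr : Fact r.Prime] {b : Fin (n + 1) → ℤ}
    (hb : Irreducible (red r b)) {M : Lt (n + 1)} (hM : Stab (comp (toQ b)) M) :
    ∑ L ∈ (hH.fin hr.out.pos hM).toFinset,
      {ℒ : ℤ → Lt (n + 1) | IsCh r ℒ ∧ Up (comp (toQ b)) ℒ ∧ ℒ 0 = L}.ncard =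
      (n + 1) * NL r (n + 1) := by
  classical
  have hf : ∀ L, {ℒ : ℤ → Lt (n + 1) | IsCh r ℒ ∧ Up (comp (toQ b)) ℒ ∧ ℒ 0 = L}.Finite :=
    fun L => (chb.fin L hr.out).subset fun ℒ h => ⟨h.1, h.2.2⟩
  have h1 := (chn.count 0 0 hr.out hb hM n.zero_le).1 (zero_mem _)
  simp only [zero_mem, and_true] at h1
  rw [← h1, sum_congr rfl fun L _ => Set.ncard_eq_toFinset_card _ (hf L), ← card_sigma,
    Set.ncard_eq_toFinset_card _ (hf M)]
  refine Eq.symm (((congrArg (· * _) (card_range _)).symm.trans (card_product _ _).symm).trans ?_)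
  refine card_bij (fun y _ => ⟨y.2 y.1, sh y.1 y.2⟩) ?_ ?_ ?_
  · rintro ⟨s, ℒ⟩ hy
    simp only [mem_product, mem_range, Set.Finite.mem_toFinset, Set.mem_ofPred_eq] at hy
    obtain ⟨hs, h2, h3, rfl⟩ := hy
    have h4 := UC.sh ⟨h2, h3⟩ s
    simp only [mem_sigma, Set.Finite.mem_toFinset, Set.mem_ofPred_eq]
    exact ⟨⟨by simpa [sh_apply] using stab_ch h4, hull_ch hH hb h2 hM.2 (by omega)⟩, h4.1, h4.2,
      by simp [sh_apply]⟩
  · rintro ⟨s, ℒ⟩ hy ⟨s', ℒ'⟩ hy' e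
    simp only [mem_product, mem_range, Set.Finite.mem_toFinset, Set.mem_ofPred_eq] at hy hy'
    obtain ⟨e1, e2⟩ := Sigma.mk.inj e
    replace e2 := eq_of_heq e2
    have h2 := congrFun e2 (-s')
    have h3 : StrictAnti ℒ := strictAnti_int_of_succ_lt fun i =>
      lt_of_le_not_ge (hy.2.1.le i) (Chn.not_le stLat1 hr.out hy.2.1 i)
    simp only [sh_apply, neg_add_cancel] at h2
    rw [hy'.2.2.2, ← hy.2.2.2] at h2
    obtain rfl : s = s' := by have := h3.injective h2; omega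
    exact Prod.ext rfl ((sh s).injective e2)
  · rintro ⟨L, ℒ⟩ hy
    simp only [mem_sigma, Set.Finite.mem_toFinset, Set.mem_ofPred_eq] at hy
    obtain ⟨⟨-, h2⟩, h3, h4, rfl⟩ := hy
    have h5 : UC r _ ℒ := ⟨h3, h4⟩
    obtain ⟨i, hi, -⟩ := chn.one hr.out hb (h5.sh (-(n : ℤ))).1 (h5.sh (-(n : ℤ))).2
    obtain ⟨s, hs⟩ : ∃ s : ℕ, s + i = n := ⟨n - i, by omega⟩
    have h6 := h5.sh (-(s : ℤ))
    have h7 := hull_ch hH (s := s) hb h6.1 (by
      rwa [sh_apply, show (0 : ℤ) + -s = (i : ℕ) + -n by omega]) (by omega)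
    rw [sh_apply, add_neg_cancel, h2] at h7
    refine ⟨(s, sh (-(s : ℤ)) ℒ), ?_, ?_⟩
    · simp only [mem_product, mem_range, Set.Finite.mem_toFinset, Set.mem_ofPred_eq]
      exact ⟨by omega, h6.1, h6.2, h7.symm⟩
    · have e : sh s (sh (-(s : ℤ)) ℒ) = ℒ := funext fun i => by simp [sh_apply]
      simp only [e, sh_apply, add_neg_cancel]

end HST

open HST in
theorem stHost (hT : StTy') (hH : StHul) : StHost := by
  intro p n r k O u α b hp hO hr h1 hu hα hb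
  have := Fact.mk hr
  have hM := Dep.stab_LZ b
  refine (hH.cv k α O hp hO hr h1 (hT.cong r _ _ u hr) hM).1.trans ?_
  have hD := stDec stInt1 stLat1 stBlk eisl chb (stKft stInt1 int2 stLat1 lat2 stBlk chb) chn
  have h2 : Cv O r 1 := by simpa using cv_nat hO h1
  have h3 := fun L (hL : L ∈ (hH.fin hr.pos hM).toFinset) => (one_mul _).symm.trans
    ((congrArg (· * _) (if_pos ((Set.Finite.mem_toFinset _).1 hL).1).symm).trans
      (hD n r u α b L hr hu hα hb))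
  rw [finsum_mem_eq_finite_toFinset_sum _ (hH.fin hr.pos hM), ct_ce, sum_congr rfl h3, ← mul_sum,
    ← Nat.cast_sum, count hH hb hM, div_eq_mul_inv, mul_assoc]
  refine Cv.mul_left (by simp) (((h2.pow _).inv.one_mul (val_nat _)).trans ?_)
  rw [sq, Nat.cast_mul, Nat.cast_succ]
  refine Cv.mul_left (by exact_mod_cast val_nat (O := O) (n + 1)) ?_
  simpa [NL] using Cv.sum (s := range (n + 1)) fun i _ => h2.pow i

end Pool.Agent.Lib.Mu14.All
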