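import Pool.Agent.Lib.Mu46.Kry1

/-! Normal forms of cyclic matrices and lifting of factorisations. -/

set_option autoImplicit false

open Matrix Polynomial

namespace Pool.Agent.Lib.Mu14.All

namespace KRY

open BlkA

lemma lift (H : StKr1) {n r : ℕ} [Fact r.Prime] (N : ℕ) (A : Matrix (Fin n) (Fin n) ℤ)
    (b : Fin n → ℤ) (hA : Cyc (mZ r A))
    (h : ∀ i, (r : ℤ) ^ N ∣ A.charpoly.coeff i - (pol b).coeff i) :
    ∃ K : Matrix (Fin n) (Fin n) ℤ, ¬(r : ℤ) ∣ K.det ∧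
      ∀ i j, (r : ℤ) ^ N ∣ (A * K - K * comp b) i j := by
  obtain ⟨w, hw⟩ := H.vec _ hA
  choose v hv using fun i => ZMod.intCast_surjective (w i)
  refine ⟨cols A v, fun e => hw ?_, fun i j => ?_⟩
  · have h1 : (Int.castRingHom (ZMod r)).mapMatrix (cols A v) = cols (mZ r A) w := by
      ext i j
      have h2 := RingHom.map_mulVec (Int.castRingHom (ZMod r)) (A ^ j.val) v i
      rw [Matrix.map_pow, show Int.castRingHom (ZMod r) ∘ v = w from funext hv] at h2
      exact h2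
    rw [pv_eq, ← h1, ← RingHom.map_det]
    exact (ZMod.intCast_zmod_eq_zero_iff_dvd _ r).2 e
  · rw [krylov, ← Matrix.mul_sub, mul_apply]
    refine Finset.dvd_sum fun k _ => Dvd.dvd.mul_left ?_ _
    simp only [comp, Matrix.sub_apply, of_apply]
    split_ifs
    · rw [neg_sub_neg, ← pol_coeff b k, ← dvd_neg, neg_sub]
      exact h k
    all_goals simp

lemma dvd_of_map {r : ℕ} {E : ℤ[X]} (h : E.map (Int.castRingHom (ZMod r)) = 0) : C (r : ℤ) ∣ E :=
  (C_dvd_iff_dvd_coeff _ _).2 fun i => (ZMod.intCast_zmod_eq_zero_iff_dvd _ r).1 (by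
    simpa using congrArg (coeff · i) h)

lemma mem_lift {r : ℕ} (u : (ZMod r)[X]) : u ∈ lifts (Int.castRingHom (ZMod r)) :=
  map_surjective _ (ZMod.ringHom_surjective _) u

lemma hensel1 {r : ℕ} [Fact r.Prime] (N : ℕ) (f : ℤ[X]) {g h : (ZMod r)[X]} (hg : g.Monic)
    (hc : IsCoprime g h) (hf : f.map (Int.castRingHom (ZMod r)) = g * h) :
    ∃ G H : ℤ[X], G.Monic ∧ G.map (Int.castRingHom (ZMod r)) = g ∧
      H.map (Int.castRingHom (ZMod r)) = h ∧ C (r : ℤ) ^ (N + 1) ∣ f - G * H := by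
  induction N with
  | zero =>
    obtain ⟨G, h1, -, h2⟩ := lifts_and_degree_eq_and_monic (mem_lift g) hg
    obtain ⟨H, h3, -⟩ := exists_degree_eq_of_mem_lifts (mem_lift h)
    refine ⟨G, H, h2, h1, h3, ?_⟩
    rw [zero_add, pow_one]
    exact dvd_of_map (by rw [Polynomial.map_sub, Polynomial.map_mul, hf, h1, h3, sub_self])
  | succ N ih =>
    obtain ⟨G, H, h1, h2, h3, E, hE⟩ := ih
    obtain ⟨s, t, hst⟩ := hc
    set e := E.map (Int.castRingHom (ZMod r)) with he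
    obtain ⟨U, u1, u2⟩ := exists_degree_eq_of_mem_lifts (mem_lift ((e * t) %ₘ g))
    obtain ⟨W, w1, -⟩ := exists_degree_eq_of_mem_lifts (mem_lift (e * s + (e * t) /ₘ g * h))
    have z : (C (r : ℤ) ^ (N + 1)).map (Int.castRingHom (ZMod r)) = 0 := by
      rw [Polynomial.map_pow, map_C]
      simp
    obtain ⟨E', hE'⟩ := dvd_of_map (r := r) (E := E - U * H - W * G) (by
      simp only [Polynomial.map_sub, Polynomial.map_mul, u1, w1, h2, h3, ← he]
      linear_combination (-h) * modByMonic_add_div (e * t) g - e * hst)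
    refine ⟨G + C (r : ℤ) ^ (N + 1) * U, H + C (r : ℤ) ^ (N + 1) * W, h1.add_of_left ?_, ?_, ?_,
      E' - C (r : ℤ) ^ N * U * W, ?_⟩
    · rw [← C_pow, ← smul_eq_C_mul]
      refine (degree_smul_le _ _).trans_lt ?_
      rw [u2, ← h1.degree_map (Int.castRingHom (ZMod r)), h2]
      exact degree_modByMonic_lt _ hg
    · rw [Polynomial.map_add, Polynomial.map_mul, z, zero_mul, add_zero, h2]
    · rw [Polynomial.map_add, Polynomial.map_mul, z, zero_mul, add_zero, h3]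
    · linear_combination hE + C (r : ℤ) ^ (N + 1) * hE'

lemma hensel {r : ℕ} [Fact r.Prime] (N : ℕ) (f : ℤ[X]) (g h : (ZMod r)[X]) (hf : f.Monic)
    (hg : g.Monic) (hh : h.Monic) (hc : IsCoprime g h)
    (e : f.map (Int.castRingHom (ZMod r)) = g * h) :
    ∃ (a : Fin g.natDegree → ℤ) (b : Fin h.natDegree → ℤ), red r a = g ∧ red r b = h ∧
      ∀ i, (r : ℤ) ^ N ∣ f.coeff i - (pol a * pol b).coeff i := by
  obtain ⟨G, H, h1, h2, -, E, hE⟩ := hensel1 N f hg hc e
  have h3 : (f /ₘ G).map (Int.castRingHom (ZMod r)) = h := by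
    rw [map_divByMonic _ h1, e, h2, mul_divByMonic_cancel_left _ hg]
  have h4 : (f /ₘ G).Monic := by
    rw [Monic, leadingCoeff_divByMonic_of_monic h1, hf.leadingCoeff]
    rw [← h1.degree_map (Int.castRingHom (ZMod r)), ← hf.degree_map (Int.castRingHom (ZMod r)), e,
      h2]
    exact degree_le_of_dvd (dvd_mul_right _ _) (hg.mul hh).ne_zero
  have h5 := pol_self h1 (n := g.natDegree) (by rw [← h2, h1.natDegree_map])
  have h6 := pol_self h4 (n := h.natDegree) (by rw [← h3, h4.natDegree_map])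
  refine ⟨fun i => G.coeff i.val, fun i => (f /ₘ G).coeff i.val, by rw [red, h5, h2],
    by rw [red, h6, h3], fun i => ?_⟩
  rw [h5, h6, ← coeff_sub, ← modByMonic_eq_sub_mul_div, modByMonic_eq_of_dvd_sub h1
    (p₂ := (r : ℤ) ^ (N + 1) • E) ⟨H, by rw [smul_eq_C_mul, C_pow]; linear_combination hE⟩,
    smul_modByMonic, coeff_smul, smul_eq_mul, pow_succ]
  exact (dvd_mul_right _ _).mul_right _

lemma chp_cmp {R : Type} [CommRing R] (g : R[X]) (hg : g.Monic) : (cmp g).charpoly = g := by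
  rw [cmp, chp, pol_self hg rfl]

lemma gs (H : StKr1) {F : Type} [Field F] [Fintype F] {n : ℕ} (ψ : AddChar F ℂ) (Φ : F[X] → ℂ)
    (A : Matrix (Fin n) (Fin n) F) (hA : Cyc A) : GS ψ Φ A = GS ψ Φ (cmp A.charpoly) := by
  obtain ⟨v, hv⟩ := H.vec A hA
  rw [GS_conj ψ Φ (isUnit_iff_ne_zero.2 hv : IsUnit (cols A v).det) (krylov A v)]
  have h1 : A.charpoly.natDegree = n := by simp
  generalize A.charpoly = g at h1
  subst h1
  rfl

lemma mul (H : StKr1) {p r : ℕ} [hr : Fact r.Prime] (O : ValuationSubring ℂ)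
    (ψ : AddChar (ZMod r) ℂ) (Φ : (ZMod r)[X] → ℂ) (g h : (ZMod r)[X]) (hp : p.Prime)
    (hO : O.valuation p < 1) (hrp : r ≡ 1 [MOD p]) (hg : g.Monic) (hh : h.Monic)
    (hc : IsCoprime g h) (hΦ : ∀ P, O.valuation (Φ P) ≤ 1) :
    Cv O (GS ψ Φ (cmp (g * h))) (GS ψ (fun P => GS ψ (fun Q => Φ (P * Q)) (cmp h)) (cmp g)) := by
  have := Fact.mk hp
  have h1 := gs H ψ Φ _ (H.blk (cmp g) (cmp h) (H.cmp _) (H.cmp _)
    (by rwa [chp_cmp g hg, chp_cmp h hh]))
  rw [H.chp, chp_cmp g hg, chp_cmp h hh, bdg, GS_reindex] at h1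
  obtain ⟨z, hz⟩ := exists_prime_orderOf_dvd_card (G := (ZMod r)ˣ) p (by
    rw [ZMod.card_units]
    exact (Nat.modEq_iff_dvd' hr.out.one_le).1 hrp.symm)
  have h2 : (z : ZMod r) ^ p = 1 := by
    rw [← Units.val_pow_eq_pow_val, ← hz, pow_orderOf_eq_one, Units.val_one]
  have h3 : IsUnit ((z : ZMod r) - 1) := isUnit_iff_ne_zero.2 fun e => by
    rw [Units.val_eq_one.1 (sub_eq_zero.1 e), orderOf_one] at hz
    exact hp.one_lt.ne hz
  rw [← h1]
  refine (GS_block hp hO h2 h3 ψ hΦ _ _).trans (Cv.of_eq ?_)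
  simp only [GS, Finset.sum_mul]
  exact Finset.sum_congr rfl fun _ _ => Finset.sum_congr rfl fun _ _ => by ring

end KRY

theorem stKr2 (h : StKr1) : StKr2 where
  lift := KRY.lift h
  hensel := KRY.hensel
  chp := KRY.chp_cmp
  gs := KRY.gs h
  mul := KRY.mul h

end Pool.Agent.Lib.Mu14.All
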