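import Pool.Agent.Lib.Mu46.Blue
import Pool.Agent.Lib.Mu14.Lat1

/-! The Leibniz rule, lattice part: direct sums of lattices. -/

set_option autoImplicit false

open Matrix Polynomial Finset

namespace Pool.Agent.Lib.Mu14.All.SPL

variable {a b n : ℕ}

/-- First component. -/
def pA (y : V (a + b)) : V a := fun i => y (Fin.castAdd b i)

/-- Second component. -/
def pB (y : V (a + b)) : V b := fun j => y (Fin.natAdd a j)

/-- Direct sum of lattices. -/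
def ds (L : Lt a) (M : Lt b) : Lt (a + b) where
  carrier := {y | pA y ∈ L ∧ pB y ∈ M}
  add_mem' := fun h h' => ⟨L.add_mem h.1 h'.1, M.add_mem h.2 h'.2⟩
  zero_mem' := ⟨L.zero_mem, M.zero_mem⟩
  smul_mem' := fun c _ h => ⟨L.smul_mem c h.1, M.smul_mem c h.2⟩

lemma mem_ds {L : Lt a} {M : Lt b} {y : V (a + b)} : y ∈ ds L M ↔ pA y ∈ L ∧ pB y ∈ M := Iff.rfl

@[simp] lemma pA_app (v : V a) (w : V b) : pA (Fin.append v w) = v :=
  funext fun i => Fin.append_left v w i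

@[simp] lemma pB_app (v : V a) (w : V b) : pB (Fin.append v w) = w :=
  funext fun i => Fin.append_right v w i

lemma ext_p {y z : V (a + b)} (h : pA y = pA z) (h' : pB y = pB z) : y = z :=
  funext fun i => Fin.addCases (fun i => congrFun h i) (fun j => congrFun h' j) i

@[simp] lemma pA_add (y z : V (a + b)) : pA (y + z) = pA y + pA z := rfl
@[simp] lemma pB_add (y z : V (a + b)) : pB (y + z) = pB y + pB z := rfl
@[simp] lemma pA_sub (y z : V (a + b)) : pA (y - z) = pA y - pA z := rfl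
@[simp] lemma pB_sub (y z : V (a + b)) : pB (y - z) = pB y - pB z := rfl
@[simp] lemma pA_smul (c : ℚ) (y : V (a + b)) : pA (c • y) = c • pA y := rfl
@[simp] lemma pB_smul (c : ℚ) (y : V (a + b)) : pB (c • y) = c • pB y := rfl
@[simp] lemma pA_zero : pA (0 : V (a + b)) = 0 := rfl
@[simp] lemma pB_zero : pB (0 : V (a + b)) = 0 := rfl

@[simp] lemma pA_mul (x : Mx a) (z : Mx b) (y : V (a + b)) : pA (bdg x z *ᵥ y) = x *ᵥ pA y := by
  funext i
  simp [pA, bdg, mulVec, dotProduct, Fin.sum_univ_add]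

@[simp] lemma pB_mul (x : Mx a) (z : Mx b) (y : V (a + b)) : pB (bdg x z *ᵥ y) = z *ᵥ pB y := by
  funext i
  simp [pB, bdg, mulVec, dotProduct, Fin.sum_univ_add]

/-- The part of a lattice in the first summand. -/
def cA (L : Lt (a + b)) : Lt a where
  carrier := {v | Fin.append v (0 : V b) ∈ L}
  add_mem' := fun {v w} h h' => by
    have := L.add_mem h h'
    rwa [show Fin.append v (0 : V b) + Fin.append w (0 : V b) = Fin.append (v + w) 0 from
      ext_p (by simp) (by simp)] at this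
  zero_mem' := by
    show _ ∈ L
    rw [show Fin.append (0 : V a) (0 : V b) = 0 from ext_p (by simp) (by simp)]
    exact L.zero_mem
  smul_mem' := fun c v h => by
    have := int_smul_mem c h
    rwa [show (c : ℚ) • Fin.append v (0 : V b) = Fin.append ((c : ℚ) • v) 0 from
      ext_p (by simp) (by simp), Int.cast_smul_eq_zsmul] at this

/-- The part of a lattice in the second summand. -/
def cB (L : Lt (a + b)) : Lt b where
  carrier := {w | Fin.append (0 : V a) w ∈ L}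
  add_mem' := fun {v w} h h' => by
    have := L.add_mem h h'
    rwa [show Fin.append (0 : V a) v + Fin.append (0 : V a) w = Fin.append 0 (v + w) from
      ext_p (by simp) (by simp)] at this
  zero_mem' := by
    show _ ∈ L
    rw [show Fin.append (0 : V a) (0 : V b) = 0 from ext_p (by simp) (by simp)]
    exact L.zero_mem
  smul_mem' := fun c v h => by
    have := int_smul_mem c h
    rwa [show (c : ℚ) • Fin.append (0 : V a) v = Fin.append 0 ((c : ℚ) • v) from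
      ext_p (by simp) (by simp), Int.cast_smul_eq_zsmul] at this

lemma mem_cA {L : Lt (a + b)} {v : V a} : v ∈ cA L ↔ Fin.append v (0 : V b) ∈ L := Iff.rfl

lemma mem_cB {L : Lt (a + b)} {w : V b} : w ∈ cB L ↔ Fin.append (0 : V a) w ∈ L := Iff.rfl

lemma cA_ds (L : Lt a) (M : Lt b) : cA (ds L M) = L := by
  ext v; simp [mem_cA, mem_ds]

lemma cB_ds (L : Lt a) (M : Lt b) : cB (ds L M) = M := by
  ext v; simp [mem_cB, mem_ds]

lemma ds_inj {L L' : Lt a} {M M' : Lt b} (h : ds L M = ds L' M') : L = L' ∧ M = M' :=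
  ⟨by rw [← cA_ds L M, h, cA_ds], by rw [← cB_ds L M, h, cB_ds]⟩

lemma ds_le (L : Lt (a + b)) : ds (cA L) (cB L) ≤ L := fun y h => by
  have := L.add_mem h.1 h.2
  rwa [show Fin.append (pA y) (0 : V b) + Fin.append (0 : V a) (pB y) = y from
    ext_p (by simp) (by simp)] at this

lemma ds_LZ : ds (LZ a) (LZ b) = LZ (a + b) := by
  ext y
  exact ⟨fun h i => Fin.addCases (fun i => h.1 i) (fun j => h.2 j) i,
    fun h => ⟨fun _ => h _, fun _ => h _⟩⟩

lemma end_ds {L : Lt a} {M : Lt b} {x : Mx a} {z : Mx b} :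
    EndL (ds L M) (bdg x z) ↔ EndL L x ∧ EndL M z := by
  refine ⟨fun h => ⟨fun v hv => ?_, fun w hw => ?_⟩, fun h y hy => ?_⟩
  · simpa using (h (Fin.append v 0) (by simpa [mem_ds] using hv)).1
  · simpa using (h (Fin.append 0 w) (by simpa [mem_ds] using hw)).2
  · exact ⟨by simpa using h.1 _ hy.1, by simpa using h.2 _ hy.2⟩

lemma end_cA {L : Lt (a + b)} {x : Mx a} {z : Mx b} (h : EndL L (bdg x z)) : EndL (cA L) x :=
  fun v hv => by
    have := h _ hv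
    rwa [show bdg x z *ᵥ Fin.append v (0 : V b) = Fin.append (x *ᵥ v) 0 from
      ext_p (by simp) (by simp)] at this

lemma end_cB {L : Lt (a + b)} {x : Mx a} {z : Mx b} (h : EndL L (bdg x z)) : EndL (cB L) z :=
  fun v hv => by
    have := h _ hv
    rwa [show bdg x z *ᵥ Fin.append (0 : V a) v = Fin.append 0 (z *ᵥ v) from
      ext_p (by simp) (by simp)] at this

lemma lat_iff {L : Lt n} : IsLat L ↔ ∃ m : ℕ, 0 < m ∧ (∀ y ∈ LZ n, (m : ℚ) • y ∈ L) ∧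
    ∀ y ∈ L, (m : ℚ) • y ∈ LZ n := by
  rw [stLat1.iff]
  refine exists_congr fun m => and_congr_right fun _ => and_congr ⟨fun h y hy => ?_, fun h z => ?_⟩
    Iff.rfl
  · obtain ⟨z, rfl⟩ := exists_toQ.1 hy
    exact h z
  · exact h _ fun i => IsZ.int _

lemma lat_ds {L : Lt a} {M : Lt b} : IsLat (ds L M) ↔ IsLat L ∧ IsLat M := by
  simp only [lat_iff, ← ds_LZ]
  refine ⟨fun ⟨m, h0, h1, h2⟩ => ⟨⟨m, h0, fun v hv => ?_, fun v hv => ?_⟩,
    ⟨m, h0, fun v hv => ?_, fun v hv => ?_⟩⟩, fun ⟨⟨m, h0, h1, h2⟩, ⟨m', h0', h1', h2'⟩⟩ =>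
    ⟨m * m', Nat.mul_pos h0 h0', fun y hy => ⟨?_, ?_⟩, fun y hy => ⟨?_, ?_⟩⟩⟩
  · simpa using (h1 (Fin.append v 0) (by simpa [mem_ds] using hv)).1
  · simpa using (h2 (Fin.append v 0) (by simpa [mem_ds] using hv)).1
  · simpa using (h1 (Fin.append 0 v) (by simpa [mem_ds] using hv)).2
  · simpa using (h2 (Fin.append 0 v) (by simpa [mem_ds] using hv)).2
  · simpa [smul_smul, mul_comm] using nat_smul_mem m' (h1 _ hy.1)
  · simpa [smul_smul] using nat_smul_mem m (h1' _ hy.2)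
  · simpa [smul_smul, mul_comm] using nat_smul_mem m' (h2 _ hy.1)
  · simpa [smul_smul] using nat_smul_mem m (h2' _ hy.2)

lemma hull_ds (hH : StHul) (L : Lt a) (M : Lt b) (x : Mx a) (z : Mx b) :
    hull (bdg x z) (ds L M) = ds (hull x L) (hull z M) := by
  obtain ⟨h1, h2, h3⟩ := hH.le (bdg x z) (ds L M)
  obtain ⟨a1, a2, a3⟩ := hH.le x L
  obtain ⟨b1, b2, b3⟩ := hH.le z M
  refine le_antisymm (h3 _ (fun y hy => ⟨a1 hy.1, b1 hy.2⟩) (end_ds.2 ⟨a2, b2⟩))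
    (le_trans (fun y hy => ?_) (ds_le _))
  exact ⟨a3 _ (fun v hv => h1 (by simpa [mem_ds] using hv)) (end_cA h2) hy.1,
    b3 _ (fun v hv => h1 (by simpa [mem_ds] using hv)) (end_cB h2) hy.2⟩

section
variable {R : Type} [CommRing R]

lemma bdg_mul (A A' : Matrix (Fin a) (Fin a) R) (B B' : Matrix (Fin b) (Fin b) R) :
    bdg A B * bdg A' B' = bdg (A * A') (B * B') := by
  simp [bdg, fromBlocks_multiply]

lemma bdg_one : bdg (1 : Matrix (Fin a) (Fin a) R) (1 : Matrix (Fin b) (Fin b) R) = 1 := by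
  simp [bdg]

lemma bdg_smul (c : R) (A : Matrix (Fin a) (Fin a) R) (B : Matrix (Fin b) (Fin b) R) :
    c • bdg A B = bdg (c • A) (c • B) := by
  ext i j
  simp only [bdg, Matrix.smul_apply, reindex_apply, submatrix_apply]
  rcases finSumFinEquiv.symm i with s | s <;> rcases finSumFinEquiv.symm j with t | t <;> simp

lemma bdg_det (A : Matrix (Fin a) (Fin a) R) (B : Matrix (Fin b) (Fin b) R) :
    (bdg A B).det = A.det * B.det := by
  rw [bdg, det_reindex_self, det_fromBlocks_zero₂₁]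

lemma bdg_map {S : Type} [CommRing S] (f : R →+* S) (A : Matrix (Fin a) (Fin a) R)
    (B : Matrix (Fin b) (Fin b) R) : (bdg A B).map f = bdg (A.map f) (B.map f) := by
  ext i j
  simp only [bdg, map_apply, reindex_apply, submatrix_apply]
  rcases finSumFinEquiv.symm i with s | s <;> rcases finSumFinEquiv.symm j with t | t <;> simp

end

lemma bdg_inv {g : Mx a} {g' : Mx b} (h : g.det ≠ 0) (h' : g'.det ≠ 0) :
    (bdg g g')⁻¹ = bdg g⁻¹ g'⁻¹ :=
  inv_eq_right_inv (by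
    rw [bdg_mul, mul_nonsing_inv _ (Ne.isUnit h), mul_nonsing_inv _ (Ne.isUnit h'), bdg_one])

lemma act_ds {g : Mx a} {g' : Mx b} (h : g.det ≠ 0) (h' : g'.det ≠ 0) (L : Lt a) (M : Lt b) :
    act (bdg g g') (ds L M) = ds (act g L) (act g' M) := by
  ext y
  rw [stLat1.mem_act _ _ (by rw [bdg_det]; exact mul_ne_zero h h'), bdg_inv h h', mem_ds, mem_ds,
    stLat1.mem_act _ _ h, stLat1.mem_act _ _ h', pA_mul, pB_mul]

lemma fib_ds (hH : StHul) {r : ℕ} {L : Lt a} {M : Lt b} {x : Mx a} {z : Mx b} :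
    ds L M ∈ Fib r (bdg x z) (LZ (a + b)) ↔ L ∈ Fib r x (LZ a) ∧ M ∈ Fib r z (LZ b) := by
  simp only [Fib, Set.mem_ofPred_eq, Stab, bdg_smul, lat_ds, end_ds, hull_ds hH, ← ds_LZ]
  exact ⟨fun h => ⟨⟨⟨h.1.1.1, h.1.2.1⟩, (ds_inj h.2).1⟩, ⟨h.1.1.2, h.1.2.2⟩, (ds_inj h.2).2⟩,
    fun h => ⟨⟨⟨h.1.1.1, h.2.1.1⟩, h.1.1.2, h.2.1.2⟩, by rw [h.1.2, h.2.2]⟩⟩

lemma end_mQ (A : Matrix (Fin n) (Fin n) ℤ) : EndL (LZ n) (mQ A) := fun _ hy i =>
  Lat1A.isZ_dot (fun j => IsZ.int (A i j)) hy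

lemma stab_mQ (A : Matrix (Fin n) (Fin n) ℤ) : Stab (mQ A) (LZ n) := ⟨isLat_LZ, end_mQ A⟩

lemma LZ_fib (hH : StHul) (r : ℕ) (A : Matrix (Fin n) (Fin n) ℤ) : LZ n ∈ Fib r (mQ A) (LZ n) :=
  ⟨⟨isLat_LZ, (end_mQ A).smul (IsZ.nat r)⟩,
    le_antisymm ((hH.le _ _).2.2 _ le_rfl (end_mQ A)) (hH.le _ _).1⟩

lemma fib_le (hH : StHul) {r : ℕ} (hr : 0 < r) {A : Matrix (Fin n) (Fin n) ℤ} {L : Lt n}
    (h : L ∈ Fib r (mQ A) (LZ n)) : L ≤ LZ n ∧ ∀ y ∈ LZ n, (r : ℚ) ^ n • y ∈ L := by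
  obtain ⟨c, hc⟩ := stLat1.chp isLat_LZ (end_mQ A)
  exact ⟨h.2 ▸ (hH.le _ L).1, h.2 ▸ (hH.pow hr hc h.1).2⟩

lemma mem_TK {K : Matrix (Fin n) (Fin n) ℤ} {L : Lt n} {y : V n} :
    y ∈ TK K L ↔ y ∈ LZ n ∧ mQ K *ᵥ y ∈ L := Iff.rfl

lemma TK_TK (K K' : Matrix (Fin n) (Fin n) ℤ) (L : Lt n) : TK K (TK K' L) = TK (K' * K) L := by
  ext y
  simp only [mem_TK, mQ, Matrix.map_mul, mulVec_mulVec]
  exact ⟨fun h => ⟨h.1, h.2.2⟩, fun h => ⟨h.1, end_mQ K y h.1, h.2⟩⟩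

lemma TK_iter (K : Matrix (Fin n) (Fin n) ℤ) (L : Lt n) (m : ℕ) :
    (TK K)^[m + 1] L = TK (K ^ (m + 1)) L := by
  induction m with
  | zero => simp
  | succ m ih => rw [Function.iterate_succ_apply', ih, TK_TK, ← pow_succ]

/-- The matrix that scales the first summand. -/
def UU (a b : ℕ) (ζ : ℤ) : Matrix (Fin (a + b)) (Fin (a + b)) ℤ := bdg (diagonal fun _ => ζ) 1

lemma UU_pow (ζ : ℤ) (m : ℕ) : UU a b ζ ^ m = UU a b (ζ ^ m) := by
  induction m with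
  | zero => simp [UU, bdg_one]
  | succ m ih => rw [pow_succ, ih, UU, UU, bdg_mul, diagonal_mul_diagonal, one_mul, pow_succ, UU]

lemma UU_comm (ζ : ℤ) (A : Matrix (Fin a) (Fin a) ℤ) (B : Matrix (Fin b) (Fin b) ℤ) :
    bdg A B * UU a b ζ = UU a b ζ * bdg A B := by
  rw [UU, bdg_mul, bdg_mul, one_mul, mul_one]
  congr 1
  ext i j
  simp [mul_comm]

lemma UU_mc {m ζ : ℤ} (h : m ∣ ζ - 1) : MC m (UU a b ζ) 1 := fun i j => by
  rw [← bdg_one, UU, Matrix.sub_apply]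
  simp only [bdg, reindex_apply, submatrix_apply]
  rcases finSumFinEquiv.symm i with s | s <;> rcases finSumFinEquiv.symm j with t | t
  · by_cases e : s = t <;> simp [e, h]
  all_goals simp

lemma mQ_UU (ζ : ℤ) : mQ (UU a b ζ) = bdg ((ζ : ℚ) • 1) 1 := by
  rw [UU, mQ, bdg_map]
  congr 1
  · ext i j; by_cases e : i = j <;> simp [e]
  · simp

lemma cancel {r : ℕ} (hr : r.Prime) {c : ℤ} (hc : ¬(r : ℤ) ∣ c) {L : Lt n} (m : ℕ) {y : V n}
    (h1 : (r : ℚ) ^ m • y ∈ L) (h2 : (c : ℚ) • y ∈ L) : y ∈ L := by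
  obtain ⟨s, t, e⟩ : IsCoprime ((r : ℤ) ^ m) c :=
    ((Nat.prime_iff_prime_int.1 hr).irreducible.coprime_iff_not_dvd.2 hc).pow_left
  have := L.add_mem (int_smul_mem s h1) (int_smul_mem t h2)
  rwa [smul_smul, smul_smul, ← add_smul, show (s : ℚ) * r ^ m + t * c = 1 by exact_mod_cast e,
    one_smul] at this

lemma fix_iff {r : ℕ} (hr : r.Prime) {ζ : ℤ} (h0 : ¬(r : ℤ) ∣ ζ) (h1 : ¬(r : ℤ) ∣ ζ - 1)
    {L : Lt (a + b)} (m : ℕ) (hle : L ≤ LZ (a + b)) (hm : ∀ y ∈ LZ (a + b), (r : ℚ) ^ m • y ∈ L) :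
    TK (UU a b ζ) L = L ↔ ∃ M M', L = ds M M' := by
  constructor
  · intro h
    refine ⟨cA L, cB L, le_antisymm (fun y hy => ?_) (ds_le L)⟩
    have h2 : Fin.append (pA y) (0 : V b) ∈ L := by
      refine cancel hr h1 m (hm _ ?_) ?_
      · have := hle hy
        rw [← ds_LZ] at this ⊢
        simpa [mem_ds] using this.1
      · have := L.sub_mem (mem_TK.1 (h.ge hy)).2 hy
        rwa [mQ_UU, show bdg ((ζ : ℚ) • 1) 1 *ᵥ y - y =
          ((ζ - 1 : ℤ) : ℚ) • Fin.append (pA y) (0 : V b) from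
            ext_p (by simp [smul_mulVec, sub_smul]) (by simp)] at this
    refine ⟨h2, ?_⟩
    have := L.sub_mem hy h2
    rwa [show y - Fin.append (pA y) (0 : V b) = Fin.append 0 (pB y) from
      ext_p (by simp) (by simp)] at this
  · rintro ⟨M, M', rfl⟩
    ext y
    rw [mem_TK, mQ_UU, mem_ds, mem_ds, pA_mul, pB_mul, smul_mulVec, one_mulVec, one_mulVec]
    exact ⟨fun h => ⟨cancel hr h0 m (hm y h.1).1 h.2.1, h.2.2⟩,
      fun h => ⟨hle h, int_smul_mem ζ h.1, h.2⟩⟩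

lemma ex_zeta {p r : ℕ} (hp : p.Prime) (hr : r.Prime) (h : r ≡ 1 [MOD p]) (m : ℕ) :
    ∃ ζ : ℤ, (r : ℤ) ^ (m + 1) ∣ ζ ^ p - 1 ∧ ¬(r : ℤ) ∣ ζ ∧ ¬(r : ℤ) ∣ ζ - 1 := by
  have := Fact.mk hr
  have := Fact.mk hp
  obtain ⟨g, hg⟩ := exists_prime_orderOf_dvd_card (G := (ZMod r)ˣ) p (by
    rw [ZMod.card_units]; exact (Nat.modEq_iff_dvd' hr.one_le).1 h.symm)
  obtain ⟨s, hs⟩ := ZMod.intCast_surjective (g : ZMod r)
  have h1 : ((s ^ r ^ m : ℤ) : ZMod r) = g := by rw [Int.cast_pow, ZMod.pow_card_pow, hs]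
  refine ⟨s ^ r ^ m, ?_, fun e => g.ne_zero ?_, fun e => hp.ne_one ?_⟩
  · have h2 : (r : ℤ) ∣ s ^ p - 1 := by
      rw [← ZMod.intCast_zmod_eq_zero_iff_dvd]
      push_cast
      rw [hs, ← Units.val_pow_eq_pow_val, ← hg, pow_orderOf_eq_one, Units.val_one, sub_self]
    simpa [← pow_mul, mul_comm] using dvd_sub_pow_of_dvd_sub h2 m
  · rw [← h1, ZMod.intCast_zmod_eq_zero_iff_dvd]; exact e
  · rw [← ZMod.intCast_zmod_eq_zero_iff_dvd, Int.cast_sub, h1, Int.cast_one, sub_eq_zero,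
      Units.val_eq_one] at e
    rw [← hg, e, orderOf_one]

end Pool.Agent.Lib.Mu14.All.SPL
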