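import Pool.Agent.Lib.Mu46.Lat1
import Pool.Agent.Lib.Mu46.Spl2

/-! Hulls of lattices and the local factor. -/

set_option autoImplicit false

open Matrix Polynomial

namespace Pool.Agent.Lib.Mu14.All

namespace LAT

variable {n : ℕ}

lemma hull_le (x : Mx n) (L : Lt n) : L ≤ hull x L ∧ EndL (hull x L) x ∧
    ∀ M, L ≤ M → EndL M x → hull x L ≤ M :=
  ⟨le_sInf fun _ h => h.1, fun y hy => Submodule.mem_sInf.2 fun M hM =>
    hM.2 y (Submodule.mem_sInf.1 hy M hM), fun _ h h' => sInf_le ⟨h, h'⟩⟩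

lemma end_pow {r : ℕ} {x : Mx n} {L : Lt n} {a : Fin n → ℤ} (hx : x.charpoly = pol (toQ a))
    (h : EndL L ((r : ℚ) • x)) (j : ℕ) : EndL L ((r : ℚ) ^ n • x ^ j) := by
  induction j using Nat.strong_induction_on with
  | _ j ih =>
  rcases le_total j n with hj | hj
  · have := (h.pow j).smul ((IsZ.nat r).pow (n - j))
    rwa [_root_.smul_pow, smul_smul, ← pow_add, Nat.sub_add_cancel hj] at this
  · obtain ⟨k, rfl⟩ := Nat.exists_eq_add_of_le hj
    have h1 := Matrix.aeval_self_charpoly x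
    rw [hx, pol] at h1
    simp only [map_add, map_pow, aeval_X, map_sum, map_mul, aeval_C, ← Algebra.smul_def] at h1
    have h2 : (r : ℚ) ^ n • x ^ (n + k) = -∑ i, toQ a i • ((r : ℚ) ^ n • x ^ (i.val + k)) := by
      rw [pow_add, eq_neg_of_add_eq_zero_left h1]
      simp only [neg_mul, smul_neg, Finset.sum_mul, Finset.smul_sum, pow_add, smul_mul_assoc,
        smul_comm (toQ a _)]
    rw [h2]
    exact (Finset.sum_induction _ (EndL L) (fun _ _ => EndL.add) (EndL.zero L) fun i _ =>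
      (ih _ (by have := i.2; omega)).smul (IsZ.int _)).neg

lemma hull_pow {r : ℕ} {x : Mx n} {L : Lt n} {a : Fin n → ℤ} (hr : 0 < r)
    (hx : x.charpoly = pol (toQ a)) (h : Stab ((r : ℚ) • x) L) :
    Stab x (hull x L) ∧ ∀ y ∈ hull x L, (r : ℚ) ^ n • y ∈ L := by
  obtain ⟨h1, h2, h3⟩ := hull_le x L
  have h4 : ∀ y ∈ hull x L, (r : ℚ) ^ n • y ∈ L := fun y hy => by
    have := h3 (⨅ j : ℕ, L.comap (((r : ℚ) ^ n • x ^ j).mulVecLin.restrictScalars ℤ))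
      (le_iInf fun j v hv => end_pow hx h.2 j v hv) (fun v hv => Submodule.mem_iInf _ |>.2 fun j => by
        have h5 : ((r : ℚ) ^ n • x ^ (j + 1)) *ᵥ v ∈ L := (Submodule.mem_iInf _).1 hv (j + 1)
        rwa [pow_succ, ← smul_mul_assoc, ← mulVec_mulVec] at h5) hy
    have h5 : ((r : ℚ) ^ n • x ^ 0) *ᵥ y ∈ L := (Submodule.mem_iInf _).1 this 0
    rwa [pow_zero, smul_mulVec, one_mulVec] at h5
  exact ⟨⟨stLat1.sand (r ^ n) h.1 (pow_pos hr n) (fun y hy => nat_smul_mem _ (h1 hy))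
    fun y hy => Nat.cast_pow (α := ℚ) r n ▸ h4 y hy, h2⟩, h4⟩

lemma act_inv {g : Mx n} (hg : g.det ≠ 0) (L : Lt n) : act g (act g⁻¹ L) = L := by
  rw [stLat1.act_act, mul_nonsing_inv _ hg.isUnit, stLat1.act_one]

lemma act_inj {g : Mx n} (hg : g.det ≠ 0) : Function.Injective (act g) := fun L M h => by
  have := congrArg (act g⁻¹) h
  rwa [stLat1.act_act, stLat1.act_act, nonsing_inv_mul _ hg.isUnit, stLat1.act_one,
    stLat1.act_one] at this

lemma hull_act {g : Mx n} (x : Mx n) (L : Lt n) (hg : g.det ≠ 0) :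
    hull (g * x * g⁻¹) (act g L) = act g (hull x L) := by
  obtain ⟨h1, h2, h3⟩ := hull_le x L
  obtain ⟨k1, k2, k3⟩ := hull_le (g * x * g⁻¹) (act g L)
  refine le_antisymm (k3 _ (Submodule.map_mono h1) ((stLat1.act_end _ _ hg).2 h2)) ?_
  rw [← act_inv hg (hull _ (act g L))] at k2 ⊢
  refine Submodule.map_mono (h3 _ (fun y hy => ?_) ((stLat1.act_end _ _ hg).1 k2))
  have := mem_act_of g⁻¹ (k1 (mem_act_of g hy))
  rwa [Lat1A.inv_cancel hg] at this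

lemma cov_dvd {m : ℕ} {L M : Lt n} (hL : IsLat L) (hM : IsLat M) (hm : 0 < m) (h : L ≤ M)
    (h' : ∀ y ∈ M, (m : ℚ) • y ∈ L) : ∃ j : ℕ, j ∣ m ^ n ∧ covol L = j * covol M := by
  have hd : ((m : ℚ) • (1 : Mx n)).det = (m : ℚ) ^ n := by simp
  have h0 : ((m : ℚ) • (1 : Mx n)).det ≠ 0 := by rw [hd]; positivity
  obtain ⟨-, e1, -⟩ := stLat1.index hL hM h
  obtain ⟨-, e2, -⟩ := stLat1.index ((stLat1.act_lat M h0).2 hM) hL (by
    rintro _ ⟨y, hy, rfl⟩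
    simpa [smul_mulVec] using h' y hy)
  refine ⟨_, ?_, e1⟩
  rw [stLat1.act_cov h0 hM, hd, abs_of_pos (by positivity), e1, ← mul_assoc] at e2
  exact Dvd.intro_left _ (by exact_mod_cast (mul_right_cancel₀ (stLat1.pos M).ne' e2).symm)

lemma fib_cov {r : ℕ} {x : Mx n} {L M : Lt n} (hr : 0 < r) (hM : Stab x M) (h : L ∈ Fib r x M) :
    L ≤ M ∧ (∀ y ∈ M, (r : ℚ) ^ n • y ∈ L) ∧ ∃ j : ℕ, j ∣ (r ^ n) ^ n ∧ covol L = j * covol M := by
  obtain ⟨c, hc⟩ := stLat1.chp hM.1 hM.2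
  have h1 : L ≤ M := h.2 ▸ (hull_le x L).1
  have h2 : ∀ y ∈ M, (r : ℚ) ^ n • y ∈ L := h.2 ▸ (hull_pow hr hc h.1).2
  exact ⟨h1, h2, cov_dvd h.1.1 hM.1 (pow_pos hr n) h1 fun y hy =>
    Nat.cast_pow (α := ℚ) r n ▸ h2 y hy⟩

lemma fib_fin {r : ℕ} {x : Mx n} {M : Lt n} (hr : 0 < r) (hM : Stab x M) : (Fib r x M).Finite :=
  ((stLat2 stInt1 (stInt2 stInt1) stLat1).count ((r ^ n) ^ n) hM.1 (by positivity)).1.subset
    fun L hL => by
      obtain ⟨h1, -, j, h2, h3⟩ := fib_cov hr hM hL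
      refine ⟨hL.1.1, h1, h3 ▸ mul_le_mul_of_nonneg_right ?_ (stLat1.pos M).le⟩
      exact Nat.cast_le.2 (Nat.le_of_dvd (by positivity) h2)

lemma end_lev {r : ℕ} (hr : 0 < r) (α : ℤ) {x : Mx n} {L : Lt n} (h : EndL L ((r : ℚ) • x)) :
    EndL L (((r ^ 2 : ℕ) : ℚ) • (α / r : ℚ) • x) := by
  have := h.smul (IsZ.int α)
  have h0 : (r : ℚ) ≠ 0 := Nat.cast_ne_zero.2 hr.ne'
  rw [smul_smul] at this ⊢
  rwa [show ((r ^ 2 : ℕ) : ℚ) * (α / r) = α * r by push_cast; field_simp]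

lemma fib_act {r : ℕ} {g x : Mx n} {L M : Lt n} (hg : g.det ≠ 0) :
    act g L ∈ Fib r (g * x * g⁻¹) (act g M) ↔ L ∈ Fib r x M := by
  simp only [Fib, Stab, Set.mem_ofPred_eq]
  rw [hull_act x L hg, (act_inj hg).eq_iff, stLat1.act_lat L hg, ← smul_mul_assoc, ← mul_smul_comm,
    stLat1.act_end _ _ hg]

lemma cc_conj (hF : StFin) {r : ℕ} (k : ℕ) {C : Set (Fin n → ℤ)} (α : ℤ) {g x : Mx n} {M : Lt n}
    (hr : 0 < r) (hC : CongS (r ^ 2) C) (hg : g.det ≠ 0) (hM : Stab x M) :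
    cc k r C α (g * x * g⁻¹) (act g M) = cc k r C α x M := by
  refine (finsum_mem_eq_of_bijOn (act g) ⟨fun L hL => (fib_act hg).2 hL, (act_inj hg).injOn,
    fun L hL => ⟨act g⁻¹ L, (fib_act hg).1 ((act_inv hg L).symm ▸ hL), act_inv hg L⟩⟩
    fun L hL => ?_).symm
  have h1 := ((fib_act (g := g) hg).2 hL).1
  rw [hF.loc (K := g) (m := 1) (by positivity) hC h1.1 hL.1.1 hg (Nat.coprime_one_left _)
    (end_lev hr α h1.2) (end_lev hr α hL.1.2) le_rfl (fun y hy => by simpa using hy) fun y _ => by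
      rw [Matrix.smul_mul, nonsing_inv_mul_cancel_right _ _ hg.isUnit, Matrix.mul_smul, sub_self,
        zero_mulVec]
      exact zero_mem _,
    stLat1.act_cov hg hM.1, stLat1.act_cov hg hL.1.1, mul_div_mul_left _ _ (abs_ne_zero.2 hg)]

lemma mc_iff {N : ℕ} {A B : Matrix (Fin n) (Fin n) ℤ} : MC N A B ↔ mZ N A = mZ N B := by
  rw [← Matrix.ext_iff]
  refine forall₂_congr fun i j => ?_
  rw [Matrix.sub_apply, ← ZMod.intCast_eq_intCast_iff_dvd_sub, eq_comm]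
  rfl

lemma mc_vec {m : ℤ} {A B : Matrix (Fin n) (Fin n) ℤ} (h : MC m A B) {y : V n} (hy : y ∈ LZ n) :
    ∃ u ∈ LZ n, mQ A *ᵥ y = mQ B *ᵥ y + (m : ℚ) • u := by
  choose W hW using h
  refine ⟨_, SPL.end_mQ (Matrix.of W) y hy, ?_⟩
  rw [← smul_mulVec, ← add_mulVec, ← mp_smul, ← Matrix.map_add _ (map_add _)]
  congr 2
  ext i j
  exact eq_add_of_sub_eq' (hW i j)

lemma mc_mem {r : ℕ} {A B : Matrix (Fin n) (Fin n) ℤ} (h : MC (r ^ (n + 1)) A B) {L : Lt n}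
    (hL : ∀ y ∈ LZ n, (r : ℚ) ^ n • y ∈ L) {y : V n} (hy : y ∈ LZ n) :
    mQ A *ᵥ y ∈ L ↔ mQ B *ᵥ y ∈ L := by
  obtain ⟨u, hu, e⟩ := mc_vec h hy
  rw [e]
  refine L.add_mem_iff_left ?_
  push_cast
  rw [pow_succ', ← smul_smul]
  exact nat_smul_mem r (hL u hu)

lemma mc_swap {N : ℕ} {A A' K K' : Matrix (Fin n) (Fin n) ℤ} (h1 : MC N (K * K') 1)
    (h2 : MC N (K' * K) 1) (h3 : MC N (A * K) (K * A')) : MC N (A' * K') (K' * A) := by
  simp only [mc_iff, mZ, Matrix.map_mul, Matrix.map_one _ (map_zero _) (map_one _)] at *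
  rw [← one_mul (A'.map _), ← h2, mul_assoc (K'.map _), ← h3, mul_assoc, mul_assoc, h1, mul_one]

lemma cov_le {K : Matrix (Fin n) (Fin n) ℤ} {L : Lt n} (hL : IsLat L) (h : L ≤ LZ n)
    (hT : IsLat (TK K L)) : covol (TK K L) ≤ covol L := by
  obtain ⟨e0, e1, -⟩ := stLat1.index hL isLat_LZ h
  obtain ⟨-, e2, -⟩ := stLat1.index hT isLat_LZ inf_le_left
  rw [e1, e2]
  refine mul_le_mul_of_nonneg_right (Nat.cast_le.2 ?_) (stLat1.pos _).le
  have e : (TK K L).toAddSubgroup = (LZ n).toAddSubgroup ⊓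
    L.toAddSubgroup.comap (mQ K).mulVecLin.toAddMonoidHom := rfl
  rw [e, AddSubgroup.inf_relIndex_left, AddSubgroup.relIndex_comap]
  refine AddSubgroup.relIndex_le_of_le_right ?_ e0
  rintro _ ⟨y, hy, rfl⟩
  exact SPL.end_mQ K y hy

lemma tk (hF : StFin) {r : ℕ} {C : Set (Fin n → ℤ)} (α : ℤ)
    {A A' K K' : Matrix (Fin n) (Fin n) ℤ} {L : Lt n} (hr : r.Prime) (hC : CongS (r ^ 2) C)
    (h1 : MC (r ^ (n + 1)) (K * K') 1) (h2 : MC (r ^ (n + 1)) (K' * K) 1)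
    (h3 : MC (r ^ (n + 1)) (A * K) (K * A')) (hL : L ∈ Fib r (mQ A') (LZ n)) :
    TK K' L ∈ Fib r (mQ A) (LZ n) ∧ TK K (TK K' L) = L ∧ covol (TK K' L) = covol L ∧
      FM (WC C) ((α / r : ℚ) • mQ A) (TK K' L) = FM (WC C) ((α / r : ℚ) • mQ A') L := by
  have h0 : (r : ℚ) ≠ 0 := Nat.cast_ne_zero.2 hr.ne_zero
  obtain ⟨l1, l2, -⟩ := fib_cov hr.pos (SPL.stab_mQ A') hL
  have h4 : MC (r ^ (n + 1)) (A' * K') (K' * A) := by
    rw [← Nat.cast_pow] at *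
    exact mc_swap h1 h2 h3
  have mm : ∀ (A B : Matrix (Fin n) (Fin n) ℤ) (y : V n), mQ (A * B) *ᵥ y = mQ A *ᵥ mQ B *ᵥ y :=
    fun A B y => by rw [mQ, Matrix.map_mul, mulVec_mulVec]
  have m1 : ∀ y : V n, mQ 1 *ᵥ y = y := fun y => by
    rw [mQ, Matrix.map_one _ (map_zero _) (map_one _), one_mulVec]
  have t1 : ∀ y ∈ LZ n, (r : ℚ) ^ n • y ∈ TK K' L := fun y hy =>
    ⟨((IsZ.nat r).pow n).smul_mem hy, by
      change mQ K' *ᵥ _ ∈ L
      rw [mulVec_smul]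
      exact l2 _ (SPL.end_mQ K' y hy)⟩
  have t2 : IsLat (TK K' L) := stLat1.sand (r ^ n) isLat_LZ (pow_pos hr.pos n)
    (fun y hy => Nat.cast_pow (α := ℚ) r n ▸ t1 y hy) fun y hy => nat_smul_mem _ hy.1
  have t3 : EndL (TK K' L) ((r : ℚ) • mQ A) := fun y hy =>
    ⟨(SPL.end_mQ A).smul (IsZ.nat r) y hy.1, by
      change mQ K' *ᵥ _ ∈ L
      rw [smul_mulVec, ← mulVec_smul, ← mm, ← mc_mem h4 l2 (nat_smul_mem r hy.1), mm, mulVec_smul,
        mulVec_smul, ← smul_mulVec]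
      exact hL.1.2 _ hy.2⟩
  have t4 : TK K (TK K' L) = L := by
    ext y
    rw [SPL.TK_TK, SPL.mem_TK]
    exact ⟨fun h => m1 y ▸ (mc_mem h2 l2 h.1).1 h.2,
      fun h => ⟨l1 h, (mc_mem h2 l2 (l1 h)).2 ((m1 y).symm ▸ h)⟩⟩
  refine ⟨⟨⟨t2, t3⟩, ?_⟩, t4, le_antisymm (cov_le hL.1.1 l1 t2) ?_, ?_⟩
  · obtain ⟨k1, k2, k3⟩ := hull_le (mQ A) (TK K' L)
    have k4 : ∀ y ∈ LZ n, (r : ℚ) ^ n • y ∈ hull (mQ A) (TK K' L) := fun y hy => k1 (t1 y hy)
    have k5 := (hull_le (mQ A') L).2.2 (TK K (hull (mQ A) (TK K' L)))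
      (fun y hy => ⟨l1 hy, k1 (t4.ge hy).2⟩) fun y hy => ⟨SPL.end_mQ A' y hy.1, by
        change mQ K *ᵥ _ ∈ hull (mQ A) (TK K' L)
        rw [← mm, ← mc_mem h3 k4 hy.1, mm]
        exact k2 _ hy.2⟩
    rw [hL.2] at k5
    refine le_antisymm (k3 _ inf_le_left (SPL.end_mQ A)) fun y hy => ?_
    rw [← m1 y, ← mc_mem h1 k4 hy, mm]
    exact (k5 (SPL.end_mQ K' y hy)).2
  · have := cov_le (K := K) t2 inf_le_left (t4.symm ▸ hL.1.1)
    rwa [t4] at this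
  · have d1 : ¬(r : ℤ) ∣ K'.det := fun h => by
      rw [← Nat.cast_pow, mc_iff] at h1
      have e := congrArg det h1
      rw [mZ, mZ, ← RingHom.mapMatrix_apply, ← RingHom.mapMatrix_apply, ← RingHom.map_det,
        ← RingHom.map_det, det_mul, det_one, eq_intCast, eq_intCast,
        ZMod.intCast_eq_intCast_iff_dvd_sub, Nat.cast_pow] at e
      have := dvd_add ((dvd_pow_self _ n.succ_ne_zero).trans e) (h.mul_left K.det)
      rw [sub_add_cancel] at this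
      exact (Nat.prime_iff_prime_int.1 hr).not_dvd_one this
    have d2 : (mQ K').det = K'.det := by
      rw [mQ, ← RingHom.mapMatrix_apply, ← RingHom.map_det, eq_intCast]
    refine (hF.loc (K := mQ K') (m := K'.det.natAbs) (pow_pos hr.pos 2) hC hL.1.1 t2 ?_ ?_
      (end_lev hr.pos α hL.1.2) (end_lev hr.pos α t3) ?_ (fun y hy => ?_) fun y hy => ?_).symm
    · rw [d2, Int.cast_ne_zero]
      exact fun e => d1 (e ▸ dvd_zero _)
    · exact ((hr.coprime_iff_not_dvd.2 fun h => d1 (Int.natCast_dvd.2 h)).symm).pow_right 2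
    · rintro _ ⟨y, hy, rfl⟩
      exact hy.2
    · obtain ⟨s, hs⟩ := OMX.abs_div K'.det
      have e : mQ K' *ᵥ mQ K'.adjugate *ᵥ y = (K'.det : ℚ) • y := by
        rw [← mm, mul_adjugate, mQ, mp_smul, smul_mulVec, m1]
      rw [hs, ← smul_smul, ← e]
      exact int_smul_mem s (mem_act_of _ ⟨SPL.end_mQ _ y (l1 hy), by
        change mQ K' *ᵥ _ ∈ L
        rw [e]
        exact int_smul_mem _ hy⟩)
    · obtain ⟨u, hu, e⟩ := mc_vec h4 hy.1
      rw [Matrix.smul_mul, Matrix.mul_smul, ← smul_sub, smul_mulVec, sub_mulVec, ← mulVec_mulVec,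
        ← mulVec_mulVec, ← mm, ← mm, e, add_sub_cancel_left, smul_smul,
        show (α / r : ℚ) * (((r : ℤ) ^ (n + 1) : ℤ) : ℚ) = α * r ^ n by
          push_cast; field_simp; ring,
        ← smul_smul]
      exact int_smul_mem α (l2 u hu)

end LAT

open LAT in
theorem stHul (hF : StFin) : StHul where
  le := hull_le
  pow := hull_pow
  act := hull_act
  fin := fib_fin
  conj := cc_conj hF
  tk := tk hF
  trans := fun {n r} k {C} α {A A' K} hr hC hK h3 => by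
    obtain ⟨s, u, e⟩ : IsCoprime ((r : ℤ) ^ (n + 1)) K.det :=
      ((Nat.prime_iff_prime_int.1 hr).irreducible.coprime_iff_not_dvd.2 hK).pow_left
    have h0 : MC (r ^ (n + 1)) (u • K.det • (1 : Matrix (Fin n) (Fin n) ℤ)) 1 := fun i j => by
      rw [smul_smul, eq_sub_of_add_eq' e, sub_smul, one_smul, sub_sub_cancel_left, mul_comm s,
        Matrix.neg_apply, Matrix.smul_apply, smul_eq_mul, mul_assoc]
      exact (dvd_mul_right _ _).neg_right
    have h1 : MC (r ^ (n + 1)) (K * (u • K.adjugate)) 1 := by rwa [Matrix.mul_smul, mul_adjugate]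
    have h2 : MC (r ^ (n + 1)) ((u • K.adjugate) * K) 1 := by rwa [Matrix.smul_mul, adjugate_mul]
    have h4 : MC (r ^ (n + 1)) (A' * (u • K.adjugate)) ((u • K.adjugate) * A) := by
      rw [← Nat.cast_pow] at *
      exact mc_swap h1 h2 h3
    refine (finsum_mem_eq_of_bijOn (TK (u • K.adjugate)) (Set.InvOn.bijOn (f' := TK K)
      ⟨fun L hL => (tk hF α hr hC h1 h2 h3 hL).2.1, fun L hL => (tk hF α hr hC h2 h1 h4 hL).2.1⟩
      (fun L hL => (tk hF α hr hC h1 h2 h3 hL).1) fun L hL => (tk hF α hr hC h2 h1 h4 hL).1)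
      fun L hL => ?_).symm
    obtain ⟨-, -, e1, e2⟩ := tk hF α hr hC h1 h2 h3 hL
    rw [e1, e2]
  cv := fun {p n r} k {C} α {x M} O hp hO hr h1 hC hM => by
    have r1 : Cv O r 1 := by simpa using cv_nat hO h1
    have hv : ∀ L ∈ (fib_fin hr.pos hM).toFinset,
        O.valuation (FM (WC C) ((α / r : ℚ) • x) L) ≤ 1 := fun L hL => by
      rw [Set.Finite.mem_toFinset] at hL
      exact (hF.bnd (pow_pos hr.pos 2) hC hL.1.1 (end_lev hr.pos α hL.1.2)).2 O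
        (by rw [Nat.cast_pow]; exact (r1.pow 2).val (map_one _))
    have key : Cv O (cc k r C α x M) (∑ᶠ L ∈ Fib r x M, FM (WC C) ((α / r : ℚ) • x) L) := by
      rw [cc, finsum_mem_eq_finite_toFinset_sum _ (fib_fin hr.pos hM),
        finsum_mem_eq_finite_toFinset_sum _ (fib_fin hr.pos hM)]
      refine Cv.sum fun L hL => ?_
      obtain ⟨-, -, j, h2, h3⟩ := fib_cov hr.pos hM ((Set.Finite.mem_toFinset _).1 hL)
      rw [← pow_mul] at h2
      obtain ⟨s, -, rfl⟩ := (Nat.dvd_prime_pow hr).1 h2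
      rw [h3, div_mul_cancel_right₀ (stLat1.pos M).ne', mul_comm]
      push_cast
      exact ((r1.pow s).inv.pow k).one_mul (hv L hL)
    refine ⟨key, key.le ?_⟩
    rw [finsum_mem_eq_finite_toFinset_sum _ (fib_fin hr.pos hM)]
    exact Valuation.map_sum_le _ hv

end Pool.Agent.Lib.Mu14.All
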