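import Pool.Agent.Lib.Mu14.BlkA
import Pool.Agent.Lib.Mu46.Blue

/-! Block LEI: the local factor of a squarefree element. -/

set_option autoImplicit false

open Matrix Polynomial UniqueFactorizationMonoid

namespace Pool.Agent.Lib.Mu14.All

namespace LEI

lemma pol_monic {n : ℕ} (a : Fin n → ℤ) : (pol a).Monic := BlkA.chp a ▸ (comp a).charpoly_monic

lemma red_monic {n : ℕ} (r : ℕ) (a : Fin n → ℤ) : (red r a).Monic := (pol_monic a).map _

lemma red_deg {n : ℕ} (r : ℕ) [Fact r.Prime] (a : Fin n → ℤ) : (red r a).natDegree = n := by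
  rw [(pol_monic a).natDegree_map, ← BlkA.chp, charpoly_natDegree_eq_dim, Fintype.card_fin]

lemma mq_comp {n : ℕ} (a : Fin n → ℤ) : mQ (comp a) = comp (toQ a) := BlkA.comp_map _ a

lemma mz_cmp {r : ℕ} {g : (ZMod r)[X]} (a : Fin g.natDegree → ℤ) (h : red r a = g) :
    mZ r (comp a) = cmp g := by
  refine (BlkA.comp_map _ a).trans (congrArg comp (funext fun i => ?_))
  have := congrArg (coeff · i.val) h
  simpa only [coeff_map, pol_coeff] using this

lemma cc_zero {n r d : ℕ} [Fact r.Prime] (k : ℕ) {h : (ZMod r)[X]} (u α : ℤ) (x : Mx n) (M : Lt n)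
    (hh : h.Monic) (hn : n ≠ d + h.natDegree) : cc k r (CT1 r d h u) α x M = 0 := by
  have e : (CT1 r d h u : Set (Fin n → ℤ)) = ∅ := Set.eq_empty_of_forall_notMem fun b hb => hn (by
    rw [← red_deg r b, hb.1, (monic_X_pow d).natDegree_mul hh, natDegree_X_pow])
  have z : ∀ y L, FM (WC (∅ : Set (Fin n → ℤ))) y L = 0 := fun y L => by
    unfold FM dint
    split_ifs
    · simp [avg, liftM, WC]
    · rfl
  simp [cc, e, z]

open Classical in
/-- The indicator function of one polynomial. -/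
noncomputable def ind {F : Type} [Field F] (h P : F[X]) : ℂ := if P = h then 1 else 0

lemma TT_eq {F : Type} [Field F] [Fintype F] (ψ : AddChar F ℂ) (g h : F[X]) :
    TT ψ g h = GS ψ (ind h) (cmp g) := rfl

lemma ind_self {F : Type} [Field F] (h : F[X]) : ind h h = 1 := if_pos rfl

lemma ind_ne {F : Type} [Field F] {h P : F[X]} (e : P ≠ h) : ind h P = 0 := if_neg e

open Classical in
lemma val_ind {F : Type} [Field F] (O : ValuationSubring ℂ) (h P : F[X]) :
    O.valuation (ind h P) ≤ 1 := val_ite (map_one _).le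

lemma GS_mul {R ι : Type} [CommRing R] [Fintype R] [Fintype ι] [DecidableEq ι] (ψ : AddChar R ℂ)
    (c : ℂ) (Φ : R[X] → ℂ) (Z : Matrix ι ι R) : GS ψ (fun P => c * Φ P) Z = c * GS ψ Φ Z := by
  simp only [GS, Finset.mul_sum, mul_assoc]

lemma GS_sum {R ι κ : Type} [CommRing R] [Fintype R] [Fintype ι] [DecidableEq ι] (ψ : AddChar R ℂ)
    (s : Finset κ) (Φ : κ → R[X] → ℂ) (Z : Matrix ι ι R) :
    GS ψ (fun P => ∑ g ∈ s, Φ g P) Z = ∑ g ∈ s, GS ψ (Φ g) Z := by
  simp only [GS, Finset.sum_mul]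
  exact Finset.sum_comm

open Classical in
/-- The monic irreducible factors of degree `d`. -/
noncomputable def fac {r : ℕ} [Fact r.Prime] (d : ℕ) (f : (ZMod r)[X]) : Finset (ZMod r)[X] :=
  (normalizedFactors f).toFinset.filter fun g => g.natDegree = d

lemma mem_fac {r d : ℕ} [Fact r.Prime] {f g : (ZMod r)[X]} (hf : f ≠ 0) :
    g ∈ fac d f ↔ (Irreducible g ∧ g.Monic ∧ g ∣ f) ∧ g.natDegree = d := by
  rw [fac, Finset.mem_filter, Multiset.mem_toFinset, Polynomial.mem_normalizedFactors_iff hf]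

lemma sum_fac {r : ℕ} [Fact r.Prime] (d : ℕ) {g f : (ZMod r)[X]} (hg : g.Monic)
    (hi : Irreducible g) (hf : f.Monic) (hc : IsCoprime g f) (T : (ZMod r)[X] → ℂ) :
    ∑ q ∈ fac d (g * f), T (g * f / q) =
      ∑ q ∈ fac d f, T (g * (f / q)) + (if g.natDegree = d then 1 else 0) * T f := by
  have h0 := (hg.mul hf).ne_zero
  have key : ∀ q, q ∈ fac d (g * f) ↔ (q = g ∧ g.natDegree = d) ∨ q ∈ fac d f := fun q => by
    rw [mem_fac h0, mem_fac hf.ne_zero]
    refine ⟨fun ⟨⟨a, b, c⟩, e⟩ => (a.prime.dvd_or_dvd c).imp (fun c => ?_) fun c => ⟨⟨a, b, c⟩, e⟩,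
      ?_⟩
    · have := eq_of_monic_of_associated b hg (a.associated_of_dvd hi c)
      exact ⟨this, this ▸ e⟩
    · rintro (⟨rfl, e⟩ | ⟨⟨a, b, c⟩, e⟩)
      exacts [⟨⟨hi, hg, dvd_mul_right _ _⟩, e⟩, ⟨⟨a, b, c.mul_left _⟩, e⟩]
  have e1 : ∑ q ∈ fac d f, T (g * f / q) = ∑ q ∈ fac d f, T (g * (f / q)) :=
    Finset.sum_congr rfl fun q hq => by
      rw [EuclideanDomain.mul_div_assoc _ ((mem_fac hf.ne_zero).1 hq).1.2.2]
  split_ifs with hd
  · have hn : g ∉ fac d f := fun h =>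
      hi.not_isUnit (hc.isUnit_of_dvd ((mem_fac hf.ne_zero).1 h).1.2.2)
    rw [show fac d (g * f) = (fac d f).cons g hn from Finset.ext fun q => by simp [key, hd],
      Finset.sum_cons, e1, mul_div_cancel_left₀ _ hg.ne_zero, one_mul, add_comm]
  · rw [show fac d (g * f) = fac d f from Finset.ext fun q => by simp [key, hd], e1, zero_mul,
      add_zero]

section

variable {p r d : ℕ} (k : ℕ) [Fact r.Prime] {O : ValuationSubring ℂ} {u α : ℤ}

lemma val_kap (O : ValuationSubring ℂ) (d : ℕ) : O.valuation ((-1) ^ d * (d + 1) ^ 2 : ℂ) ≤ 1 := by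
  have := val_int (O := O) ((-1) ^ d * ((d : ℤ) + 1) ^ 2)
  push_cast at this
  exact this

open Classical in
lemma host (hO : StHost) (hp : p.Prime) (hv : O.valuation p < 1) (hr : r ≡ 1 [MOD p])
    (hu : ¬(r : ℤ) ∣ u) (hα : ¬(r : ℤ) ∣ α) {m : ℕ} (a : Fin m → ℤ) (hi : Irreducible (red r a))
    (hm : m ≤ d + 1) {h Q : (ZMod r)[X]} (hh : h.Monic) (hQ : Q.Monic) :
    Cv O (if Q ∣ h then cc k r (CT1 r (d + 1) (h / Q) u) α (mQ (comp a)) (LZ m) else 0)
      ((-1) ^ d * (d + 1) ^ 2 * (if m = d + 1 then 1 else 0) * ind h Q) := by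
  by_cases e : Q = h
  · subst e
    rw [if_pos dvd_rfl, EuclideanDomain.div_self hh.ne_zero, ind_self, mul_one]
    split_ifs with e
    · subst e
      rw [mul_one, mq_comp]
      exact hO p d r k O u α a hp hv Fact.out hr hu hα hi
    · rw [cc_zero k u α _ _ monic_one (by simpa using e), mul_zero]
      exact Cv.refl _
  rw [ind_ne e, mul_zero]
  split_ifs with hd
  · obtain ⟨t, rfl⟩ := hd
    have ht := hQ.of_mul_monic_left hh
    have : t.natDegree ≠ 0 := fun h0 => e (by rw [ht.natDegree_eq_zero.1 h0, mul_one])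
    rw [mul_div_cancel_left₀ _ hQ.ne_zero, cc_zero k u α _ _ ht (by omega)]
    exact Cv.refl _
  · exact Cv.refl _

theorem main (hT : StTy') (h1 : StKr1) (h2 : StKr2) (hH : StHul) (hS : StSplit) (hO : StHost)
    (hp : p.Prime) (hv : O.valuation p < 1) (hr : r ≡ 1 [MOD p]) (hu : ¬(r : ℤ) ∣ u)
    (hα : ¬(r : ℤ) ∣ α) (n : ℕ) : ∀ (h : (ZMod r)[X]) (b : Fin n → ℤ), h.Monic → h.coeff 0 ≠ 0 →
      Squarefree (red r b) → (∀ g, Irreducible g → g ∣ red r b → g.natDegree ≤ d + 1) →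
      Cv O (cc k r (CT1 r (d + 1) h u) α (comp (toQ b)) (LZ n))
        ((-1) ^ d * (d + 1) ^ 2 * ∑ g ∈ fac (d + 1) (red r b), TT (chi r α) (red r b / g) h) := by
  induction n using Nat.strong_induction_on with
  | _ n ih =>
  intro h b hh h0 hs hd
  have hb := red_monic r b
  have hn := red_deg r b
  rcases Nat.eq_zero_or_pos n with rfl | n0
  · rw [cc_zero k u α _ _ hh (by omega), Finset.sum_eq_zero, mul_zero]
    · exact Cv.refl _
    · intro g hg
      obtain ⟨⟨-, -, c⟩, e⟩ := (mem_fac hb.ne_zero).1 hg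
      have := natDegree_le_of_dvd c hb.ne_zero
      omega
  obtain ⟨g, hg, hi, f, e⟩ := exists_monic_irreducible_factor (red r b)
    (not_isUnit_of_natDegree_pos _ (by omega))
  rw [e] at hb hn hs hd
  have hf := hg.of_mul_monic_left hb
  obtain ⟨hc, -, sf⟩ := squarefree_mul_iff.1 hs
  have hc := hc.isCoprime
  obtain ⟨a', b', ea, eb, hcf⟩ := h2.hensel (n + 1) (pol b) g f (pol_monic b) hg hf hc e
  rw [hg.natDegree_mul hf] at hn
  subst hn
  have ch : (bdg (comp a') (comp b')).charpoly = pol a' * pol b' := by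
    rw [h1.chp, BlkA.chp, BlkA.chp]
  obtain ⟨K, hK, hAK⟩ := h2.lift (r := r) (g.natDegree + f.natDegree + 1) (bdg (comp a') (comp b')) b
    (h1.sq _ (by
      rw [charpoly_map, ch, Polynomial.map_mul]
      exact (congrArg₂ (· * ·) ea eb).symm ▸ hs))
    fun i => by rw [ch]; exact dvd_sub_comm.1 (hcf i)
  rw [← mq_comp, ← hH.trans k α Fact.out (hT.cong r (d + 1) h u Fact.out) hK hAK, e,
    sum_fac (d + 1) hg hi hf hc fun q => TT (chi r α) q h, mul_add]
  refine (hS p _ _ r (d + 1) k O h u α _ _ hp hv hr d.succ_pos h0 hu hα).trans (Cv.add ?_ ?_)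
  · rw [mz_cmp a' ea]
    refine (GS_cv (Φ' := fun P => (-1) ^ d * (d + 1) ^ 2 * ∑ q ∈ fac (d + 1) f,
      GS (chi r α) (fun Q => ind h (P * Q)) (cmp (f / q))) _ (fun P hP _ => ?_) _).trans ?_
    · split_ifs with hd'
      · obtain ⟨t, rfl⟩ := hd'
        have := ih _ (Nat.lt_add_of_pos_left hi.natDegree_pos) t b' (hP.of_mul_monic_left hh)
          (fun z => h0 (by rw [mul_coeff_zero, z, mul_zero])) (eb.symm ▸ sf)
          fun q hq c => hd q hq ((eb ▸ c : q ∣ f).mul_left g)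
        rw [eb] at this
        rw [mul_div_cancel_left₀ _ hP.ne_zero, mq_comp]
        refine this.trans (Cv.of_eq ?_)
        have z : ind t = fun Q => ind (P * t) (P * Q) := funext fun Q => by
          by_cases c : Q = t
          · rw [c, ind_self, ind_self]
          · rw [ind_ne c, ind_ne fun c' => c (mul_left_cancel₀ hP.ne_zero c')]
        simp only [TT_eq, z]
      · have z : ∀ Q, ind h (P * Q) = 0 := fun Q => ind_ne fun c => hd' ⟨Q, c.symm⟩
        simp only [GS, z, zero_mul, Finset.sum_const_zero, mul_zero]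
        exact Cv.refl _
    · rw [GS_mul, GS_sum]
      refine Cv.mul_left (val_kap O d) (Cv.sum fun q hq => ?_)
      obtain ⟨⟨-, c1, t, rfl⟩, -⟩ := (mem_fac hf.ne_zero).1 hq
      rw [mul_div_cancel_left₀ _ c1.ne_zero]
      exact (h2.mul O _ (ind h) g t hp hv hr hg (c1.of_mul_monic_left hf) hc.of_mul_right_right
        (val_ind O h)).symm
  · rw [mz_cmp b' eb, ← mul_assoc, TT_eq, ← GS_mul]
    exact GS_cv _ (fun Q hQ _ => host k hO hp hv hr hu hα a' (ea.symm ▸ hi)
      (hd g hi (dvd_mul_right _ _)) hh hQ) _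

end

end LEI

theorem stLeib (hT : StTy') (h1 : StKr1) (h2 : StKr2) (hH : StHul) (hS : StSplit) (hO : StHost) :
    StLeib := fun _ n _ _ k _ _ h _ _ b hp hv hr hh h0 hu hα =>
  LEI.main k hT h1 h2 hH hS hO hp hv hr hu hα n h b hh h0

end Pool.Agent.Lib.Mu14.All
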