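import Pool.Agent.Lib.Mu46.LnkCld

/-! Block LNK, second part: good polynomials give cyclic ray class groups. -/

set_option autoImplicit false

open Matrix Filter Topology NumberField

namespace Pool.Agent.Lib.Mu14.All

namespace LNK

open Full

variable {n : ℕ}

lemma sb' {x : Mx n} {p m : ℕ} (hp : 0 < p) {φ : V n → Lt n → ℤ}
    (h1 : ∀ v L, φ v L ≠ 0 → Stab x L ∧ v ∈ L)
    (h2 : ∀ v L, ∀ u ∈ L, φ (v + (p : ℚ) ^ m • u) L = φ v L) (L : Lt n) (d : V n) :
    SB fun v => (φ v L : ℂ) * er (-(d ⬝ᵥ v)) := by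
  by_cases hS : Stab x L
  · refine stInt1.mul (lat2.sbv (D := p ^ m) hS.1
      ⟨by positivity, fun v hv => ?_, fun v u hu => ?_⟩) ?_
    · exact nat_smul_mem _ (h1 v L fun h0 => hv (by simp [h0])).2
    · beta_reduce
      rw [Nat.cast_pow, h2 v L u hu]
    · simpa using stInt1.per_er (0 : Mx n) (-d) 0
  · have : (fun v => (φ v L : ℂ) * er (-(d ⬝ᵥ v))) = fun _ => 0 := by
      funext v
      have : φ v L = 0 := by
        by_contra hn
        exact hS (h1 v L hn).1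
      simp [this]
    rw [this]
    exact stInt1.zero.1

lemma zc_sum' {k : ℕ} {a : V n} {κ : Type} (s : Finset κ) (φ : κ → V n → Lt n → ℤ)
    (ψ : V n → Lt n → ℤ)
    (h : ∀ i ∈ s, ∀ L, SB fun v => (φ i v L : ℂ) * er (-(lam0 ⬝ᵥ v)))
    (hs : ∀ i ∈ s, Summable fun L =>
      ‖Psi (fun v _ L => φ i v L) lam0 lam0 L * ((covol L : ℚ) : ℂ)⁻¹ ^ k‖)
    (e : ∀ v L, ψ v L = ∑ i ∈ s, φ i v L) : Zc k a ψ = ∑ i ∈ s, Zc k a (φ i) := by
  simp only [Zc]
  rw [← Finset.mul_sum, ← Summable.tsum_finsetSum fun i hi => (hs i hi).of_norm]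
  congr 2
  funext L
  rw [← Finset.sum_mul]
  congr 1
  simp only [Psi, FT]
  rw [← Finset.mul_sum, ← (stInt1.sum s _ fun i hi => h i hi L).2]
  congr 2
  funext v
  rw [e, Int.cast_sum, Finset.sum_mul]

lemma big_smo {x : Mx n} {p r N : ℕ} {σ : Lt n → Lt n} (hp : p.Prime) (h : Smo x r N σ)
    (hN : ¬p ∣ N) {L : Lt n} (hL : Stab x L) {v : V n} (hv : v ∈ σ L) :
    Big x p v L ↔ Big x p v (σ L) := by
  have hp' : Prime (p : ℤ) := Nat.prime_iff_prime_int.1 hp
  obtain ⟨z, hz, hz'⟩ := big_iff stLat1 hp (h.bij.mapsTo hL) hv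
  have hN0 : (N : ℚ) ≠ 0 := by
    rintro h
    exact hN (by rw [Nat.cast_eq_zero.1 h]; exact dvd_zero _)
  have h5 := (stLat1.pos L).ne'
  have : Pv x v / covol L = ((N * z : ℤ) : ℚ) := by
    rw [h.cov L hL] at hz
    push_cast
    rw [← hz]
    field_simp
  rw [hz', Big, this, isZ_div hp, hp'.dvd_mul]
  exact or_iff_right fun h => hN (Int.natCast_dvd_natCast.1 h)

lemma ind_congr {x : Mx n} {Q Q' : V n → Lt n → Prop} {v v' : V n} {L L' : Lt n}
    (h : Stab x L ∧ v ∈ L ∧ Q v L ↔ Stab x L' ∧ v' ∈ L' ∧ Q' v' L') :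
    ind x Q v L = ind x Q' v' L' := by
  classical
  exact if_congr h rfl rfl

lemma ind_ne {x : Mx n} {Q : V n → Lt n → Prop} {v : V n} {L : Lt n} (h : ind x Q v L ≠ 0) :
    Stab x L ∧ v ∈ L ∧ Q v L := by
  by_contra hn
  exact h (if_neg hn)

/-- the indicator functions of the classes -/
noncomputable def ph (x : Mx n) (p : ℕ) (cl : V n → Lt n → ZMod p) (i : ZMod p) :
    V n → Lt n → ℤ := ind x fun v L => ¬Big x p v L ∧ cl v L = i

lemma ph_pt {x : Mx (n + 1)} {p m l r N : ℕ} {σ : Lt (n + 1) → Lt (n + 1)}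
    {cl : V (n + 1) → Lt (n + 1) → ZMod p} {t : ℤ → ZMod p} {j : ZMod p} (hp : p.Prime)
    (hD : ClsD' x p m l r N σ cl t j) : PT' x p m t (ph x p cl) := by
  classical
  have hL := stLat1
  refine ⟨fun i v L h => ?_, fun i v L u hu => ?_, fun i g hg hc v L => ?_,
    fun u hu i v L hv => ?_, ⟨1, fun i v L => ?_⟩⟩
  · exact ⟨(ind_ne h).1, (ind_ne h).2.1⟩
  · have hm : (p : ℚ) ^ m • u ∈ L := ((IsZ.nat p).pow m).smul_mem hu
    have hv : v + (p : ℚ) ^ m • u ∈ L ↔ v ∈ L := L.add_mem_iff_left hm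
    refine ind_congr (and_congr_right fun hS => ?_)
    rw [hv]
    refine and_congr_right fun hv' => ?_
    rw [big_per hL hp hD.hm hS hv' hu]
    refine and_congr_right fun hb => ?_
    rw [hD.per v L hS hv' (not_big hL hp hS hv' hb).1 (not_big hL hp hS hv' hb).2 u hu]
  · refine ind_congr ?_
    rw [stab_act hL hg hc, mem_act' hL hg]
    refine and_congr_right fun hS => and_congr_right fun hv => ?_
    rw [big_inv hL stBlk hg hc hS v]
    refine and_congr_right fun hb => ?_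
    rw [hD.inv g hg hc v L hS (not_big hL hp hS hv hb).1]
  · refine ind_congr (and_congr_right fun hS => ?_)
    refine and_congr (iff_of_true (int_smul_mem u hv) hv) ?_
    rw [big_unit hL hp hS hv hu]
    refine and_congr_right fun hb => ?_
    rw [hD.unit u hu v L hS (not_big hL hp hS hv hb).1, sub_left_inj]
  · unfold ph ind
    split_ifs <;> simp

lemma ph_smo {x : Mx (n + 1)} {p r N : ℕ} {σ : Lt (n + 1) → Lt (n + 1)}
    {cl : V (n + 1) → Lt (n + 1) → ZMod p} {j : ZMod p} (hp : p.Prime) (h : Smo x r N σ)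
    (hN : ¬p ∣ N) (hs : ∀ v L, Stab x L → v ≠ 0 → cl v L = cl v (σ L) + j) (i : ZMod p)
    (L : Lt (n + 1)) (hL : Stab x L) (v : V (n + 1)) (hv : v ∈ σ L) :
    ph x p cl i v L = ph x p cl (i - j) v (σ L) := by
  classical
  have hσ : Stab x (σ L) := h.bij.mapsTo hL
  have hv' : v ∈ L := h.le L hL hv
  refine ind_congr ?_
  simp only [hL, hσ, hv, hv', true_and]
  rw [← big_smo hp h hN hL hv]
  refine and_congr_right fun hb' => ?_
  rw [hs v L hL (not_big stLat1 hp hL hv' hb').1, eq_sub_iff_add_eq]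

lemma cv_pow {p k N : ℕ} {O : ValuationSubring ℂ} (hp : p.Prime) (hO : O.valuation p < 1)
    (hk : p - 1 ∣ k) (hN : ¬p ∣ N) : Cv O ((N : ℂ) ^ k) 1 := by
  obtain ⟨t, ht⟩ := hk
  have h1 : N ^ k ≡ 1 [MOD p] := by
    rw [ht, pow_mul]
    simpa [Nat.totient_prime hp] using
      (Nat.ModEq.pow_totient (hp.coprime_iff_not_dvd.2 hN).symm).pow t
  simpa using cv_nat hO h1

lemma sum_zero {p : ℕ} [Fact p.Prime] {O : ValuationSubring ℂ} (hO : O.valuation p < 1)
    {W : ZMod p → ℂ} {j : ZMod p} (hj : j ≠ 0) (hW : O.valuation (W 0) ≤ 1)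
    (h : ∀ i, Cv O (W (i - j)) (W i)) : Cv O (∑ i, W i) 0 := by
  have key : ∀ t : ℕ, Cv O (W (t * j)) (W 0) := by
    intro t
    induction t with
    | zero => simpa using Cv.refl (W 0)
    | succ t ih =>
      have h1 := h (((t + 1 : ℕ) : ZMod p) * j)
      rw [show ((t + 1 : ℕ) : ZMod p) * j - j = t * j by push_cast; ring] at h1
      exact h1.symm.trans ih
  have hall : ∀ i, Cv O (W i) (W 0) := fun i => by
    have := key (i * j⁻¹).val
    rwa [ZMod.natCast_zmod_val, inv_mul_cancel_right₀ hj] at this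
  refine (Cv.sum fun i _ => hall i).trans ?_
  rw [Finset.sum_const, Finset.card_univ, ZMod.card, nsmul_eq_mul, Cv.zero, map_mul]
  exact mul_lt_one_of_lt_of_le hO hW

end LNK

open Full LNK in
theorem stLink' (hB : StBas) (hC : StCld') (hS : StSmo') : StLink' := by
  classical
  intro p n k l a hP hG E _ _ θ hE hθ
  by_contra hg
  have hL1 := stLat1
  have hp := hP.hp
  have : Fact p.Prime := ⟨hp⟩
  have hirr := irr0.irr hP.hl hG.2.1
  have hPl : ∀ v : V (n + 1), v ≠ 0 → Pl (comp (toQ a)) v ≠ 0 :=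
    fun v hv => (irr0.cyc hirr v hv).1
  obtain ⟨m, r, N, σ, cl, t, j, hD⟩ := hC E p (n + 1) l a θ hp hP.odd hP.hl.pos hE hθ hg
  obtain ⟨O, hO⟩ := unit0.ex p hp
  obtain ⟨σl, hσl, hσe, -⟩ := eisl n l a (comp (toQ a)) hP.hl hG.2.1 (stBlk.chp _)
  have hpl : ¬p ∣ l := fun h => hP.lp ((Nat.prime_dvd_prime_iff_eq hp hP.hl).1 h).symm
  have hpt := ph_pt hp hD
  have h1 := hS n k p m r N (toQ a) σ t j _ O hP.kk hp hD.hm hD.hr hD.cop hG.1 hPl hD.smo hpt
    (ph_smo hp hD.smo hD.hN hD.shift) hO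
  have h2 := hS n k p m l l (toQ a) σl t 0 _ O hP.kk hp hD.hm hP.hl.one_lt hpl hG.1 hPl hσl hpt
    (ph_smo hp hσl hpl fun v L hL hv => by rw [hσe L hL, hD.fix v L hL hv, add_zero]) hO
  simp only [sub_zero] at h2
  have hbp : PT (comp (toQ a)) p m (ind (comp (toQ a)) (Big (comp (toQ a)) p)) :=
    pt_ind hL1 (fun v L h hv u hu => big_per hL1 hp hD.hm h hv hu)
      (fun g hg hc v L h _ => big_inv hL1 stBlk hg hc h v)
      (fun u hu v L h hv => big_unit hL1 hp h hv hu)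
  obtain ⟨h3, h4⟩ := smo0 n k p m l l 1 (toQ a) σl _ _ hP.kk hp hD.hm hP.hl.one_lt hpl hG.1 hPl hσl
    hbp hbp (fun L hL v hv => by
      refine ind_congr ?_
      simp only [hL, hv, hσl.le L hL hv, true_and]
      rw [← big_smo hp hσl hpl hL hv]
      exact ⟨fun h => ⟨hσl.bij.mapsTo hL, h⟩, fun h => h.2⟩) (fun v L => by
      by_cases h0 : ind (comp (toQ a)) (Big (comp (toQ a)) p) v L = 0
      · simpa [h0] using IsZ.zero
      · have h1 := ind_ne h0
        obtain ⟨z, hz, hz'⟩ := wt_int hL1 k h1.1 h1.2.1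
        have h3 := h1.2.2
        rw [Big, hz, isZ_div hp] at h3
        rw [hz', pow_one, mul_div_assoc]
        refine (IsZ.int _).mul ((isZ_div hp).2 ?_)
        have := hP.kk.2
        exact dvd_pow ((dvd_abs _ _).2 h3) (by omega))
  have h5 := Cv.zero.2 (unit0.lt p O _ hp hO h4)
  let φ : Option (ZMod p) → V (n + 1) → Lt (n + 1) → ℤ := fun o =>
    o.elim (ind (comp (toQ a)) (Big (comp (toQ a)) p)) (ph (comp (toQ a)) p cl)
  have hsum := zc_sum' (k := k) (a := toQ a) Finset.univ φ (ind (comp (toQ a)) fun _ _ => True)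
    (by
      rintro (_ | i) - L
      · exact sb' hp.pos hbp.supp hbp.per L lam0
      · exact sb' hp.pos (hpt.supp i) (hpt.per i) L lam0)
    (by
      rintro (_ | i) -
      · exact h3
      · exact (h1 i).1)
    (fun v L => by
      rw [Fintype.sum_option]
      by_cases h1 : Stab (comp (toQ a)) L ∧ v ∈ L
      · by_cases hb : Big (comp (toQ a)) p v L <;> simp [φ, ph, ind, h1.1, h1.2, hb]
      · have : ∀ Q : Prop, ¬(Stab (comp (toQ a)) L ∧ v ∈ L ∧ Q) := fun Q h => h1 ⟨h.1, h.2.1⟩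
        simp [φ, ph, ind, this]
        exact fun a b => h1 ⟨a, b⟩)
  rw [Fintype.sum_option] at hsum
  simp only [φ, Option.elim_none, Option.elim_some] at hsum
  generalize Zc k (toQ a) (ind (comp (toQ a)) (Big (comp (toQ a)) p)) = Zb at h5 hsum
  have hl1 := cv_pow hp hO hP.dvd hpl
  have hN1 := cv_pow hp hO hP.dvd hD.hN
  have h6 := sum_zero (W := fun i => (l : ℂ) ^ k * Zc k (toQ a) (ph (comp (toQ a)) p cl i) -
      Zc k (toQ a) (ph (comp (toQ a)) p cl i)) hO hD.hj (h2 0).2 fun i => by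
    have e1 := (hl1.sub (Cv.refl 1)).mul_right (h1 i).2
    have e2 := (hN1.sub (Cv.refl 1)).mul_right (h2 (i - j)).2
    have e3 := e1.sub e2
    rw [sub_self, zero_mul, zero_mul, sub_zero, Cv.zero] at e3
    rw [Cv]
    refine lt_of_eq_of_lt (congrArg _ ?_) e3
    ring
  have h7 := (h5.add h6).mul_left (c := ((l : ℂ) ^ k)⁻¹) (hl1.inv.val (map_one _)).le
  have hall : Zc k (toQ a) (ind (comp (toQ a)) fun _ _ => True) = pre k (toQ a) *
      ∑' L : Lt (n + 1), if Idl (toQ a) L then ((covol L : ℚ) : ℂ)⁻¹ ^ k else 0 := by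
    rw [Zc]
    congr 2
    funext L
    rw [psi_all stInt1 hL1 lat2]
    split_ifs <;> simp
  have h8 := hB.good p n k l a O hP hO hG
  rw [← (unit0.wc k l {b | EisZ l b} (toQ a)).1 a hG.2.1 rfl,
    dep0 n k l a hP.kk hP.hl hG.2.1 hG.1, ← hall, hsum] at h8
  rw [add_zero, mul_zero, Cv.zero] at h7
  refine h7.ne (Eq.trans (congrArg _ ?_) h8)
  have hl0 : (l : ℂ) ^ k ≠ 0 := pow_ne_zero _ (Nat.cast_ne_zero.mpr hP.hl.ne_zero)
  rw [Finset.sum_sub_distrib, ← Finset.mul_sum, inv_pow]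
  field_simp

end Pool.Agent.Lib.Mu14.All
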