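import Pool.Agent.Lib.Mu14.Final2
import Pool.Agent.Lib.Mu46.Blue

/-! Block LNK, first part: the class function that kills a given ideal. -/

set_option autoImplicit false

open Matrix NumberField IsDedekindDomain FractionalIdeal
open scoped nonZeroDivisors

namespace Pool.Agent.Lib.Mu14.All

open Pool.Agent.Lib.MP_4e64b4_nt Pool.Agent.Lib.helper22.Val

namespace LNK

open Chi WithZero in
theorem chi' (E : Type) [Field E] [NumberField E] (p : ℕ) (hp : p.Prime) (hg : ¬Gen E p) (δ : ℕ)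
    (hδ : 0 < δ) (I0 : FractionalIdeal (𝓞 E)⁰ E) :
    ∃ (m : ℕ) (χ : FractionalIdeal (𝓞 E)⁰ E → ZMod p) (q : HeightOneSpectrum (𝓞 E)), 0 < m ∧
      (∀ I J, I ≠ 0 → J ≠ 0 → χ (I * J) = χ I + χ J) ∧
      (∀ x : E, PP p m (x - 1) → χ (spanSingleton _ x) = 0) ∧ χ I0 = 0 ∧
      χ q.asIdeal ≠ 0 ∧ ((p * δ : ℕ) : 𝓞 E) ∉ q.asIdeal := by
  classical
  have : Fact p.Prime := ⟨hp⟩
  obtain ⟨k, hk⟩ := not_forall.1 hg
  obtain ⟨q, hq⟩ := not_forall.1 (not_exists.1 hk fun v => ((-count E v I0 : ℤ) : ZMod p))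
  obtain ⟨hq1, hq2⟩ := Classical.not_imp.1 hq
  obtain ⟨lam, h1, h2⟩ := Submodule.exists_dual_map_eq_bot_of_notMem
    (p := U (E := E) k fun v => ((-count E v I0 : ℤ) : ZMod p))
    (x := fun v => if v = q then 1 else 0)
    (fun ⟨j, x, hx, h⟩ => hq2 ⟨j, x, hx, fun v => by rw [h v]⟩) inferInstance
  have h3 : ∀ f ∈ U (E := E) k fun v => ((-count E v I0 : ℤ) : ZMod p), lam f = 0 := fun f hf =>
    (Submodule.mem_bot _).1 (h2 ▸ Submodule.mem_map_of_mem hf)
  have h4 : ∀ x : E, PP p (k + 1) (x - 1) → lam (fun v => lg p v x) = 0 := fun x hx =>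
    h3 _ ⟨0, x, hx, fun v => by simp⟩
  obtain ⟨w, hw1, hw2⟩ : ∃ w : HeightOneSpectrum (𝓞 E), ((p * δ : ℕ) : 𝓞 E) ∉ w.asIdeal ∧
      lam (fun v => if v = w then 1 else 0) ≠ 0 := by
    by_contra! hc
    obtain ⟨y, hy1, hy2, hy3⟩ := exists_y hp k hδ q hq1
    have hf := finite_val_ne_one (hy1.ne_zero hp)
    have h5 : (fun v => lg p v y) =
        ∑ w ∈ hf.toFinset, lg p w y • fun v => if v = w then (1 : ZMod p) else 0 := by
      funext v
      simp only [Finset.sum_apply, Pi.smul_apply, smul_eq_mul, mul_ite, mul_one, mul_zero,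
        Finset.sum_ite_eq, hf.mem_toFinset]
      split_ifs with h
      · rfl
      · rw [lg, not_not.1 h, log_one, Int.cast_zero]
    have h6 := h4 y hy1
    rw [h5, map_sum, Finset.sum_eq_single q, map_smul, lg, hy2, log_exp] at h6
    · exact h1 (by simpa using h6)
    · intro w _ hw
      by_cases h : ((p * δ : ℕ) : 𝓞 E) ∈ w.asIdeal
      · rw [lg, hy3 w hw h, log_one, Int.cast_zero, zero_smul, map_zero]
      · rw [map_smul, hc w h, smul_zero]
    · intro h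
      rw [lg, not_not.1 (hf.mem_toFinset.not.1 h), log_one, Int.cast_zero, zero_smul, map_zero]
  refine ⟨k + 1, fun I => lam fun v => ((-count E v I : ℤ) : ZMod p), w, k.succ_pos,
    fun I J hI hJ => ?_, fun x hx => ?_, ?_, ?_, hw1⟩
  · rw [← map_add]
    refine congrArg lam (funext fun v => ?_)
    rw [count_mul E v hI hJ, neg_add, Int.cast_add, Pi.add_apply]
  · simp only [cnt_span _ (hx.ne_zero hp)]
    exact h4 x hx
  · exact h3 _ ⟨1, 1, by simpa using PP.zero, fun v => by simp [lg]⟩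
  · have e : (fun v => ((-count E v (w.asIdeal : FractionalIdeal (𝓞 E)⁰ E) : ℤ) : ZMod p)) =
        -fun v => if v = w then 1 else 0 := by
      funext v
      rw [Pi.neg_apply, count_maximal]
      by_cases h : v = w
      · simp [h]
      · simp [h, Ne.symm h]
    beta_reduce
    rw [e, map_neg]
    exact neg_ne_zero.2 hw2

open Cld in
lemma A_sup {E : Type} [Field E] [NumberField E] {n : ℕ} {x : Mx n} (F : Fr E x) (L L' : Lt n) :
    F.A (L ⊔ L') = F.A L ⊔ F.A L' := by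
  refine le_antisymm (Fr.A_le fun y hy => ?_) (sup_le
    (Fr.A_le fun y hy => Fr.mem_A (Submodule.mem_sup_left hy))
    (Fr.A_le fun y hy => Fr.mem_A (Submodule.mem_sup_right hy)))
  obtain ⟨a, ha, b, hb, rfl⟩ := Submodule.mem_sup.mp hy
  rw [map_add]
  exact Submodule.add_mem_sup (Fr.mem_A ha) (Fr.mem_A hb)

end LNK

open Cld in
theorem stCld' : StCld' := by
  classical
  intro E _ _ p n l a θ hp _ hl hE hθ hg
  have hL1 := stLat1
  obtain ⟨F⟩ := exists_fr a θ hE hθ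
  have hlE : (l : E) ≠ 0 := Nat.cast_ne_zero.2 hl.ne'
  let I0 : FractionalIdeal (𝓞 E)⁰ E := spanSingleton _ (F.θ : E) + spanSingleton _ (l : E)
  have hI0 : I0 ≠ 0 := fun h => by
    have : (l : E) ∈ I0 := (le_sup_right : spanSingleton _ (l : E) ≤ I0) (mem_spanSingleton_self _ _)
    rw [h, mem_zero_iff] at this
    exact hlE this
  obtain ⟨m, χ, q, hm, hadd, hpp, hI, hq, hqd⟩ := LNK.chi' E p hp hg F.δ F.hδ I0
  have hcop := cop q hqd
  have hN0 : Ideal.absNorm q.asIdeal ≠ 0 := by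
    rw [Ne, Ideal.absNorm_eq_zero_iff]; exact q.ne_bot
  have hN1 : Ideal.absNorm q.asIdeal ≠ 1 := by
    rw [Ne, Ideal.absNorm_eq_one_iff]; exact q.isPrime.ne_top
  have hq0 : (q.asIdeal : FractionalIdeal (nonZeroDivisors (𝓞 E)) E) ≠ 0 :=
    coeIdeal_ne_zero.mpr q.ne_bot
  obtain ⟨α, β, hb⟩ : IsCoprime (F.δ : ℤ) (Ideal.absNorm q.asIdeal : ℤ) :=
    Nat.isCoprime_iff_coprime.mpr (Nat.Coprime.coprime_mul_left_right hcop).symm
  let P : Pr F := ⟨(q.asIdeal : FractionalIdeal (nonZeroDivisors (𝓞 E)) E),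
    ((q.asIdeal : FractionalIdeal (nonZeroDivisors (𝓞 E)) E)⁻¹ : FractionalIdeal _ E),
    Ideal.absNorm q.asIdeal, α, β, Nat.pos_of_ne_zero hN0,
    by rw [← coe_mul, mul_inv_cancel₀ hq0, coe_one], by rw [← coe_one]; exact coeIdeal_le_one,
    by simpa using mem_coeIdeal_of_mem (nonZeroDivisors (𝓞 E)) (P := E) q.asIdeal.absNorm_mem,
    by exact_mod_cast hb⟩
  choose! AI hA0 hA using fun (L : Lt n) (h : IsLat L) => F.frac hL1 h
  have hact : ∀ {g : Mx n} {γ : E}, g.det ≠ 0 → (∀ v, F.ι (g *ᵥ v) = γ * F.ι v) → ∀ L, IsLat L →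
      AI (act g L) = spanSingleton _ γ * AI L := fun hg h L hL => coeToSubmodule_injective (by
    simp only [coe_mul, coe_spanSingleton, hA _ hL, hA _ ((hL1.act_lat L hg).mpr hL), Fr.A_act h])
  have hs : ∀ L, Stab (comp (toQ a)) L → AI (P.s L) = q.asIdeal * AI L := fun L h =>
    coeToSubmodule_injective (by
      simp only [coe_mul, hA _ h.1, hA _ (P.stab_s hL1 h).1, P.A_s h.2, P])
  have hfix : ∀ L, Stab (comp (toQ a)) L →
      AI (act (comp (toQ a)) L ⊔ act ((l : ℚ) • 1) L) = I0 * AI L := fun L h =>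
    coeToSubmodule_injective (by
      have h1 : IsLat (act (comp (toQ a)) L ⊔ act ((l : ℚ) • 1) L) := (EISL.sg_stab hL1 hl h).1
      have h2 : ∀ v, F.ι (((l : ℚ) • (1 : Mx n)) *ᵥ v) = (l : E) * F.ι v := fun v => by
        rw [smul_mulVec, one_mulVec, F.smul, Rat.cast_natCast]
      simp only [I0, coe_mul, coe_add, coe_spanSingleton, hA _ h.1, hA _ h1, LNK.A_sup,
        Fr.A_act F.mul, Fr.A_act h2, add_mul]
      rfl)
  have hsp : ∀ y z : E, y ≠ 0 → z ≠ 0 →
      χ (spanSingleton _ (y * z)) = χ (spanSingleton _ y) + χ (spanSingleton _ z) :=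
    fun y z hy hz => by
      rw [← spanSingleton_mul_spanSingleton,
        hadd _ _ (spanSingleton_ne_zero_iff.mpr hy) (spanSingleton_ne_zero_iff.mpr hz)]
  have smo : Smo (comp (toQ a)) P.N P.N P.s := by
    refine ⟨Set.InvOn.bijOn (f' := P.t) ⟨fun L h => P.t_s h.2, fun L h => P.s_t h.2⟩
      (fun L h => P.stab_s hL1 h) (fun L h => P.stab_t hL1 h), fun L _ => inf_le_left,
      fun L _ y hy => P.N_s hy, fun L h => ?_, fun g hg hx L _ => ?_⟩
    · rw [(hL1.index (P.stab_s hL1 h).1 h.1 inf_le_left).2.1, P.rel h.2, ← hA _ h.1]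
      have := idx q.asIdeal (AI L) (hA0 _ h.1)
      rw [coe_mul] at this
      rw [this]
    · obtain ⟨γ, h1, h2⟩ := F.comm hg hx
      exact P.s_act h1 h2 L
  have hpN : (Ideal.absNorm q.asIdeal).Coprime p := Nat.Coprime.coprime_mul_right_right hcop
  have hpc : ¬p ∣ P.N := hp.coprime_iff_not_dvd.mp hpN.symm
  refine ⟨m, _, _, _, fun v L => χ (AI L) - χ (spanSingleton _ (F.ι v)),
    fun u => χ (spanSingleton _ (u : E)), -χ q.asIdeal, smo, hm, ?_, hpc, hpc,
    neg_ne_zero.mpr hq, fun g hg hx v L h hv => ?_, fun u hu v L h hv => ?_,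
    fun v L h hv h0 hval u hu => ?_, fun v L h hv => ?_, fun v L h hv => ?_⟩
  · have := P.pos
    change P.N ≠ 1 at hN1
    omega
  · obtain ⟨γ, h1, h2⟩ := F.comm hg hx
    rw [hact hg h2 L h.1, h2, hsp _ _ h1 (F.ne hv),
      hadd _ _ (spanSingleton_ne_zero_iff.mpr h1) (hA0 _ h.1)]
    ring
  · have : (u : E) ≠ 0 := Int.cast_ne_zero.mpr (by rintro rfl; simp at hu)
    rw [F.smul, Rat.cast_intCast, hsp _ _ this (F.ne hv)]
    ring
  · obtain ⟨w, h1, h2⟩ := per_aux hL1 F hp h hv h0 hval hu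
    obtain ⟨m, rfl⟩ : ∃ m', m = m' + 1 := ⟨m - 1, by omega⟩
    have h3 : MP_4e64b4_nt.PP p (m + 1) (1 + (p : E) ^ (m + 1) * w - 1) := by
      rw [add_sub_cancel_left]
      exact (MP_4e64b4_nt.PP.self_pow _).mul0 h1
    have h4 : F.ι (v + (p : ℚ) ^ (m + 1) • u) = (1 + (p : E) ^ (m + 1) * w) * F.ι v := by
      rw [map_add, F.smul, h2]; push_cast; ring
    rw [h4, hsp _ _ (h3.ne_zero hp) (F.ne h0), hpp _ h3, zero_add]
  · rw [hs L h, hadd _ _ hq0 (hA0 _ h.1)]
    ring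
  · rw [hfix L h, hadd _ _ hI0 (hA0 _ h.1), hI, zero_add]

end Pool.Agent.Lib.Mu14.All
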