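import Pool.Agent.Lib.Mu14.Final2
import Pool.Agent.Lib.Mu46.Blue

/-! The two local moves: from an inert block to an Eisenstein block and back. -/

set_option autoImplicit false

open Matrix Polynomial UniqueFactorizationMonoid

namespace Pool.Agent.Lib.Mu14.All

namespace MM

variable {n : ℕ}

lemma chi_neg (r : ℕ) [NeZero r] (α : ℤ) : chi r (-α) = (chi r α)⁻¹ := by
  ext x
  simp [chi, AddChar.inv_apply]

lemma chi_ne {r : ℕ} [Fact r.Prime] {α : ℤ} (hα : ¬(r : ℤ) ∣ α) : chi r α ≠ 1 :=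
  ZMod.isPrimitive_stdAddChar r (neg_ne_zero.mpr (TY.cast_ne hα))

lemma red_monic (r : ℕ) (a : Fin n → ℤ) : (red r a).Monic := (TY.pol_monic a).map _

lemma red_deg (r : ℕ) [Fact r.Prime] (a : Fin n → ℤ) : (red r a).natDegree = n := by
  rw [red, (TY.pol_monic a).natDegree_map, TY.pol_natDegree]

lemma exists_red (h2 : StKr2) {r : ℕ} [NeZero r] {q : (ZMod r)[X]} (hq : q.Monic)
    (hd : q.natDegree = n) : ∃ b : Fin n → ℤ, red r b = q := by
  subst hd
  choose s hs using ZMod.intCast_surjective (n := r)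
  refine ⟨fun i => s (q.coeff i), ?_⟩
  rw [red, TY.pol_map]
  simp only [eq_intCast, hs]
  exact (BlkA.chp _).symm.trans (h2.chp q hq)

lemma model (hF : StFin) {a : Fin n → ℤ} {L : Lt n} (h : Stab (comp (toQ a)) L) :
    ∃ (g : Mx n) (Y : Matrix (Fin n) (Fin n) ℤ), g.det ≠ 0 ∧ L = act g (LZ n) ∧
      comp (toQ a) = g * mQ Y * g⁻¹ ∧ Y.charpoly = pol a := by
  obtain ⟨g, Y, hg, hL, hx⟩ := hF.ex h.1 h.2
  refine ⟨g, Y, hg, hL, hx, LOC2.chp_int ?_⟩
  rw [← BlkA.chp, hx, charpoly_mul_comm, nonsing_inv_mul_cancel_left _ _ hg.isUnit]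

lemma chp_mZ {r : ℕ} {a : Fin n → ℤ} {Y : Matrix (Fin n) (Fin n) ℤ} (h : Y.charpoly = pol a) :
    (mZ r Y).charpoly = red r a := by
  rw [mZ, Matrix.charpoly_map, h]

lemma cc_const (h1 : StKr1) (h2 : StKr2) (hF : StFin) (hH : StHul) {r : ℕ} [hr : Fact r.Prime]
    (k : ℕ) {C : Set (Fin n → ℤ)} (α : ℤ) {a : Fin n → ℤ} (hC : CongS (r ^ 2) C)
    (hs : Squarefree (red r a)) {M : Lt n} (hM : Stab (comp (toQ a)) M) :
    cc k r C α (comp (toQ a)) M = cc k r C α (comp (toQ a)) (LZ n) := by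
  obtain ⟨g, Y, hg, rfl, hx, hY⟩ := model hF hM
  obtain ⟨K, hK, hK'⟩ := h2.lift (r := r) (n + 1) Y a (h1.sq _ (by rwa [chp_mZ hY]))
    fun i => by rw [hY, sub_self]; exact dvd_zero _
  have e : mQ (comp a) = comp (toQ a) := BlkA.comp_map _ a
  conv_lhs => rw [hx]
  rw [hH.conj (x := mQ Y) k α hr.1.pos hC hg ⟨isLat_LZ, Gam.end_LZ.mpr fun i j => IsZ.int _⟩,
    hH.trans k α hr.1 hC hK hK', e]

lemma dvd_mul_X {F : Type} [Field F] {h : F[X]} {N : ℕ} (hN : 0 < N) (hh : h ∣ X ^ (N - 1) - 1) :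
    h * X ^ (0 + 1) ∣ X ^ N - X := by
  obtain ⟨N, rfl⟩ : ∃ M, N = M + 1 := ⟨N - 1, by omega⟩
  rw [Nat.add_sub_cancel] at hh
  rw [show (X ^ (N + 1) - X : F[X]) = (X ^ N - 1) * X ^ (0 + 1) by ring]
  exact mul_dvd_mul_right hh _

lemma coeff_ne {F : Type} [Field F] {h : F[X]} {N : ℕ} (hN : 1 < N) (hh : h ∣ X ^ (N - 1) - 1) :
    h.coeff 0 ≠ 0 := fun e => by
  have h1 := X_dvd_iff.1 ((X_dvd_iff.2 e).trans hh)
  rw [coeff_sub, coeff_X_pow, if_neg (by omega)] at h1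
  simp at h1

variable {O : ValuationSubring ℂ}

open Classical in
/-- The indicator function of one polynomial. -/
noncomputable def ind {F : Type} [Field F] (h P : F[X]) : ℂ := if P = h then 1 else 0

lemma val_ind {F : Type} [Field F] (h P : F[X]) : O.valuation (ind h P) ≤ 1 := by
  classical exact val_ite (by simp)

lemma card_fac {F : Type} [Field F] [DecidableEq F] {f : F[X]} (hf : f ≠ 0) :
    (normalizedFactors f).card ≤ f.natDegree := by
  refine le_trans ?_ (natDegree_le_of_dvd (prod_normalizedFactors hf).dvd hf)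
  rw [natDegree_multiset_prod _ (zero_notMem_normalizedFactors f)]
  simpa using Multiset.card_nsmul_le_sum (s := (normalizedFactors f).map natDegree) (a := 1)
    fun x hx => by
      obtain ⟨g, hg, rfl⟩ := Multiset.mem_map.1 hx
      exact (irreducible_of_normalized_factor g hg).natDegree_pos

lemma val_sign (m : ℕ) : O.valuation ((-1 : ℂ) ^ m) = 1 := by simp

section FF
variable {F : Type} [Field F] [Fintype F] {ψ : AddChar F ℂ}

open Classical in
lemma nil_aux (hψ : ψ ≠ 1) {m k : ℕ} (hk : k = m + 1) {N : Matrix (Fin k) (Fin k) F} (hN : Cyc N)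
    (hc : N.charpoly = X ^ (m + 1)) {w : F[X]} (hw : w.Monic) (hd : w.natDegree = m + 1) :
    GS ψ (ind w) N =
      (-1) ^ (m + 1) * (Fintype.card F : ℂ) ^ (m + 1).choose 2 * (moebius w : ℂ) := by
  subst hk
  rw [← Hess.hess hψ hw hd (N := N) (by simpa [hc] using aeval_self_charpoly N) fun e => ?_,
    Finset.sum_filter, GS]
  · refine Finset.sum_congr rfl fun Z _ => ?_
    rw [trace_mul_comm, ind]
    split_ifs <;> simp
  · have := natDegree_le_of_dvd (hc ▸ hN (X ^ m) (by simpa using e)) (pow_ne_zero _ X_ne_zero)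
    simp at this

lemma nil_eq (h1 : StKr1) (h2 : StKr2) (hψ : ψ ≠ 1) {m : ℕ} {P w : F[X]} (hP : P ≠ 0)
    (hw : w.Monic) (hd : w.natDegree = m + 1) :
    GS ψ (fun Q => ind (P * w) (P * Q)) (cmp (X ^ (m + 1))) =
      (-1) ^ (m + 1) * (Fintype.card F : ℂ) ^ (m + 1).choose 2 * (moebius w : ℂ) := by
  rw [← nil_aux hψ (natDegree_X_pow _) (N := cmp (X ^ (m + 1))) (h1.cmp _)
    (h2.chp _ (monic_X_pow _)) hw hd]
  classical
  exact congrArg (GS ψ · _) (funext fun Q => if_congr (mul_right_inj' hP) rfl rfl)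

lemma nil_zero {ι : Type} [Fintype ι] [DecidableEq ι] {P H : F[X]} (h : ¬P ∣ H)
    (Z : Matrix ι ι F) : GS ψ (fun Q => ind H (P * Q)) Z = 0 :=
  Finset.sum_eq_zero fun _ _ => mul_eq_zero_of_left (if_neg fun e => h ⟨_, e.symm⟩) _

lemma GS_lin {ι : Type} [Fintype ι] [DecidableEq ι] (c : ℂ) (Φ Φ' : F[X] → ℂ) (Z : Matrix ι ι F) :
    GS ψ (fun P => c * Φ P + Φ' P) Z = c * GS ψ Φ Z + GS ψ Φ' Z := by
  simp only [GS, Finset.mul_sum, ← Finset.sum_add_distrib, add_mul, mul_assoc]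

omit [Fintype F] in
lemma quot {P h : F[X]} (hP : P.Monic) (hh : h.Monic) (hd : h.natDegree = P.natDegree + 1)
    (h' : P ∣ h) : ∃ w : F[X], w.Monic ∧ w.natDegree = 1 ∧ Irreducible w ∧ h = P * w := by
  obtain ⟨w, rfl⟩ := h'
  have hw := hP.of_mul_monic_left hh
  have h1 : w.natDegree = 1 := by rw [hP.natDegree_mul hw] at hd; omega
  exact ⟨w, hw, h1, irreducible_of_degree_eq_one ((degree_eq_iff_natDegree_eq hw.ne_zero).2 h1), rfl⟩

end FF

open Classical in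
lemma tt_cv (h1 : StKr1) (h2 : StKr2) (hN : StFF) {p r e : ℕ} [Fact r.Prime] (hp : p.Prime)
    (hO : O.valuation p < 1) (hr : r ≡ 1 [MOD p]) {ψ : AddChar (ZMod r) ℂ} (hψ : ψ ≠ 1)
    {f g h : (ZMod r)[X]} (hf : f.Monic) (hf0 : f.coeff 0 ≠ 0) (hf2 : f ∣ X ^ r ^ 2 - X)
    (hg : g.Monic) (hgi : Irreducible g) (hge : g.natDegree = e) (he : 3 ≤ e) (hh : h.Monic)
    (hd : h.natDegree = f.natDegree + 1) (hgh : ¬g ∣ h) :
    Cv O (TT ψ (f * X ^ (e + 1)) (g * h)) ((-1) ^ (e + 1) * TT ψ (f * X ^ (0 + 1)) h) := by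
  have hc : ∀ m : ℕ, IsCoprime f (X ^ m) := fun m =>
    (irreducible_X.coprime_iff_not_dvd.mpr fun e => hf0 (X_dvd_iff.1 e)).symm.pow_right
  have a1 := h2.mul O ψ (ind (g * h)) f (X ^ (e + 1)) hp hO hr hf
    (monic_X_pow _) (hc _) (val_ind _)
  have a2 := h2.mul O ψ (ind h) f (X ^ (0 + 1)) hp hO hr hf
    (monic_X_pow _) (hc _) (val_ind _)
  have a3 := hN.van O ψ (fun P => if g ∣ P then
    GS ψ (fun Q => ind (g * h) (P * Q)) (cmp (X ^ (e + 1))) else 0) f hp hO hr hψ hf hf2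
    (fun _ => val_ite (val_GS ψ (fun _ => val_ind _ _) _)) fun P hP => if_neg fun k => by
      have := hP g hgi k
      omega
  have a4 := ((a2.symm.mul_left (val_sign (e + 1)).le).add a3)
  rw [add_zero, ← GS_lin] at a4
  refine a1.trans ((GS_cv ψ (fun P hP hPd => ?_) _).trans a4)
  rw [Fintype.card_fin] at hPd
  by_cases k : P ∣ h
  · obtain ⟨w, hw, hw1, hwi, rfl⟩ := quot hP hh (by rw [hd, hPd]) k
    have hgw : IsCoprime g w := hgi.coprime_iff_not_dvd.mpr fun k => hgh (k.mul_left _)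
    rw [if_neg fun k => hgh (k.mul_right _), add_zero, mul_left_comm g P,
      nil_eq h1 h2 hψ hP.ne_zero (hg.mul hw) (by rw [hg.natDegree_mul hw, hge, hw1]),
      nil_eq h1 h2 hψ hP.ne_zero hw hw1, hgw.isRelPrime.moebius_mul, hgi.moebius_eq,
      hwi.moebius_eq, ZMod.card]
    have := (((cv_nat hO hr).trans (Cv.of_eq Nat.cast_one)).pow ((e + 1).choose 2)).mul_left
      (val_sign (O := O) (e + 1)).le
    simpa using this
  · rw [nil_zero k, mul_zero, zero_add]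
    split_ifs with k'
    · exact Cv.refl _
    · exact Cv.of_eq (nil_zero (fun k'' =>
        k ((hgi.coprime_iff_not_dvd.mpr k').symm.dvd_of_dvd_mul_left k'')) _)

lemma zC_eq (h1 : StKr1) (h2 : StKr2) (hF : StFin) {r d : ℕ} [Fact r.Prime] (k l : ℕ) (β : ℤ)
    {a b : Fin n → ℤ} {q f : (ZMod r)[X]} (hb : red r b = q) (hS : Tg1 r d a) (hf : red r a = f) :
    zC k l r 0 (CG r q) β a =
      ((r : ℂ) ^ n ^ 2)⁻¹ * TT (chi r β) f q * zW k l stab (toQ a) := by
  classical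
  have hi : indC r (CG r q : Set (Fin n → ℤ)) = ind q := by
    funext P
    rw [indC, ind]
    split_ifs with k k' k'
    exacts [rfl, absurd (k.elim fun c k => k.2.symm.trans k.1) k',
      absurd ⟨b, hb, hb.trans k'.symm⟩ k, rfl]
  refine Step.zW_congr _ fun L => ?_
  rw [pow_zero, one_smul, stab]
  split_ifs with hs
  · obtain ⟨u, Y, hu, rfl, hx, hY⟩ := model hF hs
    have e1 := h2.gs (chi r β) (ind q) _ (h1.eis Y a hY hS)
    rw [chp_mZ hY, hf] at e1
    rw [hx, hF.fin β Y (TY.congG r q) hu, hi, e1, one_mul, mul_one, div_eq_inv_mul]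
    rfl
  · simp

end MM

open MM Classical in
theorem stM1 (hB : StBas) (hT : StTy') (h1 : StKr1) (h2 : StKr2) (hN : StFF) (hF : StFin)
    (hH : StHul) (hL : StLeib) (hG : StGR) : StM1 := by
  intro n
  obtain ⟨B, hB'⟩ := hN.nv (n + 1)
  refine ⟨B, fun p k l r d a O hP hGd hO hr hBr hrl hr1 hd hpd hS α hα => ?_⟩
  have := Fact.mk hr
  obtain ⟨g₀, h₀, hg₀, hm₀, hd₀, hh₀, hX, hcop, hf⟩ := hS
  obtain ⟨d, rfl⟩ : ∃ e, d = e + 1 := ⟨d - 1, by omega⟩
  have hf0 := (red_monic r a).ne_zero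
  have hsq : Squarefree (red r a) := by
    rw [hf, squarefree_mul_iff]
    exact ⟨hcop.isRelPrime, hg₀.squarefree, hT.sqf hr hX⟩
  have hfac : ∀ g, Irreducible g → g ∣ red r a → g ∣ g₀ ∨ g.natDegree ≤ 2 := fun g hg k =>
    (hg.prime.dvd_or_dvd (hf ▸ k)).imp id fun k => (hT.deg hr hg).1 (k.trans hX)
  set S := (normalizedFactors (red r a)).toFinset.filter fun g => g.natDegree = d + 1 with hSd
  have hS : ∀ g, g ∈ S ↔ (Irreducible g ∧ g.Monic ∧ g ∣ red r a) ∧ g.natDegree = d + 1 :=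
    fun g => by
      rw [hSd, Finset.mem_filter, Multiset.mem_toFinset, Polynomial.mem_normalizedFactors_iff hf0]
  have hq : ∀ g ∈ S, g * (red r a / g) = red r a := fun g hg =>
    EuclideanDomain.mul_div_cancel' ((hS g).1 hg).1.1.ne_zero ((hS g).1 hg).1.2.2
  have hinj : Set.InjOn (red r a / ·) S := fun g hg g' hg' e => by
    have e1 := (hq g hg).trans (hq g' hg').symm
    simp only at e
    rw [e] at e1
    exact mul_right_cancel₀ (right_ne_zero_of_mul ((hq g' hg').symm ▸ hf0)) e1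
  have hdn : d + 1 ≤ n + 1 := by
    rw [← hd₀, ← red_deg r a]
    exact natDegree_le_of_dvd ⟨_, hf⟩ hf0
  obtain ⟨h, hh, -, hh', hv⟩ := hB' p r (n + 1 - (d + 1)) (red r a).roots.card O (chi r α)
    (S.image (red r a / ·)) hP.hp hP.odd hO hr1 hBr (chi_ne hα)
    (Finset.Nonempty.image ⟨g₀, (hS _).2 ⟨⟨hg₀, hm₀, ⟨_, hf⟩⟩, hd₀⟩⟩ _)
    (Finset.card_image_le.trans ((Finset.card_filter_le _ _).trans
      ((Multiset.toFinset_card_le _).trans ((card_fac hf0).trans (red_deg r a).le))))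
    (by omega) fun q hq' => by
      obtain ⟨g, hg, rfl⟩ := Finset.mem_image.1 hq'
      obtain ⟨⟨b1, b2, b3⟩, b4⟩ := (hS g).1 hg
      have b5 : (red r a / g).Monic := b2.of_mul_monic_left ((hq g hg).symm ▸ red_monic r a)
      refine ⟨b5, ?_, ?_, ?_⟩
      · have := b2.natDegree_mul b5
        rw [hq g hg, red_deg] at this
        omega
      · rcases hfac g b1 b3 with k | k
        · obtain rfl := eq_of_monic_of_associated b2 hm₀ (b1.associated_of_dvd hg₀ k)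
          rwa [hf, mul_div_cancel_left₀ _ b1.ne_zero]
        · refine (Dvd.intro_left _ (hq g hg)).trans ?_
          rw [hf]
          exact hcop.mul_dvd ((hT.deg hr hg₀).2 (by omega)) hX
      · conv_rhs => rw [← hq g hg, roots_mul ((hq g hg).symm ▸ hf0),
          roots_eq_zero_of_irreducible_of_natDegree_ne_one b1 (by omega), zero_add]
  have hr1' : ¬(r : ℤ) ∣ 1 := TY.not_dvd hr isCoprime_one_left
  have hC := hT.cong (n := n + 1) r (d + 1) h 1 hr
  refine ⟨CT1 r (d + 1) h 1, fun b hb => hT.sub hr hh' hr1' hb, hC, ?_⟩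
  have hrp : r ≠ p := fun e => by
    subst e
    exact hr.one_lt.ne' (Nat.dvd_one.1 ((Nat.ModEq.dvd_iff hr1 dvd_rfl).1 dvd_rfl))
  have hz := hB.good p n k l a O hP hO hGd
  have key : ∀ β : ℤ, ¬(r : ℤ) ∣ β → Cv O (zC k l r 1 (CT1 r (d + 1) h 1) β a)
      ((-1) ^ d * (d + 1) ^ 2 * (∑ g ∈ S, TT (chi r β) (red r a / g) h) *
        zW k l stab (toQ a)) := fun β hβ =>
    (hG p n k l r a O _ β _ hP hGd.2.1 hGd.1 hr hrp hrl hO hC fun M hM =>
      cc_const h1 h2 hF hH k β hC hsq hM).trans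
      ((hL p (n + 1) r d k O h 1 β a hP.hp hO hr1 hh (coeff_ne (Nat.one_lt_pow two_ne_zero
        hr.one_lt) hh') hr1' hβ hsq fun g hg k => (hfac g hg k).elim
          (fun k => hd₀ ▸ natDegree_le_of_dvd k hg₀.ne_zero) fun k => k.trans hd).mul_right hz.le)
  refine ((key α hα).add (key (-α) (by rwa [dvd_neg]))).val ?_
  rw [Finset.sum_image hinj, Finset.sum_add_distrib] at hv
  have hvd := unit0.nat p _ O hP.hp hO hpd
  push_cast at hvd
  rw [chi_neg, ← add_mul, ← mul_add, map_mul, map_mul, map_mul, hv, hz, val_sign, map_pow, hvd]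
  simp

open MM Classical in
theorem stM2 (hB : StBas) (hT : StTy') (h1 : StKr1) (h2 : StKr2) (hN : StFF) (hF : StFin) :
    StM2 := by
  intro n
  obtain ⟨B, hB'⟩ := hN.nv (n + 1)
  refine ⟨B, fun p k l r e a O hP hGd hO hr hBr hr1 he hS α hα => ?_⟩
  have := Fact.mk hr
  obtain ⟨⟨f, hX, hf⟩, -⟩ := id hS
  have hr2 : 1 < r ^ 2 := Nat.one_lt_pow two_ne_zero hr.one_lt
  have hm : f.Monic := (monic_X_pow _).of_mul_monic_left (hf ▸ red_monic r a)
  have hdf : n + 1 = e + 1 + f.natDegree := by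
    rw [← red_deg r a, hf, (monic_X_pow _).natDegree_mul hm, natDegree_X_pow]
  have hX1 := dvd_mul_X (by omega) hX
  obtain ⟨h, hh, hd, hh', hv⟩ := hB' p r (f.natDegree + 1) (f * X ^ (0 + 1)).roots.card O (chi r α)
    {f * X ^ (0 + 1)} hP.hp hP.odd hO hr1 hBr (chi_ne hα) (Finset.singleton_nonempty _) (by simp)
    (by omega) fun q hq => by
      obtain rfl := Finset.mem_singleton.1 hq
      exact ⟨hm.mul (monic_X_pow _), by rw [hm.natDegree_mul (monic_X_pow _), natDegree_X_pow],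
        hX1, rfl⟩
  obtain ⟨g, hg, hgi, hge⟩ := TY.exists_irr r e (by omega)
  have hh2 := (Dvd.intro _ rfl).trans (dvd_mul_X (by omega) hh')
  have hgh : ¬g ∣ h := fun k => by
    have := (hT.deg hr hgi).1 (k.trans hh2)
    omega
  have hC : CongS r (CG r (g * h) : Set (Fin (n + 1) → ℤ)) := TY.congG r _
  refine ⟨CG r (g * h), fun b hb => ⟨g, h, hgi, hg, hge, hh, hh2,
    hgi.coprime_iff_not_dvd.mpr hgh, hb⟩, by simpa using hC, ?_⟩
  obtain ⟨b, hb⟩ := exists_red h2 (n := n + 1) (hg.mul hh) (by rw [hg.natDegree_mul hh]; omega)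
  have hz := hB.good p n k l a O hP hO hGd
  have hvr : Cv O ((r : ℂ) ^ (n + 1) ^ 2)⁻¹ 1 :=
    (((cv_nat hO hr1).trans (Cv.of_eq Nat.cast_one)).pow _).inv
  have key : ∀ β : ℤ, ¬(r : ℤ) ∣ β → Cv O (zC k l r 0 (CG r (g * h)) β a)
      ((-1) ^ (e + 1) * TT (chi r β) (f * X ^ (0 + 1)) h * zW k l stab (toQ a)) := fun β hβ => by
    rw [zC_eq h1 h2 hF k l β hb hS (hf.trans (mul_comm _ _))]
    exact ((hvr.one_mul (val_GS _ (val_ind _) _)).trans (tt_cv h1 h2 hN hP.hp hO hr1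
      (chi_ne hβ) hm (coeff_ne hr2 hX) ((Dvd.intro _ rfl).trans hX1) hg hgi hge he hh hd
        hgh)).mul_right hz.le
  refine ((key α hα).add (key (-α) (by rwa [dvd_neg]))).val ?_
  rw [Finset.sum_singleton] at hv
  rw [chi_neg, ← add_mul, ← mul_add, map_mul, map_mul, hv, hz, val_sign]
  simp

end Pool.Agent.Lib.Mu14.All
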