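import Pool.Agent.Lib.Mu14.Final2
import Pool.Agent.Lib.Mu46.Blue
import Pool.Agent.Lib.Mu45.Move

/-! Changing the polynomial at a prime, for arbitrary degree. -/

set_option autoImplicit false

open Matrix Filter Topology
open scoped Real

namespace Pool.Agent.Lib.Mu14.All

namespace MOV

open Eff Move

lemma qm_nonneg (hR : StRoot) {n : ℕ} {a : V n} (h : Spl (toR a)) : 0 ≤ Qm (comp a) := by
  obtain ⟨θ, -, ha⟩ := h
  have : (0 : ℝ) ≤ ((Qm (comp a) : ℚ) : ℝ) := by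
    rw [hR.cast, (hR.real ha).1]
    exact Finset.sum_nonneg fun _ _ => sq_nonneg _
  exact_mod_cast this

/-- The expansion at the second cusp is integral, and primitive if one sum is a unit. -/
lemma coef (hR : StRoot) (hB : StBlk) (hM : StMod) (hW : StWC) (hm : StFmem) (hq : StQsW) (hS : StScl)
    (hU : StUnit) (hT : StTy) {p n k l r j m s D : ℕ} {a : Fin (n + 2) → ℤ}
    {C : Set (Fin (n + 2) → ℤ)} {O : ValuationSubring ℂ} (hP : Par' p (n + 2) k l)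
    (hG : Good p k l a)
    (hr : r.Prime) (rp : r ≠ p) (rl : r ≠ l) (hrm : r.Coprime (l ^ 2 * m)) (hs : s ∣ m)
    (hC : CongS (r ^ (j + 1)) C) (hO : O.valuation p < 1)
    (iso : ∀ b : Fin (n + 2) → ℤ, Spl (toR (toQ b)) → Sim s a b →
      Qm (comp (toQ b)) = ((r : ℤ) ^ j : ℤ) ^ 2 * Qm (comp (toQ a)) →
        b = scl ((r : ℤ) ^ j) a ∨ b = scl (-(r : ℤ) ^ j) a)
    {W : Mx (n + 2) → Lt (n + 2) → ℂ} (tf : TFx D W) (nil : Nil l W) (pD : ¬p ∣ D) {ρ : ℚ} {α : ℤ}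
    (hWe : ∀ x L, W x L = er (ρ * Qm x) *
      WC (C1 l m a) (((r ^ (j + 1) : ℕ) : ℚ) • x) L * FM (WC C) ((α : ℚ) • x) L) :
    ∃ B, QS (fun τ => FW k l W (2 * ((r ^ (j + 1)) ^ 2 : ℕ) * τ)) B ∧
      (∀ N, O.valuation (B N) ≤ 1) ∧
      (O.valuation (zC k l r j C α a + zC k l r j C (-α) a) = 1 →
        ∃ N : ℕ, ((r : ℤ) ^ j : ℤ) ^ 2 * Qm (comp (toQ a)) = N ∧ O.valuation (B N) = 1) := by
  classical
  have ha := hG.2.1
  have hp := hP.hp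
  have hl := hP.hl
  have r0 : (r : ℚ) ≠ 0 := by exact_mod_cast hr.ne_zero
  have D0 : 0 < r ^ (j + 1) := pow_pos hr.pos _
  have D1 : ((r ^ (j + 1) : ℕ) : ℚ) ≠ 0 := by positivity
  have nd : ∀ {q : ℕ}, q.Prime → q ≠ p → ¬p ∣ q := fun hq h h' =>
    h ((Nat.prime_dvd_prime_iff_eq hp hq).1 h').symm
  have inv : ∀ {q : ℕ}, ¬p ∣ q → (q : ℂ)⁻¹ ∈ O.toSubring := fun h =>
    O.mem_of_valuation_le_one _ (by rw [map_inv₀, hU.nat p _ O hp hO h, inv_one])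
  have erO : ∀ q, er q ∈ O.toSubring := fun q => O.mem_of_valuation_le_one _ (hU.er O q).le
  have wne : ∀ {x L}, W x L ≠ 0 → IsLat L ∧ EndL L (((r ^ (j + 1) : ℕ) : ℚ) • x) ∧
      ∃ b ∈ C1 l m a, (((r ^ (j + 1) : ℕ) : ℚ) • x).charpoly = pol (toQ b) := fun {x L} h =>
    by_contra fun k => h (by rw [hWe, WC, if_neg k, mul_zero, zero_mul])
  have hWO : ∀ x L, W x L ∈ O.toSubring := fun x L => by
    by_cases h : W x L = 0
    · rw [h]; exact zero_mem _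
    rw [hWe, WC, if_pos (wne h), mul_one]
    refine mul_mem (erO _) (hm _ _ C _ L _ D0 hC ?_
      (inv fun h => nd hr rp (hp.dvd_of_dvd_pow h)) erO)
    rw [smul_comm]
    exact (wne h).2.1.smul (IsZ.int α)
  have hzO : ∀ a', zW k l W a' ∈ O := fun a' => by
    obtain ⟨y, hy⟩ := Submodule.mem_one.1 (hM.mem (n + 1) k l D W hP.kk hl hP.hs tf nil O.toSubring
      1 (inv (nd hl hP.lp)) (by
        have := inv (q := l - 1) fun h => hP.l1 ((Nat.modEq_iff_dvd' hl.one_le).2 h).symm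
        rwa [Nat.cast_pred hl.pos] at this) (inv pD)
      (fun x L => Submodule.mem_one.2 ⟨⟨_, hWO x L⟩, rfl⟩) a')
    exact hy ▸ y.2
  have K1 : ∀ a', zW k l W a' ≠ 0 → ∃ b ∈ C1 l m a, scl ((r ^ (j + 1) : ℕ) : ℚ) a' = toQ b ∧
      Qm (comp (toQ b)) = ((r ^ (j + 1)) ^ 2 : ℕ) * Qm (comp a') := fun a' h => by
    obtain ⟨L, hL⟩ := (zW_ne h).2
    obtain ⟨b, hb, e⟩ := (wne hL).2.2
    have e' := hB.pol_inj ((hB.scl_chp _ (hB.chp a')).symm.trans e)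
    exact ⟨b, hb, e', by rw [← e', hS.qm _ D1, Nat.cast_pow _ 2]⟩
  obtain ⟨B, hQ, hBN⟩ := hq (n + 1) k l D ((r ^ (j + 1)) ^ 2) W hP.kk hl hP.hs tf nil (pow_pos D0 2)
    fun a' h => by
      obtain ⟨b, -, -, e⟩ := K1 a' h
      exact e ▸ hW.qm b
  refine ⟨B, hQ, fun N => ?_, fun hu => ?_⟩
  · obtain ⟨S, -, e⟩ := hBN N
    rw [e, O.valuation_le_one_iff]
    exact sum_mem fun a' _ => hzO a'
  let κ : ℂ := (((r : ℚ)⁻¹ ^ ((k - 1) * ((n + 2) * (n + 2 - 1) / 2)) : ℚ) : ℂ) *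
    er (ρ * ((r : ℚ)⁻¹ ^ 2 * Qm (comp (toQ a))))
  let z : ℤ → ℂ := fun α => zW k l (fun x L => stab ((r : ℚ) ^ j • x) L *
    FM (WC C) ((α / r : ℚ) • x) L) (toQ a)
  have hκ : O.valuation κ = 1 := by
    simp only [κ, map_mul, hU.er, Rat.cast_pow, Rat.cast_inv, Rat.cast_natCast, map_pow, map_inv₀,
      hU.nat p r O hp hO (nd hr rp), inv_one, one_pow, one_mul]
  have sq : ∀ {ε : ℤ}, ε = 1 ∨ ε = -1 → ((ε : ℚ) / r) ^ 2 = (r : ℚ)⁻¹ ^ 2 := by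
    rintro _ (rfl | rfl) <;> simp [neg_div]
  have ne0 : ∀ {ε : ℤ}, ε = 1 ∨ ε = -1 → (ε : ℚ) / r ≠ 0 := by
    rintro _ (rfl | rfl) <;> simp [r0]
  have val : ∀ {ε : ℤ}, ε = 1 ∨ ε = -1 → zW k l W (scl ((ε : ℚ) / r) (toQ a)) = κ * z (ε * α) :=
    fun {ε} hε => by
      have : Fact l.Prime := ⟨hl⟩
      have h1 : |(ε : ℚ) / r| = (r : ℚ)⁻¹ := by rcases hε with rfl | rfl <;> simp [abs_div]
      have h2 : padicValRat l ((ε : ℚ) / r) = 0 := by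
        have : padicValRat l (r : ℚ)⁻¹ = 0 := by
          rw [padicValRat.inv, padicValRat.of_nat, padicValNat.eq_zero_of_not_dvd
            fun h => rl ((Nat.prime_dvd_prime_iff_eq hl hr).1 h).symm]
          simp
        rcases hε with rfl | rfl <;> simpa [neg_div] using this
      have h3 : IsCoprime (ε * (r : ℤ) ^ j) (l ^ 2 * m : ℕ) := by
        have := (Nat.isCoprime_iff_coprime.2 hrm).pow_left (m := j)
        rcases hε with rfl | rfl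
        · rwa [one_mul]
        · rwa [neg_one_mul, IsCoprime.neg_left_iff]
      rw [hS.zw k l (toQ a) (by have := hP.kk.2; omega) hl tf (ne0 hε) h2, h1, mul_assoc]
      refine congrArg _ (zW_congr k l fun L => ?_)
      have h4 := wc_stab hB hε ((C1_scl hT a h3 a).2
        ⟨ha, 1, isCoprime_one_left, fun i => by simp [scl_one]⟩) L
      rw [hWe, qm_smul, sq hε, smul_smul, smul_smul, mul_assoc,
        show ((r ^ (j + 1) : ℕ) : ℚ) * (ε / r) = (ε * (r : ℤ) ^ j : ℤ) by push_cast; field_simp; ring,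
        h4, show (α : ℚ) * (ε / r) = (ε * α : ℤ) / r by push_cast; ring]
      norm_cast
  have qm : ∀ {ε : ℤ}, ε = 1 ∨ ε = -1 → (((r ^ (j + 1)) ^ 2 : ℕ) : ℚ) *
      Qm (comp (scl ((ε : ℚ) / r) (toQ a))) = ((r : ℤ) ^ j : ℤ) ^ 2 * Qm (comp (toQ a)) :=
    fun hε => by
      rw [hS.qm _ (ne0 hε), sq hε]
      push_cast
      field_simp
      ring
  obtain ⟨N, hN⟩ : ∃ N : ℕ, ((r : ℤ) ^ j : ℤ) ^ 2 * Qm (comp (toQ a)) = N := by
    have h0 := qm_nonneg hR hG.1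
    obtain ⟨y, hy⟩ := ((IsZ.int ((r : ℤ) ^ j)).pow 2).mul (hW.qm a)
    lift y to ℕ using (by
      rw [← Int.cast_nonneg_iff (R := ℚ), ← hy]
      positivity)
    exact ⟨y, hy⟩
  obtain ⟨S, hSm, e⟩ := hBN N
  have hSe : S ⊆ {scl (((1 : ℤ) : ℚ) / r) (toQ a), scl (((-1 : ℤ) : ℚ) / r) (toQ a)} := by
    intro a' h'
    rw [Finset.mem_insert, Finset.mem_singleton]
    obtain ⟨h1, h2⟩ := (hSm a').1 h'
    obtain ⟨b, hb, e1, e2⟩ := K1 a' h1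
    have e3 : a' = scl ((r ^ (j + 1) : ℕ) : ℚ)⁻¹ (toQ b) := by
      rw [← e1, scl_scl, inv_mul_cancel₀ D1, scl_one]
    refine (iso b (e1 ▸ (hS.spl a' D1).2 (zW_ne h1).1) (sim_mono hb.2 hs)
      (by rw [e2, h2, hN])).imp (fun h => ?_) fun h => ?_ <;>
    · rw [e3, h, toQ_scl, scl_scl]
      congr 1
      push_cast
      field_simp
      ring
  refine ⟨N, hN, ?_⟩
  rw [e, Finset.sum_subset hSe fun a' h1 h2 => by_contra fun h3 => h2 ((hSm a').2 ⟨h3, by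
    rw [Finset.mem_insert, Finset.mem_singleton] at h1
    rcases h1 with rfl | rfl
    exacts [(qm (Or.inl rfl)).trans hN, (qm (Or.inr rfl)).trans hN]⟩)]
  have w1 := val (Or.inl rfl)
  have w2 := val (Or.inr rfl)
  rw [one_mul] at w1
  rw [neg_one_mul] at w2
  change O.valuation (z α + z (-α)) = 1 at hu
  have k0 : κ ≠ 0 := O.valuation.ne_zero_iff.1 (hκ ▸ one_ne_zero)
  by_cases h : scl (((1 : ℤ) : ℚ) / r) (toQ a) = scl (((-1 : ℤ) : ℚ) / r) (toQ a)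
  · have h2 : O.valuation 2 = 1 := by
      simpa using hU.nat p 2 O hp hO (nd Nat.prime_two hP.odd.symm)
    have h3 : z α = z (-α) := mul_left_cancel₀ k0 (by rw [← w1, ← w2, h])
    rw [← h3, ← two_mul, map_mul, h2, one_mul] at hu
    rw [← h, Finset.pair_eq_singleton, Finset.sum_singleton, w1, map_mul, hκ, hu, one_mul]
  · rw [Finset.sum_pair h, w1, w2, ← mul_add, map_mul, hκ, hu, one_mul]

/-- Changing the polynomial at a prime `r`, with control of the size. -/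
theorem move (hL1 : StLat1) (hB : StBlk) (hX : StOmX) (hM : StMod) (hW : StWC) (hF : StFac)
    (hm : StFmem) (hq : StQsW) (hS : StScl) (hQ : StQP') (hR : StRoot) (hU : StUnit)
    (hT : StTy) : StMove' := by
  intro p n k l m j a O hp hG m0 mp hO hj
  classical
  have hl := hp.hl
  obtain ⟨C₁, hC₁⟩ := iso hR hS hG.1
  obtain ⟨Q, hQa⟩ := exists_nat_ge (Qm (comp (toQ a)))
  obtain ⟨B, m', lm, hBm⟩ := Nat.exists_eq_pow_mul_and_not_dvd
    (mul_pos (pow_pos hl.pos 2) m0).ne' l hl.ne_one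
  obtain ⟨K, hK⟩ := hM.law (n + 1) k l B hp.kk hl hp.hs
  refine ⟨4 * (4 * (n + 2) + 4 * k * (n + 2) * (n + 2 - 1) + 8 * Q + 1) *
    (4 * (l ^ 2 * (m * (2 * (p + l + 1) + C₁))) ^ 2 * l ^ K) ^ 5,
    fun r T hr rp rl r2 mr hu => ?_⟩
  by_contra hne
  obtain ⟨s, hs, hsB, hsC, iso⟩ := hC₁ ((r : ℤ) ^ j) (p + l + r)
    (pow_ne_zero _ (by simpa using hr.ne_zero))
  have cop : ∀ {q q' : ℕ}, q.Prime → q'.Prime → q ≠ q' → q.Coprime q' := fun h h' =>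
    (Nat.coprime_primes h h').2
  obtain ⟨D₁, hD₁⟩ : ∃ D₁, D₁ = l ^ 2 * (m * s) := ⟨_, rfl⟩
  obtain ⟨D₂, hD₂⟩ : ∃ D₂, D₂ = r ^ (j + 1) := ⟨_, rfl⟩
  have d1 : 0 < D₁ := hD₁ ▸ mul_pos (pow_pos hl.pos _) (mul_pos m0 hs.pos)
  have d2 : 1 < D₂ := hD₂ ▸ Nat.one_lt_pow j.succ_ne_zero hr.one_lt
  have d3 : 0 < D₁ * D₂ := mul_pos d1 (by omega)
  have rD : r.Coprime D₁ := hD₁ ▸ ((cop hr hl rl).pow_right 2).mul_right
    (mr.symm.mul_right (cop hr hs (by omega)))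
  have pD : p.Coprime D₁ := hD₁ ▸ ((cop hp.hp hl hp.lp.symm).pow_right 2).mul_right
    (mp.symm.mul_right (cop hp.hp hs (by omega)))
  have pD2 : p.Coprime D₂ := hD₂ ▸ (cop hp.hp hr rp.symm).pow_right _
  have p2 := cop hp.hp Nat.prime_two hp.odd
  obtain ⟨D', hD'⟩ : ∃ D', D' = m' * (s * D₂) := ⟨_, rfl⟩
  have hBD : D₁ * D₂ = l ^ B * D' := by rw [hD₁, hD', ← mul_assoc (l ^ 2), hBm]; ring
  have lD : ¬l ∣ D' := (Nat.Prime.coprime_iff_not_dvd hl).1 (hD' ▸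
    ((Nat.Prime.coprime_iff_not_dvd hl).2 lm).mul_right ((cop hl hs (by omega)).mul_right
      (hD₂ ▸ (cop hl hr rl.symm).pow_right _)))
  obtain ⟨c, hc⟩ : ∃ c, c = 2 * D₁ ^ 2 * l ^ K := ⟨_, rfl⟩
  have c0 : 0 < c := hc ▸ mul_pos (mul_pos two_pos (pow_pos d1 2)) (pow_pos hl.pos K)
  have c0' : (c : ℤ) ≠ 0 := by exact_mod_cast c0.ne'
  have rc : r.Coprime c := hc ▸ ((cop hr Nat.prime_two r2).mul_right (rD.pow_right 2)).mul_right
    ((cop hr hl rl).pow_right K)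
  have pc : p.Coprime c := hc ▸ (p2.mul_right (pD.pow_right 2)).mul_right
    ((cop hp.hp hl hp.lp.symm).pow_right K)
  obtain ⟨α, β, hαβ⟩ : IsCoprime (c : ℤ) D₂ :=
    Nat.isCoprime_iff_coprime.2 (hD₂ ▸ rc.symm.pow_right _)
  have rD2 : (r : ℤ) ∣ D₂ := by rw [hD₂]; push_cast; exact dvd_pow_self _ j.succ_ne_zero
  have nd : ∀ {e : ℤ}, IsCoprime e D₂ → ¬(r : ℤ) ∣ e := fun h h' =>
    (Nat.prime_iff_prime_int.1 hr).not_isUnit (h.isUnit_of_dvd' h' rD2)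
  obtain ⟨C, hCT, hC, hu⟩ := hu α (nd ⟨c, β, by rw [← hαβ]; ring⟩)
  have Dc : (D₁ : ℤ) ∣ c := ⟨2 * D₁ * l ^ K, by rw [hc]; push_cast; ring⟩
  have : NeZero D₂ := ⟨by omega⟩
  let ev : (ZMod D₂)ˣ → ℤ := fun i => ((i : ZMod D₂).val : ℕ)
  have hev : ∀ i, ¬(r : ℤ) ∣ ev i := fun i =>
    nd (Nat.isCoprime_iff_coprime.2 (ZMod.val_coe_unit_coprime i))
  have hC1 : CongS D₁ (C1 l (m * s) a) := hD₁ ▸ C1_cong hW l (m * s) a
  have hC2 : ∀ i, CongS D₂ {b | scl (ev i) b ∈ C} := fun i => hD₂ ▸ cong_scl hC _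
  let E : (ZMod D₂)ˣ → Set (Fin (n + 2) → ℤ) := fun i => C1 l (m * s) a ∩ {b | scl (ev i) b ∈ C}
  have hE : ∀ i, CongS (D₁ * D₂) (E i) := fun i =>
    cong_inter (cong_mono hC1 (dvd_mul_right _ _)) (cong_mono (hC2 i) (dvd_mul_left _ _))
  have hK' := fun i => hK D' (WC (E i)) lD (hBD ▸ hW.tfx d3 (hE i)) (hW.nil hl fun b hb => hb.1.1.1)
  have hEb : ∀ i a', zW k l (WC (E i)) a' ≠ 0 → ∃ b ∈ E i, a' = toQ b := fun i a' h => by
    obtain ⟨L, hL⟩ := (zW_ne h).2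
    exact ((hW.val _ a' L).resolve_right fun k => hL k.1).2.2
  choose A hA1 hA' using fun i => hq (n + 1) k l _ 1 (WC (E i)) hp.kk hl hp.hs (hW.tfx d3 (hE i))
    (hW.nil hl fun b hb => hb.1.1.1) one_pos fun a' h => by
      obtain ⟨b, -, rfl⟩ := hEb i a' h
      simpa using hW.qm b
  simp only [Nat.cast_one, mul_one, one_mul] at hA1 hA'
  obtain ⟨G, hG8, hG'⟩ := hW.gam _ d1 hC1 1 0 c 1 (by simp) c0'
    ⟨l ^ K, by rw [hc]; push_cast; rfl⟩ Even.zero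
  have G0 : G ≠ 0 := fun h => by
    rw [h, zero_pow (by norm_num)] at hG8
    exact pow_ne_zero _ (inv_ne_zero (Int.cast_ne_zero.2 c0')) hG8.symm
  let W : (ZMod D₂)ˣ → Mx (n + 2) → Lt (n + 2) → ℂ := fun i x L => G⁻¹ * wW 1 c 1 (WC (E i)) x L
  have hK1 := fun i => hK' i 1 0 c 1 (by simp) c0' ⟨2 * D₁ ^ 2, by rw [hc]; push_cast; ring⟩
  have hB' := fun i => coef hR hB hM hW hm hq hS hU hT (W := W i)
    (ρ := α * (1 + β * D₂) / 2) hp hG hr rp rl (hD₁ ▸ rD) (dvd_mul_left s m)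
    (cong_scl hC (ev i)) hO iso (tfx_mul (hX.tfx 1 c 1 (hW.tfx d3 (hE i)) c0') _)
    (fun x L k => (hK1 i).1 x L (right_ne_zero_of_mul k))
    ((Nat.Prime.coprime_iff_not_dvd hp.hp).1 ((p2.mul_right pc).mul_right (pD.mul_right pD2)))
    (α := α) fun x L => by
      simp only [W, E]
      rw [hF _ _ _ _ _ 1 c 1 α β d1 (by omega) hC1 (hC2 i) c0'
        ⟨D₁ ^ 2 * l ^ K, by rw [hc]; push_cast; ring⟩ Dc hαβ, ← hD₂]
      split_ifs with h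
      · rw [hG', mul_smul]
        simp only [scl_one, Set.ofPred_mem_eq]
        rw [wc_scl hL1 hB (C1_scl hT a (hD₁ ▸ IsCoprime.of_isCoprime_of_dvd_right
          ⟨D₂, α, by rw [← hαβ]; ring⟩ Dc)) h, show ((1 : ℤ) : ℚ) * α * (1 + β * D₂) * Qm x / 2 =
            α * (1 + β * D₂) / 2 * Qm x by push_cast; ring]
        field_simp
      · rw [WC, if_neg fun k => h k.2.1]
        simp
  rw [← hD₂] at hB'
  choose B' hB1 hB2 hB3 using hB'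
  have rj : r ^ j ≤ r := (Nat.pow_le_pow_right hr.pos hj).trans_eq (pow_one r)
  refine hQ (ZMod D₂)ˣ (2 * c) (D₂ ^ 2) (4 * (n + 2) + 4 * k * (n + 2) * (n + 2 - 1))
    (r ^ 2 * Q) (fun i τ => FW k l (WC (E i)) (2 * τ)) _ A B' O (by omega)
    (Nat.one_lt_pow two_ne_zero d2)
    (hD₂ ▸ (((cop hr Nat.prime_two r2).mul_right rc).symm.pow_right _).pow_right _)
    ⟨2 * (n + 2) + 2 * k * (n + 2) * (n + 2 - 1), by ring⟩
    (hU.nat p _ O hp.hp hO ((Nat.Prime.coprime_iff_not_dvd hp.hp).1 (pD2.pow_right 2))) hA1 hB1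
    ?_ (fun i τ hτ => ?_) hB2 ⟨1, ?_⟩ fun i N hN => ?_
  · rintro a' b _ e hd ⟨t, rfl⟩ hc0
    obtain ⟨c', hc'⟩ : ∃ c' : ℤ, c' = c * D₂ ^ 2 * t := ⟨_, rfl⟩
    rw [show ((2 * c * D₂ ^ 2 : ℕ) : ℤ) * t = 2 * c' by rw [hc']; push_cast; ring] at hd hc0 ⊢
    have h1 : a' * e - 2 * b * c' = 1 := by rw [← hd]; ring
    have h2 : c' ≠ 0 := right_ne_zero_of_mul hc0
    have h3 : IsCoprime e c' := ⟨a', -(2 * b), by rw [← h1]; ring⟩
    have h4 : IsCoprime e D₂ := h3.of_isCoprime_of_dvd_right ⟨c * D₂ * t, by rw [hc']; ring⟩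
    obtain ⟨v, hv⟩ := (ZMod.coe_int_isUnit_iff_isCoprime e D₂).2 h4.symm
    refine ⟨Equiv.mulRight v, fun i τ hτ => ?_⟩
    obtain ⟨G', h5, h6⟩ := hW.gam _ d3 (hE i) a' (2 * b) c' e h1 h2
      ⟨l ^ K * t, by rw [hc', hc]; push_cast; ring⟩ (even_two_mul b)
    refine pow8 hW (F := FW k l (WC (E i))) (H := FW k l (WC (E (i * v)))) h2 hτ h5 ?_
    rw [(hK' i a' (2 * b) c' e h1 h2 ⟨2 * D₁ ^ 2 * D₂ ^ 2 * t, by rw [hc', hc]; push_cast; ring⟩).2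
      _ (by simpa using hτ), h6, Base.FW_mul]
    congr 4
    ext b
    refine and_congr (C1_scl hT a (hD₁ ▸ h3.of_isCoprime_of_dvd_right
      (hc' ▸ (Dc.mul_right _).mul_right _)) b) ?_
    rw [Set.mem_ofPred_eq, Set.mem_ofPred_eq, scl_scl]
    refine scl_congr (hD₂ ▸ hC) ((ZMod.intCast_eq_intCast_iff _ _ D₂).1 ?_) b
    simp [ev, hv]
  · have h1 : (2 * (D₂ ^ 2 : ℕ) * (τ / (D₂ ^ 2 : ℕ)) : ℂ) = 2 * τ := by
      have : ((D₂ ^ 2 : ℕ) : ℂ) ≠ 0 := by exact_mod_cast (by positivity)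
      field_simp
    have h2 := pow8 hW (a := 1) (b := 0) (e := 1) (F := FW k l (WC (E i))) (H := FW k l (W i)) c0'
      hτ hG8 (by
        rw [mul_zero, (hK1 i).2 _ (by simpa using hτ), Base.FW_mul, mul_inv_cancel_left₀ G0])
    rw [h1]
    exact_mod_cast h2
  · have : Fact (1 < D₂) := ⟨d2⟩
    have e1 : {b | scl (ev 1) b ∈ C} = C := by
      have e0 : ev 1 = 1 := by
        simp only [ev, Units.val_one, ZMod.val_one, Nat.cast_one]
      ext b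
      rw [e0, Set.mem_ofPred_eq, scl_one]
    obtain ⟨N, h1, h2⟩ := hB3 1 (by rw [e1]; exact hu)
    refine ⟨N, ?_, h2⟩
    have h3 := qm_nonneg hR hG.1
    have h4 : (r : ℚ) ^ j ≤ r := by exact_mod_cast rj
    rw [← Nat.cast_le (α := ℚ), ← h1]
    push_cast
    gcongr
  · obtain ⟨S, hS1, hS2⟩ := hA' i N
    rw [hS2]
    refine Valuation.map_sum_lt _ one_ne_zero fun a' ha' => ?_
    obtain ⟨h1, h2⟩ := (hS1 a').1 ha'
    obtain ⟨b, hb, rfl⟩ := hEb i a' h1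
    rw [(hU.wc k l _ _).1 b hb rfl, ← (hU.wc k l {b | EisZ l b} _).1 b hb.1.1 rfl]
    refine hU.lt p O _ hp.hp hO (by_contra fun h' => hne ⟨b, ⟨(zW_ne h1).1, hb.1.1, h'⟩,
      sim_mono hb.1.2 (dvd_mul_right _ _), ⟨_, hev i, hCT hb.2⟩, ?_⟩)
    rw [h2, Nat.cast_le]
    refine hN.trans ?_
    have k0 : r ^ (j + 1) ≤ r ^ (1 + 1) := Nat.pow_le_pow_right hr.pos (by omega)
    have k1 : Fintype.card (ZMod D₂)ˣ ≤ r ^ 2 := by
      rw [ZMod.card_units_eq_totient, hD₂]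
      exact (Nat.totient_le _).trans k0
    have k2 : s ≤ (2 * (p + l + 1) + C₁) * r ^ (2 * (n + 2)) := by
      have h3 : r ≤ r ^ (2 * (n + 2)) := Nat.le_self_pow (by omega) _
      have h4 : s ≤ 2 * (p + l + r) + C₁ * r ^ (2 * (n + 2)) := by
        have h5 : s ≤ 2 * (p + l + r) + C₁ * (r ^ j) ^ (2 * (n + 2)) := by exact_mod_cast hsC
        exact h5.trans (by gcongr)
      nlinarith [Nat.mul_le_mul_left (p + l) (hr.one_le.trans h3)]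
    have k3 : r ^ 2 ≤ r ^ 4 := Nat.pow_le_pow_right hr.pos (by norm_num)
    have k4 : 1 ≤ r ^ 4 := Nat.one_le_pow _ _ hr.pos
    generalize 4 * (n + 2) + 4 * k * (n + 2) * (n + 2 - 1) = w
    generalize Fintype.card (ZMod D₂)ˣ = y at k1
    generalize 2 * (p + l + 1) + C₁ = C₂ at k2
    have k5 : 8 * (r ^ 2 * Q) * y + w * y + 1 ≤ (w + 8 * Q + 1) * r ^ 4 := by
      have := Nat.mul_le_mul_left (8 * (r ^ 2 * Q)) k1
      have := Nat.mul_le_mul_left w (k1.trans k3)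
      nlinarith
    calc bd (2 * c * D₂ ^ 2) (w * y) (8 * (r ^ 2 * Q) * y)
        = 4 * (8 * (r ^ 2 * Q) * y + w * y + 1) *
          (2 * (2 * (l ^ 2 * (m * s)) ^ 2 * l ^ K) * (r ^ (j + 1)) ^ 2) ^ 5 := by
          rw [bd, hc, hD₁, hD₂]
      _ ≤ 4 * ((w + 8 * Q + 1) * r ^ 4) * (2 * (2 * (l ^ 2 * (m * (C₂ * r ^ (2 * (n + 2))))) ^ 2 *
          l ^ K) * (r ^ (1 + 1)) ^ 2) ^ 5 := by gcongr
      _ = _ := by ring

end MOV

/-- Block MOV. -/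
theorem stMove' (_hB : StBas) (hQ : StQP') : StMove' :=
  MOV.move stLat1 stBlk omx mod0 wc0 (stFac stInt1 int2 stLat1 lat2 stBlk wc0)
    (stFmem stInt1 int2 stLat1 lat2 stBlk wc0) (stQsW mod0) scl0 hQ stRoot unit0 stTy

end Pool.Agent.Lib.Mu14.All
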