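import Pool.Agent.Lib.Mu14.Smo

/-! Smoothing for functions that are not invariant under units. -/

set_option autoImplicit false

open Matrix Filter Topology

namespace Pool.Agent.Lib.Mu14.All.ESM

open Smo

variable {n : ℕ}

/-- Integer valued functions of level `p ^ m`, no condition on units. -/
structure P0 (x : Mx n) (p m : ℕ) (φ : V n → Lt n → ℤ) : Prop where
  supp : ∀ v L, φ v L ≠ 0 → Stab x L ∧ v ∈ L
  per : ∀ v L, ∀ u ∈ L, φ (v + (p : ℚ) ^ m • u) L = φ v L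
  inv : ∀ g : Mx n, g.det ≠ 0 → g * x = x * g → ∀ v L, φ (g *ᵥ v) (act g L) = φ v L
  bdd : ∃ B : ℤ, ∀ v L, |φ v L| ≤ B

variable {x : Mx n} {p m r N : ℕ} {φ φ' : V n → Lt n → ℤ} {σ : Lt n → Lt n}

namespace P0

lemma zero (hφ : P0 x p m φ) {L : Lt n} (hL : ¬Stab x L) (v : V n) : φ v L = 0 := by
  by_contra h
  exact hL (hφ.supp v L h).1

lemma ps_not (hφ : P0 x p m φ) (hI1 : StInt1) {L : Lt n} (hL : ¬Stab x L) (d : V n) :
    ps φ d L = 0 := by
  simp only [ps, FT, hφ.zero hL, Int.cast_zero, zero_mul, hI1.zero.2, mul_zero]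

lemma stab (hφ : P0 x p m φ) (hI1 : StInt1) {L : Lt n} {d : V n} (h : ps φ d L ≠ 0) :
    Stab x L := by
  by_contra hL
  exact h (hφ.ps_not hI1 hL d)

lemma lev (hφ : P0 x p m φ) (hp : 0 < p) (L : Lt n) : LevV (p ^ m) L fun v => (φ v L : ℂ) := by
  refine ⟨pow_pos hp m, fun v hv => nat_smul_mem _ (hφ.supp v L (Int.cast_ne_zero.mp hv)).2,
    fun v u hu => ?_⟩
  simp only [Nat.cast_pow, hφ.per v L u hu]

lemma ps_zero (hφ : P0 x p m φ) (hI1 : StInt1) (hL2 : StLat2) (hp : 0 < p) {L : Lt n} {d : V n}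
    (hd : ((p ^ m : ℕ) : ℚ) • d ∉ dual L) : ps φ d L = 0 := by
  by_contra h
  obtain ⟨B, hB⟩ := hφ.bdd
  have h1 := (hL2.ftv (B := B) (hφ.stab hI1 h).1 (hφ.lev hp L) fun v => by
    rw [Complex.norm_intCast]; exact_mod_cast hB v L).1
  exact hd (h1.2.1 d (right_ne_zero_of_mul h))

lemma ps_per (hφ : P0 x p m φ) {L : Lt n} (d : V n) {w : V n} (hw : w ∈ dual L) :
    ps φ (d + w) L = ps φ d L := by
  rw [ps, ps, FT, FT]
  congr 2
  funext v
  by_cases h : φ v L = 0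
  · simp [h]
  · congr 1
    refine er_congr ((hw v (hφ.supp v L h).2).neg.of_eq ?_)
    rw [add_dotProduct]; ring

open Classical in
lemma ps_eq (hφ : P0 x p m φ) (L : Lt n) (d : V n) :
    ps φ d L = (covol L : ℚ) * dint fun v => if v ∈ L then (φ v L : ℂ) * er (-(d ⬝ᵥ v)) else 0 := by
  rw [ps, FT]
  congr 2
  funext v
  split_ifs with h
  · rfl
  · have : φ v L = 0 := by
      by_contra h'
      exact h (hφ.supp v L h').2
    simp [this]

lemma tf2 (hφ : P0 x p m φ) (hp : 0 < p) {t : ℕ} (ht : 0 < t) {C : V n → Lt n → Prop}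
    (h1 : ∀ l L, Stab x L → C l L → ((p ^ m * t : ℕ) : ℚ) • l ∈ dual L)
    (h2 : ∀ l L, Stab x L → ∀ w ∈ dual L, (C (l + w) L ↔ C l L))
    (h3 : ∀ g : Mx n, g.det ≠ 0 → g * x = x * g → ∀ l L, Stab x L →
      (C (l ᵥ* g⁻¹) (act g L) ↔ C l L)) : TF2 x (p ^ m * t) (cut φ C) where
  pos := Nat.mul_pos (pow_pos hp m) ht
  supp v l L h := by
    obtain ⟨c, h⟩ := cut_ne h
    obtain ⟨s, hv⟩ := hφ.supp v L h
    exact ⟨s.1, s.2.smul (IsZ.nat _), nat_smul_mem _ hv, h1 l L s c⟩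
  perv v l L u hu := by
    have := hφ.per v L _ (nat_smul_mem t hu)
    rw [smul_smul] at this
    simp only [cut, Nat.cast_mul, Nat.cast_pow, this]
  perl v l L w hw := by
    by_cases s : Stab x L
    · rw [cut, cut, h2 l L s _ (nat_smul_mem _ hw)]
    · simp only [cut, hφ.zero s, Int.cast_zero, ite_self]
  inv g hg hx v l L := by
    by_cases s : Stab x L
    · rw [cut, cut, h3 g hg hx l L s, hφ.inv g hg hx]
    · simp only [cut, hφ.inv g hg hx, hφ.zero s, Int.cast_zero, ite_self]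
  bdd := by
    obtain ⟨B, hB⟩ := hφ.bdd
    refine ⟨B, fun v l L => ?_⟩
    have := hB v L
    unfold cut
    split_ifs
    · rw [Complex.norm_intCast]; exact_mod_cast this
    · rw [norm_zero]; exact_mod_cast (abs_nonneg _).trans this

lemma tf2_cnd (hφ : P0 x p m φ) (hL1 : StLat1) (hp : 0 < p) (hr : 0 < r) (hσ : Smo x r N σ) :
    TF2 x (p ^ m * r) (cut φ (cnd σ)) :=
  hφ.tf2 hp hr
    (fun l L s h => by
      rw [Nat.cast_mul, mul_smul]
      exact nat_smul_mem _ (r_dual hσ s h.1))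
    (fun l _ s _ hw => cnd_add hσ s l hw)
    fun g hg hx l L s => by
      rw [cnd, cnd, hσ.inv g hg hx L s, hL1.act_dual _ _ hg, hL1.act_dual _ _ hg]

lemma summ {k : ℕ} {a : V (n + 1)} {φ : V (n + 1) → Lt (n + 1) → ℤ} (hφ : P0 (comp a) p m φ)
    (hI1 : StInt1) (hL1 : StLat1) (hL2 : StLat2) (hC : StCT) (hk : KK (n + 1) k) (hp : p.Prime)
    (ha : Spl (toR a)) : Summable fun L => ‖ps φ lam0 L * ((covol L : ℚ) : ℂ)⁻¹ ^ k‖ := by
  have h1 := hφ.tf2 hp.pos one_pos (C := fun l L => ((p ^ m : ℕ) : ℚ) • l ∈ dual L)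
    (fun l L _ h => by rwa [mul_one])
    (fun l L _ w hw => by rw [smul_add]; exact Submodule.add_mem_iff_left _ (nat_smul_mem _ hw))
    fun g hg _ l L _ => by rw [← smul_vecMul, hL1.act_dual _ _ hg]
  refine (hC n k _ a _ hk h1 ha 1 0 (-1) 1 (by norm_num) (by norm_num)).1.congr fun L => ?_
  simp only [psi_cut hI1, Int.cast_neg, Int.cast_one, neg_neg, one_smul]
  split_ifs with h
  · rfl
  · rw [hφ.ps_zero hI1 hL2 hp.pos h]

end P0

lemma ps_unit (hI1 : StInt1) (hI2 : StInt2) (hL1 : StLat1) (hL2 : StLat2) (hp : p.Prime)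
    (hφ : P0 x p m φ) (hφ' : P0 x p m φ') {L : Lt n} {d : V n}
    (hd : ((p ^ m : ℕ) : ℚ) • d ∈ dual L) {u : ℤ} (hu : ¬(p : ℤ) ∣ u)
    (hun : ∀ v L, v ∈ L → φ' ((u : ℚ) • v) L = φ v L) : ps φ ((u : ℚ) • d) L = ps φ' d L := by
  classical
  by_cases hL : Stab x L
  swap
  · rw [hφ.ps_not hI1 hL, hφ'.ps_not hI1 hL]
  have hu0 : (u : ℚ) ≠ 0 := by
    rintro h
    exact hu (by rw [show u = 0 by exact_mod_cast h]; exact dvd_zero _)
  have hg := scal_det (n := n) hu0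
  have hL' := (hL1.act_lat L hg).mpr hL.1
  have hle : act ((u : ℚ) • (1 : Mx n)) L ≤ L := fun v hv => by
    obtain ⟨y, hy, rfl⟩ := (mem_scal L v).mp hv
    exact int_smul_mem u hy
  have hper : ∀ v ∈ L, ∀ w ∈ L, (φ' (v + ((p ^ m : ℕ) : ℚ) • w) L : ℂ) *
      er (-(d ⬝ᵥ (v + ((p ^ m : ℕ) : ℚ) • w))) = (φ' v L : ℂ) * er (-(d ⬝ᵥ v)) := fun v _ w hw => by
    congr 1
    · exact (hφ'.lev hp.pos L).2.2 v w hw
    refine er_congr ((hd w hw).neg.of_eq ?_)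
    rw [dotProduct_add, smul_dotProduct, dotProduct_smul]; ring
  have h1 := hL2.av (D := p ^ m) (m := u.natAbs)
    (h := fun v => (φ' v L : ℂ) * er (-(d ⬝ᵥ v))) hL.1 hL' hle (pow_pos hp.pos m)
    (Nat.Coprime.pow_right m ((hp.coprime_iff_not_dvd.mpr
      fun h => hu (Int.natCast_dvd.mpr h)).symm))
    (fun y hy => (mem_scal L _).mpr ⟨(u.sign : ℚ) • y, int_smul_mem _ hy, by
      rw [smul_smul, ← Int.cast_mul, Int.mul_sign_self, Int.cast_natCast]⟩) hper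
  have hS : SB fun v => if v ∈ act ((u : ℚ) • (1 : Mx n)) L then
      (φ' v L : ℂ) * er (-(d ⬝ᵥ v)) else 0 := by
    refine hL2.sbv (D := p ^ m) hL' ⟨pow_pos hp.pos m, fun v hv => ?_, fun v w hw => ?_⟩
    · refine nat_smul_mem _ ?_
      by_contra h
      exact hv (if_neg h)
    · have h2 := Submodule.add_mem_iff_left _ (x := v) (nat_smul_mem (p ^ m) hw)
      by_cases h : v ∈ act ((u : ℚ) • (1 : Mx n)) L
      · simp only [if_pos h, if_pos (h2.mpr h)]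
        exact hper v (hle h) w (hle hw)
      · simp only [if_neg h, if_neg (h2.not.mpr h)]
  have h3 := (hI2.lin _ hg hS).2
  rw [hφ.ps_eq, hφ'.ps_eq, h1, hL1.act_cov hg hL.1, Rat.cast_mul, mul_comm ((|_| : ℚ) : ℂ),
    mul_assoc, ← h3]
  congr 2
  funext v
  have h4 : (u : ℚ) • v ∈ act ((u : ℚ) • (1 : Mx n)) L ↔ v ∈ L := by
    rw [mem_scal]
    exact ⟨fun ⟨y, hy, e⟩ => smul_right_injective _ hu0 e ▸ hy, fun h => ⟨v, h, rfl⟩⟩
  simp only [smul_mulVec, one_mulVec, h4]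
  split_ifs with h
  · rw [hun v L h, smul_dotProduct, dotProduct_smul]
  · rfl

/-- The support conditions. -/
def Sup (x : Mx n) (p m : ℕ) (σ : Lt n → Lt n) (l d : V n) (L : Lt n) : Prop :=
  Stab x L ∧ cnd σ l L ∧ ((p ^ m : ℕ) : ℚ) • d ∈ dual L

lemma psi_zero (hI1 : StInt1) (hL2 : StLat2) (hp : 0 < p) (hφ : P0 x p m φ) {l d : V n} {L : Lt n}
    (h : ¬Sup x p m σ l d L) : Psi (cut φ (cnd σ)) l d L = 0 := by
  rw [psi_cut hI1]
  split_ifs with hl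
  · by_contra h'
    exact h' (hφ.ps_zero hI1 hL2 hp fun hd => h ⟨hφ.stab hI1 h', hl, hd⟩)
  · rfl

lemma Sup.step (hσ : Smo x r N σ) {a b c e : ℤ} (h1 : a * e - b * c = 1) (hb : (r : ℤ) ∣ b)
    (hc : ((p ^ m : ℕ) : ℤ) ∣ c) {l d : V n} {L : Lt n} (h : Sup x p m σ l d L) :
    Sup x p m σ ((e : ℚ) • l - (c : ℚ) • d) ((a : ℚ) • d - (b : ℚ) • l) L := by
  obtain ⟨s, hl, hd⟩ := h
  have hcd := dvd_mem hc hd
  have hbl := dvd_mem hb (r_dual hσ s hl.1)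
  refine ⟨s, ?_, ?_⟩
  · rw [sub_eq_add_neg, cnd_add hσ s _ (neg_mem hcd)]
    refine ⟨int_smul_mem e hl.1, fun h2 => hl.2 ?_⟩
    have h3 := sub_mem (int_smul_mem a h2) (int_smul_mem c hbl)
    rwa [smul_smul, smul_smul, ← sub_smul, show (a : ℚ) * e - c * b = 1 by
      exact_mod_cast (by linarith : a * e - c * b = 1), one_smul] at h3
  · rw [smul_sub, smul_comm]
    exact sub_mem (int_smul_mem a hd) (nat_smul_mem _ hbl)

lemma psi_inv (hI1 : StInt1) (hI2 : StInt2) (hL1 : StLat1) (hL2 : StLat2) (hp : p.Prime)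
    (hσ : Smo x r N σ) (hφ : P0 x p m φ) (hφ' : P0 x p m φ') {a b c e : ℤ}
    (h1 : a * e - b * c = 1) (hb : (r : ℤ) ∣ b) (hc : ((p ^ m : ℕ) : ℤ) ∣ c) (ha : ¬(p : ℤ) ∣ a)
    (hun : ∀ v L, v ∈ L → φ' ((a : ℚ) • v) L = φ v L) (l d : V n) (L : Lt n) :
    Psi (cut φ' (cnd σ)) l d L =
      Psi (cut φ (cnd σ)) ((e : ℚ) • l - (c : ℚ) • d) ((a : ℚ) • d - (b : ℚ) • l) L := by
  by_cases h : Sup x p m σ l d L
  · have hbl := dvd_mem hb (r_dual hσ h.1 h.2.1.1)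
    rw [psi_cut hI1, psi_cut hI1, if_pos (h.step hσ h1 hb hc).2.1, if_pos h.2.1, sub_eq_add_neg,
      hφ.ps_per _ (neg_mem hbl), ps_unit hI1 hI2 hL1 hL2 hp hφ hφ' h.2.2 ha hun]
  rw [psi_zero hI1 hL2 hp.pos hφ' h, psi_zero hI1 hL2 hp.pos hφ fun h' => h ?_]
  have h2 := h'.step hσ (a := e) (b := -b) (c := -c) (e := a) (by linarith) hb.neg_right
    hc.neg_right
  have h3 : (a : ℚ) * e - b * c = 1 := by exact_mod_cast h1
  convert h2 using 1
  · funext i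
    simp only [Pi.sub_apply, Pi.smul_apply, smul_eq_mul, Int.cast_neg]
    linear_combination -(l i) * h3
  · funext i
    simp only [Pi.sub_apply, Pi.smul_apply, smul_eq_mul, Int.cast_neg]
    linear_combination -(d i) * h3

lemma ps_sigma (hL2 : StLat2) (hp : p.Prime) (hpr : ¬p ∣ r) (hσ : Smo x r N σ) (hφ : P0 x p m φ)
    (hφ' : P0 x p m φ') (h : ∀ L, Stab x L → ∀ v ∈ σ L, φ v L = φ' v (σ L)) {L : Lt n}
    (s : Stab x L) {d : V n} (hd : ((p ^ m : ℕ) : ℚ) • d ∈ dual (σ L)) :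
    ps φ ((r : ℚ) • d) L = ps φ' ((r : ℚ) • d) (σ L) := by
  classical
  have h1 := hL2.av (D := p ^ m) (m := r)
    (h := fun v => (φ v L : ℂ) * er (-(((r : ℚ) • d) ⬝ᵥ v))) s.1 (hσ.bij.mapsTo s).1 (hσ.le L s)
    (pow_pos hp.pos m) (Nat.Coprime.pow_right m (hp.coprime_iff_not_dvd.mpr hpr).symm)
    (hσ.ge L s) fun v _ w hw => by
      congr 1
      · exact (hφ.lev hp.pos L).2.2 v w hw
      refine er_congr ((hd _ (hσ.ge L s w hw)).neg.of_eq ?_)
      simp only [dotProduct_add, smul_dotProduct, dotProduct_smul, smul_eq_mul]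
      ring
  rw [hφ.ps_eq, hφ'.ps_eq, h1]
  congr 2
  funext v
  split_ifs with hv
  · rw [h L s v hv]
  · rfl

end Pool.Agent.Lib.Mu14.All.ESM
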