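import Pool.Agent.Lib.Mu14.Final1
import Pool.Agent.Lib.Mu46.Blue
import Pool.Agent.Lib.Mu46.Smf1

/-! Smoothing for families that units permute. -/

set_option autoImplicit false

open Matrix Filter Topology

namespace Pool.Agent.Lib.Mu14.All

namespace ESM

lemma val_cop {O : ValuationSubring ℂ} {p r : ℕ} (hp : p.Prime) (hO : O.valuation p < 1)
    (hpr : ¬p ∣ r) : O.valuation r = 1 := by
  refine (val_nat r).eq_of_not_lt fun h => ?_
  obtain ⟨u, v, huv⟩ := Nat.isCoprime_iff_coprime.mpr (hp.coprime_iff_not_dvd.mpr hpr)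
  have h1 : (p : ℂ) * u + r * v = 1 := by
    rw [mul_comm, mul_comm (r : ℂ)]; exact_mod_cast huv
  have h2 : O.valuation ((p : ℂ) * u + r * v) < 1 := by
    refine Valuation.map_add_lt _ ?_ ?_ <;> rw [map_mul]
    exacts [mul_lt_one_of_lt_of_le hO (val_int u), mul_lt_one_of_lt_of_le h (val_int v)]
  simp [h1] at h2

end ESM

open Smo ESM in
theorem stSmo' (hQ : StQ0F) : StSmo' := by
  classical
  intro n k p m r N a σ t j φ O hk hp hm hr hpr ha hPl hσ hPT hφφ hO i₀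
  have hI1 := stInt1
  have hI2 := int2
  have hL1 := stLat1
  have hL2 := lat2
  have : NeZero p := ⟨hp.ne_zero⟩
  have hφ : ∀ i, P0 (comp a) p m (φ i) := fun i =>
    ⟨hPT.supp i, hPT.per i, hPT.inv i, hPT.bdd.imp fun _ h => h i⟩
  have s2 := (hφ i₀).summ hI1 hL1 hL2 ct1 hk hp ha
  refine ⟨s2, ?_⟩
  have hr0 : 0 < r := by omega
  have hrC : (r : ℂ) ≠ 0 := by exact_mod_cast hr0.ne'
  have hT := fun i => (hφ i).tf2_cnd hL1 hp.pos hr0 hσ
  have hcop : (p ^ m).Coprime r := Nat.Coprime.pow_left m (hp.coprime_iff_not_dvd.mpr hpr)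
  have hP := pow_pos hp.pos m
  have hvr := val_cop hp hO hpr
  have hne : ∀ i v l L, cut (φ i) (cnd σ) v l L ≠ 0 → Pl (comp a) l ≠ 0 := fun i v l L h =>
    hPl l fun e => (cut_ne h).1.2 (e ▸ zero_mem _)
  have hqs := fun i => sum0.qs k r (hT i) hr0 fun v L h => by
    obtain ⟨c, h⟩ := cut_ne h
    obtain ⟨s, hv⟩ := (hφ i).supp v L h
    have := r_dual hσ s c.1 v hv
    rwa [smul_dotProduct] at this
  have hmem := fun i => sum0.mem k O.toSubring.toAddSubgroup (hT i) fun v L => by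
    by_cases h : cut (φ i) (cnd σ) v lam0 L = 0
    · rw [h, zero_mul]; exact zero_mem _
    obtain ⟨c, h⟩ := cut_ne h
    obtain ⟨s, hv⟩ := (hφ i).supp v L h
    obtain ⟨z, hz⟩ := hL1.pv s.1 s.2 hv
    have h1 : wt k (comp a) v L = ((|z| ^ (k - 1) : ℤ) : ℚ) := by
      rw [wt, Int.cast_pow, Int.cast_abs, ← hz, abs_div, abs_of_pos (hL1.pos L)]
    rw [cut, if_pos c, h1, Rat.cast_intCast, ← Int.cast_mul]
    exact intCast_mem O _
  obtain ⟨u, e₁, hu⟩ := Nat.isCoprime_iff_coprime.mpr hcop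
  have hC := fun i => ct1 n k _ a _ hk (hT i) ha r (-u) (p ^ m : ℕ) e₁ (by linarith)
    (by exact_mod_cast hP.ne')
  have hY := hQ (ZMod p) (p ^ m) r ((n + 1) * k) _ _ _ O hP hr hcop (hk.1.mul_left _) hvr hqs
    (fun i N => (O.valuation_le_one_iff _).2 (hmem i _))
    (fun a' b c e' h1 hc _ => by
      obtain ⟨c, rfl⟩ := hc
      have ha' : ¬(p : ℤ) ∣ a' := fun ha' => by
        have h2 : (p : ℤ) ∣ ((p ^ m * r : ℕ) : ℤ) * c := by
          exact_mod_cast ((Int.natCast_dvd_natCast.mpr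
            ((dvd_pow_self p hm.ne').mul_right r)).mul_right c)
        have h3 : (p : ℤ) ∣ 1 := h1 ▸ (ha'.mul_right e').sub (h2.mul_left b)
        exact hp.one_lt.ne' (by exact_mod_cast Int.eq_one_of_dvd_one (by positivity) h3)
      refine ⟨Equiv.subRight (t a'), fun i τ hτ => ?_⟩
      have h2 := law1 (n + 1) k _ _ a _ _ hk (hT i) (hT (i - t a')) (hne _) (hne _) a' (r * b)
        ((p ^ m : ℕ) * c) e' (by push_cast at h1 ⊢; linarith)
        (ESM.psi_inv hI1 hI2 hL1 hL2 hp hσ (hφ i) (hφ _) (by push_cast at h1 ⊢; linarith)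
          (dvd_mul_right _ _) (dvd_mul_right _ _) ha' (hPT.unit a' ha' i)) (r * τ)
        (by simpa using mul_pos (by exact_mod_cast hr0) hτ)
      have e1 : ((((p ^ m : ℕ) : ℤ) * c : ℤ) : ℂ) * (r * τ) =
          (((p ^ m * r : ℕ) : ℤ) * c : ℤ) * τ := by
        push_cast; ring
      rw [Equiv.subRight_apply, ← e1, ← h2, mob, mob, ← e1, ← mul_div_assoc]
      congr 2
      push_cast; ring)
    1 (-u) (p ^ m : ℕ) (r * e₁) (by linarith) dvd_rfl (Nat.isCoprime_iff_coprime.mpr hcop)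
    (fun i => (((hC i).2.comp (tendsto_id.atTop_div_const
      (show (0 : ℝ) < r by exact_mod_cast hr0))).div_const ((r : ℂ) ^ ((n + 1) * k))).congr
      fun y => by
        have e1 : (((p ^ m : ℕ) : ℤ) : ℂ) * (y * Complex.I) + (r * e₁ : ℤ) =
            r * ((((p ^ m : ℕ) : ℤ) : ℂ) * ((y / r : ℝ) * Complex.I) + e₁) := by
          push_cast; field_simp
        simp only [Function.comp, id]
        rw [e1, mul_pow, div_div, mul_comm _ ((r : ℂ) ^ _), mob, mob, e1, ← mul_div_assoc,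
          mul_div_mul_left _ _ hrC]
        congr 3
        push_cast; field_simp) (i₀ + t r)
  rw [map_div₀, map_pow, hvr, one_pow, div_one] at hY
  have s1 := (hC (i₀ + t r)).1
  have hpr' : ¬(p : ℤ) ∣ (r : ℤ) := by exact_mod_cast hpr
  have hφa := hφ (i₀ + t r)
  have hφb := hφ (i₀ - j)
  let T1 : Lt (n + 1) → ℂ := fun L => (if ((p ^ m : ℕ) : ℚ) • lam0 ∈ dual (σ L) then
    ps (φ (i₀ + t r)) ((r : ℚ) • lam0) L else 0) * ((covol L : ℚ) : ℂ)⁻¹ ^ k
  have hsplit : ∀ L, T1 L = Psi (cut (φ (i₀ + t r)) (cnd σ)) ((-((p ^ m : ℕ) : ℤ) : ℚ) • lam0)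
      (((r : ℤ) : ℚ) • lam0) L * ((covol L : ℚ) : ℂ)⁻¹ ^ k +
      ps (φ i₀) lam0 L * ((covol L : ℚ) : ℂ)⁻¹ ^ k := fun L => by
    simp only [T1]
    rw [← add_mul, psi_cut hI1, cnd, neg_smul, neg_mem_iff, neg_mem_iff, Int.cast_natCast,
      Int.cast_natCast]
    congr 1
    by_cases s : Stab (comp a) L
    swap
    · simp only [hφa.ps_not hI1 s, (hφ i₀).ps_not hI1 s, ite_self, add_zero]
    by_cases h : ((p ^ m : ℕ) : ℚ) • lam0 ∈ dual L
    · rw [if_pos (dual_mono (hσ.le L s) h), if_neg fun h' => h'.2 h, zero_add,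
        ← ESM.ps_unit hI1 hI2 hL1 hL2 hp hφa (hφ i₀) h hpr'
          (by simpa only [add_sub_cancel_right] using hPT.unit r hpr' (i₀ + t r)),
        Int.cast_natCast]
    · simp only [(hφ i₀).ps_zero hI1 hL2 hp.pos h, add_zero, h, not_false_eq_true, and_true]
  have hT1 : ∀ L, Stab (comp a) L → (N : ℂ) ^ k * (ps (φ (i₀ - j)) lam0 (σ L) *
      ((covol (σ L) : ℚ) : ℂ)⁻¹ ^ k) = T1 L := fun L s => by
    have hN : (N : ℂ) ≠ 0 := by
      have := hL1.pos (σ L)
      rw [hσ.cov L s] at this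
      rintro h
      rw [show N = 0 by exact_mod_cast h] at this
      simp at this
    simp only [T1]
    split_ifs with h
    · have h1 := ESM.ps_unit hI1 hI2 hL1 hL2 hp (hφ (i₀ + t r - j)) hφb h hpr'
        (by simpa only [show i₀ + t r - j - t r = i₀ - j by ring] using
          hPT.unit r hpr' (i₀ + t r - j))
      rw [Int.cast_natCast] at h1
      rw [ESM.ps_sigma hL2 hp hpr hσ hφa (hφ _) (hφφ _) s h, h1, hσ.cov L s]
      push_cast
      rw [mul_inv, mul_pow, inv_pow (N : ℂ)]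
      field_simp
    · simp [hφb.ps_zero hI1 hL2 hp.pos h]
  have hst : ∀ L, T1 L ≠ 0 → Stab (comp a) L := fun L h => by
    by_contra s
    exact h (by simp only [T1, hφa.ps_not hI1 s, ite_self, zero_mul])
  have hsum : ∑' L, (N : ℂ) ^ k * (ps (φ (i₀ - j)) lam0 L * ((covol L : ℚ) : ℂ)⁻¹ ^ k) =
      ∑' L, T1 L := by
    refine tsum_eq_tsum_of_ne_zero_bij (fun L => σ L.1)
      (fun L L' h => Subtype.ext (hσ.bij.injOn (hst _ L.2) (hst _ L'.2) h)) (fun L' h => ?_)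
      fun L => hT1 _ (hst _ L.2)
    obtain ⟨L, s, rfl⟩ := hσ.bij.surjOn
      (hφb.stab hI1 (left_ne_zero_of_mul (right_ne_zero_of_mul h)))
    exact ⟨⟨L, fun e => h ((hT1 L s).trans e)⟩, rfl⟩
  simp only [hsplit] at hsum
  rw [tsum_mul_left, s1.of_norm.tsum_add s2.of_norm] at hsum
  convert hY using 2
  change (N : ℂ) ^ k * (pre k a * ∑' L, ps (φ (i₀ - j)) lam0 L * ((covol L : ℚ) : ℂ)⁻¹ ^ k) -
    pre k a * ∑' L, ps (φ i₀) lam0 L * ((covol L : ℚ) : ℂ)⁻¹ ^ k = _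
  linear_combination pre k a * hsum

end Pool.Agent.Lib.Mu14.All
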