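import Pool.Agent.Lib.Mu14.Final2
import Pool.Agent.Lib.Mu46.Blue

/-! Block BAS, second part: splitting types. -/

set_option autoImplicit false

open Polynomial

namespace Pool.Agent.Lib.Mu14.All

namespace TYP

lemma scale_fix {F : Type} [Field F] {e : F} {P : F[X]}
    (h : ∀ i, P.coeff i ≠ 0 → e ^ (P.natDegree - i) = 1) : P.scaleRoots e = P := by
  ext i
  rw [coeff_scaleRoots]
  by_cases hi : P.coeff i = 0
  · rw [hi, zero_mul]
  · rw [h i hi, mul_one]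

lemma four_le {r : ℕ} (hr : r.Prime) : 4 ≤ r ^ 2 := by
  have := hr.two_le
  nlinarith

lemma pow_eq {r : ℕ} [hr : Fact r.Prime] {e : ZMod r} (he : e ≠ 0) : e ^ (r ^ 2 - 1) = 1 := by
  have h : r ^ 2 - 1 = (r - 1) * (r + 1) := by
    rw [mul_comm, ← Nat.sq_sub_sq, one_pow]
  rw [h, pow_mul, ZMod.pow_card_sub_one_eq_one he, one_pow]

lemma fix_pow {F : Type} [Field F] (e : F) (d : ℕ) : (X ^ d : F[X]).scaleRoots e = X ^ d :=
  scale_fix fun i hi => by
    rw [coeff_X_pow] at hi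
    obtain rfl : i = d := by by_contra h; exact hi (if_neg h)
    rw [natDegree_X_pow, Nat.sub_self, pow_zero]

lemma fix_one {r : ℕ} [hr : Fact r.Prime] {e : ZMod r} (he : e ≠ 0) :
    (X ^ (r ^ 2 - 1) - 1 : (ZMod r)[X]).scaleRoots e = X ^ (r ^ 2 - 1) - 1 :=
  scale_fix fun i hi => by
    rw [← C_1, natDegree_X_pow_sub_C]
    rw [coeff_sub, coeff_X_pow, coeff_one] at hi
    by_cases h1 : i = r ^ 2 - 1
    · rw [h1, Nat.sub_self, pow_zero]
    · by_cases h2 : i = 0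
      · rw [h2, Nat.sub_zero, pow_eq he]
      · rw [if_neg h1, if_neg h2, sub_zero] at hi
        exact absurd rfl hi

lemma fix_frob {r : ℕ} [hr : Fact r.Prime] {e : ZMod r} (he : e ≠ 0) :
    (X ^ r ^ 2 - X : (ZMod r)[X]).scaleRoots e = X ^ r ^ 2 - X := by
  have h4 := four_le hr.out
  have h : (X ^ r ^ 2 - X : (ZMod r)[X]) = X ^ 1 * (X ^ (r ^ 2 - 1) - 1) := by
    rw [mul_sub, ← pow_add, show 1 + (r ^ 2 - 1) = r ^ 2 by omega, mul_one, pow_one]
  rw [h, mul_scaleRoots_of_noZeroDivisors, fix_pow, fix_one he]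

lemma coeff_congr {n : ℕ} {m : ℤ} {a b : Fin n → ℤ} (h : ∀ i, m ∣ b i - a i) :
    m ∣ (pol b).coeff 0 - (pol a).coeff 0 := by
  rcases n with _ | n
  · rw [Subsingleton.elim b a, sub_self]
    exact dvd_zero m
  · have h1 := pol_coeff b 0
    have h2 := pol_coeff a 0
    rw [Fin.val_zero] at h1 h2
    rw [h1, h2]
    exact h 0

theorem src {n r d : ℕ} {a b : Fin n → ℤ} (hr : r.Prime) (h : Sim r a b) (ha : Src r d a) :
    Src r d b := by
  have := Fact.mk hr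
  obtain ⟨e, he, hb⟩ := h
  obtain ⟨g, h, hg, hm, hd, hm', hh, hc, hp⟩ := ha
  have he0 := TY.cast_ne (TY.not_dvd hr he)
  have hg' : Irreducible (TY.scE _ he0 g) := (MulEquiv.irreducible_iff _).mpr hg
  refine ⟨TY.scE _ he0 g, TY.scE _ he0 h, hg', (monic_scaleRoots_iff _).mpr hm,
    (natDegree_scaleRoots _ _).trans hd, (monic_scaleRoots_iff _).mpr hm', ?_, ?_, ?_⟩
  · have h1 := map_dvd (TY.scE _ he0) hh
    rwa [TY.scE_apply _ _ (_ - _), fix_frob he0] at h1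
  · refine hg'.coprime_iff_not_dvd.mpr fun h1 => hg.coprime_iff_not_dvd.mp hc ?_
    have h2 := map_dvd (TY.scE _ he0).symm h1
    rwa [MulEquiv.symm_apply_apply, MulEquiv.symm_apply_apply] at h2
  · unfold red at hp ⊢
    rw [TY.map_congr hb, TY.map_scl, hp, ← TY.scE_apply _ he0, map_mul]

theorem tg {n r d : ℕ} {a b : Fin n → ℤ} (hr : r.Prime) (h : Sim (r ^ 2) a b) (ha : Tg1 r d a) :
    Tg1 r d b := by
  have := Fact.mk hr
  obtain ⟨e, he, hb⟩ := h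
  obtain ⟨⟨h, hh, hp⟩, h0⟩ := ha
  push_cast at he hb
  have he1 : IsCoprime e (r : ℤ) := (IsCoprime.pow_right_iff two_pos).mp he
  have he0 := TY.cast_ne (TY.not_dvd hr he1)
  refine ⟨⟨TY.scE _ he0 h, ?_, ?_⟩, fun h1 => h0 ?_⟩
  · have h1 := map_dvd (TY.scE _ he0) hh
    rwa [TY.scE_apply _ _ (_ - _), fix_one he0] at h1
  · unfold red at hp ⊢
    rw [TY.map_congr fun i => (dvd_pow_self (r : ℤ) two_ne_zero).trans (hb i), TY.map_scl, hp,
      mul_scaleRoots_of_noZeroDivisors, fix_pow, TY.scE_apply]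
  · have h2 := h1.sub (coeff_congr hb)
    rw [sub_sub_cancel, TY.pol_scl, coeff_scaleRoots] at h2
    exact he.symm.pow_right.dvd_of_dvd_mul_right h2

theorem scl' {n r : ℕ} (j : ℕ) {e : ℤ} (b : Fin n → ℤ) (hr : r.Prime) (he : ¬(r : ℤ) ∣ e) :
    Sim (r ^ j) (scl e b) b :=
  TY.symm ⟨e, by push_cast; exact (TY.cop hr he).pow_right, fun i => by simp⟩

theorem cong {n : ℕ} (r d : ℕ) (h : (ZMod r)[X]) (u : ℤ) :
    CongS (r ^ 2) (CT1 r d h u : Set (Fin n → ℤ)) := by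
  rintro a ⟨h1, w, h2, h3⟩ b hb
  push_cast at hb
  obtain ⟨t, ht⟩ := coeff_congr hb
  refine ⟨(TY.map_congr fun i => (dvd_pow_self (r : ℤ) two_ne_zero).trans (hb i)).trans h1,
    w + r * t, by linear_combination ht + h2, ?_⟩
  rw [← h3]
  simp

theorem sub {n r d : ℕ} {h : (ZMod r)[X]} {u : ℤ} {b : Fin n → ℤ} (hr : r.Prime)
    (hh : h ∣ X ^ (r ^ 2 - 1) - 1) (hu : ¬(r : ℤ) ∣ u) (hb : b ∈ CT1 r d h u) : Tg1 r d b := by
  have := Fact.mk hr
  obtain ⟨h1, w, h2, h3⟩ := hb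
  refine ⟨⟨h, hh, h1⟩, fun h4 => ?_⟩
  have hr0 : (r : ℤ) ≠ 0 := Int.natCast_ne_zero.mpr hr.ne_zero
  rw [h2, pow_two, mul_dvd_mul_iff_left hr0, ← ZMod.intCast_zmod_eq_zero_iff_dvd, h3] at h4
  have h5 := (mul_eq_zero.mp h4).resolve_left (TY.cast_ne hu)
  have h6 := X_dvd_iff.mp ((X_dvd_iff.mpr h5).trans hh)
  have h7 := four_le hr
  rw [coeff_sub, coeff_X_pow, if_neg (by omega), coeff_one_zero, zero_sub, neg_eq_zero] at h6
  exact one_ne_zero h6

theorem deg {r : ℕ} {g : (ZMod r)[X]} (hr : r.Prime) (hg : Irreducible g) :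
    g ∣ X ^ r ^ 2 - X ↔ g.natDegree ≤ 2 := by
  have := Fact.mk hr
  have h1 := hg.natDegree_dvd_iff_dvd_X_pow_card_pow_sub_X (n := 2)
  rw [Nat.card_zmod] at h1
  have h2 := hg.natDegree_pos
  rw [← h1]
  refine ⟨Nat.le_of_dvd two_pos, fun h => ?_⟩
  rcases (by omega : g.natDegree = 1 ∨ g.natDegree = 2) with h3 | h3 <;> simp [h3]

theorem sqf {r : ℕ} {h : (ZMod r)[X]} (hr : r.Prime) (hh : h ∣ X ^ r ^ 2 - X) : Squarefree h := by
  have := Fact.mk hr
  exact (galois_poly_separable r (r ^ 2)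
    (dvd_pow_self r two_ne_zero)).squarefree.squarefree_of_dvd hh

end TYP

theorem stTy' : StTy' where
  src := TYP.src
  tg := TYP.tg
  scl := TYP.scl'
  cong := fun r d h u _ => TYP.cong r d h u
  sub := TYP.sub
  deg := TYP.deg
  sqf := TYP.sqf

end Pool.Agent.Lib.Mu14.All
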