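import Pool.Agent.Lib.Mu46.Fin1
import Pool.Agent.Lib.Mu46.Bas
import Pool.Agent.Lib.Mu46.Typ
import Pool.Agent.Lib.Mu46.Esym
import Pool.Agent.Lib.Mu46.Smf
import Pool.Agent.Lib.Mu46.LnkCld
import Pool.Agent.Lib.Mu46.Lnk
import Pool.Agent.Lib.Mu46.Ffa
import Pool.Agent.Lib.Mu46.FFB
import Pool.Agent.Lib.Mu46.Ga3
import Pool.Agent.Lib.Mu46.Gal1
import Pool.Agent.Lib.Mu46.Gal2
import Pool.Agent.Lib.Mu46.Lei
import Pool.Agent.Lib.Mu46.MM
import Pool.Agent.Lib.Mu46.Spl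
import Pool.Agent.Lib.Mu46.Grd
import Pool.Agent.Lib.Mu46.Hst
import Pool.Agent.Lib.Mu46.Kry2
import Pool.Agent.Lib.Mu46.Lat
import Pool.Agent.Lib.Mu46.Move
import Pool.Agent.Lib.Mu46.Grp

/-! Assembly of the blocks. -/

set_option autoImplicit false

open NumberField Filter Pool.Agent.Lib.MP_4e64b4_nt
open scoped IntermediateField

namespace Pool.Agent.Lib.Mu14.All

theorem many (p n : ℕ) (hp : p.Prime) (hodd : p ≠ 2) (hn : 3 ≤ n) :
    ∀ᶠ X : ℕ in atTop, X ≤ {E : IntermediateField ℚ ℂ | IsTotallyReal E ∧ Subsingleton (XS E p) ∧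
      (∃ θ : ℂ, ℚ⟮θ⟯ = E ∧ (minpoly ℚ θ).natDegree = n ∧
        Nonempty ((minpoly ℚ θ).Gal ≃* Equiv.Perm (Fin n))) ∧
      ∃ _ : NumberField E, |NumberField.discr E| ≤ X}.ncard ^ (11 * n ^ 3) :=
  have k1 := stKr1 stTy'
  have k2 := stKr2 k1
  have hH := stHul stFin
  have hN := stFF stTy' (stStar stTy' k1 k2)
  many_of stBas (stLink' stBas stCld' (stSmo' stQ0F)) stTy' (stMove' stBas stQP')
    (stM1 stBas stTy' k1 k2 hN stFin hH
      (stLeib stTy' k1 k2 hH (stSplit stTy' stFin hH) (stHost stTy' hH)) (stGR stFin hH))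
    (stM2 stBas stTy' k1 k2 hN stFin) stGrp stGa1 (stGa2 stTy') (stGa3 stTy') p n hp hodd hn

end Pool.Agent.Lib.Mu14.All
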