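import Pool.Agent.Lib.Mu14.Blue2

/-! Sums modulo `p` localise at fixed points; Fourier sums over finite matrix rings. -/

set_option autoImplicit false

open Matrix Polynomial Finset

namespace Pool.Agent.Lib.Mu14.All

/-- Congruence modulo the maximal ideal. -/
def Cv (O : ValuationSubring ℂ) (x y : ℂ) : Prop := O.valuation (x - y) < 1

variable {O : ValuationSubring ℂ}

namespace Cv

lemma refl (x : ℂ) : Cv O x x := by simp [Cv]

lemma of_eq {x y : ℂ} (h : x = y) : Cv O x y := h ▸ refl x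

lemma symm {x y : ℂ} (h : Cv O x y) : Cv O y x := by
  rwa [Cv, ← neg_sub, Valuation.map_neg]

lemma trans {x y z : ℂ} (h : Cv O x y) (h' : Cv O y z) : Cv O x z := by
  rw [Cv, ← sub_add_sub_cancel x y z]
  exact Valuation.map_add_lt _ h h'

lemma add {x y x' y' : ℂ} (h : Cv O x y) (h' : Cv O x' y') : Cv O (x + x') (y + y') := by
  rw [Cv, add_sub_add_comm]
  exact Valuation.map_add_lt _ h h'

lemma neg {x y : ℂ} (h : Cv O x y) : Cv O (-x) (-y) := by
  rwa [Cv, neg_sub_neg, ← neg_sub, Valuation.map_neg]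

lemma sub {x y x' y' : ℂ} (h : Cv O x y) (h' : Cv O x' y') : Cv O (x - x') (y - y') := by
  simpa only [sub_eq_add_neg] using h.add h'.neg

lemma sum {κ : Type*} {s : Finset κ} {f g : κ → ℂ} (h : ∀ i ∈ s, Cv O (f i) (g i)) :
    Cv O (∑ i ∈ s, f i) (∑ i ∈ s, g i) := by
  rw [Cv, ← sum_sub_distrib]
  exact Valuation.map_sum_lt _ one_ne_zero h

lemma mul_left {x y c : ℂ} (hc : O.valuation c ≤ 1) (h : Cv O x y) : Cv O (c * x) (c * y) := by
  rw [Cv, ← mul_sub, map_mul, mul_comm]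
  exact mul_lt_one_of_lt_of_le h hc

lemma mul_right {x y c : ℂ} (hc : O.valuation c ≤ 1) (h : Cv O x y) : Cv O (x * c) (y * c) := by
  simpa only [mul_comm c] using h.mul_left hc

lemma le {x y : ℂ} (h : Cv O x y) (hy : O.valuation y ≤ 1) : O.valuation x ≤ 1 := by
  rw [← sub_add_cancel x y]
  exact Valuation.map_add_le _ (le_of_lt h) hy

lemma mul {x y x' y' : ℂ} (h : Cv O x y) (h' : Cv O x' y') (hy : O.valuation y ≤ 1)
    (hy' : O.valuation y' ≤ 1) : Cv O (x * x') (y * y') :=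
  (h.mul_right (h'.le hy')).trans (h'.mul_left hy)

lemma val {x y : ℂ} (h : Cv O x y) (hy : O.valuation y = 1) : O.valuation x = 1 := by
  rw [← sub_add_cancel x y, Valuation.map_add_eq_of_lt_right _ (hy ▸ h), hy]

lemma zero {x : ℂ} : Cv O x 0 ↔ O.valuation x < 1 := by rw [Cv, sub_zero]

lemma pow {x : ℂ} (h : Cv O x 1) (m : ℕ) : Cv O (x ^ m) 1 := by
  induction m with
  | zero => simpa using refl 1
  | succ m ih => simpa [pow_succ] using ih.mul h (by simp) (by simp)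

lemma inv {x : ℂ} (h : Cv O x 1) : Cv O x⁻¹ 1 := by
  have h1 := h.val (map_one _)
  have h0 : x ≠ 0 := fun e => by simp [e] at h1
  have h2 := h.mul_left (c := x⁻¹) (by rw [map_inv₀, h1, inv_one])
  rw [inv_mul_cancel₀ h0, mul_one] at h2
  exact h2.symm

lemma one_mul {c x : ℂ} (h : Cv O c 1) (hx : O.valuation x ≤ 1) : Cv O (c * x) x := by
  simpa using h.mul_right hx

end Cv

lemma val_nat (m : ℕ) : O.valuation m ≤ 1 := (O.valuation_le_one_iff _).mpr (natCast_mem O m)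

lemma val_int (m : ℤ) : O.valuation m ≤ 1 := (O.valuation_le_one_iff _).mpr (intCast_mem O m)

lemma val_mul {x y : ℂ} (h : O.valuation x ≤ 1) (h' : O.valuation y ≤ 1) :
    O.valuation (x * y) ≤ 1 := by
  rw [map_mul]; exact mul_le_one' h h'

lemma val_ite {P : Prop} [Decidable P] {x : ℂ} (h : O.valuation x ≤ 1) :
    O.valuation (if P then x else 0) ≤ 1 := by
  split_ifs
  exacts [h, by simp]

lemma cv_nat {p a b : ℕ} (hO : O.valuation p < 1) (h : a ≡ b [MOD p]) : Cv O a b := by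
  obtain ⟨t, ht⟩ := h.symm.dvd
  have : (a : ℂ) - b = p * t := by exact_mod_cast ht
  rw [Cv, this, map_mul]
  exact mul_lt_one_of_lt_of_le hO (val_int t)

lemma sum_fix {α : Type*} [DecidableEq α] {p : ℕ} (hp : p.Prime) (hO : O.valuation p < 1)
    (s : Finset α) (σ : α → α) (hs : ∀ x ∈ s, σ x ∈ s) (hσ : ∀ x ∈ s, σ^[p] x = x) (f : α → ℂ)
    (hf : ∀ x ∈ s, f (σ x) = f x) (hv : ∀ x ∈ s, O.valuation (f x) ≤ 1) :
    Cv O (∑ x ∈ s, f x) (∑ x ∈ s with σ x = x, f x) := by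
  classical
  have := Fact.mk hp
  rw [← sum_fiberwise_of_maps_to (g := f) (t := s.image f) fun x hx => mem_image_of_mem f hx,
    ← sum_fiberwise_of_maps_to (s := s.filter fun x => σ x = x) (g := f) (t := s.image f)
      fun x hx => mem_image_of_mem f (mem_filter.1 hx).1]
  refine Cv.sum fun c hc => ?_
  obtain ⟨x₀, hx₀, rfl⟩ := mem_image.1 hc
  rw [sum_congr rfl fun x hx => (mem_filter.1 hx).2, sum_congr rfl fun x hx => (mem_filter.1 hx).2,
    sum_const, sum_const, nsmul_eq_mul, nsmul_eq_mul]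
  refine (cv_nat hO ?_).mul_right (hv _ hx₀)
  set t := s.filter fun x => f x = f x₀ with ht
  have h1 : ∀ x ∈ t, σ x ∈ t := fun x hx => by
    rw [ht, mem_filter] at hx ⊢
    exact ⟨hs x hx.1, (hf x hx.1).trans hx.2⟩
  let g : Function.End t := fun x => ⟨σ x, h1 x x.2⟩
  have h2 : ∀ (m : ℕ) (x : t), ((g ^ m) x : α) = σ^[m] x := fun m => by
    induction m with
    | zero => exact fun _ => rfl
    | succ m ih => exact fun x => by rw [pow_succ, Function.iterate_succ_apply]; exact ih (g x)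
  have h3 := Equiv.Perm.card_fixedPoints_modEq (f := g) (p := p) (n := 1) (by
    rw [pow_one]
    funext x
    exact Subtype.ext ((h2 p x).trans (hσ _ (mem_filter.1 x.2).1)))
  rw [Fintype.card_coe] at h3
  convert h3 using 1
  rw [← Fintype.card_coe]
  refine Fintype.card_congr ⟨fun x => ⟨⟨x.1, ?_⟩, Subtype.ext ?_⟩, fun x => ⟨x.1.1, ?_⟩,
    fun _ => rfl, fun _ => rfl⟩
  · exact mem_filter.2 ⟨(mem_filter.1 (mem_filter.1 x.2).1).1, (mem_filter.1 x.2).2⟩
  · exact (mem_filter.1 (mem_filter.1 x.2).1).2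
  · exact mem_filter.2 ⟨mem_filter.2 ⟨(mem_filter.1 x.1.2).1, congrArg Subtype.val x.2⟩,
      (mem_filter.1 x.1.2).2⟩

variable {R ι κ : Type} [CommRing R] [Fintype R] [Fintype ι] [DecidableEq ι] [Fintype κ]
  [DecidableEq κ]

lemma val_psi (ψ : AddChar R ℂ) (x : R) : O.valuation (ψ x) = 1 := by
  have h : O.valuation (ψ x) ^ Fintype.card R = 1 := by
    rw [← map_pow, ← AddChar.map_nsmul_eq_pow, card_nsmul_eq_zero, AddChar.map_zero_eq_one, map_one]
  exact (pow_eq_one_iff_of_nonneg zero_le Fintype.card_ne_zero).mp h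

/-- The Fourier transform of a function of the characteristic polynomial. -/
noncomputable def GS (ψ : AddChar R ℂ) (Φ : R[X] → ℂ) (Z : Matrix ι ι R) : ℂ :=
  ∑ Y : Matrix ι ι R, Φ Y.charpoly * ψ (Z * Y).trace

lemma val_GS (ψ : AddChar R ℂ) {Φ : R[X] → ℂ} (h : ∀ F, O.valuation (Φ F) ≤ 1) (Z : Matrix ι ι R) :
    O.valuation (GS ψ Φ Z) ≤ 1 :=
  Valuation.map_sum_le _ fun _ _ => val_mul (h _) (val_psi ψ _).le

lemma GS_cv (ψ : AddChar R ℂ) {Φ Φ' : R[X] → ℂ}
    (h : ∀ F : R[X], F.Monic → F.natDegree = Fintype.card ι → Cv O (Φ F) (Φ' F)) [Nontrivial R]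
    (Z : Matrix ι ι R) : Cv O (GS ψ Φ Z) (GS ψ Φ' Z) :=
  Cv.sum fun Y _ => (h _ Y.charpoly_monic Y.charpoly_natDegree_eq_dim).mul_right (val_psi ψ _).le

lemma GS_conj (ψ : AddChar R ℂ) (Φ : R[X] → ℂ) {Z Z' U : Matrix ι ι R} (hU : IsUnit U.det)
    (h : Z * U = U * Z') : GS ψ Φ Z = GS ψ Φ Z' := by
  obtain ⟨u, rfl⟩ := (isUnit_iff_isUnit_det U).2 hU
  refine (Fintype.sum_equiv ((Units.mulLeft u).trans (Units.mulRight u⁻¹)) _ _ fun Y => ?_).symm
  simp only [Equiv.trans_apply, Units.mulLeft_apply, Units.mulRight_apply]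
  rw [charpoly_mul_comm, Units.inv_mul_cancel_left, ← mul_assoc, ← mul_assoc, h,
    trace_mul_comm (_ * _) u⁻¹.1, mul_assoc, Units.inv_mul_cancel_left]

lemma GS_reindex (ψ : AddChar R ℂ) (Φ : R[X] → ℂ) (e : ι ≃ κ) (Z : Matrix ι ι R) :
    GS ψ Φ (reindex e e Z) = GS ψ Φ Z := by
  refine (Fintype.sum_equiv (reindex e e) _ _ fun Y => ?_).symm
  rw [charpoly_reindex, reindex_apply, reindex_apply, submatrix_mul_equiv]
  congr 2
  exact (e.symm.sum_comp fun i => (Z * Y) i i).symm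

lemma GS_block {p : ℕ} (hp : p.Prime) (hO : O.valuation p < 1) {ζ : R} (h1 : ζ ^ p = 1)
    (h2 : IsUnit (ζ - 1)) (ψ : AddChar R ℂ) {Φ : R[X] → ℂ} (h : ∀ F, O.valuation (Φ F) ≤ 1)
    (A : Matrix ι ι R) (B : Matrix κ κ R) : Cv O (GS ψ Φ (fromBlocks A 0 0 B))
      (∑ Y : Matrix ι ι R, ∑ Y' : Matrix κ κ R,
        Φ (Y.charpoly * Y'.charpoly) * (ψ (A * Y).trace * ψ (B * Y').trace)) := by
  classical
  obtain ⟨q, rfl⟩ : ∃ q, p = q + 1 := ⟨p - 1, by have := hp.pos; omega⟩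
  let D : R → Matrix (ι ⊕ κ) (ι ⊕ κ) R := fun c => fromBlocks (c • 1) 0 0 1
  have hD : ∀ c d, D c * D d = D (c * d) := fun c d => by
    simp [D, fromBlocks_multiply, smul_smul, mul_comm]
  have hD1 : D 1 = 1 := by simp [D]
  have h3 : ζ ^ q * ζ = 1 := by rw [← pow_succ, h1]
  have h4 : ∀ (m : ℕ) Y, (fun Y => D ζ * Y * D (ζ ^ q))^[m] Y = D (ζ ^ m) * Y * D ((ζ ^ q) ^ m) :=
    fun m => by
      induction m with
      | zero => simp [hD1]
      | succ m ih =>
        intro Y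
        rw [Function.iterate_succ_apply', ih, pow_succ' ζ, pow_succ (ζ ^ q), ← hD, ← hD]
        simp only [mul_assoc]
  refine (sum_fix hp hO univ (fun Y => D ζ * Y * D (ζ ^ q)) (fun _ _ => mem_univ _)
    (fun Y _ => by rw [h4, ← pow_mul, mul_comm q, pow_mul, h1, one_pow, hD1, one_mul, mul_one]) _
    (fun Y _ => ?_) fun _ _ => val_mul (h _) (val_psi ψ _).le).trans (Cv.of_eq ?_)
  · have h5 : fromBlocks A 0 0 B * D ζ = D ζ * fromBlocks A 0 0 B := by
      simp [D, fromBlocks_multiply]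
    rw [charpoly_mul_comm, ← mul_assoc, hD, h3, hD1, one_mul, ← mul_assoc, ← mul_assoc, h5,
      trace_mul_comm _ (D _), ← mul_assoc, ← mul_assoc, hD, h3, hD1, one_mul]
  · rw [← Fintype.sum_prod_type']
    symm
    refine sum_bij (fun Y _ => fromBlocks Y.1 0 0 Y.2) (fun Y _ => ?_) (fun Y _ Y' _ e => ?_)
      (fun Y hY => ?_) fun Y _ => ?_
    · simp [D, fromBlocks_multiply, smul_smul, h3]
    · exact Prod.ext (fromBlocks_inj.1 e).1 (fromBlocks_inj.1 e).2.2.2
    · refine ⟨(Y.toBlocks₁₁, Y.toBlocks₂₂), mem_univ _, ?_⟩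
      have h5 := (mem_filter.1 hY).2
      rw [← fromBlocks_toBlocks Y] at h5 ⊢
      simp only [D, fromBlocks_multiply, fromBlocks_inj] at h5
      simp only [Matrix.smul_mul, Matrix.one_mul, Matrix.zero_mul, add_zero, zero_add,
        Matrix.mul_zero, Matrix.mul_one, Matrix.mul_smul] at h5
      have h6 : Y.toBlocks₁₂ = 0 := by
        rw [← h2.smul_eq_zero, sub_smul, h5.2.1, one_smul, sub_self]
      have h7 : Y.toBlocks₂₁ = 0 := by
        rw [← h2.smul_eq_zero, sub_smul, one_smul]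
        nth_rw 1 [← h5.2.2.1]
        rw [smul_smul, mul_comm, h3, one_smul, sub_self]
      simp [h6, h7]
    · rw [charpoly_fromBlocks_zero₁₂, ← AddChar.map_add_eq_mul]
      simp [fromBlocks_multiply, trace, Fintype.sum_sum_type]

end Pool.Agent.Lib.Mu14.All
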