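import Pool.Agent.Lib.Mu14.Final2
import Pool.Agent.Lib.Mu46.Blue

/-! The lattices whose hull misses the covector contribute an integral amount. -/

set_option autoImplicit false

open Matrix Filter Topology

namespace Pool.Agent.Lib.Mu14.All.GRD

variable {n : ℕ}

open Classical in
lemma ft_ind {L : Lt n} (hL : IsLat L) (d : V n) :
    (covol L : ℚ) * FT (fun v => if v ∈ L then (1 : ℂ) else 0) d = if d ∈ dual L then 1 else 0 := by
  have hc : ((covol L : ℚ) : ℂ) ≠ 0 := by exact_mod_cast (stLat1.pos L).ne'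
  have hsb : SB fun v => (if v ∈ L then (1 : ℂ) else 0) * er (-(d ⬝ᵥ v)) :=
    stInt1.mul (lat2.ind hL).1 (by simpa using stInt1.per_er (0 : Mx n) (-d) 0)
  rw [FT]
  split_ifs with hd
  · have : (fun v => (if v ∈ L then (1 : ℂ) else 0) * er (-(d ⬝ᵥ v))) =
        fun v => if v ∈ L then (1 : ℂ) else 0 := by
      funext v
      split_ifs with hv
      · rw [(hd v hv).neg.er, one_mul]
      · rw [zero_mul]
    rw [this, (lat2.ind hL).2, mul_inv_cancel₀ hc]
  · rw [mem_dual] at hd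
    push Not at hd
    obtain ⟨y, hy, hy'⟩ := hd
    have h1 := (stInt1.shift y hsb).2
    have : (fun v => (if v + y ∈ L then (1 : ℂ) else 0) * er (-(d ⬝ᵥ (v + y)))) =
        fun v => er (-(d ⬝ᵥ y)) * ((if v ∈ L then (1 : ℂ) else 0) * er (-(d ⬝ᵥ v))) := by
      funext v
      simp only [L.add_mem_iff_left hy, dotProduct_add, neg_add, er_add]
      ring
    rw [this, (stInt1.smul _ _).2] at h1
    have h2 : er (-(d ⬝ᵥ y)) ≠ 1 := fun h => hy' (Full.isZ_neg.1 (er_eq_one_iff.1 h))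
    rw [(mul_left_eq_self₀.1 h1).resolve_left h2, mul_zero]

lemma pv_scal (c : ℚ) (x : Mx n) (v : V n) : Pv (c • x) v = (∏ j : Fin n, c ^ j.val) * Pv x v := by
  rw [Pv, Pv, ← det_mul_row]
  congr 1
  ext i j
  simp [smul_pow, smul_mulVec]

/-- Weight functions on lattices. -/
structure Dat (O : ValuationSubring ℂ) (r : ℕ) (x : Mx n) (W : Lt n → ℂ) : Prop where
  st : ∀ L, W L ≠ 0 → Stab ((r : ℚ) • x) L
  val : ∀ L, O.valuation (W L) ≤ 1
  bd : ∀ L, ‖W L‖ ≤ 1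
  inv : ∀ g : Mx n, g.det ≠ 0 → g * x = x * g → ∀ L, W (act g L) = W L

/-- The covector is integral on `L` but not on its hull. -/
def Cn (x : Mx n) (l : V n) (L : Lt n) : Prop := l ∈ dual L ∧ l ∉ dual (hull x L)

open Classical in
/-- The test function. -/
noncomputable def Ph (x : Mx n) (W : Lt n → ℂ) (v l : V n) (L : Lt n) : ℂ :=
  if v ∈ L ∧ Cn x l L then W L else 0

variable {O : ValuationSubring ℂ} {r : ℕ} {W : Lt n → ℂ}

open Classical in
lemma psi_Ph {x : Mx n} (h : Dat O r x W) (l d : V n) (L : Lt n) :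
    Psi (Ph x W) l d L = if Cn x l L ∧ d ∈ dual L then W L else 0 := by
  have e : (fun v => Ph x W v l L * er (-(d ⬝ᵥ v))) = fun v => (if Cn x l L then W L else 0) *
      ((if v ∈ L then (1 : ℂ) else 0) * er (-(d ⬝ᵥ v))) := by
    funext v
    by_cases h1 : v ∈ L <;> by_cases h2 : Cn x l L <;> simp [Ph, h1, h2]
  rw [Psi, FT, e, (stInt1.smul _ _).2, mul_left_comm]
  by_cases h0 : W L = 0
  · simp [h0]
  have h3 := ft_ind (h.st L h0).1 d
  rw [FT] at h3
  rw [h3]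
  by_cases h1 : d ∈ dual L <;> by_cases h2 : Cn x l L <;> simp [h1, h2]

lemma pow_dual (hH : StHul) {a : Fin n → ℤ} (hr : 0 < r) {L : Lt n}
    (h : Stab ((r : ℚ) • comp (toQ a)) L) {l : V n} (hl : l ∈ dual L) :
    ((r ^ n : ℕ) : ℚ) • l ∈ dual (hull (comp (toQ a)) L) := fun y hy => by
  have := hl _ ((hH.pow hr (stBlk.chp _) h).2 y hy)
  rwa [dotProduct_smul, ← smul_dotProduct, ← Nat.cast_pow] at this

lemma tf2_Ph (hH : StHul) {a : Fin (n + 1) → ℤ} {W : Lt (n + 1) → ℂ} (hr : 0 < r)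
    (h : Dat O r (comp (toQ a)) W) : TF2 (comp (toQ a)) (r ^ (n + 1)) (Ph (comp (toQ a)) W) := by
  classical
  refine ⟨pow_pos hr _, fun v l L k => ?_, fun v l L u hu => ?_, fun v l L m hm => ?_,
    fun g hg hx v l L => ?_, 1, fun v l L => ?_⟩
  · rw [Ph] at k
    split_ifs at k with k1
    · refine ⟨(h.st L k).1, ?_, nat_smul_mem _ k1.1, nat_smul_mem _ k1.2.1⟩
      rw [pow_succ, Nat.cast_mul, mul_smul]
      exact (h.st L k).2.smul (IsZ.nat _)
    · exact absurd rfl k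
  · simp only [Ph, L.add_mem_iff_left (nat_smul_mem _ hu)]
  · by_cases h0 : W L = 0
    · simp [Ph, h0]
    refine if_congr (and_congr_right fun _ => ?_) rfl rfl
    rw [Cn, Cn, (dual L).add_mem_iff_left (nat_smul_mem _ hm),
      (dual _).add_mem_iff_left (pow_dual hH hr (h.st L h0) hm)]
  · have e := hH.act (comp (toQ a)) L hg
    rw [Full.conj_self hg hx] at e
    refine if_congr ?_ (h.inv g hg hx L) rfl
    rw [Cn, Cn, e, Full.mem_act' stLat1 hg, stLat1.act_dual _ _ hg, stLat1.act_dual _ _ hg]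
  · rw [Ph]
    split_ifs
    exacts [h.bd L, by simp]

lemma psi_law (hH : StHul) {a : Fin n → ℤ} (hr : 0 < r) (h : Dat O r (comp (toQ a)) W)
    {a' b c e : ℤ} (h1 : a' * e - b * c = 1) (hc : ((r ^ n : ℕ) : ℤ) ∣ c) (l d : V n) (L : Lt n) :
    Psi (Ph (comp (toQ a)) W) l d L =
      Psi (Ph (comp (toQ a)) W) ((e : ℚ) • l - (c : ℚ) • d) ((a' : ℚ) • d - (b : ℚ) • l) L := by
  classical
  rw [psi_Ph h, psi_Ph h]
  by_cases h0 : W L = 0
  · simp [h0]
  have h3 : (a' : ℚ) * e - b * c = 1 := by exact_mod_cast h1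
  have k1 : ∀ {y : V n}, y ∈ dual L → (c : ℚ) • y ∈ dual (hull (comp (toQ a)) L) := fun hy =>
    Smo.dvd_mem hc (pow_dual hH hr (h.st L h0) hy)
  have e1 : l = (a' : ℚ) • ((e : ℚ) • l - (c : ℚ) • d) + (c : ℚ) • ((a' : ℚ) • d - (b : ℚ) • l) := by
    funext i
    simp only [Pi.sub_apply, Pi.add_apply, Pi.smul_apply, smul_eq_mul]
    linear_combination -(l i) * h3
  have e2 : d = (b : ℚ) • ((e : ℚ) • l - (c : ℚ) • d) + (e : ℚ) • ((a' : ℚ) • d - (b : ℚ) • l) := by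
    funext i
    simp only [Pi.sub_apply, Pi.add_apply, Pi.smul_apply, smul_eq_mul]
    linear_combination -(d i) * h3
  refine if_congr ⟨fun ⟨⟨a1, a2⟩, a3⟩ => ?_, fun ⟨⟨a1, a2⟩, a3⟩ => ?_⟩ rfl rfl
  · have a4 := sub_mem (int_smul_mem a' a3) (int_smul_mem b a1)
    exact ⟨⟨sub_mem (int_smul_mem e a1) (int_smul_mem c a3),
      fun k => a2 (e1 ▸ add_mem (int_smul_mem a' k) (k1 a4))⟩, a4⟩
  · have a4 : d ∈ dual L := e2 ▸ add_mem (int_smul_mem b a1) (int_smul_mem e a3)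
    exact ⟨⟨e1 ▸ add_mem (int_smul_mem a' a1) (int_smul_mem c a3),
      fun k => a2 (sub_mem (int_smul_mem e k) (k1 a4))⟩, a4⟩

open Classical in
lemma eis_int (hH : StHul) {k : ℕ} {a : Fin (n + 1) → ℤ} {W : Lt (n + 1) → ℂ} (hk : KK (n + 1) k)
    (hs : Spl (toR (toQ a))) (hP : ∀ l : V (n + 1), l ≠ 0 → Pl (comp (toQ a)) l ≠ 0) (hr : 1 < r)
    (hv : O.valuation r = 1) (h : Dat O r (comp (toQ a)) W) :
    O.valuation (pre k (toQ a) * ∑' L, (if Cn (comp (toQ a)) lam0 L then W L else 0) *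
      ((covol L : ℚ) : ℂ)⁻¹ ^ k) ≤ 1 := by
  have hr0 : 0 < r := by omega
  have hT := tf2_Ph hH hr0 h
  have hne : ∀ v l L, Ph (comp (toQ a)) W v l L ≠ 0 → v ∈ L ∧ Cn (comp (toQ a)) l L ∧ W L ≠ 0 :=
    fun v l L k => by
      rw [Ph] at k
      split_ifs at k with k1
      exacts [⟨k1.1, k1.2, k⟩, absurd rfl k]
  have hn : ∀ v l L, Ph (comp (toQ a)) W v l L ≠ 0 → Pl (comp (toQ a)) l ≠ 0 := fun v l L k =>
    hP l fun e => (hne v l L k).2.1.2 (e ▸ zero_mem _)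
  have hqs := sum0.qs k 1 hT one_pos fun v L k => by
    simpa using (hne _ _ _ k).2.1.1 v (hne _ _ _ k).1
  simp only [Nat.cast_one, one_mul, div_one] at hqs
  have hmem := sum0.mem k O.toSubring.toAddSubgroup hT fun v L => by
    by_cases k0 : Ph (comp (toQ a)) W v lam0 L = 0
    · rw [k0, zero_mul]; exact zero_mem _
    obtain ⟨k1, k2, k3⟩ := hne _ _ _ k0
    obtain ⟨z, hz⟩ := stLat1.pv (h.st L k3).1 (h.st L k3).2 k1
    have r0 : (0 : ℚ) < ∏ j : Fin (n + 1), (r : ℚ) ^ j.val :=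
      Finset.prod_pos fun _ _ => by positivity
    have e : |Pv (comp (toQ a)) v| / covol L = (|z| : ℤ) / ∏ j : Fin (n + 1), (r : ℚ) ^ j.val := by
      rw [Int.cast_abs, ← hz, pv_scal, abs_div, abs_mul, abs_of_pos r0, abs_of_pos (stLat1.pos L)]
      field_simp
    refine O.mem_of_valuation_le_one _ (val_mul ?_ ?_)
    · rw [Ph, if_pos ⟨k1, k2⟩]; exact h.val L
    · rw [wt, e]
      push_cast
      rw [map_pow, map_div₀, map_prod]
      simp only [map_pow, hv, one_pow, Finset.prod_const_one, div_one]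
      exact pow_le_one' (by exact_mod_cast val_int (O := O) |z|) _
  have hlaw : Law (1 * r ^ (n + 1)) ((n + 1) * k) (Eis k (toQ a) (Ph (comp (toQ a)) W)) :=
    fun a' b c e h1 hc _ τ hτ => law1 (n + 1) k _ _ _ _ _ hk hT hT hn hn a' b c e h1
      (psi_law hH hr0 h h1 (by rwa [one_mul] at hc)) τ hτ
  obtain ⟨N₀, j, g, hg⟩ := q0 1 (r ^ (n + 1)) ((n + 1) * k) one_pos
    (Nat.one_lt_pow n.succ_ne_zero hr) (by simp) (hk.1.mul_left _)
  have t1 := hg _ _ hqs hlaw 0 (-1) 1 0 (by simp) (by simp) isCoprime_one_left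
  have t2 := (ct1 n k _ _ _ hk hT hs 0 (-1) 1 0 (by simp) one_ne_zero).2
  have e := tendsto_nhds_unique t2 t1
  have e1 : ∀ L, Cn (comp (toQ a)) (-lam0) L ↔ Cn (comp (toQ a)) lam0 L := fun L => by
    rw [Cn, Cn, neg_mem_iff, neg_mem_iff]
  simp only [psi_Ph h, Int.cast_one, neg_smul, one_smul, e1, Int.cast_zero, zero_smul,
    zero_mem, and_true] at e
  rw [e, map_div₀, map_pow, Nat.cast_pow, map_pow, hv, one_pow, one_pow, div_one]
  exact Valuation.map_sum_le _ fun N _ =>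
    val_mul (val_int _) ((O.valuation_le_one_iff _).2 (hmem _))

end Pool.Agent.Lib.Mu14.All.GRD
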