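import Pool.Agent.Lib.Mu46.Blue
import Pool.Agent.Lib.Mu14.BlkA

/-! Cyclic matrices. -/

set_option autoImplicit false

open Matrix Polynomial

namespace Pool.Agent.Lib.Mu14.All

namespace KRY

open BlkA

section Ring
variable {R : Type} [CommRing R] {n : ℕ}

lemma pol_self {g : R[X]} (hg : g.Monic) (hn : g.natDegree = n) :
    pol (fun i : Fin n => g.coeff i.val) = g := by
  ext m
  rcases lt_or_ge m n with h | h
  · exact pol_coeff _ ⟨m, h⟩
  · rw [pol_coeff_ge _ h]
    split_ifs with e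
    · rw [e, ← hn]; exact hg.coeff_natDegree.symm
    · exact (coeff_eq_zero_of_natDegree_lt (by omega)).symm

lemma low_self {q : R[X]} (hq : q.degree < n) :
    ∑ i : Fin n, C (q.coeff i.val) * X ^ i.val = q := by
  rw [sum_fin (fun i c => C c * X ^ i) (by simp) hq, sum_C_mul_X_pow_eq]

lemma low_coeff (c : Fin n → R) (j : Fin n) :
    (∑ i : Fin n, C (c i) * X ^ i.val).coeff j.val = c j := by
  have := pol_coeff c j
  rwa [pol, coeff_add, coeff_X_pow, if_neg j.2.ne, zero_add] at this

lemma aeval_low (x : Matrix (Fin n) (Fin n) R) (v c : Fin n → R) :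
    aeval x (∑ i : Fin n, C (c i) * X ^ i.val) *ᵥ v = cols x v *ᵥ c := by
  simp only [map_sum, map_mul, aeval_C, map_pow, aeval_X, ← Algebra.smul_def, sum_smul_mulVec]
  funext i
  simp [cols, mulVec, dotProduct, mul_comm]

lemma krylov (x : Matrix (Fin n) (Fin n) R) (v : Fin n → R) :
    x * cols x v = cols x v * comp fun i => x.charpoly.coeff i.val := by
  nontriviality R
  ext i j
  rw [mul_cols, ← mulVec_bv (cols x v * _) j i, ← mulVec_mulVec (bv n j), mulVec_mulVec v,
    ← pow_succ']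
  rcases lt_or_eq_of_le (Nat.succ_le_of_lt j.2) with h | h
  · rw [comp_bv _ h]
    exact (mulVec_bv (cols x v) ⟨j.val + 1, h⟩ i).symm
  · have h1 := congrArg (· *ᵥ v) x.aeval_self_charpoly
    rw [← pol_self x.charpoly_monic (n := n) (by simp), pol, map_add, map_pow, aeval_X] at h1
    simp only [add_mulVec, zero_mulVec, aeval_low] at h1
    rw [comp_bv_last _ h, mulVec_neg, show j.val + 1 = n from h, eq_neg_of_add_eq_zero_left h1]

lemma cols_comp (a : Fin n → R) : cols (comp a) (bv n 0) = 1 := by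
  ext i j
  simp [cols, comp_pow_bv a j.val (j := 0) j.2, bv, one_apply, Fin.ext_iff]

lemma chp_dvd_pow (A : Matrix (Fin n) (Fin n) R) {q : R[X]} (h : aeval A q = 0) :
    A.charpoly ∣ q ^ n := by
  have h1 : ∀ p : R[X], A.charmatrix ∣ scalar (Fin n) p - C.mapMatrix (aeval A p) := fun p => by
    induction p using Polynomial.induction_on' with
    | add p q hp hq =>
      rw [map_add, map_add, map_add, add_sub_add_comm]
      exact dvd_add hp hq
    | monomial m a =>
      have h2 : Commute (scalar (Fin n) (X : R[X])) (C.mapMatrix A) :=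
        scalar_commute _ (fun _ => Commute.all _ _) _
      have h3 : C.mapMatrix (algebraMap R (Matrix (Fin n) (Fin n) R) a) =
          scalar (Fin n) (C a : R[X]) := by
        ext i j
        simp [algebraMap_matrix_apply, diagonal_apply]
        split_ifs <;> simp
      have h4 : ∀ M, scalar (Fin n) (C a : R[X]) * M = M * scalar (Fin n) (C a) := fun M =>
        scalar_commute _ (fun _ => Commute.all _ _) _
      rw [aeval_monomial, ← C_mul_X_pow_eq_monomial, map_mul, map_mul, map_pow, map_pow, h3,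
        ← mul_sub, h4]
      exact (h2.sub_dvd_pow_sub_pow m).mul_right _
  obtain ⟨B, hB⟩ := h1 q
  rw [h, map_zero, sub_zero] at hB
  have h2 := congrArg det hB
  rw [det_mul, scalar_apply, det_diagonal, Finset.prod_const, Finset.card_fin] at h2
  exact ⟨_, h2⟩

lemma aeval_blk {ι κ : Type} [Fintype ι] [DecidableEq ι] [Fintype κ] [DecidableEq κ]
    (A : Matrix ι ι R) (B : Matrix κ κ R) (q : R[X]) :
    aeval (fromBlocks A 0 0 B) q = fromBlocks (aeval A q) 0 0 (aeval B q) := by
  induction q using Polynomial.induction_on' with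
  | add p q hp hq => rw [map_add, map_add, map_add, hp, hq, fromBlocks_add, add_zero, add_zero]
  | monomial m a =>
    simp only [aeval_monomial, ← Algebra.smul_def, fromBlocks_diagonal_pow, fromBlocks_smul,
      smul_zero]

lemma chp_bdg {a b : ℕ} (A : Matrix (Fin a) (Fin a) R) (B : Matrix (Fin b) (Fin b) R) :
    (bdg A B).charpoly = A.charpoly * B.charpoly := by
  rw [bdg, charpoly_reindex, charpoly_fromBlocks_zero₁₂]

end Ring

variable {F : Type} [Field F] {n : ℕ}

lemma cyc_of {A : Matrix (Fin n) (Fin n) F} {v : Fin n → F} (h : (cols A v).det ≠ 0) : Cyc A := by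
  intro q hq
  have h1 : (q %ₘ A.charpoly).degree < n := by
    simpa using degree_modByMonic_lt q A.charpoly_monic
  have h2 := aeval_low A v fun i => (q %ₘ A.charpoly).coeff i.val
  rw [low_self h1, aeval_modByMonic_eq_self_of_root A.aeval_self_charpoly, hq, zero_mulVec] at h2
  have h3 := eq_zero_of_mulVec_eq_zero h h2.symm
  rw [← modByMonic_eq_zero_iff_dvd A.charpoly_monic, ← low_self h1]
  exact Finset.sum_eq_zero fun i _ => by rw [congrFun h3 i, Pi.zero_apply, C_0, zero_mul]

lemma vec (A : Matrix (Fin n) (Fin n) F) (h : Cyc A) : ∃ v, Pv A v ≠ 0 := by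
  obtain ⟨x, hx⟩ := Module.exists_ker_toSpanSingleton_eq_annihilator F[X]
    (Module.AEval F (Fin n → F) A)
  obtain ⟨v, rfl⟩ := (Module.AEval.of F (Fin n → F) A).surjective x
  refine ⟨v, fun h0 => ?_⟩
  obtain ⟨c, hc, h1⟩ := exists_mulVec_eq_zero_iff.2 (show (cols A v).det = 0 from h0)
  rw [← aeval_low] at h1
  have h2 : (∑ i : Fin n, C (c i) * X ^ i.val) ∈
      Module.annihilator F[X] (Module.AEval F (Fin n → F) A) := by
    rw [← hx, LinearMap.mem_ker, LinearMap.toSpanSingleton_apply, ← Module.AEval.of_aeval_smul,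
      smul_eq_mulVec, h1, map_zero]
  have h3 := h (∑ i : Fin n, C (c i) * X ^ i.val) (ext_iff_mulVec.2 fun w => by
    have := Module.mem_annihilator.1 h2 (Module.AEval.of F (Fin n → F) A w)
    rw [← Module.AEval.of_aeval_smul, LinearEquiv.map_eq_zero_iff] at this
    rw [zero_mulVec]
    exact this)
  have h4 := eq_zero_of_dvd_of_degree_lt h3 (by simpa using degree_sum_fin_lt c)
  exact hc (funext fun j => by rw [← low_coeff c j, h4, coeff_zero, Pi.zero_apply])

lemma blk {a b : ℕ} (A : Matrix (Fin a) (Fin a) F) (B : Matrix (Fin b) (Fin b) F) (hA : Cyc A)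
    (hB : Cyc B) (h : IsCoprime A.charpoly B.charpoly) : Cyc (bdg A B) := by
  intro q hq
  have h1 : aeval (fromBlocks A 0 0 B) q = 0 := by
    apply (reindexAlgEquiv F F finSumFinEquiv).injective
    rw [← aeval_algHom_apply, map_zero]
    exact hq
  rw [aeval_blk, ← fromBlocks_zero, fromBlocks_inj] at h1
  rw [chp_bdg]
  exact h.mul_dvd (hA q h1.1) (hB q h1.2.2.2)

lemma eis (hT : StTy') {n r d : ℕ} [hr : Fact r.Prime] (A : Matrix (Fin n) (Fin n) ℤ)
    (b : Fin n → ℤ) (hA : A.charpoly = pol b) (hb : Tg1 r d b) : Cyc (mZ r A) := by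
  obtain ⟨⟨h, h1, h2⟩, h3⟩ := hb
  have c1 : (mZ r A).charpoly = X ^ d * h := by rw [charpoly_map, hA]; exact h2
  have r2 : r ^ 2 - 1 + 1 = r ^ 2 := Nat.sub_add_cancel (Nat.pow_pos hr.out.pos)
  have r3 : r ^ 2 - 1 ≠ 0 := by
    have := Nat.pow_le_pow_left hr.out.two_le 2
    omega
  have hX : IsCoprime X h := irreducible_X.coprime_iff_not_dvd.2 fun e => by
    simpa [X_dvd_iff, r3.symm] using e.trans h1
  have hs : Squarefree h := hT.sqf hr.out (h1.trans ⟨X, by rw [sub_mul, one_mul, ← pow_succ, r2]⟩)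
  intro q hq
  have d1 := chp_dvd_pow _ hq
  have c2 := (mZ r A).aeval_self_charpoly
  rw [c1] at d1 c2 ⊢
  refine hX.pow_left.mul_dvd ?_ (hs.isRadical _ _ ((dvd_mul_left _ _).trans d1))
  by_contra hd
  obtain ⟨q₁, e1, e2⟩ := exists_eq_pow_rootMultiplicity_mul_and_not_dvd q
    (fun e => hd (e ▸ dvd_zero _)) 0
  rw [C_0, sub_zero] at e1 e2
  generalize q.rootMultiplicity 0 = e at e1
  obtain ⟨s, rfl⟩ : ∃ s, d = e + s + 1 := Nat.exists_eq_add_of_lt (not_le.1 fun e3 =>
    hd (e1 ▸ (pow_dvd_pow _ e3).mul_right _))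
  obtain ⟨u, w, huw⟩ := (irreducible_X.coprime_iff_not_dvd.2 e2).pow_left (m := e + s + 1)
  have c3 : aeval (mZ r A) (X ^ (e + s) * h) = 0 := by
    have : X ^ (e + s) * h = u * X ^ (e + s) * (X ^ (e + s + 1) * h) + w * h * X ^ s * q := by
      rw [e1]
      linear_combination (-X ^ (e + s) * h) * huw
    rw [this, map_add, map_mul _ _ q, map_mul _ _ (_ * h), c2, hq, mul_zero, mul_zero, add_zero]
  have p1 := X_mul_divX_add (pol b)
  have p2 := congrArg (Polynomial.map (Int.castRingHom (ZMod r))) p1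
  rw [show (pol b).map _ = _ from h2, Polynomial.map_add, Polynomial.map_mul, map_X, map_C,
    pow_succ', mul_assoc] at p2
  have p3 : Int.castRingHom (ZMod r) ((pol b).coeff 0) = 0 := by
    simpa using congrArg (coeff · 0) p2
  rw [p3, C_0, add_zero, mul_right_inj' X_ne_zero] at p2
  obtain ⟨c, hc⟩ := (ZMod.intCast_zmod_eq_zero_iff_dvd _ r).1 p3
  have c4 : (Int.castRingHom (ZMod r)).mapMatrix (aeval A (pol b).divX) = 0 := by
    rw [map_aeval_eq_aeval_map (φ := Int.castRingHom (ZMod r)) (Subsingleton.elim _ _), p2]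
    exact c3
  have c5 : ∀ i j, (r : ℤ) ∣ aeval A (pol b).divX i j := fun i j =>
    (ZMod.intCast_zmod_eq_zero_iff_dvd _ r).1 (congrFun (congrFun c4 i) j)
  choose Z hZ using c5
  have c6 : aeval A (pol b).divX = (r : ℤ) • Matrix.of Z := by ext i j; exact hZ i j
  have c7 := A.aeval_self_charpoly
  rw [hA, ← p1, map_add, map_mul, aeval_X, aeval_C, c6, hc, Algebra.algebraMap_eq_smul_one,
    mul_smul, Matrix.mul_smul, ← smul_add,
    smul_eq_zero_iff_right (Nat.cast_ne_zero.2 hr.out.ne_zero)] at c7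
  have c8 := congrArg det (eq_neg_of_add_eq_zero_left c7)
  rw [det_mul, ← neg_smul, det_smul, det_one, mul_one, det_eq_sign_charpoly_coeff, hA, hc] at c8
  have c9 : (r : ℤ) ∣ -c := (Nat.prime_iff_prime_int.1 hr.out).dvd_of_dvd_pow
    (c8 ▸ ((dvd_mul_right _ _).mul_left _).mul_right _)
  exact h3 (hc ▸ sq (r : ℤ) ▸ mul_dvd_mul_left _ (dvd_neg.1 c9))

end KRY

theorem stKr1 (hT : StTy') : StKr1 where
  sq A h _ hq := h.isRadical _ _ (KRY.chp_dvd_pow A hq)
  cmp a := KRY.cyc_of (v := BlkA.bv _ 0) (by rw [KRY.cols_comp, det_one]; exact one_ne_zero)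
  blk := KRY.blk
  eis := KRY.eis hT
  vec := KRY.vec
  chp := KRY.chp_bdg

end Pool.Agent.Lib.Mu14.All
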