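import Pool.Agent.Lib.Mu46.Blue
import Pool.Agent.Lib.Mu14.Loc2
import Pool.Agent.Lib.Mu14.Int1
import Pool.Agent.Lib.Mu14.Int2
import Pool.Agent.Lib.Mu14.Lat1
import Pool.Agent.Lib.Mu14.Lat2B

/-! The Fourier transform of a congruence class as a finite sum. -/

set_option autoImplicit false

open Matrix Polynomial

namespace Pool.Agent.Lib.Mu14.All

namespace LAT

variable {n : ℕ}

lemma rep {L : Lt n} (hL : IsLat L) : ∃ g : Mx n, g.det ≠ 0 ∧ L = act g (LZ n) := by
  obtain ⟨g, hg, h⟩ := hL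
  refine ⟨g, hg, ?_⟩
  ext v
  rw [stLat1.mem_act _ _ hg, Lat1A.Rep.mem h hg, mem_LZ]

lemma mem_act_of (g : Mx n) {L : Lt n} {y : V n} (h : y ∈ L) : g *ᵥ y ∈ act g L := ⟨y, h, rfl⟩

lemma int_of {g g' z : Mx n} (hg : g.det ≠ 0)
    (h : ∀ y ∈ act g' (LZ n), z *ᵥ y ∈ act g (LZ n)) :
    ∃ W : Matrix (Fin n) (Fin n) ℤ, z * g' = g * mQ W := by
  have h1 : EndL (LZ n) (g⁻¹ * (z * g')) := fun y hy => by
    rw [← mulVec_mulVec, ← mulVec_mulVec, ← stLat1.mem_act _ _ hg]
    exact h _ (mem_act_of g' hy)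
  choose X hX using Gam.end_LZ.mp h1
  refine ⟨Matrix.of X, ?_⟩
  rw [← mul_nonsing_inv_cancel_left g (z * g') hg.isUnit]
  congr 1
  ext i j
  simpa using hX i j

lemma mQ_inj {A B : Matrix (Fin n) (Fin n) ℤ} (h : mQ A = mQ B) : A = B :=
  Matrix.map_injective (RingHom.injective_int (Int.castRingHom ℚ)) h

lemma mp_smul {R : Type} [CommRing R] (c : ℤ) (A : Matrix (Fin n) (Fin n) ℤ) :
    (c • A).map (Int.castRingHom R) = (c : R) • A.map (Int.castRingHom R) := by
  ext i j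
  simp only [map_apply, Matrix.smul_apply, smul_eq_mul, map_mul, eq_intCast]

lemma cancel {g A B : Mx n} (hg : g.det ≠ 0) (h : g * A = g * B) : A = B := by
  rw [← nonsing_inv_mul_cancel_left g A hg.isUnit, h, nonsing_inv_mul_cancel_left g B hg.isUnit]

open Classical in
lemma wc_ind {D : ℕ} {C : Set (Fin n → ℤ)} (hC : CongS D C) (Z : Matrix (Fin n) (Fin n) ℤ) :
    WC C (mQ Z) (LZ n) = indC D C (mZ D Z).charpoly := by
  have hY : EndL (LZ n) (mQ Z) := Gam.end_LZ.mpr fun i j => IsZ.int _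
  obtain ⟨a, ha⟩ := stLat1.chp isLat_LZ hY
  rw [WC, indC, Matrix.charpoly_map Z (Int.castRingHom (ZMod D))]
  refine if_congr ⟨?_, fun ⟨b, hb, h⟩ => ⟨isLat_LZ, hY, a, hC b hb a fun i => ?_, ha⟩⟩ rfl rfl
  · rintro ⟨-, -, b, hb, h⟩
    exact ⟨b, hb, by rw [LOC2.chp_int h]⟩
  · rw [LOC2.chp_int ha] at h
    have := congrArg (coeff · i) h
    simp only [coeff_map, pol_coeff, eq_intCast] at this
    exact (ZMod.intCast_eq_intCast_iff_dvd_sub _ _ D).mp this

lemma fin0 {D : ℕ} [NeZero D] {C : Set (Fin n → ℤ)} (α : ℤ) (Y : Matrix (Fin n) (Fin n) ℤ)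
    (hC : CongS D C) :
    SB (liftM fun y => WC C y (LZ n) * er (-(((α / D : ℚ) • mQ Y) * y).trace)) ∧
    dint (liftM fun y => WC C y (LZ n) * er (-(((α / D : ℚ) • mQ Y) * y).trace)) =
      GS (chi D α) (indC D C) (mZ D Y) / (D : ℂ) ^ n ^ 2 := by
  obtain ⟨s1, s2⟩ := LOC2.dint_mod stInt1 (D := D)
    (φ := liftM fun y => WC C y (LZ n) * er (-(((α / D : ℚ) • mQ Y) * y).trace))
    (H := fun w : Fin n × Fin n → ZMod D => indC D C (Matrix.of fun i j => w (i, j)).charpoly *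
      chi D α (mZ D Y * Matrix.of fun i j => w (i, j)).trace)
    (fun y hy p => by
      have h5 := left_ne_zero_of_mul hy
      rw [WC] at h5
      split_ifs at h5 with h6
      exacts [Gam.end_LZ.mp h6.2.1 p.1 p.2, absurd rfl h5])
    (fun z => by
      obtain ⟨Z, hZ⟩ : ∃ Z : Matrix (Fin n) (Fin n) ℤ,
        Z = Matrix.of fun i j => z (i, j) := ⟨_, rfl⟩
      have z1 : (Matrix.of fun i j => (z (i, j) : ℚ)) = mQ Z := by
        rw [hZ]; rfl
      have z2 : (Matrix.of fun i j => (z (i, j) : ZMod D)) = mZ D Z := by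
        rw [hZ]; rfl
      simp only [liftM, z1, z2]
      rw [wc_ind hC]
      congr 1
      have e1 : -(α : ZMod D) * trace (mZ D Y * mZ D Z) =
          ((-α * trace (Y * Z) : ℤ) : ZMod D) := by
        rw [← Matrix.map_mul, ← AddMonoidHom.map_trace]
        simp
      have e2 : (((α / D : ℚ) • mQ Y) * mQ Z).trace = α / D * (trace (Y * Z) : ℤ) := by
        rw [Matrix.smul_mul, trace_smul, ← Matrix.map_mul, ← AddMonoidHom.map_trace]
        simp
      rw [chi, AddChar.mulShift_apply, e1, e2, ZMod.stdAddChar_coe, er, ee]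
      congr 1
      push_cast
      ring)
  refine ⟨s1, ?_⟩
  rw [s2, Fintype.card_prod, Fintype.card_fin, ← sq, GS]
  congr 1
  exact Fintype.sum_equiv ((Equiv.curry _ _ _).trans Matrix.of) _ _ fun w => rfl

open Classical in
lemma fin1 {D : ℕ} [NeZero D] {C : Set (Fin n → ℤ)} (α : ℤ) (Y : Matrix (Fin n) (Fin n) ℤ)
    {g : Mx n} (hC : CongS D C) (hg : g.det ≠ 0) :
    FM (WC C) ((α / D : ℚ) • (g * mQ Y * g⁻¹)) (act g (LZ n)) =
      GS (chi D α) (indC D C) (mZ D Y) / (D : ℂ) ^ n ^ 2 := by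
  obtain ⟨s1, s2⟩ := fin0 α Y hC
  have hg' := Lat1A.det_inv_ne hg
  rw [← s2, ← ((stLat2 stInt1 (stInt2 stInt1) stLat1).conjM g⁻¹ hg' s1).2, FM]
  refine congrArg (fun φ => dint (liftM φ)) (funext fun y => ?_)
  obtain ⟨y, rfl⟩ : ∃ y', y = g * y' * g⁻¹ := ⟨g⁻¹ * y * g, by
    rw [← mul_assoc, mul_nonsing_inv_cancel_left _ _ hg.isUnit,
      mul_nonsing_inv_cancel_right _ _ hg.isUnit]⟩
  rw [nonsing_inv_nonsing_inv _ hg.isUnit, OMX.conj_cancel hg, Matrix.smul_mul, Matrix.smul_mul,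
    trace_smul, trace_smul, OMX.trace_conj hg]
  congr 1
  rw [WC, WC]
  refine if_congr ?_ rfl rfl
  rw [stLat1.act_lat _ hg, stLat1.act_end _ _ hg, charpoly_mul_comm,
    nonsing_inv_mul_cancel_left _ _ hg.isUnit]

lemma fin2 {D : ℕ} [NeZero D] {C : Set (Fin n → ℤ)} {Y : Matrix (Fin n) (Fin n) ℤ} {g z : Mx n}
    (hC : CongS D C) (hg : g.det ≠ 0) (h : (D : ℚ) • z * g = g * mQ Y) :
    FM (WC C) z (act g (LZ n)) = GS (chi D 1) (indC D C) (mZ D Y) / (D : ℂ) ^ n ^ 2 := by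
  have hD : (D : ℚ) ≠ 0 := Nat.cast_ne_zero.mpr (NeZero.ne D)
  rw [← fin1 1 Y hC hg, ← h, mul_nonsing_inv_cancel_right _ _ hg.isUnit, smul_smul, Int.cast_one,
    one_div, inv_mul_cancel₀ hD, one_smul]

end LAT

open LAT Classical in
theorem stFin : StFin where
  ex := fun {n L y} hL hy => by
    obtain ⟨g, hg, rfl⟩ := rep hL
    obtain ⟨Y, hY⟩ := int_of hg hy
    exact ⟨g, Y, hg, rfl, by rw [← hY, mul_nonsing_inv_cancel_right _ _ hg.isUnit]⟩
  fin := fin1
  loc := fun {n D m C z z' K L L'} hD hC hL hL' hK hm hz hz' h1 h2 h3 => by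
    have : NeZero D := ⟨hD.ne'⟩
    obtain ⟨g, hg, rfl⟩ := rep hL
    obtain ⟨g', hg', rfl⟩ := rep hL'
    obtain ⟨Y, hY⟩ := int_of hg hz
    obtain ⟨Y', hY'⟩ := int_of hg' hz'
    obtain ⟨U, hU⟩ := int_of hg fun y hy => h1 (mem_act_of K hy)
    obtain ⟨U', hU'⟩ := int_of (g := K * g') (g' := g) (z := (m : ℚ) • 1)
      (by rw [det_mul]; exact mul_ne_zero hK hg') fun y hy => by
        rw [smul_mulVec, one_mulVec, ← stLat1.act_act]
        exact h2 y hy
    obtain ⟨W, hW⟩ := int_of hg h3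
    rw [fin2 hC hg hY, fin2 hC hg' hY']
    congr 1
    refine GS_conj _ _ (U := mZ D U) ?_ ?_
    · have e : U * U' = (m : ℤ) • 1 := by
        refine mQ_inj (cancel hg ?_)
        rw [mQ, Matrix.map_mul, ← mul_assoc, ← hU, ← hU', mQ, mp_smul]
        simp
      have e' := congrArg (fun A => (mZ D A).det) e
      simp only [mZ, Matrix.map_mul, det_mul, mp_smul, det_smul] at e'
      refine isUnit_of_mul_isUnit_left (y := (mZ D U').det) ?_
      rw [e', Matrix.map_one _ (map_zero _) (map_one _), det_one, mul_one, Int.cast_natCast]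
      exact ((ZMod.isUnit_iff_coprime m D).2 hm).pow _
    · have e : Y * U - U * Y' = (D : ℤ) • W := by
        refine mQ_inj (cancel hg ?_)
        rw [mQ, Matrix.map_sub _ (map_sub _), Matrix.map_mul, Matrix.map_mul, Matrix.mul_sub,
          ← mul_assoc, ← mul_assoc, ← hY, ← hU, mul_assoc _ g, ← hU, mul_assoc K, ← hY', mQ,
          mp_smul, Matrix.mul_smul, ← hW]
        simp only [Int.cast_natCast, Matrix.smul_mul, Matrix.mul_smul, Matrix.sub_mul, smul_sub,
          mul_assoc]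
      have e' := congrArg (mZ D) e
      rw [mZ, mZ, mp_smul, Int.cast_natCast, ZMod.natCast_self, zero_smul,
        Matrix.map_sub _ (map_sub _), Matrix.map_mul, Matrix.map_mul] at e'
      exact sub_eq_zero.mp e'
  bnd := fun {n D C z L} hD hC hL hz => by
    have : NeZero D := ⟨hD.ne'⟩
    obtain ⟨g, hg, rfl⟩ := rep hL
    obtain ⟨Y, hY⟩ := int_of hg hz
    rw [fin2 hC hg hY]
    refine ⟨?_, fun O hO => ?_⟩
    · rw [norm_div, norm_pow, Complex.norm_natCast, div_le_one (by positivity), GS]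
      refine (norm_sum_le_of_le _ (n := fun _ => 1) fun Z _ => ?_).trans ?_
      · rw [norm_mul, AddChar.norm_apply, mul_one, indC]
        split_ifs <;> simp
      · rw [Finset.sum_const, Finset.card_univ,
          Fintype.card_congr (Matrix.of (m := Fin n) (n := Fin n) (α := ZMod D)).symm]
        simp [sq, pow_mul]
    · rw [map_div₀, map_pow, hO, one_pow, div_one]
      exact val_GS _ (fun F => val_ite (by simp)) _

end Pool.Agent.Lib.Mu14.All
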