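import Pool.Agent.Lib.Mu46.Spl1
import Pool.Agent.Lib.Mu46.Spl2

/-! Block SPL: the Leibniz rule. -/

set_option autoImplicit false

open Matrix Polynomial Finset

namespace Pool.Agent.Lib.Mu14.All

namespace SPL

variable {a b n p r : ℕ} {O : ValuationSubring ℂ}

/-- A basis of `L` and the matrix of `r A` in this basis. -/
def Rep (r : ℕ) (A : Matrix (Fin n) (Fin n) ℤ) (L : Lt n) (g : Mx n)
    (Y : Matrix (Fin n) (Fin n) ℤ) : Prop :=
  g.det ≠ 0 ∧ L = act g (LZ n) ∧ (r : ℚ) • mQ A = g * mQ Y * g⁻¹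

lemma mQ_smul (c : ℤ) (A : Matrix (Fin n) (Fin n) ℤ) : mQ (c • A) = (c : ℚ) • mQ A := by
  ext i j
  simp only [map_apply, Matrix.smul_apply, smul_eq_mul, map_mul, eq_intCast]

lemma ex_rep (hF : StFin) {A : Matrix (Fin n) (Fin n) ℤ} {L : Lt n}
    (h : L ∈ Fib r (mQ A) (LZ n)) : ∃ g Y, Rep r A L g Y ∧ (L = LZ n → Y = (r : ℤ) • A) := by
  by_cases e : L = LZ n
  · exact ⟨1, (r : ℤ) • A, ⟨by simp, by rw [stLat1.act_one, e], by rw [mQ_smul]; simp⟩,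
      fun _ => rfl⟩
  · obtain ⟨g, Y, h⟩ := hF.ex h.1.1 h.1.2
    exact ⟨g, Y, h, fun e' => absurd e' e⟩

lemma Rep.ds {A YA : Matrix (Fin a) (Fin a) ℤ} {B YB : Matrix (Fin b) (Fin b) ℤ} {LA : Lt a}
    {LB : Lt b} {gA : Mx a} {gB : Mx b} (h : Rep r A LA gA YA) (h' : Rep r B LB gB YB) :
    Rep r (bdg A B) (ds LA LB) (bdg gA gB) (bdg YA YB) := by
  refine ⟨by rw [bdg_det]; exact mul_ne_zero h.1 h'.1, ?_, ?_⟩
  · rw [← ds_LZ, act_ds h.1 h'.1, ← h.2.1, ← h'.2.1]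
  · rw [mQ, mQ, bdg_map, bdg_map, bdg_inv h.1 h'.1, bdg_mul, bdg_mul, bdg_smul, h.2.2, h'.2.2]

lemma val_indC (D : ℕ) (C : Set (Fin n → ℤ)) (P : (ZMod D)[X]) : O.valuation (indC D C P) ≤ 1 := by
  classical
  exact val_ite (map_one _).le

lemma cv_r (hO : O.valuation p < 1) (hr : r ≡ 1 [MOD p]) (m : ℕ) : Cv O ((r : ℂ) ^ m) 1 :=
  Cv.pow (by simpa using cv_nat hO hr) m

variable [Fact r.Prime]

lemma fm_rep (hF : StFin) (hO : O.valuation p < 1) (hr : r ≡ 1 [MOD p]) {C : Set (Fin n → ℤ)}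
    (hC : CongS (r ^ 2) C) (α : ℤ) {A Y : Matrix (Fin n) (Fin n) ℤ} {L : Lt n} {g : Mx n}
    (h : Rep r A L g Y) : Cv O (FM (WC C) ((α / r : ℚ) • mQ A) L)
      (GS (chi (r ^ 2) α) (indC (r ^ 2) C) (mZ (r ^ 2) Y)) := by
  have h0 : (r : ℚ) ≠ 0 := Nat.cast_ne_zero.2 (Fact.out : r.Prime).ne_zero
  have e : (α / r : ℚ) • mQ A = (α / (r ^ 2 : ℕ) : ℚ) • (g * mQ Y * g⁻¹) := by
    rw [← h.2.2, smul_smul]
    congr 1
    push_cast
    field_simp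
  rw [e, h.2.1, hF.fin α Y hC h.1, div_eq_inv_mul, Nat.cast_pow, ← pow_mul]
  exact (cv_r hO hr _).inv.one_mul (val_GS _ (val_indC _ _) _)

lemma val_fm (hF : StFin) (hO : O.valuation p < 1) (hr : r ≡ 1 [MOD p]) {C : Set (Fin n → ℤ)}
    (hC : CongS (r ^ 2) C) (α : ℤ) {A : Matrix (Fin n) (Fin n) ℤ} {L : Lt n}
    (h : L ∈ Fib r (mQ A) (LZ n)) : O.valuation (FM (WC C) ((α / r : ℚ) • mQ A) L) ≤ 1 := by
  obtain ⟨g, Y, h, -⟩ := ex_rep hF h
  exact (fm_rep hF hO hr hC α h).le (val_GS _ (val_indC _ _) _)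

open Classical in
lemma dz (hH : StHul) (hO : O.valuation p < 1) (hr : r ≡ 1 [MOD p]) {α : ℤ} (hα : ¬(r : ℤ) ∣ α)
    {B Y : Matrix (Fin n) (Fin n) ℤ} {L : Lt n} {g : Mx n} (hL : L ∈ Fib r (mQ B) (LZ n))
    (h : Rep r B L g Y) (h' : L = LZ n → Y = (r : ℤ) • B) {Φ : (ZMod r)[X] → ℂ}
    (hΦ : ∀ P, O.valuation (Φ P) ≤ 1) :
    Cv O (GS (chi (r ^ 2) α) (fun Q => Φ (Q.map (dn r))) (mZ (r ^ 2) Y))
      (if L = LZ n then GS (chi r α) Φ (mZ r B) else 0) := by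
  split_ifs with e
  · rw [h' e, dz1]
    exact (cv_r hO hr _).one_mul (val_GS _ hΦ _)
  · by_cases h1 : ∀ i j, (r : ℤ) ∣ Y i j
    · refine absurd ?_ e
      choose Y0 hY using h1
      have h0 : (r : ℚ) ≠ 0 := Nat.cast_ne_zero.2 (Fact.out : r.Prime).ne_zero
      have h2 : Y = (r : ℤ) • Matrix.of Y0 := by ext i j; exact hY i j
      have h3 : mQ B = g * mQ (Matrix.of Y0) * g⁻¹ := by
        apply smul_right_injective _ h0
        have := h.2.2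
        rwa [h2, mQ_smul, Int.cast_natCast, Matrix.mul_smul, Matrix.smul_mul] at this
      have h4 : EndL L (mQ B) := by
        rw [h3, h.2.1]
        exact (stLat1.act_end _ _ h.1).2 (end_mQ _)
      exact le_antisymm (hL.2 ▸ (hH.le _ L).1) (hL.2 ▸ (hH.le _ L).2.2 _ le_rfl h4)
    · push Not at h1
      obtain ⟨i, j, h1⟩ := h1
      exact Cv.of_eq (dz0 hα Φ h1)

open Classical in
/-- The contribution of one lattice in the block that carries the Eisenstein factor. -/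
noncomputable def Ph (r d : ℕ) [Fact r.Prime] (h : (ZMod r)[X]) (u α : ℤ)
    (B : Matrix (Fin n) (Fin n) ℤ) (L : Lt n) (P : (ZMod r)[X]) : ℂ :=
  if P ∣ h then FM (WC (CT1 r d (h / P) u)) ((α / r : ℚ) • mQ B) L else 0

open Classical in
lemma half (hT : StTy') (hF : StFin) (hH : StHul) (hO : O.valuation p < 1) (hr : r ≡ 1 [MOD p])
    (d : ℕ) (h : (ZMod r)[X]) (u : ℤ) {α : ℤ} (hα : ¬(r : ℤ) ∣ α)
    {A YA : Matrix (Fin a) (Fin a) ℤ} {B YB : Matrix (Fin b) (Fin b) ℤ} {LA : Lt a} {LB : Lt b}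
    {gA : Mx a} {gB : Mx b} (hA : LA ∈ Fib r (mQ A) (LZ a)) (hB : LB ∈ Fib r (mQ B) (LZ b))
    (rA : Rep r A LA gA YA) (rB : Rep r B LB gB YB) (eA : LA = LZ a → YA = (r : ℤ) • A) :
    Cv O (∑ Y : Matrix (Fin a) (Fin a) (ZMod (r ^ 2)), ∑ Y' : Matrix (Fin b) (Fin b) (ZMod (r ^ 2)),
      (if Y.charpoly.map (dn r) ∣ h then
        (if Cnd r d (h / Y.charpoly.map (dn r)) u Y'.charpoly then 1 else 0) else 0) *
        (chi (r ^ 2) α (mZ (r ^ 2) YA * Y).trace * chi (r ^ 2) α (mZ (r ^ 2) YB * Y').trace))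
      (if LA = LZ a then GS (chi r α) (Ph r d h u α B LB) (mZ r A) else 0) := by
  have hp : r.Prime := Fact.out
  have : Fact (1 < r ^ 2) := ⟨one_lt_pow₀ hp.one_lt two_ne_zero⟩
  refine Cv.trans (Cv.sum fun Y _ => ?_) (dz hH hO hr hα hA rA eA fun P =>
    val_ite (val_fm hF hO hr (hT.cong r d _ u hp) α hB))
  simp only [Ph]
  split_ifs with h1
  · refine Cv.trans (Cv.of_eq ?_)
      ((fm_rep hF hO hr (hT.cong r d _ u hp) α rB).symm.mul_right (val_psi _ _).le)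
    rw [GS, sum_mul]
    refine sum_congr rfl fun Y' _ => ?_
    rw [indC_eq _ _ Y'.charpoly_monic (by rw [charpoly_natDegree_eq_dim, Fintype.card_fin])]
    ring
  · exact Cv.of_eq (by simp)

open Classical in
lemma pair {d : ℕ} (hT : StTy') (hF : StFin) (hH : StHul) (hp : p.Prime) (hO : O.valuation p < 1)
    (hr : r ≡ 1 [MOD p]) (hd : 0 < d) {h : (ZMod r)[X]} (h0 : h.coeff 0 ≠ 0) {u α : ℤ}
    (hu : ¬(r : ℤ) ∣ u) (hα : ¬(r : ℤ) ∣ α) {A : Matrix (Fin a) (Fin a) ℤ}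
    {B : Matrix (Fin b) (Fin b) ℤ} {LA : Lt a} {LB : Lt b} (hA : LA ∈ Fib r (mQ A) (LZ a))
    (hB : LB ∈ Fib r (mQ B) (LZ b)) :
    Cv O (FM (WC (CT1 r d h u)) ((α / r : ℚ) • mQ (bdg A B)) (ds LA LB))
      ((if LA = LZ a then GS (chi r α) (Ph r d h u α B LB) (mZ r A) else 0) +
        if LB = LZ b then GS (chi r α) (Ph r d h u α A LA) (mZ r B) else 0) := by
  have hq : r.Prime := Fact.out
  have : Fact (1 < r ^ 2) := ⟨one_lt_pow₀ hq.one_lt two_ne_zero⟩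
  obtain ⟨gA, YA, rA, eA⟩ := ex_rep hF hA
  obtain ⟨gB, YB, rB, eB⟩ := ex_rep hF hB
  obtain ⟨ζ, z1, -, z2⟩ := ex_zeta hp hq hr 1
  have z3 : (ζ : ZMod (r ^ 2)) ^ p = 1 := by
    rw [← sub_eq_zero]
    exact_mod_cast (ZMod.intCast_zmod_eq_zero_iff_dvd (ζ ^ p - 1) (r ^ 2)).2 (by exact_mod_cast z1)
  have z4 : IsUnit ((ζ : ZMod (r ^ 2)) - 1) := by
    obtain ⟨s, t, e⟩ : IsCoprime ((r : ℤ) ^ 2) (ζ - 1) :=
      ((Nat.prime_iff_prime_int.1 hq).irreducible.coprime_iff_not_dvd.2 z2).pow_left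
    have e' := congrArg (Int.cast : ℤ → ZMod (r ^ 2)) e
    push_cast at e'
    rw [← Nat.cast_pow, ZMod.natCast_self, mul_zero, zero_add] at e'
    exact IsUnit.of_mul_eq_one_right _ e'
  refine (fm_rep hF hO hr (hT.cong r d h u hq) α (rA.ds rB)).trans ?_
  rw [mZ, bdg_map, bdg, GS_reindex]
  refine (GS_block hp hO z3 z4 _ (val_indC _ _) _ _).trans (Cv.trans (Cv.of_eq ?_)
    ((half hT hF hH hO hr d h u hα hA hB rA rB eA).add
      (half hT hF hH hO hr d h u hα hB hA rB rA eB)))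
  conv_rhs => arg 2; rw [sum_comm]
  rw [← sum_add_distrib]
  refine sum_congr rfl fun Y _ => ?_
  rw [← sum_add_distrib]
  refine sum_congr rfl fun Y' _ => ?_
  rw [indC_eq _ _ (Y.charpoly_monic.mul Y'.charpoly_monic) (by
    rw [Y.charpoly_monic.natDegree_mul Y'.charpoly_monic, charpoly_natDegree_eq_dim,
      charpoly_natDegree_eq_dim, Fintype.card_fin, Fintype.card_fin]),
    cnd_mul Y.charpoly_monic Y'.charpoly_monic hd h0 hu]
  ring

open Classical in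
lemma sum_Ph (hT : StTy') (hH : StHul) (hp : p.Prime) (hO : O.valuation p < 1)
    (hr : r ≡ 1 [MOD p]) (k d : ℕ) (h : (ZMod r)[X]) (u α : ℤ) (A : Matrix (Fin a) (Fin a) ℤ)
    (B : Matrix (Fin b) (Fin b) ℤ) {S : Finset (Lt b)} (hS : ↑S = Fib r (mQ B) (LZ b)) :
    Cv O (∑ L ∈ S, GS (chi r α) (Ph r d h u α B L) (mZ r A)) (GS (chi r α)
      (fun P => if P ∣ h then cc k r (CT1 r d (h / P) u) α (mQ B) (LZ b) else 0) (mZ r A)) := by
  have hq : r.Prime := Fact.out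
  simp only [GS]
  rw [sum_comm]
  refine Cv.sum fun Y _ => ?_
  rw [← sum_mul]
  refine Cv.mul_right (val_psi _ _).le ?_
  simp only [Ph]
  split_ifs with h1
  · rw [← finsum_mem_coe_finset, hS]
    exact (hH.cv k α O hp hO hq hr (hT.cong r d _ u hq) (stab_mQ B)).1.symm
  · exact Cv.of_eq (by simp)

end SPL

open SPL in
theorem stSplit (hT : StTy') (hF : StFin) (hH : StHul) : StSplit := by
  classical
  intro p a b r d k _ O h u α A B hp hO hr hd h0 hu hα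
  have hq : r.Prime := Fact.out
  have hC := hT.cong (n := a + b) r d h u hq
  obtain ⟨S, hS⟩ := (hH.fin hq.pos (stab_mQ (bdg A B))).exists_finset_coe
  obtain ⟨SA, hA⟩ := (hH.fin hq.pos (stab_mQ A)).exists_finset_coe
  obtain ⟨SB, hB⟩ := (hH.fin hq.pos (stab_mQ B)).exists_finset_coe
  have mS : ∀ {L}, L ∈ S ↔ L ∈ Fib r (mQ (bdg A B)) (LZ (a + b)) := by simp [← hS]
  have mA : ∀ {L}, L ∈ SA ↔ L ∈ Fib r (mQ A) (LZ a) := by simp [← hA]
  have mB : ∀ {L}, L ∈ SB ↔ L ∈ Fib r (mQ B) (LZ b) := by simp [← hB]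
  have mD : ∀ {L M}, ds L M ∈ S ↔ L ∈ SA ∧ M ∈ SB := by
    intro L M
    rw [mS, mA, mB, mQ, bdg_map, fib_ds hH]
  obtain ⟨ζ, z1, z0, z2⟩ := ex_zeta hp hq hr (a + b)
  obtain ⟨q, rfl⟩ : ∃ q, p = q + 1 := ⟨p - 1, by have := hp.pos; omega⟩
  have tk := fun L (hL : L ∈ S) => hH.tk (C := CT1 r d h u) α (A := bdg A B) (K := UU a b ζ ^ q)
    (K' := UU a b ζ) hq hC (by rw [← pow_succ, UU_pow]; exact UU_mc z1)
    (by rw [← pow_succ', UU_pow]; exact UU_mc z1)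
    (by rw [UU_pow, UU_comm]; exact fun i j => by simp) (mS.1 hL)
  have fx := fun L (hL : L ∈ S) => fix_iff hq z0 z2 (a + b) (fib_le hH hq.pos (mS.1 hL)).1
    (fib_le hH hq.pos (mS.1 hL)).2
  refine (hH.cv k α O hp hO hq hr hC (stab_mQ _)).1.trans ?_
  rw [← hS, finsum_mem_coe_finset]
  refine (sum_fix hp hO S (TK (UU a b ζ)) (fun L hL => mS.2 (tk L hL).1) (fun L hL => ?_) _
    (fun L hL => (tk L hL).2.2.2) fun L hL => val_fm hF hO hr hC α (mS.1 hL)).trans ?_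
  · rw [TK_iter, pow_succ', ← TK_TK, (tk L hL).2.1]
  rw [← sum_bij (s := SA ×ˢ SB) (f := fun x =>
      FM (WC (CT1 r d h u)) ((α / r : ℚ) • mQ (bdg A B)) (ds x.1 x.2)) (fun x _ => ds x.1 x.2)
    (fun x hx => mem_filter.2 ⟨mD.2 (mem_product.1 hx),
      (fx _ (mD.2 (mem_product.1 hx))).2 ⟨_, _, rfl⟩⟩)
    (fun x _ y _ e => Prod.ext (ds_inj e).1 (ds_inj e).2) (fun L hL => by
      obtain ⟨M, M', rfl⟩ := (fx _ (mem_filter.1 hL).1).1 (mem_filter.1 hL).2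
      exact ⟨(M, M'), mem_product.2 (mD.1 (mem_filter.1 hL).1), rfl⟩) fun _ _ => rfl]
  refine (Cv.sum fun x hx => pair hT hF hH hp hO hr hd h0 hu hα (mA.1 (mem_product.1 hx).1)
    (mB.1 (mem_product.1 hx).2)).trans (Cv.trans (Cv.of_eq ?_)
    ((sum_Ph hT hH hp hO hr k d h u α A B hB).add (sum_Ph hT hH hp hO hr k d h u α B A hA)))
  rw [sum_add_distrib, sum_product_right, sum_product]
  simp only [sum_ite_eq', if_pos (mA.2 (LZ_fib hH r A)), if_pos (mB.2 (LZ_fib hH r B))]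

end Pool.Agent.Lib.Mu14.All
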