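import Pool.Agent.Lib.Mu46.Blue

/-! The Leibniz rule, finite part: indicator functions and depth zero sums. -/

set_option autoImplicit false

open Matrix Polynomial Finset

namespace Pool.Agent.Lib.Mu14.All.SPL

/-- Reduction from level `r ^ 2` to level `r`. -/
abbrev dn (r : ℕ) : ZMod (r ^ 2) →+* ZMod r := ZMod.castHom (dvd_pow_self r two_ne_zero) (ZMod r)

/-- The condition that defines the class, on polynomials modulo `r ^ 2`. -/
def Cnd (r d : ℕ) (h : (ZMod r)[X]) (u : ℤ) (P : (ZMod (r ^ 2))[X]) : Prop :=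
  P.map (dn r) = X ^ d * h ∧ ∃ w : ℤ, P.coeff 0 = ((r * w : ℤ) : ZMod (r ^ 2)) ∧
    (w : ZMod r) = u * h.coeff 0

variable {r : ℕ}

lemma rmul_eq (hr : r ≠ 0) {w w' : ℤ} :
    ((r * w : ℤ) : ZMod (r ^ 2)) = ((r * w' : ℤ) : ZMod (r ^ 2)) ↔ (w : ZMod r) = w' := by
  rw [ZMod.intCast_eq_intCast_iff_dvd_sub, ZMod.intCast_eq_intCast_iff_dvd_sub, ← mul_sub,
    Nat.cast_pow, sq, mul_dvd_mul_iff_left (Nat.cast_ne_zero.2 hr)]

lemma red_dn {n : ℕ} (c : Fin n → ℤ) : (red (r ^ 2) c).map (dn r) = red r c := by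
  rw [Polynomial.map_map]
  congr 1
  exact RingHom.ext_int _ _

lemma lift_red {n D : ℕ} {P : (ZMod D)[X]} (h : P.Monic) (hn : P.natDegree = n) :
    ∃ c : Fin n → ℤ, red D c = P := by
  choose f hf using ZMod.intCast_surjective (n := D)
  refine ⟨fun i => f (P.coeff i), ?_⟩
  conv_rhs => rw [h.as_sum, hn, ← Fin.sum_univ_eq_sum_range (fun i => C (P.coeff i) * X ^ i)]
  simp only [red, pol, Polynomial.map_add, Polynomial.map_pow, map_X, Polynomial.map_sum,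
    Polynomial.map_mul, map_C, Int.coe_castRingHom, hf]

open Classical in
lemma indC_eq {n d : ℕ} (h : (ZMod r)[X]) (u : ℤ) {P : (ZMod (r ^ 2))[X]}
    (hP : P.Monic) (hn : P.natDegree = n) :
    indC (r ^ 2) (CT1 r d h u : Set (Fin n → ℤ)) P = if Cnd r d h u P then 1 else 0 := by
  refine if_congr ⟨?_, fun ⟨h1, w, h2, h3⟩ => ?_⟩ rfl rfl
  · rintro ⟨c, ⟨h1, w, h2, h3⟩, rfl⟩
    exact ⟨by rw [red_dn, h1], w, by rw [coeff_map, h2]; rfl, h3⟩
  · obtain ⟨c, rfl⟩ := lift_red hP hn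
    rw [coeff_map, eq_intCast, ZMod.intCast_eq_intCast_iff_dvd_sub] at h2
    obtain ⟨t, ht⟩ := h2
    refine ⟨c, ⟨by rw [← red_dn, h1], w - r * t, ?_, ?_⟩, rfl⟩
    · push_cast at ht
      linear_combination -ht
    · push_cast
      rw [ZMod.natCast_self, zero_mul, sub_zero, h3]

variable [Fact r.Prime]

lemma cnd_of {d : ℕ} {h : (ZMod r)[X]} {u : ℤ} {P Q : (ZMod (r ^ 2))[X]} (hQ : Q.Monic)
    (h1 : Q.map (dn r) ∣ h) (h2 : Cnd r d (h / Q.map (dn r)) u P) : Cnd r d h u (P * Q) := by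
  obtain ⟨h3, w, h4, h5⟩ := h2
  have h6 := EuclideanDomain.mul_div_cancel' (hQ.map (dn r)).ne_zero h1
  obtain ⟨q, hq⟩ := ZMod.intCast_surjective (Q.coeff 0)
  refine ⟨by rw [Polynomial.map_mul, h3, mul_assoc, mul_comm (h / _), h6], w * q, ?_, ?_⟩
  · rw [mul_coeff_zero, h4, ← hq]; push_cast; ring
  · conv_rhs => rw [← h6, mul_coeff_zero, coeff_map, ← hq, map_intCast]
    push_cast
    rw [h5]; ring

lemma of_cnd {d : ℕ} {h : (ZMod r)[X]} {u : ℤ} {P Q : (ZMod (r ^ 2))[X]} (hQ : Q.Monic)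
    (hd : 0 < d) (h0 : (Q.map (dn r)).coeff 0 ≠ 0) (h2 : Cnd r d h u (P * Q)) :
    Q.map (dn r) ∣ h ∧ Cnd r d (h / Q.map (dn r)) u P := by
  obtain ⟨h3, w, h4, h5⟩ := h2
  have hne := (hQ.map (dn r)).ne_zero
  rw [Polynomial.map_mul] at h3
  have h1 : Q.map (dn r) ∣ h := by
    refine IsCoprime.dvd_of_dvd_mul_left (y := X ^ d) (IsCoprime.pow_right ?_)
      (h3 ▸ dvd_mul_left _ _)
    exact ((irreducible_X.coprime_iff_not_dvd).2 fun e => h0 (X_dvd_iff.1 e)).symm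
  have h6 := EuclideanDomain.mul_div_cancel' hne h1
  have h7 : P.map (dn r) = X ^ d * (h / Q.map (dn r)) := by
    apply mul_right_cancel₀ hne
    rw [h3, mul_assoc, mul_comm (h / _), h6]
  refine ⟨h1, h7, ?_⟩
  obtain ⟨q, hq⟩ := ZMod.intCast_surjective (Q.coeff 0)
  obtain ⟨s, hs⟩ := ZMod.intCast_surjective (P.coeff 0)
  have h8 : (s : ZMod r) = 0 := by
    have := congrArg (coeff · 0) h7
    simp only [mul_coeff_zero, coeff_X_pow, if_neg hd.ne, zero_mul, coeff_map, ← hs,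
      map_intCast] at this
    exact this
  obtain ⟨w', rfl⟩ := (ZMod.intCast_zmod_eq_zero_iff_dvd s r).1 h8
  refine ⟨w', hs.symm, ?_⟩
  rw [mul_coeff_zero, ← hs, ← hq, ← Int.cast_mul, mul_assoc,
    rmul_eq (Fact.out : r.Prime).ne_zero, h5, ← h6, mul_coeff_zero, coeff_map, ← hq,
    map_intCast] at h4
  rw [coeff_map, ← hq, map_intCast] at h0
  apply mul_right_cancel₀ h0
  push_cast at h4
  rw [h4]; ring

open Classical in
lemma cnd_mul {d : ℕ} {h : (ZMod r)[X]} {u : ℤ} {P Q : (ZMod (r ^ 2))[X]} (hP : P.Monic)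
    (hQ : Q.Monic) (hd : 0 < d) (h0 : h.coeff 0 ≠ 0) (hu : ¬(r : ℤ) ∣ u) :
    (if Cnd r d h u (P * Q) then (1 : ℂ) else 0) =
      (if P.map (dn r) ∣ h then (if Cnd r d (h / P.map (dn r)) u Q then 1 else 0) else 0) +
      if Q.map (dn r) ∣ h then (if Cnd r d (h / Q.map (dn r)) u P then 1 else 0) else 0 := by
  have key : ∀ {P : (ZMod (r ^ 2))[X]} {g : (ZMod r)[X]}, P.map (dn r) ∣ h → ¬Cnd r d g u P :=
    fun {P g} ⟨t, ht⟩ hc => h0 (by
      rw [ht, hc.1, mul_coeff_zero, mul_coeff_zero, coeff_X_pow, if_neg hd.ne, zero_mul, zero_mul])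
  by_cases hc : Cnd r d h u (P * Q)
  · rw [if_pos hc]
    by_cases hq : (Q.map (dn r)).coeff 0 = 0
    · have hp : (P.map (dn r)).coeff 0 ≠ 0 := fun hp => by
        obtain ⟨_, w, h4, h5⟩ := hc
        obtain ⟨q, hq'⟩ := ZMod.intCast_surjective (Q.coeff 0)
        obtain ⟨s, hs⟩ := ZMod.intCast_surjective (P.coeff 0)
        rw [coeff_map, ← hq', map_intCast, ZMod.intCast_zmod_eq_zero_iff_dvd] at hq
        rw [coeff_map, ← hs, map_intCast, ZMod.intCast_zmod_eq_zero_iff_dvd] at hp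
        obtain ⟨s', rfl⟩ := hp
        rw [mul_coeff_zero, ← hs, ← hq', ← Int.cast_mul, mul_assoc,
          rmul_eq (Fact.out : r.Prime).ne_zero, h5, Int.cast_mul,
          (ZMod.intCast_zmod_eq_zero_iff_dvd q r).2 hq, mul_zero] at h4
        exact mul_ne_zero (fun e => hu ((ZMod.intCast_zmod_eq_zero_iff_dvd u r).1 e)) h0 h4.symm
      obtain ⟨h1, h2⟩ := of_cnd hP hd hp (mul_comm P Q ▸ hc)
      rw [if_pos h1, if_pos h2, if_neg (key h1), ite_self, add_zero]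
    · obtain ⟨h1, h2⟩ := of_cnd hQ hd hq hc
      rw [if_pos h1, if_pos h2, if_neg (key h1), ite_self, zero_add]
  · rw [if_neg hc]
    have e1 : ∀ {P Q : (ZMod (r ^ 2))[X]}, Q.Monic → ¬Cnd r d h u (P * Q) →
        (if Q.map (dn r) ∣ h then (if Cnd r d (h / Q.map (dn r)) u P then (1 : ℂ) else 0)
          else 0) = 0 := fun hQ hc => by
      split_ifs with h1 h2
      exacts [absurd (cnd_of hQ h1 h2) hc, rfl, rfl]
    rw [e1 hQ hc, e1 hP (mul_comm P Q ▸ hc), add_zero]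

lemma chi_r (α : ℤ) (t : ZMod (r ^ 2)) : chi (r ^ 2) α ((r : ZMod (r ^ 2)) * t) = chi r α (dn r t) := by
  obtain ⟨s, rfl⟩ := ZMod.intCast_surjective t
  have hr : (r : ℂ) ≠ 0 := Nat.cast_ne_zero.2 (Fact.out : r.Prime).ne_zero
  have e1 : (-(α : ZMod (r ^ 2))) * (r * s) = ((-α * (r * s) : ℤ) : ZMod (r ^ 2)) := by
    push_cast; rfl
  have e2 : (-(α : ZMod r)) * s = ((-α * s : ℤ) : ZMod r) := by push_cast; rfl
  rw [chi, chi, AddChar.mulShift_apply, AddChar.mulShift_apply, map_intCast, e1, e2,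
    ZMod.stdAddChar_coe, ZMod.stdAddChar_coe]
  congr 1
  push_cast
  field_simp

lemma chi_ne {α z : ℤ} (hα : ¬(r : ℤ) ∣ α) (hz : ¬(r : ℤ) ∣ z) : chi r α z ≠ 1 := fun e => by
  rw [chi, AddChar.mulShift_apply, ← (ZMod.stdAddChar (N := r)).map_zero_eq_one] at e
  have := ZMod.injective_stdAddChar e
  rw [neg_mul, neg_eq_zero, mul_eq_zero, ZMod.intCast_zmod_eq_zero_iff_dvd,
    ZMod.intCast_zmod_eq_zero_iff_dvd] at this
  exact this.elim hα hz

variable {b : ℕ}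

lemma dz0 {α : ℤ} (hα : ¬(r : ℤ) ∣ α) (Φ : (ZMod r)[X] → ℂ) {Z : Matrix (Fin b) (Fin b) ℤ}
    {i j : Fin b} (hZ : ¬(r : ℤ) ∣ Z i j) :
    GS (chi (r ^ 2) α) (fun Q => Φ (Q.map (dn r))) (mZ (r ^ 2) Z) = 0 := by
  have h := chi_ne hα hZ
  have key : GS (chi (r ^ 2) α) (fun Q => Φ (Q.map (dn r))) (mZ (r ^ 2) Z) =
      GS (chi (r ^ 2) α) (fun Q => Φ (Q.map (dn r))) (mZ (r ^ 2) Z) * chi r α (Z i j) := by
    rw [GS, sum_mul]
    refine (Fintype.sum_equiv (Equiv.addRight (single j i (r : ZMod (r ^ 2)))) _ _ fun Y => ?_).symm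
    have e1 : (Y + single j i (r : ZMod (r ^ 2))).map (dn r) = Y.map (dn r) := by
      ext s t
      simp only [map_apply, Matrix.add_apply, map_add, single_apply]
      split_ifs <;> simp
    have e2 : (mZ (r ^ 2) Z * single j i (r : ZMod (r ^ 2))).trace =
        (r : ZMod (r ^ 2)) * ((Z i j : ℤ) : ZMod (r ^ 2)) := by
      rw [trace_mul_single]; simp [mul_comm]
    rw [Equiv.coe_addRight, ← charpoly_map, ← charpoly_map, e1, Matrix.mul_add, trace_add, e2,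
      AddChar.map_add_eq_mul, chi_r, map_intCast (dn r), mul_assoc]
  by_contra h0
  exact h (mul_left_cancel₀ h0 (by rw [← key, mul_one]))

lemma sum_hom {M N : Type} [AddCommGroup M] [AddCommGroup N] [Fintype M] [Fintype N] (f : M →+ N)
    (hf : Function.Surjective f) (G : N → ℂ) :
    (Fintype.card N : ℂ) * ∑ m, G (f m) = Fintype.card M * ∑ y, G y := by
  classical
  have h1 : ∀ y, #{m | f m = y} = #{m | f m = 0} := fun y =>
    AddMonoidHom.card_fiber_eq_of_mem_range f (hf y) (hf 0)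
  have h2 : ∀ G : N → ℂ, ∑ m, G (f m) = #{m | f m = 0} * ∑ y, G y := fun G => by
    rw [← sum_fiberwise (s := univ) (g := f), mul_sum]
    refine sum_congr rfl fun y _ => ?_
    rw [sum_congr rfl fun m hm => by rw [(mem_filter.1 hm).2], sum_const, h1, nsmul_eq_mul]
  have h3 := h2 fun _ => 1
  simp only [sum_const, card_univ, nsmul_eq_mul, mul_one] at h3
  rw [h2, h3]; ring

lemma dz1 (α : ℤ) (Φ : (ZMod r)[X] → ℂ) (B : Matrix (Fin b) (Fin b) ℤ) :
    GS (chi (r ^ 2) α) (fun Q => Φ (Q.map (dn r))) (mZ (r ^ 2) ((r : ℤ) • B)) =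
      (r : ℂ) ^ (b * b) * GS (chi r α) Φ (mZ r B) := by
  have hr : (r : ℂ) ≠ 0 := Nat.cast_ne_zero.2 (Fact.out : r.Prime).ne_zero
  have h := sum_hom ((dn r).mapMatrix (m := Fin b)).toAddMonoidHom (fun Y => by
    choose f hf using ZMod.castHom_surjective (dvd_pow_self r two_ne_zero)
    exact ⟨Y.map f, by ext i j; exact hf _⟩) fun Y => Φ Y.charpoly * chi r α (mZ r B * Y).trace
  have hc : ∀ (D : ℕ) [NeZero D],
      (Fintype.card (Matrix (Fin b) (Fin b) (ZMod D)) : ℂ) = D ^ (b * b) := fun D _ => by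
    rw [Fintype.card_congr (Matrix.of (m := Fin b) (n := Fin b) (α := ZMod D)).symm]
    simp [pow_mul]
  rw [hc, hc] at h
  apply mul_left_cancel₀ (pow_ne_zero (b * b) hr)
  rw [← mul_assoc, ← mul_pow, ← sq (r : ℂ), ← Nat.cast_pow r 2, GS, GS, ← h]
  congr 1
  refine sum_congr rfl fun Y _ => ?_
  have e1 : mZ (r ^ 2) ((r : ℤ) • B) = (r : ZMod (r ^ 2)) • mZ (r ^ 2) B := by
    ext i j
    simp only [map_apply, Matrix.smul_apply, smul_eq_mul, map_mul, map_natCast]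
  have e2 : (mZ (r ^ 2) B).map (dn r) = mZ r B := by
    ext i j; exact map_intCast (dn r) _
  rw [← charpoly_map, e1, Matrix.smul_mul, trace_smul, smul_eq_mul, chi_r,
    AddMonoidHom.map_trace, Matrix.map_mul, e2]
  rfl

end Pool.Agent.Lib.Mu14.All.SPL
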